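import Mathlib

/-!
# Words, presentations
-/

namespace Pool.Agent.Lib.P77fd2d

/-- words over letters `x_k` (`(k, true)`) and `x_k⁻¹` (`(k, false)`) -/
abbrev Word := List (ℕ × Bool)

/-- a finite presentation: number of generators, relators -/
abbrev Pres := ℕ × List Word

/-- the element of the free group on `n` generators; letters `x_k`, `k ≥ n`, are ignored -/
def fr (n : ℕ) (w : Word) : FreeGroup (Fin n) :=
  (w.map (fun l => if h : l.1 < n then
    (if l.2 then FreeGroup.of ⟨l.1, h⟩ else (FreeGroup.of ⟨l.1, h⟩)⁻¹) else 1)).prod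

/-- relators in the free group -/
def rels (P : Pres) : Set (FreeGroup (Fin P.1)) := {r | ∃ w ∈ P.2, r = fr P.1 w}

/-- the group of a presentation -/
abbrev Grp (P : Pres) : Type := PresentedGroup (rels P)

/-- the element represented by a word -/
def elt (P : Pres) (w : Word) : Grp P := PresentedGroup.mk (rels P) (fr P.1 w)

/-- the subgroup generated by the elements represented by a list of words -/
def sg (P : Pres) (Y : List Word) : Subgroup (Grp P) := Subgroup.closure {g | ∃ w ∈ Y, g = elt P w}

/-- the inverse word -/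
def winv (w : Word) : Word := (w.map (fun l => (l.1, !l.2))).reverse

/-- membership of the element of `w` in the double coset `⟨Fw⟩ ⟨Y⟩` -/
def Mem (P : Pres) (Fw Y : List Word) (w : Word) : Prop :=
  ∃ a ∈ sg P Fw, ∃ b ∈ sg P Y, elt P w = a * b

@[simp] theorem fr_nil (n : ℕ) : fr n [] = 1 := rfl
theorem fr_cons (n : ℕ) (l : ℕ × Bool) (w : Word) :
    fr n (l :: w) = fr n [l] * fr n w := by simp [fr]
theorem fr_append (n : ℕ) (u w : Word) : fr n (u ++ w) = fr n u * fr n w := by simp [fr]
theorem fr_winv (n : ℕ) (w : Word) : fr n (winv w) = (fr n w)⁻¹ := by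
  induction w with
  | nil => rfl
  | cons l w ih =>
    have e : winv (l :: w) = winv w ++ [(l.1, !l.2)] := by simp [winv]
    rw [e, fr_append, ih, fr_cons n l w, mul_inv_rev]
    congr 1
    obtain ⟨k, b⟩ := l
    by_cases h : k < n
    · cases b <;> simp [fr, h]
    · simp [fr, h]

@[simp] theorem elt_nil (P : Pres) : elt P [] = 1 := by simp [elt]
theorem elt_append (P : Pres) (u w : Word) : elt P (u ++ w) = elt P u * elt P w := by
  simp [elt, fr_append]
theorem elt_winv (P : Pres) (w : Word) : elt P (winv w) = (elt P w)⁻¹ := by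
  simp [elt, fr_winv]
theorem elt_cons (P : Pres) (l : ℕ × Bool) (w : Word) : elt P (l :: w) = elt P [l] * elt P w := by
  rw [← elt_append]; rfl
theorem elt_rel (P : Pres) {w : Word} (hw : w ∈ P.2) : elt P w = 1 := by
  have : fr P.1 w ∈ rels P := ⟨w, hw, rfl⟩
  exact PresentedGroup.one_of_mem this

end Pool.Agent.Lib.P77fd2d
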