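import Pool.Agent.Lib.P77fd2d.Streams
import Pool.Agent.Lib.P77fd2d.Stmt

/-!
# MODULE P77fd2d.Action  (2h)   black box: Streams

A valid machine refutes membership in the double coset.

PROOF.  X' := {a // p.Run a} modulo `Rel one` (an equivalence relation by `rel_refl`, `rel_inv` with
`inv_one`, `rel_mul` with mul one one = one (`one_mul`)).
For a letter l = (k, b) with k < P.1 put g = gc l ∈ inS, total.  Rel g is compatible with Rel one
(`rel_mul`, mul one g = g, mul g one = g), total (`rel_total`) and functional modulo Rel one: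
Rel g a b, Rel g a b' gives Rel (inv g) b a (`rel_inv`), and mul (inv g) g = one.  So it defines a map σ_l : X' → X';
σ_(k,b) and σ_(k,!b) are inverse to each other: Rel g a b, Rel (gc (k,!b)) b c gives Rel (mul g (inv g)) a c and
mul g (inv g) = one [`inv_mul` for g' = gc (k,!b) = inv g ∈ inS, since inv g' = gc (k,!!b) = g].
Right action of the free group: hom Φ : FreeGroup (Fin n) →* (Equiv.Perm X')ᵐᵒᵖ (FreeGroup.lift) with of k ↦ op σ_(k,true).
Lemma (words): if `p.Ev gc v e` then for all runs a, b with [b] = [a]·v (i.e. unop (Φ (fr n v)) [a] = [b]) we have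
Rel e a b; by induction on Ev: letter l then the rest of the word; letters ≥ n act trivially and have gc = one
(one_mul: mul one e = e; all values e of Ev are in inS: one ∈ inS and the second constructor).
Conversely if Ev gc v e and Rel e a b (b a run) then [a]·v = [b] : take b' with [a]·v = [b'], then Rel e a b', so
Rel (mul (inv e) e) b b' = Rel one b b'.
Relators: Ev gc r one gives [a]·r = [a] for all a (Rel one a a).  So Φ descends to Grp P →* (Perm X')ᵐᵒᵖ
(`PresentedGroup.toGroup`, or `QuotientGroup.lift`/`Subgroup.normalClosure_le_normal`).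
Elements of sg P Y fix [root base] (words y: `rel_root` (e ∈ inS) and the converse lemma; `Subgroup.closure_induction`).
Elements of sg P Fw preserve the set 𝒥 = {[root l] | l ∈ J} (generators v and their inverses: field `fw` for v and
winv v (`elt_winv`); to use closure_induction show the set {g | g preserves 𝒥 and g⁻¹ preserves 𝒥} contains
the generators and is closed under product and inverse).
If elt w = a b, a ∈ sg P Fw, b ∈ sg P Y then (elt w)⁻¹ = b⁻¹ a⁻¹ and [root base]·(b⁻¹ a⁻¹) = [root base]·a⁻¹ ∈ 𝒥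
(base ∈ J).  On the other hand by `w_xw` and the converse lemma [root base]·winv w = [root xw].
So Rel one (root l) (root xw) for some l ∈ J, `root_rel` contradicts `sep`.
-/

namespace Pool.Agent.Lib.P77fd2d

/-- the conditions linking a machine with the words of an instance -/
structure WC {F D X : Type} (p : Pre F D X) (P : Pres) (Fw Y : List Word) (w : Word)
    (gc : ℕ × Bool → D) (J : Set (Lt F)) (base xw : Lt F) : Prop where
  gc_S : ∀ l : ℕ × Bool, l.1 < P.1 → gc l ∈ p.inS ∧ p.Total (gc l) ∧ gc (l.1, !l.2) = p.inv (gc l)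
  gc_out : ∀ l : ℕ × Bool, ¬ l.1 < P.1 → gc l = p.one
  rel : ∀ r ∈ P.2, p.Ev gc r p.one
  y : ∀ y ∈ Y, ∃ e, p.Ev gc y e ∧ p.nd p.star (some base) (some base) e
  fw : ∀ v ∈ Fw, ∀ u, (u = v ∨ u = winv v) → ∃ e, p.Ev gc u e ∧
    ∀ l ∈ J, ∃ l' ∈ J, p.nd p.star (some l) (some l') e
  J_run : ∀ l ∈ J, ∃ q, p.step p.st0 l q
  base_J : base ∈ J
  xw_run : ∃ q, p.step p.st0 xw q
  w_xw : ∃ e, p.Ev gc (winv w) e ∧ p.nd p.star (some base) (some xw) e
  sep : ∀ l ∈ J, ¬ p.nd p.star (some l) (some xw) p.one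

open Pre

section

variable {F D X : Type} {p : Pre F D X}

/-- Runs up to difference one. -/
def runSetoid (hp : p.Ok) : Setoid {a : ℕ → Option (Lt F) // p.Run a} where
  r a b := p.Rel p.one a.1 b.1
  iseqv := by
    refine ⟨fun a => rel_refl hp a.2, ?_, ?_⟩
    · intro a b h
      have := rel_inv hp h
      rwa [hp.inv_one] at this
    · intro a b c h1 h2
      have e : p.mul p.one p.one = p.one := hp.one_mul _ hp.one_S
      have := rel_mul hp a.2 c.2 h1 h2 (by rw [e]; exact hp.one_S)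
      rwa [e] at this

/-- The set acted upon. -/
abbrev RX (hp : p.Ok) : Type := Quotient (runSetoid hp)

/-- The class of a run. -/
def cl (hp : p.Ok) (a : ℕ → Option (Lt F)) (ha : p.Run a) : RX hp := Quotient.mk _ ⟨a, ha⟩

lemma cl_eq (hp : p.Ok) {a b : ℕ → Option (Lt F)} (ha : p.Run a) (hb : p.Run b) :
    cl hp a ha = cl hp b hb ↔ p.Rel p.one a b :=
  ⟨fun h => Quotient.exact h, fun h => Quotient.sound h⟩

lemma exists_cl (hp : p.Ok) (x : RX hp) : ∃ a, ∃ ha : p.Run a, x = cl hp a ha := by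
  obtain ⟨⟨a, ha⟩, rfl⟩ := Quotient.exists_rep x
  exact ⟨a, ha, rfl⟩

lemma rel_functional (hp : p.Ok) {g : D} (hg : g ∈ p.inS) {a b a' b' : ℕ → Option (Lt F)}
    (ha : p.Run a) (hb : p.Run b) (hb' : p.Run b') (h1 : p.Rel g a b) (h2 : p.Rel g a' b')
    (h3 : p.Rel p.one a a') : p.Rel p.one b b' := by
  have e1 : p.mul p.one g = g := hp.one_mul g hg
  have k1 : p.Rel g a b' := by
    have := rel_mul hp ha hb' h3 h2 (by rw [e1]; exact hg)
    rwa [e1] at this
  have e2 : p.mul (p.inv g) g = p.one := hp.inv_mul g hg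
  have k2 := rel_mul hp hb hb' (rel_inv hp h1) k1 (by rw [e2]; exact hp.one_S)
  rwa [e2] at k2

/-- The map of a total difference. -/
noncomputable def actD (hp : p.Ok) (g : D) (hg : g ∈ p.inS) (ht : p.Total g) : RX hp → RX hp :=
  Quotient.lift (fun a => cl hp (rel_total hp a.2 ht hg).choose
    (rel_total hp a.2 ht hg).choose_spec.1) (by
      intro a b hab
      rw [cl_eq]
      exact rel_functional hp hg a.2 (rel_total hp a.2 ht hg).choose_spec.1
        (rel_total hp b.2 ht hg).choose_spec.1 (rel_total hp a.2 ht hg).choose_spec.2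
        (rel_total hp b.2 ht hg).choose_spec.2 hab)

lemma actD_spec (hp : p.Ok) (g : D) (hg : g ∈ p.inS) (ht : p.Total g) {a b : ℕ → Option (Lt F)}
    (ha : p.Run a) (hb : p.Run b) (h : p.Rel g a b) : actD hp g hg ht (cl hp a ha) = cl hp b hb := by
  have h1 : actD hp g hg ht (cl hp a ha) = cl hp (rel_total hp ha ht hg).choose
      (rel_total hp ha ht hg).choose_spec.1 := rfl
  rw [h1, cl_eq]
  exact rel_functional hp hg ha (rel_total hp ha ht hg).choose_spec.1 hb
    (rel_total hp ha ht hg).choose_spec.2 h (rel_refl hp ha)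

lemma actD_inv (hp : p.Ok) (g g' : D) (hg : g ∈ p.inS) (ht : p.Total g) (hg' : g' ∈ p.inS)
    (ht' : p.Total g') (h : g' = p.inv g) (x : RX hp) :
    actD hp g' hg' ht' (actD hp g hg ht x) = x := by
  obtain ⟨a, ha, rfl⟩ := exists_cl hp x
  obtain ⟨b, hb, hab⟩ := rel_total hp ha ht hg
  rw [actD_spec hp g hg ht ha hb hab]
  apply actD_spec
  rw [h]
  exact rel_inv hp hab

end

section

variable {F D X : Type} {p : Pre F D X} (hp : p.Ok) {P : Pres} {gc : ℕ × Bool → D}
  (hS : ∀ l : ℕ × Bool, l.1 < P.1 → gc l ∈ p.inS ∧ p.Total (gc l) ∧ gc (l.1, !l.2) = p.inv (gc l))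

/-- The permutation of a generator. -/
noncomputable def perm (k : Fin P.1) : Equiv.Perm (RX hp) where
  toFun := actD hp (gc (k, true)) (hS (k, true) k.2).1 (hS (k, true) k.2).2.1
  invFun := actD hp (gc (k, false)) (hS (k, false) k.2).1 (hS (k, false) k.2).2.1
  left_inv x := actD_inv hp _ _ _ _ _ _ (hS (k, true) k.2).2.2 x
  right_inv x := actD_inv hp _ _ _ _ _ _ (hS (k, false) k.2).2.2 x

/-- The right action of the free group. -/
noncomputable def Phi : FreeGroup (Fin P.1) →* (Equiv.Perm (RX hp))ᵐᵒᵖ :=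
  FreeGroup.lift fun k => MulOpposite.op (perm hp hS k)

/-- The action of a word. -/
noncomputable def aw (v : Word) (x : RX hp) : RX hp := (Phi hp hS (fr P.1 v)).unop x

lemma aw_nil (x : RX hp) : aw hp hS [] x = x := by
  unfold aw
  rw [fr_nil, map_one]
  rfl

lemma aw_cons (l : ℕ × Bool) (v : Word) (x : RX hp) :
    aw hp hS (l :: v) x = aw hp hS v (aw hp hS [l] x) := by
  unfold aw
  rw [fr_cons, map_mul]
  rfl

lemma aw_letter {l : ℕ × Bool} (hl : l.1 < P.1) {a b : ℕ → Option (Lt F)} (ha : p.Run a)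
    (hb : p.Run b) (h : p.Rel (gc l) a b) : aw hp hS [l] (cl hp a ha) = cl hp b hb := by
  obtain ⟨k, t⟩ := l
  have hk : k < P.1 := hl
  cases t with
  | true =>
    have h1 : fr P.1 [(k, true)] = FreeGroup.of ⟨k, hk⟩ := by
      simp [fr, hk]
    unfold aw Phi
    rw [h1, FreeGroup.lift_apply_of]
    exact actD_spec hp (gc (k, true)) (hS (k, true) hk).1 (hS (k, true) hk).2.1 ha hb h
  | false =>
    have h1 : fr P.1 [(k, false)] = (FreeGroup.of ⟨k, hk⟩)⁻¹ := by
      simp [fr, hk]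
    unfold aw Phi
    rw [h1, map_inv, FreeGroup.lift_apply_of]
    exact actD_spec hp (gc (k, false)) (hS (k, false) hk).1 (hS (k, false) hk).2.1 ha hb h

lemma aw_out {l : ℕ × Bool} (hl : ¬ l.1 < P.1) (x : RX hp) : aw hp hS [l] x = x := by
  have h1 : fr P.1 [l] = 1 := by
    simp [fr, hl]
  unfold aw
  rw [h1, map_one]
  rfl

variable (hout : ∀ l : ℕ × Bool, ¬ l.1 < P.1 → gc l = p.one)

lemma ev_inS {v : Word} {e : D} (h : p.Ev gc v e) (hp : p.Ok) : e ∈ p.inS := by
  cases h with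
  | nil => exact hp.one_S
  | cons _ h2 => exact h2

lemma word_rel (hout : ∀ l : ℕ × Bool, ¬ l.1 < P.1 → gc l = p.one) {v : Word} {e : D}
    (h : p.Ev gc v e) : ∀ (a b : ℕ → Option (Lt F)) (ha : p.Run a) (hb : p.Run b),
    aw hp hS v (cl hp a ha) = cl hp b hb → p.Rel e a b := by
  induction h with
  | nil =>
    intro a b ha hb h
    rw [aw_nil, cl_eq] at h
    exact h
  | @cons l w e hw hmem ih =>
    intro a b ha hb h
    rw [aw_cons] at h
    by_cases hl : l.1 < P.1
    · obtain ⟨c, hc, hac⟩ := rel_total hp ha (hS l hl).2.1 (hS l hl).1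
      rw [aw_letter hp hS hl ha hc hac] at h
      exact rel_mul hp ha hb hac (ih c b hc hb h) hmem
    · rw [aw_out hp hS hl] at h
      rw [hout l hl, hp.one_mul e (ev_inS hw hp)]
      exact ih a b ha hb h

lemma word_act (hout : ∀ l : ℕ × Bool, ¬ l.1 < P.1 → gc l = p.one) {v : Word} {e : D}
    (h : p.Ev gc v e) {a b : ℕ → Option (Lt F)} (ha : p.Run a) (hb : p.Run b)
    (hab : p.Rel e a b) : aw hp hS v (cl hp a ha) = cl hp b hb := by
  obtain ⟨b', hb', h1⟩ := exists_cl hp (aw hp hS v (cl hp a ha))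
  rw [h1, cl_eq]
  exact rel_functional hp (ev_inS h hp) ha hb' hb (word_rel hp hS hout h a b' ha hb' h1) hab
    (rel_refl hp ha)

lemma Phi_rel (hout : ∀ l : ℕ × Bool, ¬ l.1 < P.1 → gc l = p.one)
    (hrel : ∀ r ∈ P.2, p.Ev gc r p.one) : ∀ r ∈ rels P,
    FreeGroup.lift (fun k => MulOpposite.op (perm hp hS k)) r = 1 := by
  rintro _ ⟨w, hw, rfl⟩
  apply MulOpposite.unop_injective
  ext x
  obtain ⟨a, ha, rfl⟩ := exists_cl hp x
  exact word_act hp hS hout (hrel w hw) ha ha (rel_refl hp ha)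

end

theorem not_mem_of_machine {F D X : Type} {p : Pre F D X} (hp : p.Ok) {P : Pres}
    {Fw Y : List Word} {w : Word} {gc : ℕ × Bool → D} {J : Set (Lt F)} {base xw : Lt F}
    (h : WC p P Fw Y w gc J base xw) : ¬ Mem P Fw Y w := by
  rintro ⟨a, ha, b, hb, hab⟩
  set Ψ : Grp P →* (Equiv.Perm (RX hp))ᵐᵒᵖ :=
    PresentedGroup.toGroup (Phi_rel hp h.gc_S h.gc_out h.rel) with hΨ
  have helt : ∀ (v : Word) (x : RX hp), (Ψ (elt P v)).unop x = aw hp h.gc_S v x := fun v x => rfl
  have hmul : ∀ (g k : Grp P) (x : RX hp), (Ψ (g * k)).unop x = (Ψ k).unop ((Ψ g).unop x) := by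
    intro g k x
    rw [map_mul]
    rfl
  have hone : ∀ x : RX hp, (Ψ 1).unop x = x := by
    intro x
    rw [map_one]
    rfl
  have hrun : ∀ l ∈ J, p.Run (root l) := by
    intro l hl
    obtain ⟨q, hq⟩ := h.J_run l hl
    exact run_root hp hq
  have hbase := hrun base h.base_J
  have hxw : p.Run (root xw) := by
    obtain ⟨q, hq⟩ := h.xw_run
    exact run_root hp hq
  set x0 : RX hp := cl hp (root base) hbase with hx0
  have hb0 : (Ψ b).unop x0 = x0 := by
    refine Subgroup.closure_induction (p := fun g _ => (Ψ g).unop x0 = x0) ?_ ?_ ?_ ?_ hb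
    · rintro _ ⟨y, hy, rfl⟩
      obtain ⟨e, he1, he2⟩ := h.y y hy
      rw [helt]
      exact word_act hp h.gc_S h.gc_out he1 hbase hbase (rel_root hp (ev_inS he1 hp) he2)
    · exact hone x0
    · intro g k _ _ h1 h2
      rw [hmul, h1, h2]
    · intro g _ h1
      have h2 := hmul g g⁻¹ x0
      rw [mul_inv_cancel, hone, h1] at h2
      exact h2.symm
  set 𝒥 : Set (RX hp) := {x | ∃ l, ∃ hl : l ∈ J, x = cl hp (root l) (hrun l hl)} with h𝒥
  have ha0 : (∀ x ∈ 𝒥, (Ψ a).unop x ∈ 𝒥) ∧ ∀ x ∈ 𝒥, (Ψ a⁻¹).unop x ∈ 𝒥 := by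
    have key : ∀ v ∈ Fw, ∀ u, (u = v ∨ u = winv v) → ∀ x ∈ 𝒥, (Ψ (elt P u)).unop x ∈ 𝒥 := by
      rintro v hv u hu _ ⟨l, hl, rfl⟩
      obtain ⟨e, he1, he2⟩ := h.fw v hv u hu
      obtain ⟨l', hl', he3⟩ := he2 l hl
      refine ⟨l', hl', ?_⟩
      rw [helt]
      exact word_act hp h.gc_S h.gc_out he1 _ _ (rel_root hp (ev_inS he1 hp) he3)
    refine Subgroup.closure_induction (p := fun g _ => (∀ x ∈ 𝒥, (Ψ g).unop x ∈ 𝒥) ∧
      ∀ x ∈ 𝒥, (Ψ g⁻¹).unop x ∈ 𝒥) ?_ ?_ ?_ ?_ ha
    · rintro _ ⟨v, hv, rfl⟩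
      refine ⟨key v hv v (Or.inl rfl), ?_⟩
      rw [← elt_winv]
      exact key v hv _ (Or.inr rfl)
    · refine ⟨fun x hx => ?_, fun x hx => ?_⟩
      · rw [hone]
        exact hx
      · rw [inv_one, hone]
        exact hx
    · intro g k _ _ h1 h2
      refine ⟨fun x hx => ?_, fun x hx => ?_⟩
      · rw [hmul]
        exact h2.1 _ (h1.1 x hx)
      · rw [mul_inv_rev, hmul]
        exact h1.2 _ (h2.2 x hx)
    · intro g _ h1
      refine ⟨h1.2, ?_⟩
      rw [inv_inv]
      exact h1.1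
  have hx0J : x0 ∈ 𝒥 := ⟨base, h.base_J, rfl⟩
  have hb1 : (Ψ b⁻¹).unop x0 = x0 := by
    have h2 := hmul b b⁻¹ x0
    rw [mul_inv_cancel, hone, hb0] at h2
    exact h2.symm
  have hfin : (Ψ (elt P (winv w))).unop x0 ∈ 𝒥 := by
    rw [elt_winv, hab, mul_inv_rev, hmul, hb1]
    exact ha0.2 x0 hx0J
  obtain ⟨e, he1, he2⟩ := h.w_xw
  have hend : (Ψ (elt P (winv w))).unop x0 = cl hp (root xw) hxw := by
    rw [helt]
    exact word_act hp h.gc_S h.gc_out he1 hbase hxw (rel_root hp (ev_inS he1 hp) he2)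
  rw [hend] at hfin
  obtain ⟨l, hl, hlx⟩ := hfin
  have h1 := (cl_eq hp _ _).1 hlx.symm
  exact h.sep l hl (root_rel hp h1)

end Pool.Agent.Lib.P77fd2d
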