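import Mathlib

/-!
# Relative word metrics: definitions and basic facts

`S : RH ι G` consists of a set `A` of generators of the group `G` and a family `P i` of subgroups.
Letters are pairs: `(none, a)` with `a ∈ A` and `(some i, p)` with `p ∈ P i`.
A path in the relative Cayley graph is a start point `g : G` and a word; its vertices are
`g * ev w1` for the splittings `w = w1 ++ w2`.
-/

namespace Pool.Agent.Lib.P77fd2d

/-- a letter: `(none, a)` generator letter, `(some i, p)` a letter of the peripheral `P i` -/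
abbrev Ltr (ι G : Type) := Option ι × G

/-- data: a generating set and the peripheral subgroups -/
structure RH (ι G : Type) [Group G] where
  A : Set G
  P : ι → Subgroup G

variable {ι G : Type} [Group G]

/-- the value of a word -/
def ev (w : List (Ltr ι G)) : G := (w.map Prod.snd).prod

/-- the inverse word -/
def inv (w : List (Ltr ι G)) : List (Ltr ι G) := (w.map (fun s => (s.1, s.2⁻¹))).reverse

@[simp] theorem ev_nil : ev ([] : List (Ltr ι G)) = 1 := rfl
@[simp] theorem ev_cons (s : Ltr ι G) (w) : ev (s :: w) = s.2 * ev w := by simp [ev]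
@[simp] theorem ev_append (u w : List (Ltr ι G)) : ev (u ++ w) = ev u * ev w := by simp [ev]
@[simp] theorem inv_nil : inv ([] : List (Ltr ι G)) = [] := rfl
@[simp] theorem inv_append (u w : List (Ltr ι G)) : inv (u ++ w) = inv w ++ inv u := by simp [inv]
@[simp] theorem inv_cons (s : Ltr ι G) (w) : inv (s :: w) = inv w ++ [(s.1, s.2⁻¹)] := by simp [inv]
@[simp] theorem inv_length (u : List (Ltr ι G)) : (inv u).length = u.length := by simp [inv]
@[simp] theorem inv_inv' (u : List (Ltr ι G)) : inv (inv u) = u := by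
  simp [inv, List.map_reverse, Function.comp_def]
@[simp] theorem ev_inv (u : List (Ltr ι G)) : ev (inv u) = (ev u)⁻¹ := by
  induction u with
  | nil => simp
  | cons s u ih => simp [ih]

namespace RH
variable (S : RH ι G)

/-- the alphabet with a given label -/
def Alph : Option ι → Set G
  | none => S.A
  | some i => (S.P i : Set G)

/-- words over the relative alphabet -/
def Ok (w : List (Ltr ι G)) : Prop := ∀ s ∈ w, s.2 ∈ S.Alph s.1

/-- relative length -/
noncomputable def rl (g : G) : ℕ := sInf {n | ∃ w, S.Ok w ∧ ev w = g ∧ w.length = n}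

/-- word length with respect to `A` -/
noncomputable def wl (g : G) : ℕ :=
  sInf {n | ∃ w : List G, (∀ a ∈ w, a ∈ S.A) ∧ w.prod = g ∧ w.length = n}

/-- geodesic words of the relative Cayley graph -/
def Geo (w : List (Ltr ι G)) : Prop := S.Ok w ∧ S.rl (ev w) = w.length

/-- concatenations of `m` geodesic words -/
inductive Brk : ℕ → List (Ltr ι G) → Prop
  | nil : Brk 0 []
  | cons {m : ℕ} {u w : List (Ltr ι G)} : S.Geo u → Brk m w → Brk (m+1) (u ++ w)

/-- the path starting at `g` with label `w` has no `P i`-edge inside the coset `P i` -/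
def NoE (i : ι) (g : G) (w : List (Ltr ι G)) : Prop :=
  ∀ w1 s w2, w = w1 ++ s :: w2 → s.1 = some i → g * ev w1 ∉ S.P i

/-- `G` is hyperbolic relative to the commutative subgroups `P i`
(definition by hyperbolically embedded subgroups) -/
structure Good : Prop where
  finA : S.A.Finite
  symm : ∀ a ∈ S.A, a⁻¹ ∈ S.A
  gen : Subgroup.closure S.A = ⊤
  comm : ∀ i, ∀ x ∈ S.P i, ∀ y ∈ S.P i, x * y = y * x
  hyp : ∃ δ : ℕ, ∀ x y z t : G, S.rl (x⁻¹ * y) + S.rl (z⁻¹ * t) ≤
     max (S.rl (x⁻¹ * z) + S.rl (y⁻¹ * t)) (S.rl (x⁻¹ * t) + S.rl (y⁻¹ * z)) + δ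
  proper : ∀ i n, {p : G | p ∈ S.P i ∧
    ∃ w, S.Ok w ∧ S.NoE i 1 w ∧ w.length ≤ n ∧ ev w = p}.Finite

variable {S}

/-! ### words -/

@[simp] theorem ok_nil : S.Ok [] := by simp [Ok]
@[simp] theorem ok_cons {s : Ltr ι G} {w} : S.Ok (s :: w) ↔ s.2 ∈ S.Alph s.1 ∧ S.Ok w := by
  simp [Ok]
@[simp] theorem ok_append {u w : List (Ltr ι G)} : S.Ok (u ++ w) ↔ S.Ok u ∧ S.Ok w := by
  simp only [Ok, List.mem_append]
  constructor
  · intro h; exact ⟨fun s hs => h s (Or.inl hs), fun s hs => h s (Or.inr hs)⟩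
  · rintro ⟨h1, h2⟩ s (hs | hs)
    · exact h1 s hs
    · exact h2 s hs

theorem alph_inv (hS : S.Good) {o : Option ι} {g : G} (h : g ∈ S.Alph o) : g⁻¹ ∈ S.Alph o := by
  cases o with
  | none => exact hS.symm g h
  | some i => exact (S.P i).inv_mem h

theorem ok_inv (hS : S.Good) {w : List (Ltr ι G)} (h : S.Ok w) : S.Ok (inv w) := by
  intro s hs
  simp only [inv, List.mem_reverse, List.mem_map] at hs
  obtain ⟨t, ht, rfl⟩ := hs
  exact alph_inv hS (h t ht)

/-! ### the word metric of `A` -/

theorem exists_word (hS : S.Good) (g : G) : ∃ w : List G, (∀ a ∈ w, a ∈ S.A) ∧ w.prod = g := by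
  have hg : g ∈ Subgroup.closure S.A := by rw [hS.gen]; trivial
  induction hg using Subgroup.closure_induction with
  | mem x hx => exact ⟨[x], by simpa using hx, by simp⟩
  | one => exact ⟨[], by simp, by simp⟩
  | mul x y _ _ hx hy =>
    obtain ⟨u, hu, hu'⟩ := hx
    obtain ⟨v, hv, hv'⟩ := hy
    refine ⟨u ++ v, ?_, by simp [hu', hv']⟩
    intro a ha
    rcases List.mem_append.1 ha with h | h
    · exact hu a h
    · exact hv a h
  | inv x _ hx =>
    obtain ⟨u, hu, hu'⟩ := hx
    refine ⟨(u.map (fun x => x⁻¹)).reverse, ?_, by rw [← List.prod_inv_reverse, hu']⟩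
    intro a ha
    simp only [List.mem_reverse, List.mem_map] at ha
    obtain ⟨b, hb, rfl⟩ := ha
    exact hS.symm b (hu b hb)

theorem wl_spec (hS : S.Good) (g : G) :
    ∃ w : List G, (∀ a ∈ w, a ∈ S.A) ∧ w.prod = g ∧ w.length = S.wl g := by
  have : {n | ∃ w : List G, (∀ a ∈ w, a ∈ S.A) ∧ w.prod = g ∧ w.length = n}.Nonempty := by
    obtain ⟨w, h1, h2⟩ := exists_word hS g
    exact ⟨w.length, w, h1, h2, rfl⟩
  exact Nat.sInf_mem this

theorem wl_le {w : List G} (hw : ∀ a ∈ w, a ∈ S.A) : S.wl w.prod ≤ w.length :=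
  Nat.sInf_le ⟨w, hw, rfl, rfl⟩

@[simp] theorem wl_one : S.wl 1 = 0 := by
  have := wl_le (S := S) (w := []) (by simp)
  simpa using this

theorem wl_mul (hS : S.Good) (g h : G) : S.wl (g * h) ≤ S.wl g + S.wl h := by
  obtain ⟨u, hu, hu', hu''⟩ := wl_spec hS g
  obtain ⟨v, hv, hv', hv''⟩ := wl_spec hS h
  have : S.wl (u ++ v).prod ≤ (u ++ v).length := by
    apply wl_le
    intro a ha
    rcases List.mem_append.1 ha with h | h
    · exact hu a h
    · exact hv a h
  simpa [hu', hv', hu'', hv''] using this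

theorem wl_inv_le (hS : S.Good) (g : G) : S.wl g⁻¹ ≤ S.wl g := by
  obtain ⟨u, hu, hu', hu''⟩ := wl_spec hS g
  have : S.wl (u.map (fun x => x⁻¹)).reverse.prod ≤ (u.map (fun x => x⁻¹)).reverse.length := by
    apply wl_le
    intro a ha
    simp only [List.mem_reverse, List.mem_map] at ha
    obtain ⟨b, hb, rfl⟩ := ha
    exact hS.symm b (hu b hb)
  rw [← List.prod_inv_reverse, hu'] at this
  simpa [hu''] using this

theorem wl_inv (hS : S.Good) (g : G) : S.wl g⁻¹ = S.wl g :=
  le_antisymm (wl_inv_le hS g) (by simpa using wl_inv_le hS g⁻¹)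

theorem eq_one_of_wl (hS : S.Good) {g : G} (h : S.wl g = 0) : g = 1 := by
  obtain ⟨u, hu, hu', hu''⟩ := wl_spec hS g
  rw [h] at hu''
  rw [List.length_eq_zero_iff.1 hu''] at hu'
  simpa using hu'.symm

theorem wl_le_one {a : G} (ha : a ∈ S.A) : S.wl a ≤ 1 := by
  have := wl_le (S := S) (w := [a]) (by simpa using ha)
  simpa using this

/-- balls of the word metric are finite -/
theorem ball_finite (hS : S.Good) (n : ℕ) : {g : G | S.wl g ≤ n}.Finite := by
  induction n with
  | zero =>
    apply (Set.finite_singleton (1 : G)).subset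
    intro g hg
    exact eq_one_of_wl hS (Nat.le_zero.1 hg)
  | succ n ih =>
    have hfin : (Set.image2 (fun a g => a * g) S.A {g : G | S.wl g ≤ n}).Finite :=
      Set.Finite.image2 _ hS.finA ih
    apply (hfin.union (Set.finite_singleton (1 : G))).subset
    intro g hg
    obtain ⟨u, hu, hu', hu''⟩ := wl_spec hS g
    cases u with
    | nil => right; simpa using hu'.symm
    | cons a u =>
      left
      refine ⟨a, hu a (by simp), u.prod, ?_, by simpa using hu'⟩
      have h1 : S.wl u.prod ≤ u.length := wl_le (fun b hb => hu b (by simp [hb]))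
      have h2 : u.length + 1 = S.wl g := by simpa using hu''
      have h3 : S.wl g ≤ n + 1 := hg
      show S.wl u.prod ≤ n
      omega

/-! ### the relative metric -/

theorem exists_ok (hS : S.Good) (g : G) : ∃ w, S.Ok w ∧ ev w = g := by
  obtain ⟨u, hu, hu'⟩ := exists_word hS g
  refine ⟨u.map (fun a => (none, a)), ?_, ?_⟩
  · intro s hs
    simp only [List.mem_map] at hs
    obtain ⟨a, ha, rfl⟩ := hs
    exact hu a ha
  · simp [ev, Function.comp_def, hu']

/-- geodesic words exist -/
theorem exists_geo (hS : S.Good) (g : G) : ∃ w, S.Geo w ∧ ev w = g := by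
  have hne : {n | ∃ w, S.Ok w ∧ ev w = g ∧ w.length = n}.Nonempty := by
    obtain ⟨w, h1, h2⟩ := exists_ok hS g
    exact ⟨w.length, w, h1, h2, rfl⟩
  obtain ⟨w, h1, h2, h3⟩ := Nat.sInf_mem hne
  exact ⟨w, ⟨h1, by rw [h2]; exact h3.symm⟩, h2⟩

theorem rl_le {w : List (Ltr ι G)} (hw : S.Ok w) : S.rl (ev w) ≤ w.length :=
  Nat.sInf_le ⟨w, hw, rfl, rfl⟩

@[simp] theorem rl_one : S.rl 1 = 0 := by
  have := rl_le (S := S) (w := []) (by simp)
  simpa using this

theorem rl_mul (hS : S.Good) (g h : G) : S.rl (g * h) ≤ S.rl g + S.rl h := by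
  obtain ⟨u, hu, hu'⟩ := exists_geo hS g
  obtain ⟨v, hv, hv'⟩ := exists_geo hS h
  have : S.rl (ev (u ++ v)) ≤ (u ++ v).length := rl_le (ok_append.2 ⟨hu.1, hv.1⟩)
  have h1 := hu.2
  have h2 := hv.2
  rw [hu'] at h1
  rw [hv'] at h2
  simp only [ev_append, hu', hv', List.length_append] at this
  omega

theorem rl_inv_le (hS : S.Good) (g : G) : S.rl g⁻¹ ≤ S.rl g := by
  obtain ⟨u, hu, hu'⟩ := exists_geo hS g
  have : S.rl (ev (inv u)) ≤ (inv u).length := rl_le (ok_inv hS hu.1)
  have h1 := hu.2
  rw [hu'] at h1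
  simp only [ev_inv, hu', inv_length] at this
  omega

theorem rl_inv (hS : S.Good) (g : G) : S.rl g⁻¹ = S.rl g :=
  le_antisymm (rl_inv_le hS g) (by simpa using rl_inv_le hS g⁻¹)

theorem eq_one_of_rl (hS : S.Good) {g : G} (h : S.rl g = 0) : g = 1 := by
  obtain ⟨u, hu, hu'⟩ := exists_geo hS g
  have h1 := hu.2
  rw [hu', h] at h1
  rw [List.length_eq_zero_iff.1 h1.symm] at hu'
  simpa using hu'.symm

theorem rl_le_wl (hS : S.Good) (g : G) : S.rl g ≤ S.wl g := by
  obtain ⟨u, hu, hu', hu''⟩ := wl_spec hS g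
  have h1 : S.Ok (u.map (fun a => ((none : Option ι), a))) := by
    intro s hs
    simp only [List.mem_map] at hs
    obtain ⟨a, ha, rfl⟩ := hs
    exact hu a ha
  have h2 : ev (u.map (fun a => ((none : Option ι), a))) = g := by
    simp [ev, Function.comp_def, hu']
  have := rl_le h1
  rw [h2] at this
  simpa [hu''] using this

theorem rl_le_one {o : Option ι} {g : G} (h : g ∈ S.Alph o) : S.rl g ≤ 1 := by
  have := rl_le (S := S) (w := [(o, g)]) (by simpa using h)
  simpa using this

theorem rl_P_le_one {i : ι} {g : G} (h : g ∈ S.P i) : S.rl g ≤ 1 := rl_le_one (o := some i) h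

/-! distances `rl (x⁻¹ * y)` -/

theorem rl_tri (hS : S.Good) (x y z : G) :
    S.rl (x⁻¹ * z) ≤ S.rl (x⁻¹ * y) + S.rl (y⁻¹ * z) := by
  have := rl_mul hS (x⁻¹ * y) (y⁻¹ * z)
  simpa [mul_assoc] using this

theorem wl_tri (hS : S.Good) (x y z : G) :
    S.wl (x⁻¹ * z) ≤ S.wl (x⁻¹ * y) + S.wl (y⁻¹ * z) := by
  have := wl_mul hS (x⁻¹ * y) (y⁻¹ * z)
  simpa [mul_assoc] using this

theorem rl_symm (hS : S.Good) (x y : G) : S.rl (x⁻¹ * y) = S.rl (y⁻¹ * x) := by
  have := rl_inv hS (x⁻¹ * y)
  simpa using this.symm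

theorem wl_symm (hS : S.Good) (x y : G) : S.wl (x⁻¹ * y) = S.wl (y⁻¹ * x) := by
  have := wl_inv hS (x⁻¹ * y)
  simpa using this.symm

/-! ### geodesic words -/

theorem geo_nil : S.Geo [] := ⟨by simp, by simp⟩

theorem geo_append (hS : S.Good) {u w : List (Ltr ι G)} (h : S.Geo (u ++ w)) :
    S.Geo u ∧ S.Geo w := by
  obtain ⟨h1, h2⟩ := h
  rw [ok_append] at h1
  have a := rl_le h1.1
  have b := rl_le h1.2
  have c := rl_mul hS (ev u) (ev w)
  simp only [ev_append, List.length_append] at h2
  exact ⟨⟨h1.1, by omega⟩, ⟨h1.2, by omega⟩⟩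

theorem geo_inv (hS : S.Good) {u : List (Ltr ι G)} (h : S.Geo u) : S.Geo (inv u) :=
  ⟨ok_inv hS h.1, by rw [ev_inv, rl_inv hS, h.2, inv_length]⟩

theorem geo_letter (hS : S.Good) {o : Option ι} {g : G} (h : g ∈ S.Alph o) (hg : g ≠ 1) :
    S.Geo [(o, g)] := by
  refine ⟨by simpa using h, ?_⟩
  have h1 := rl_le_one h
  have h2 : S.rl g ≠ 0 := fun h => hg (eq_one_of_rl hS h)
  simp
  omega

/-- distances along a geodesic word -/
theorem geo_dist (hS : S.Good) {u v w : List (Ltr ι G)} (h : S.Geo (u ++ (v ++ w))) :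
    S.rl ((ev u)⁻¹ * ev (u ++ v)) = v.length := by
  have := (geo_append hS (geo_append hS h).2).1.2
  simpa using this

/-! ### broken geodesics -/

theorem brk_of_geo {u : List (Ltr ι G)} (h : S.Geo u) : S.Brk 1 u := by
  simpa using Brk.cons h Brk.nil

theorem brk_append {m n : ℕ} {u w : List (Ltr ι G)} (hu : S.Brk m u) (hw : S.Brk n w) :
    S.Brk (m + n) (u ++ w) := by
  induction hu with
  | nil => simpa using hw
  | @cons m a b ha _ ih =>
    have := Brk.cons ha ih
    rw [List.append_assoc]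
    have e : m + 1 + n = (m + n) + 1 := by omega
    rw [e]
    exact this

theorem brk_nil (m : ℕ) : S.Brk m [] := by
  induction m with
  | zero => exact Brk.nil
  | succ m ih => simpa using Brk.cons geo_nil ih

theorem brk_mono {m n : ℕ} (h : m ≤ n) {u : List (Ltr ι G)} (hu : S.Brk m u) : S.Brk n u := by
  obtain ⟨k, rfl⟩ := Nat.exists_eq_add_of_le h
  simpa using brk_append hu (brk_nil (S := S) k)

theorem brk_ok {m : ℕ} {u : List (Ltr ι G)} (hu : S.Brk m u) : S.Ok u := by
  induction hu with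
  | nil => simp
  | cons ha _ ih => exact ok_append.2 ⟨ha.1, ih⟩

theorem brk_inv (hS : S.Good) {m : ℕ} {u : List (Ltr ι G)} (hu : S.Brk m u) :
    S.Brk m (inv u) := by
  induction hu with
  | nil => exact Brk.nil
  | cons ha _ ih =>
    rw [inv_append]
    exact brk_append ih (brk_of_geo (geo_inv hS ha))

theorem brk_split (hS : S.Good) {m : ℕ} {u : List (Ltr ι G)} (hu : S.Brk m u) :
    ∀ a b, u = a ++ b → S.Brk m a ∧ S.Brk m b := by
  induction hu with
  | nil =>
    intro a b h
    obtain ⟨rfl, rfl⟩ := List.nil_eq_append_iff.1 h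
    exact ⟨Brk.nil, Brk.nil⟩
  | @cons m v w hv hw ih =>
    intro a b h
    rcases List.append_eq_append_iff.1 h with ⟨c, hc1, hc2⟩ | ⟨c, hc1, hc2⟩
    · -- a = v ++ c, w = c ++ b
      obtain ⟨h1, h2⟩ := ih c b hc2
      rw [hc1]
      exact ⟨Brk.cons hv h1, brk_mono (by omega) h2⟩
    · -- v = a ++ c, b = c ++ w
      rw [hc1] at hv
      obtain ⟨h1, h2⟩ := geo_append hS hv
      rw [hc2]
      exact ⟨brk_mono (by omega) (brk_of_geo h1), Brk.cons h2 hw⟩

/-- a shortest word over `A`, as a broken geodesic without peripheral letters -/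
theorem exists_apath (hS : S.Good) (g : G) :
    ∃ w : List (Ltr ι G), S.Brk (S.wl g) w ∧ (∀ s ∈ w, s.1 = none) ∧ w.length = S.wl g ∧
      ev w = g := by
  obtain ⟨u, hu, hu', hu''⟩ := wl_spec hS g
  have key : ∀ (u : List G), (∀ a ∈ u, a ∈ S.A) → S.wl u.prod = u.length →
      S.Brk u.length (u.map (fun a => ((none : Option ι), a))) := by
    intro u
    induction u with
    | nil => intro _ _; exact Brk.nil
    | cons a u ih =>
      intro h hl
      have hau : ∀ b ∈ u, b ∈ S.A := fun b hb => h b (by simp [hb])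
      have haA : a ∈ S.A := h a (by simp)
      have h1 : S.wl u.prod ≤ u.length := wl_le hau
      have h2 := wl_mul hS a u.prod
      have h3 := wl_le_one haA
      simp only [List.prod_cons, List.length_cons] at hl
      have h4 : a ≠ 1 := by
        rintro rfl
        rw [one_mul] at hl
        omega
      exact Brk.cons (geo_letter hS (o := none) haA h4) (ih hau (by omega))
  refine ⟨u.map (fun a => ((none : Option ι), a)), ?_, ?_, by simpa using hu'', ?_⟩
  · have := key u hu (by rw [hu', hu''])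
    rwa [hu''] at this
  · intro s hs
    simp only [List.mem_map] at hs
    obtain ⟨a, _, rfl⟩ := hs
    rfl
  · simp [ev, Function.comp_def, hu']

/-! ### edges in a coset -/

theorem noE_nil (i : ι) (g : G) : S.NoE i g [] := by
  intro w1 s w2 h
  simp at h

theorem noE_cons {i : ι} {g : G} {s : Ltr ι G} {w : List (Ltr ι G)} :
    S.NoE i g (s :: w) ↔ (s.1 = some i → g ∉ S.P i) ∧ S.NoE i (g * s.2) w := by
  constructor
  · intro h
    refine ⟨fun hs => by simpa using h [] s w rfl hs, ?_⟩
    intro w1 t w2 hw ht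
    have := h (s :: w1) t w2 (by simp [hw]) ht
    simpa [mul_assoc] using this
  · rintro ⟨h1, h2⟩ w1 t w2 hw ht
    cases w1 with
    | nil =>
      simp only [List.nil_append, List.cons.injEq] at hw
      obtain ⟨rfl, rfl⟩ := hw
      simpa using h1 ht
    | cons a w1 =>
      simp only [List.cons_append, List.cons.injEq] at hw
      obtain ⟨rfl, rfl⟩ := hw
      simpa [mul_assoc] using h2 w1 t w2 rfl ht

theorem noE_append {i : ι} {g : G} {u w : List (Ltr ι G)} :
    S.NoE i g (u ++ w) ↔ S.NoE i g u ∧ S.NoE i (g * ev u) w := by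
  induction u generalizing g with
  | nil => simp [noE_nil]
  | cons s u ih =>
    rw [List.cons_append, noE_cons, noE_cons, ih]
    simp [mul_assoc, and_assoc]

/-- a path without peripheral letters has no edges in a coset -/
theorem noE_of_none {i : ι} {g : G} {u : List (Ltr ι G)} (h : ∀ s ∈ u, s.1 = none) :
    S.NoE i g u := by
  intro w1 s w2 hw hs
  have := h s (by simp [hw])
  rw [this] at hs
  cases hs

/-- a path staying at relative distance `≥ 1` (never in the coset) has no edges in the coset -/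
theorem noE_of_notMem {i : ι} {g : G} {u : List (Ltr ι G)}
    (h : ∀ w1 w2, u = w1 ++ w2 → g * ev w1 ∉ S.P i) : S.NoE i g u := by
  intro w1 s w2 hw _
  exact h w1 _ hw

theorem noE_inv {i : ι} {g : G} {u : List (Ltr ι G)} (hu : S.Ok u) (h : S.NoE i g u) :
    S.NoE i (g * ev u) (inv u) := by
  induction u generalizing g with
  | nil => exact noE_nil i _
  | cons s u ih =>
    rw [noE_cons] at h
    rw [ok_cons] at hu
    rw [inv_cons, noE_append]
    have h1 := ih hu.2 h.2
    refine ⟨by simpa [mul_assoc] using h1, ?_⟩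
    rw [noE_cons]
    refine ⟨?_, noE_nil i _⟩
    intro hs hm
    apply h.1 hs
    have h2 : s.2 ∈ S.P i := by
      have := hu.1
      rw [show s.1 = some i from hs] at this
      exact this
    simp only [ev_cons, ev_inv] at hm
    have h3 : g * (s.2 * ev u) * (ev u)⁻¹ = g * s.2 := by group
    rw [h3] at hm
    exact (Subgroup.mul_mem_cancel_right _ h2).1 hm

/-- either no edge in the coset or a splitting at such an edge -/
theorem noE_or (i : ι) (g : G) (w : List (Ltr ι G)) :
    S.NoE i g w ∨ ∃ w1 p w2, w = w1 ++ (some i, p) :: w2 ∧ g * ev w1 ∈ S.P i := by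
  by_cases h : S.NoE i g w
  · exact Or.inl h
  · right
    unfold NoE at h
    push Not at h
    obtain ⟨w1, ⟨o, p⟩, w2, h1, h2, h3⟩ := h
    simp only at h2
    subst h2
    exact ⟨w1, p, w2, h1, h3⟩

/-- splitting at the first vertex in the coset -/
theorem first_mem (i : ι) (g : G) (w : List (Ltr ι G)) :
    (∀ w1 w2, w = w1 ++ w2 → g * ev w1 ∉ S.P i) ∨
      ∃ w1 w2, w = w1 ++ w2 ∧ g * ev w1 ∈ S.P i ∧ S.NoE i g w1 := by
  induction w generalizing g with
  | nil =>
    by_cases h : g ∈ S.P i
    · right; exact ⟨[], [], rfl, by simpa using h, noE_nil i g⟩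
    · left
      intro w1 w2 hw
      obtain ⟨rfl, rfl⟩ := List.nil_eq_append_iff.1 hw
      simpa using h
  | cons s w ih =>
    by_cases h : g ∈ S.P i
    · right; exact ⟨[], s :: w, rfl, by simpa using h, noE_nil i g⟩
    · rcases ih (g * s.2) with h' | ⟨w1, w2, h1, h2, h3⟩
      · left
        intro w1 w2 hw
        cases w1 with
        | nil => simpa using h
        | cons a w1 =>
          simp only [List.cons_append, List.cons.injEq] at hw
          obtain ⟨rfl, hw⟩ := hw
          simpa [mul_assoc] using h' w1 w2 hw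
      · right
        refine ⟨s :: w1, w2, by simp [h1], by simpa [mul_assoc] using h2, ?_⟩
        rw [noE_cons]
        exact ⟨fun _ => h, h3⟩

/-- two vertices of a geodesic path in the same coset are at distance at most one -/
theorem geo_coset (hS : S.Good) {i : ι} {g : G} {u v w : List (Ltr ι G)}
    (h : S.Geo (u ++ (v ++ w))) (h1 : g * ev u ∈ S.P i) (h2 : g * ev (u ++ v) ∈ S.P i) :
    v.length ≤ 1 := by
  rw [← geo_dist hS h]
  have : (ev u)⁻¹ * ev (u ++ v) = (g * ev u)⁻¹ * (g * ev (u ++ v)) := by group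
  rw [this]
  exact rl_P_le_one ((S.P i).mul_mem ((S.P i).inv_mem h1) h2)

/-- a geodesic path with an edge in a coset has no other edges in this coset -/
theorem geo_noE (hS : S.Good) {i : ι} {g p : G} {u w : List (Ltr ι G)}
    (h : S.Geo (u ++ (some i, p) :: w)) (h1 : g * ev u ∈ S.P i) :
    S.NoE i g u ∧ S.NoE i (g * ev u * p) w := by
  have hok := h.1
  rw [ok_append, ok_cons] at hok
  have hp : p ∈ S.P i := hok.2.1
  have h1' : g * ev u * p ∈ S.P i := (S.P i).mul_mem h1 hp
  constructor
  · intro w1 s w2 hw hs hm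
    subst hw
    have h3 : S.Geo (w1 ++ ((s :: w2 ++ [(some i, p)]) ++ w)) := by simpa using h
    have := geo_coset hS (g := g) h3 hm (by simpa [mul_assoc] using h1')
    simp at this
  · intro w1 s w2 hw hs hm
    subst hw
    have hs2 : s.2 ∈ S.P i := by
      have := (ok_append.1 hok.2.2).2
      rw [ok_cons] at this
      have := this.1
      rw [show s.1 = some i from hs] at this
      exact this
    have h3 : S.Geo (u ++ (((some i, p) :: w1 ++ [s]) ++ w2)) := by simpa using h
    have := geo_coset hS (g := g) h3 h1 (by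
      have := (S.P i).mul_mem hm hs2
      simpa [mul_assoc] using this)
    simp at this

end RH

end Pool.Agent.Lib.P77fd2d
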