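import Pool.Agent.Lib.P77fd2d.NiceDef

/-!
# MODULE P77fd2d.CAlg  (0.8h)   no black box

The finite checks Va1-Va6 from the conditions `Ok` and `Nice` of the machine (converse of CertAlg).

`Cert.nd_iff : c.ndP .. ↔ c.pre.nd ..`; membership in c.pre.exp is membership in c.exp etc. (Iff.rfl).
* Va4: an explicit square is a square, `Ok.nd_inv`; generic: `Nice.gen_inv`.
* Va5: (explicit, explicit): `Ok.nd_mul`; (explicit e, generic h) with e.t = some (h.f, v), v := (gl e.t).2: v is ok by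
  `wf_exp`, so nd h.1 (some (h.f, v)) (some (h.f', sh v h.w)) h.d' is a generic square, then `Ok.nd_mul`; (generic g, explicit h),
  h.s = some (g.f', v'), v := ush v' g.w, sh v g.w = v' (lengths equal: v'.length = rk g.f' = rk g.f = g.w.length), generic square
  nd g.1 (some (g.f, v)) h.s g.d', then `Ok.nd_mul`; (generic, generic): `Nice.gen_mul`.
* Va6: `step_ne`, `step_star`, `step_one` for explicit transitions (`step` from `tr`); generic ones: `tg_gen0`, `tg_gen1`;
  x' ≠ 0 for (x,f,x') ∈ tg: choose an ok letter (f, v) outside the zone (rank > 0 by `tg_rk`, zone finite: e.g. v = z :: replicate (rk f - 1) 0 for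
  large z), it is a step.
-/

namespace Pool.Agent.Lib.P77fd2d
variable {c : Cert}

/-- for a family of positive rank there are letters outside any finite set -/
theorem exists_out {F : Type} (s : Set (Lt F)) (hs : s.Finite) (f : F) (r : ℕ) (hr : 0 < r) :
    ∃ v : List ℤ, v.length = r ∧ (f, v) ∉ s := by
  by_contra hcon
  push Not at hcon
  have h1 : s.Infinite := by
    apply Set.infinite_of_injective_forall_mem
      (f := fun z : ℤ => ((f, z :: List.replicate (r - 1) (0 : ℤ)) : Lt F))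
    · intro a b hab
      have := congrArg Prod.snd hab
      simp only [List.cons.injEq] at this
      exact this.1
    · intro z
      apply hcon
      rw [List.length_cons, List.length_replicate]
      omega
  exact h1 hs

namespace CAlgAux

theorem sh_ush {v w : List ℤ} (h : v.length = w.length) : sh (ush v w) w = v := by
  unfold ush sh
  induction v generalizing w with
  | nil => simp
  | cons x v ih =>
    cases w with
    | nil => simp at h
    | cons y w =>
      simp only [List.zipWith_cons_cons]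
      rw [ih (by simpa using h)]
      simp

theorem ush_length {v w : List ℤ} (h : v.length = w.length) : (ush v w).length = w.length := by
  unfold ush
  rw [List.length_zipWith, h, min_self]

theorem eq_some_gl {s : Option L} (h : s ≠ none) : s = some (Cert.gl s) := by
  obtain ⟨l, rfl⟩ := Option.ne_none_iff_exists'.1 h
  rfl

theorem nd_exp {e : EX} (he : e ∈ c.exp) : c.pre.nd e.1 e.2.1 e.2.2.1 e.2.2.2 := Or.inl he

theorem nd_gen {g : GE} (hg : g ∈ c.gen) {v : List ℤ} (hv : v.length = c.rkf g.2.1) :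
    c.pre.nd g.1 (some (g.2.1, v)) (some (g.2.2.1, sh v g.2.2.2.2)) g.2.2.2.1 :=
  Or.inr ⟨_, _, _, _, rfl, rfl, hv, hg⟩

end CAlgAux

open CAlgAux

theorem va1 (hp : c.pre.Ok) : c.Va1 :=
  ⟨hp.one_S, hp.star_D, hp.star_S, hp.inv_one, hp.inv_star, hp.mul_star,
    fun d hd => ⟨hp.S_D hd, hp.one_mul d hd, hp.mul_one d hd, hp.inv_mul d hd⟩, hp.inv_D⟩

theorem va2 (hp : c.pre.Ok) (hn : Nice c.pre) : c.Va2 := by
  refine ⟨fun g hg => hp.wf_gen _ _ _ _ _ hg, fun e he => ⟨fun h => ?_, fun h => ?_⟩,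
    fun e he => hp.wf_tr _ _ _ he, fun l hl => hn.zone_ok l hl⟩
  · exact (hp.wf_exp _ _ _ _ he).1 _ (eq_some_gl h)
  · exact (hp.wf_exp _ _ _ _ he).2 _ (eq_some_gl h)

theorem va3 (hp : c.pre.Ok) : c.Va3 := by
  constructor
  · intro e he h1 h2
    apply hp.nd_none
    have := nd_exp he
    rw [h1, h2] at this
    exact this
  · intro d hd h1
    rcases hp.nd_none' d hd h1 with h | ⟨f, v, f', w, h, _⟩
    · exact h
    · exact absurd h (by simp)

theorem va4 (hp : c.pre.Ok) (hn : Nice c.pre) : c.Va4 := by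
  constructor
  · intro e he h1 h2
    exact Cert.nd_iff.2 (hp.nd_inv _ _ _ _ h1 h2 (nd_exp he))
  · intro g hg h1 h2
    exact hn.gen_inv _ _ _ _ _ h1 h2 hg

theorem va5 (hp : c.pre.Ok) (hn : Nice c.pre) : c.Va5 := by
  refine ⟨?_, ?_, ?_, ?_⟩
  · intro e he h hh heq h1 h2 h3 h4
    refine Cert.nd_iff.2 (hp.nd_mul _ _ _ _ _ _ _ h1 h3 h2 h4 (nd_exp he) ?_)
    rw [heq]
    exact nd_exp hh
  · intro e he h hh heq h1 h2 h3 h4
    have hok : (Cert.gl e.2.2.1).2.length = c.rkf h.2.1 :=
      (hp.wf_exp _ _ _ _ he).2 _ heq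
    refine Cert.nd_iff.2 (hp.nd_mul _ _ _ _ _ _ _ h1 h3 h2 h4 (nd_exp he) ?_)
    rw [heq]
    exact nd_gen hh hok
  · intro g hg h hh heq h1 h2 h3 h4
    have hok : (Cert.gl h.2.1).2.length = c.rkf g.2.2.1 :=
      (hp.wf_exp _ _ _ _ hh).1 _ heq
    have hwf : g.2.2.2.2.length = c.rkf g.2.1 ∧ c.rkf g.2.2.1 = c.rkf g.2.1 :=
      hp.wf_gen _ _ _ _ _ hg
    have hlen : (Cert.gl h.2.1).2.length = g.2.2.2.2.length := by
      rw [hok, hwf.1, hwf.2]
    have h5 := nd_gen hg (v := ush (Cert.gl h.2.1).2 g.2.2.2.2)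
      (by rw [ush_length hlen, hwf.1])
    rw [sh_ush hlen, ← heq] at h5
    exact Cert.nd_iff.2 (hp.nd_mul _ _ _ _ _ _ _ h1 h3 h2 h4 h5 (nd_exp hh))
  · intro g hg h hh heq h1 h2 h3 h4
    refine hn.gen_mul _ _ _ _ g.2.1 g.2.2.1 h.2.2.1 _ _ h1 h3 h2 h4 hg ?_
    rw [heq]
    exact hh

theorem va6 (hp : c.pre.Ok) (hn : Nice c.pre) : c.Va6 := by
  constructor
  · intro e he
    have hs : c.pre.step e.1 e.2.1 e.2.2 := Or.inl he
    refine ⟨hp.step_ne _ _ _ hs, ?_⟩
    by_cases h0 : e.1 = 0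
    · rw [if_pos h0]
      rw [h0] at hs
      exact Cert.nd_iff.2 (hp.step_star _ _ hs)
    · rw [if_neg h0]
      exact Cert.nd_iff.2 (hp.step_one _ _ _ h0 hs)
  · intro e he
    constructor
    · obtain ⟨v, hv, hvz⟩ := exists_out c.pre.zone hn.fin_zone e.2.1 (c.rkf e.2.1)
        (hn.tg_rk _ _ _ he)
      have hs : c.pre.step e.1 (e.2.1, v) e.2.2 := Or.inr ⟨hv, hvz, he⟩
      exact hp.step_ne _ _ _ hs
    · by_cases h0 : e.1 = 0
      · rw [if_pos h0]
        apply hn.tg_gen0 e.2.1 e.2.2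
        have : (0, e.2.1, e.2.2) = e := by rw [← h0]
        show (0, e.2.1, e.2.2) ∈ c.tg
        rw [this]
        exact he
      · rw [if_neg h0]
        exact hn.tg_gen1 e.1 e.2.1 e.2.2 h0 he

end Pool.Agent.Lib.P77fd2d
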