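import Pool.Agent.Lib.P77fd2d.NiceDef

/-!
# MODULE P77fd2d.CFin  (1.2h)   no black box

Finiteness of the sets of pairs, superstates; the machine of the certificate `mkc` is the given one.

* `mkc_pre`: all fields (Pre.mk.injEq / cases): rk: `List.getD` of `(List.range m).map p.rk`, m = bd {f | p.rk f ≠ 0}, for f ≥ m both
  sides are 0 (`lt_bd`); inD etc.: `mem_toL` (inS is finite because of `hp.S_D`); mul: for a, b < bd inD table lookup, otherwise a or b is
  not in inD (`lt_bd`) and both sides are 0 (`hN.mul_out`); note that a < bd inD but a ∉ inD is fine (the table contains p.mul a b).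
  inv similarly.
* states: if Path n x a then x n ∈ {some st0, none} ∪ {some e.2.2 | e ∈ tr} ∪ {some e.2.2 | e ∈ tg}: a fixed finite set; if Diff n a b f then
  f n ∈ {star} ∪ {e.2.2.2 | e ∈ exp} ∪ {g.2.2.2.1 | g ∈ gen}: a fixed finite set.  So reachS, badS, supOf n a are subsets of
  finite products.  supS: its elements are (x n, toL T) with T a subset of a fixed finite set V (T ∈ 𝒫 V, `Set.Finite.finite_subsets`), a finite set.
* zpS: union of the finite zone, letters of exp (image under e ↦ e.2.1 of a finite set, through `Option`), image of gen × zone.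
-/

namespace Pool.Agent.Lib.P77fd2d
variable {p : Pre ℕ ℕ ℕ}

namespace CFinAux

theorem pre_ext {p q : Pre ℕ ℕ ℕ} (h1 : p.rk = q.rk) (h2 : p.one = q.one) (h3 : p.star = q.star)
    (h4 : p.inD = q.inD) (h5 : p.inS = q.inS) (h6 : p.mul = q.mul) (h7 : p.inv = q.inv)
    (h8 : p.exp = q.exp) (h9 : p.gen = q.gen) (h10 : p.zone = q.zone) (h11 : p.st0 = q.st0)
    (h12 : p.tr = q.tr) (h13 : p.tg = q.tg) : p = q := by
  cases p
  cases q
  simp only at h1 h2 h3 h4 h5 h6 h7 h8 h9 h10 h11 h12 h13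
  subst h1 h2 h3 h4 h5 h6 h7 h8 h9 h10 h11 h12 h13
  rfl

theorem getD_map {α : Type} (g : ℕ → α) (m a : ℕ) (d : α) :
    ((List.range m).map g).getD a d = if a < m then g a else d := by
  by_cases h : a < m
  · rw [List.getD_eq_getElem _ _ (by simpa using h)]
    simp [h]
  · rw [List.getD_eq_default _ _ (by simpa using h)]
    simp [h]

theorem set_toL {α : Type} {s : Set α} (h : s.Finite) : {a | a ∈ toL s} = s := by
  ext a
  exact mem_toL h

/-- the possible states -/
def VX (p : Pre ℕ ℕ ℕ) : Set (Option ℕ) :=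
  {some p.st0, none} ∪ ((fun e => some e.2.2) '' p.tr ∪ (fun e => some e.2.2) '' p.tg)

/-- the possible differences -/
def VD (p : Pre ℕ ℕ ℕ) : Set ℕ :=
  {p.star} ∪ ((fun e => e.2.2.2) '' p.exp ∪ (fun g => g.2.2.2.1) '' p.gen)

theorem fin_VX (hn : Nice p) : (VX p).Finite :=
  ((Set.finite_singleton _).insert _).union ((hn.fin_tr.image _).union (hn.fin_tg.image _))

theorem fin_VD (hn : Nice p) : (VD p).Finite :=
  (Set.finite_singleton _).union ((hn.fin_exp.image _).union (hn.fin_gen.image _))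

theorem path_mem {n : ℕ} {x : ℕ → Option ℕ} {a : ℕ → Option L} (h : p.Path n x a) :
    x n ∈ VX p := by
  cases n with
  | zero =>
    rw [h.1]
    exact Or.inl (Or.inl rfl)
  | succ n =>
    rcases h.2 n (by omega) with ⟨q, l, q', _, _, h3, h4⟩ | ⟨_, h3, _⟩
    · rw [h3]
      rcases h4 with h4 | ⟨_, _, h4⟩
      · exact Or.inr (Or.inl ⟨_, h4, rfl⟩)
      · exact Or.inr (Or.inr ⟨_, h4, rfl⟩)
    · rw [h3]
      exact Or.inl (Or.inr rfl)

theorem diff_mem {n : ℕ} {a b : ℕ → Option L} {f : ℕ → ℕ} (h : p.Diff n a b f) :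
    f n ∈ VD p := by
  cases n with
  | zero =>
    rw [h.1]
    exact Or.inl rfl
  | succ n =>
    rcases h.2 n (by omega) with h | ⟨f1, v, f2, w, _, _, _, h4⟩
    · exact Or.inr (Or.inl ⟨_, h, rfl⟩)
    · exact Or.inr (Or.inr ⟨_, h4, rfl⟩)

theorem supOf_sub (n : ℕ) (a : ℕ → Option L) : p.supOf n a ⊆ VX p ×ˢ VD p := by
  rintro _ ⟨y, b, f, h1, h2, _, rfl⟩
  exact ⟨path_mem h1, diff_mem h2⟩

end CFinAux

open CFinAux

theorem mkc_pre (hp : p.Ok) (hn : Nice p) (hN : Norm p) (n : ℕ) (gc : ℕ × Bool → ℕ) (J0 : Set ℕ)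
    (base xw : L) : (mkc p n gc J0 base xw).pre = p := by
  have hout : ∀ {a : ℕ}, ¬ a < bd p.inD → a ∉ p.inD := fun h h' => h (lt_bd hn.fin_D h')
  apply pre_ext
  · funext f
    show ((List.range (bd {f | p.rk f ≠ 0})).map p.rk).getD f 0 = p.rk f
    rw [getD_map]
    split_ifs with h
    · rfl
    · by_contra h'
      exact h (lt_bd hn.fin_rk (fun h'' => h' h''.symm))
  · exact hN.one0.symm
  · exact hN.star1.symm
  · exact set_toL hn.fin_D
  · exact set_toL (hn.fin_D.subset hp.S_D)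
  · funext a b
    show (((List.range (bd p.inD)).map (fun a => (List.range (bd p.inD)).map
      (fun b => p.mul a b))).getD a []).getD b 0 = p.mul a b
    rw [getD_map]
    split_ifs with h
    · rw [getD_map]
      split_ifs with h'
      · rfl
      · exact (hN.mul_out a b (Or.inr (hout h'))).symm
    · rw [hN.mul_out a b (Or.inl (hout h))]
      simp
  · funext a
    show ((List.range (bd p.inD)).map p.inv).getD a 0 = p.inv a
    rw [getD_map]
    split_ifs with h
    · rfl
    · exact (hN.inv_out a (hout h)).symm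
  · exact set_toL hn.fin_exp
  · exact set_toL hn.fin_gen
  · exact set_toL hn.fin_zone
  · exact hN.st0.symm
  · exact set_toL hn.fin_tr
  · exact set_toL hn.fin_tg

theorem fin_reach (hn : Nice p) : p.reachS.Finite := by
  refine ((fin_VX hn).prod ((fin_VX hn).prod (fin_VD hn))).subset ?_
  rintro _ ⟨n, x, y, a, b, f, h1, h2, h3, _, rfl⟩
  exact ⟨path_mem h1, path_mem h2, diff_mem h3⟩

theorem fin_bad (hn : Nice p) : p.badS.Finite := by
  refine ((fin_VX hn).prod ((fin_VX hn).prod (fin_VD hn))).subset ?_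
  rintro _ ⟨n, x, y, a, b, f, h1, h2, h3, _, rfl⟩
  exact ⟨path_mem h1, path_mem h2, diff_mem h3⟩

theorem fin_supOf (hn : Nice p) (n : ℕ) (a : ℕ → Option L) : (p.supOf n a).Finite :=
  ((fin_VX hn).prod (fin_VD hn)).subset (supOf_sub n a)

theorem fin_sup (hn : Nice p) : p.supS.Finite := by
  have h1 : {T | T ⊆ VX p ×ˢ VD p}.Finite := ((fin_VX hn).prod (fin_VD hn)).finite_subsets
  refine ((fin_VX hn).prod (h1.image toL)).subset ?_
  rintro _ ⟨n, x, a, h2, rfl⟩
  exact ⟨path_mem h2, _, supOf_sub n a, rfl⟩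

theorem fin_zp (hn : Nice p) : p.zpS.Finite := by
  refine (hn.fin_zone.union ?_).union ?_
  · refine (hn.fin_exp.image (fun e => e.2.1.getD (0, []))).subset ?_
    rintro l ⟨e, he, h⟩
    refine ⟨e, he, ?_⟩
    show e.2.1.getD (0, []) = l
    rw [h]
    rfl
  · refine ((hn.fin_gen.prod hn.fin_zone).image
      (fun q => (q.1.2.1, ush q.2.2 q.1.2.2.2.2))).subset ?_
    rintro l ⟨g, hg, m, hm, _, rfl⟩
    exact ⟨(g, m), ⟨hg, hm⟩, rfl⟩

end Pool.Agent.Lib.P77fd2d
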