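import Pool.Agent.Lib.P77fd2d.CAlg

/-!
# MODULE P77fd2d.CReach  (1h)   black box: `exists_out` (CAlg)

The checks Vb1-Vb3 for the semantic lists of reachable and bad pairs.

`key`: if z = (x n, y n, f n) comes from paths (data of reachS or badS) and ext (x n) s x', ext (y n) t y', nd (f n) s t f' then
(x', y', f') comes from the paths extended by s, t, f' at index n (use functions like
`fun i => if i ≤ n then x i else x'`, `fun i => if i < n then a i else s`), with all earlier differences the same.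
* Clos, first, third and fourth parts: directly by `key` with `Cert.ext_iff`, `Cert.nd_iff`; in the generic cases the
  square is `Or.inr` of nd: v = l.2 is ok (zone letters are ok: `Nice.zone_ok`), for the fourth part v = ush l.2 g.w, sh v g.w = l.2.
* second part: a, b ∈ tg, g ∈ gen, a.f = g.f, b.f = g.f': by `tg_rk` the rank of g.f is positive; choose v of length rk with (g.f, v) ∉ zone and
  (g.f', sh v g.w) ∉ zone (`exists_out` applied to the finite set zone ∪ {(g.f, ush l.2 g.w) | l ∈ zone}); both transitions are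
  generic steps, the square is generic: `key`.
* reachS: f' ∈ dl → all differences in dl; f' ∉ dl → the last one is not: badS.  badS: always badS.
* Vb1: (some 0, some 0, 1): n = 0; star ∈ inD.  Bad ∩ sl = ∅: `Ok.noreturn`.
-/

namespace Pool.Agent.Lib.P77fd2d
variable {c : Cert}

namespace CReachAux

/-- change the values of a sequence from the index `n` on -/
def extN {α : Type} (x : ℕ → α) (n : ℕ) (v : α) : ℕ → α := fun i => if i < n then x i else v

theorem extN_lt {α : Type} {x : ℕ → α} {n i : ℕ} {v : α} (h : i < n) : extN x n v i = x i := by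
  unfold extN; rw [if_pos h]

theorem extN_self {α : Type} {x : ℕ → α} {n : ℕ} {v : α} : extN x n v n = v := by
  unfold extN; rw [if_neg (lt_irrefl n)]

variable {F D X : Type} {p : Pre F D X}

theorem path_ext {n : ℕ} {x : ℕ → Option X} {a : ℕ → Option (Lt F)} (h : p.Path n x a)
    {s : Option (Lt F)} {x' : Option X} (hx : p.ext (x n) s x') :
    p.Path (n + 1) (extN x (n + 1) x') (extN a n s) := by
  refine ⟨by rw [extN_lt (Nat.succ_pos n)]; exact h.1, fun i hi => ?_⟩
  rcases Nat.lt_succ_iff_lt_or_eq.1 hi with hi | rfl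
  · rw [extN_lt (by omega), extN_lt hi, extN_lt (by omega)]
    exact h.2 i hi
  · rw [extN_lt (by omega), extN_self, extN_self]
    exact hx

theorem diff_ext {n : ℕ} {a b : ℕ → Option (Lt F)} {f : ℕ → D} (h : p.Diff n a b f)
    {s t : Option (Lt F)} {f' : D} (hx : p.nd (f n) s t f') :
    p.Diff (n + 1) (extN a n s) (extN b n t) (extN f (n + 1) f') := by
  refine ⟨by rw [extN_lt (Nat.succ_pos n)]; exact h.1, fun i hi => ?_⟩
  rcases Nat.lt_succ_iff_lt_or_eq.1 hi with hi | rfl
  · rw [extN_lt (by omega), extN_lt hi, extN_lt hi, extN_lt (by omega)]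
    exact h.2 i hi
  · rw [extN_lt (by omega), extN_self, extN_self, extN_self]
    exact hx

theorem ush_sh {v w : List ℤ} (h : v.length = w.length) : ush (sh v w) w = v := by
  induction v generalizing w with
  | nil => simp [sh, ush]
  | cons z v ih =>
    cases w with
    | nil => simp at h
    | cons y w =>
      have h' : v.length = w.length := by simpa using h
      have := ih h'
      simp only [sh, ush] at this ⊢
      simp [this]

theorem sh_ush {v w : List ℤ} (h : v.length = w.length) : sh (ush v w) w = v := by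
  induction v generalizing w with
  | nil => simp [sh, ush]
  | cons z v ih =>
    cases w with
    | nil => simp at h
    | cons y w =>
      have h' : v.length = w.length := by simpa using h
      have := ih h'
      simp only [sh, ush] at this ⊢
      simp [this]

theorem ush_len {v w : List ℤ} (h : v.length = w.length) : (ush v w).length = v.length := by
  unfold ush
  rw [List.length_zipWith, h, min_self]

theorem sh_len {v w : List ℤ} (h : v.length = w.length) : (sh v w).length = v.length := by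
  unfold sh
  rw [List.length_zipWith, h, min_self]

theorem key_reach {p : Pre ℕ ℕ ℕ} {z : TR} (hz : z ∈ p.reachS) {s t : Option L}
    {x' y' : Option ℕ} {f' : ℕ} (hx : p.ext z.1 s x') (hy : p.ext z.2.1 t y')
    (hnd : p.nd z.2.2 s t f') :
    (f' ∈ p.inD → (x', y', f') ∈ p.reachS) ∧ (f' ∉ p.inD → (x', y', f') ∈ p.badS) := by
  obtain ⟨n, x, y, a, b, f, h1, h2, h3, h4, rfl⟩ := hz
  constructor
  · intro hf
    refine ⟨n + 1, extN x (n + 1) x', extN y (n + 1) y', extN a n s, extN b n t,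
      extN f (n + 1) f', path_ext h1 hx, path_ext h2 hy, diff_ext h3 hnd, fun i hi => ?_, ?_⟩
    · rcases Nat.lt_or_ge i (n + 1) with hi' | hi'
      · rw [extN_lt hi']; exact h4 i (by omega)
      · have : i = n + 1 := by omega
        subst this
        rw [extN_self]; exact hf
    · rw [extN_self, extN_self, extN_self]
  · intro hf
    refine ⟨n + 1, extN x (n + 1) x', extN y (n + 1) y', extN a n s, extN b n t,
      extN f (n + 1) f', path_ext h1 hx, path_ext h2 hy, diff_ext h3 hnd,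
      ⟨n + 1, le_rfl, by rw [extN_self]; exact hf⟩, ?_⟩
    rw [extN_self, extN_self, extN_self]

theorem key_bad {p : Pre ℕ ℕ ℕ} {z : TR} (hz : z ∈ p.badS) {s t : Option L}
    {x' y' : Option ℕ} {f' : ℕ} (hx : p.ext z.1 s x') (hy : p.ext z.2.1 t y')
    (hnd : p.nd z.2.2 s t f') : (x', y', f') ∈ p.badS := by
  obtain ⟨n, x, y, a, b, f, h1, h2, h3, ⟨i, hi, hfi⟩, rfl⟩ := hz
  refine ⟨n + 1, extN x (n + 1) x', extN y (n + 1) y', extN a n s, extN b n t,
    extN f (n + 1) f', path_ext h1 hx, path_ext h2 hy, diff_ext h3 hnd,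
    ⟨i, by omega, by rw [extN_lt (by omega)]; exact hfi⟩, ?_⟩
  rw [extN_self, extN_self, extN_self]

theorem clos_aux (hp : c.pre.Ok) (hn : Nice c.pre) {T T1 T2 : List TR}
    (hkey : ∀ z ∈ T, ∀ (s : Option L) (x' : Option ℕ) (t : Option L) (y' : Option ℕ) (f' : ℕ),
      c.pre.ext z.1 s x' → c.pre.ext z.2.1 t y' → c.pre.nd z.2.2 s t f' →
      c.U T1 T2 x' y' f') : c.Clos T T1 T2 := by
  have hlen : ∀ g ∈ c.gen, g.2.2.2.2.length = c.pre.rk g.2.1 ∧ c.pre.rk g.2.2.1 = c.pre.rk g.2.1 :=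
    fun g hg => hp.wf_gen g.1 g.2.1 g.2.2.1 g.2.2.2.1 g.2.2.2.2 hg
  have hnd : ∀ z : TR, ∀ g ∈ c.gen, g.1 = z.2.2 → ∀ v : List ℤ, v.length = c.pre.rk g.2.1 →
      c.pre.nd z.2.2 (some (g.2.1, v)) (some (g.2.2.1, sh v g.2.2.2.2)) g.2.2.2.1 := by
    intro z g hg hz v hv
    refine Or.inr ⟨g.2.1, v, g.2.2.1, g.2.2.2.2, rfl, rfl, hv, ?_⟩
    rw [← hz]; exact hg
  refine ⟨?_, ?_, ?_, ?_⟩
  · intro z hz e he h0 x _ y _ hx hy
    refine hkey z hz _ x _ y _ (Cert.ext_iff.1 hx) (Cert.ext_iff.1 hy) (Or.inl ?_)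
    rw [← h0]; exact he
  · intro z hz g hg h0 a ha b hb hza hzb hag hbg
    have hrk : 0 < c.pre.rk g.2.1 := by
      rw [← hag]; exact hn.tg_rk a.1 a.2.1 a.2.2 ha
    have hfin : (c.pre.zone ∪ (fun l : L => ((g.2.1, ush l.2 g.2.2.2.2) : L)) '' c.pre.zone).Finite :=
      hn.fin_zone.union (hn.fin_zone.image _)
    obtain ⟨v, hv, hvn⟩ := exists_out _ hfin g.2.1 (c.pre.rk g.2.1) hrk
    have hvw : v.length = g.2.2.2.2.length := by rw [hv, (hlen g hg).1]
    refine hkey z hz (some (g.2.1, v)) _ (some (g.2.2.1, sh v g.2.2.2.2)) _ _ ?_ ?_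
      (hnd z g hg h0 v hv)
    · refine Or.inl ⟨a.1, (g.2.1, v), a.2.2, hza, rfl, rfl, Or.inr ⟨hv, ?_, ?_⟩⟩
      · exact fun h => hvn (Or.inl h)
      · show (a.1, g.2.1, a.2.2) ∈ c.pre.tg
        rw [← hag]; exact ha
    · refine Or.inl ⟨b.1, (g.2.2.1, sh v g.2.2.2.2), b.2.2, hzb, rfl, rfl, Or.inr ⟨?_, ?_, ?_⟩⟩
      · show (sh v g.2.2.2.2).length = c.pre.rk g.2.2.1
        rw [sh_len hvw, hv, (hlen g hg).2]
      · intro h
        apply hvn
        refine Or.inr ⟨_, h, ?_⟩
        simp only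
        rw [ush_sh hvw]
      · show (b.1, g.2.2.1, b.2.2) ∈ c.pre.tg
        rw [← hbg]; exact hb
  · intro z hz g hg h0 l hl hlg x _ y _ hx hy
    have hl' : l = (g.2.1, l.2) := by rw [← hlg]
    refine hkey z hz (some l) x _ y _ (Cert.ext_iff.1 hx) (Cert.ext_iff.1 hy) ?_
    have := hnd z g hg h0 l.2 (by rw [← hlg]; exact hn.zone_ok l hl)
    rw [← hl'] at this
    exact this
  · intro z hz g hg h0 l hl hlg x _ y _ hx hy
    have hl' : l = (g.2.2.1, l.2) := by rw [← hlg]
    have hlw : l.2.length = g.2.2.2.2.length := by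
      rw [(hlen g hg).1, ← (hlen g hg).2, ← hlg]; exact hn.zone_ok l hl
    refine hkey z hz _ x (some l) y _ (Cert.ext_iff.1 hx) (Cert.ext_iff.1 hy) ?_
    have := hnd z g hg h0 (ush l.2 g.2.2.2.2) (by rw [ush_len hlw, hlw, (hlen g hg).1])
    rw [sh_ush hlw, ← hl'] at this
    exact this

end CReachAux

open CReachAux

theorem vb1 (hp : c.pre.Ok) (hr : ∀ z, z ∈ c.reach ↔ z ∈ c.pre.reachS)
    (hb : ∀ z, z ∈ c.bad ↔ z ∈ c.pre.badS) : c.Vb1 := by
  constructor
  · rw [hr]
    refine ⟨0, fun _ => some 0, fun _ => some 0, fun _ => none, fun _ => none, fun _ => 1,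
      ⟨rfl, fun i hi => absurd hi (Nat.not_lt_zero i)⟩,
      ⟨rfl, fun i hi => absurd hi (Nat.not_lt_zero i)⟩,
      ⟨rfl, fun i hi => absurd hi (Nat.not_lt_zero i)⟩, fun i _ => hp.star_D, rfl⟩
  · intro z hz hs
    rw [hb] at hz
    obtain ⟨n, x, y, a, b, f, h1, h2, h3, ⟨i, hi, hfi⟩, rfl⟩ := hz
    exact hfi (hp.noreturn n x y a b f h1 h2 h3 hs i hi)

theorem vb2 (hp : c.pre.Ok) (hn : Nice c.pre) (hr : ∀ z, z ∈ c.reach ↔ z ∈ c.pre.reachS)
    (hb : ∀ z, z ∈ c.bad ↔ z ∈ c.pre.badS) : c.Vb2 := by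
  apply clos_aux hp hn
  intro z hz s x' t y' f' hx hy hnd
  have := key_reach ((hr z).1 hz) hx hy hnd
  exact ⟨fun h => (hr _).2 (this.1 h), fun h => (hb _).2 (this.2 h)⟩

theorem vb3 (hp : c.pre.Ok) (hn : Nice c.pre)
    (hb : ∀ z, z ∈ c.bad ↔ z ∈ c.pre.badS) : c.Vb3 := by
  apply clos_aux hp hn
  intro z hz s x' t y' f' hx hy hnd
  have := key_bad ((hb z).1 hz) hx hy hnd
  exact ⟨fun _ => (hb _).2 this, fun _ => (hb _).2 this⟩

end Pool.Agent.Lib.P77fd2d
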