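import Pool.Agent.Lib.P77fd2d.CAlg
import Pool.Agent.Lib.P77fd2d.CFin
import Pool.Agent.Lib.P77fd2d.CReach

/-!
# MODULE P77fd2d.CSup  (1.3h)   black boxes: `exists_out`, `fin_supOf`, `fin_zp`

The checks Vc1-Vc4 for the semantic list of superstates.

Elements of c.sup: (x n, toL (supOf n a)) with Path n x a; `mem_toL (fin_supOf hn n a)`.
Note (x n, toL ..): the list S is literally `toL (supOf n a)`.
* Vc1: n = 0: supOf 0 a = {(some 0, 1)} (star ∈ inD) and `toL {u} = [u]` (Set.Finite.toFinset of a singleton, Finset.toList_singleton).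
  zone ⊆ zp and the last part by definition of zpS.
* Extension: from Path n x a and ext (x n) s x' get Path (n+1) x⁺ a⁺ (x⁺ i = x i for i ≤ n, x⁺ (n+1) = x', a⁺ n = s).  Every u ∈ supOf (n+1) a⁺ comes from y, b, f,
  and (y n, f n) ∈ supOf n a (Diff n a b f only uses a i for i < n), with nd (f n) s (b n) (f (n+1)), ext (y n) (b n) (y (n+1)).
* Vc2: s = none.  A square with s = none is explicit.  If x n = none: every g ∈ ga ++ gb is total: apply `Total` to x, a⁺ (a⁺ n = none): gives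
  y, b, f with y (n+1) = none, f (n+1) = g: (none, g) ∈ supOf (n+1) a⁺.
* Vc3: s = some l: the square nd (f n) (some l) (b n) (f(n+1)) is explicit or generic: the two alternatives.
* Vc4: a' = (q, f, q') ∈ tg, x n = some q: rank of f positive; choose v with (f, v) ok and ∉ zp (`exists_out`, `fin_zp`); (f,v) ∉ zone so the step is
  generic; s = some (f,v).  For u: the square is not explicit ((f,v) ∉ zp ⊇ letters of exp), so b n = some (f', sh v w),
  g = (f n, f, f', f(n+1), w) ∈ gen; the transition y n → y (n+1) by (f', sh v w) is not explicit: otherwise this letter is in the zone (wf_tr), and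
  (f, ush (sh v w) w) = (f, v) ∈ zp.  So it is generic: b' ∈ tg.
-/

namespace Pool.Agent.Lib.P77fd2d
variable {c : Cert}

namespace CSupAux
open CReachAux

theorem toL_singleton {α : Type} (u : α) : toL ({u} : Set α) = [u] := by
  unfold toL
  rw [dif_pos (Set.finite_singleton u)]
  simp

theorem path_congr {F D X : Type} {p : Pre F D X} {n : ℕ} {x : ℕ → Option X}
    {a : ℕ → Option (Lt F)} (h : p.Path n x a) (s : Option (Lt F)) : p.Path n x (extN a n s) := by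
  refine ⟨h.1, fun i hi => ?_⟩
  rw [extN_lt hi]
  exact h.2 i hi

theorem sup_ext {p : Pre ℕ ℕ ℕ} {n : ℕ} {x : ℕ → Option ℕ} {a : ℕ → Option L}
    (h : p.Path n x a) {s : Option L} {x' : Option ℕ} (hx : p.ext (x n) s x') :
    ((x', toL (p.supOf (n + 1) (extN a n s))) : SU) ∈ p.supS := by
  refine ⟨n + 1, extN x (n + 1) x', extN a n s, path_ext h hx, ?_⟩
  rw [extN_self]

theorem supOf_succ {p : Pre ℕ ℕ ℕ} {n : ℕ} {a : ℕ → Option L} {s : Option L}
    {u : Option ℕ × ℕ} (hu : u ∈ p.supOf (n + 1) (extN a n s)) :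
    u.2 ∈ p.inD ∧ ∃ y ∈ p.supOf n a, ∃ t, p.nd y.2 s t u.2 ∧ p.ext y.1 t u.1 := by
  obtain ⟨y, b, f, h1, h2, h3, rfl⟩ := hu
  refine ⟨h3 (n + 1) le_rfl, (y n, f n), ⟨y, b, f, ⟨h1.1, fun i hi => h1.2 i (by omega)⟩,
    ⟨h2.1, fun i hi => ?_⟩, fun i hi => h3 i (by omega), rfl⟩, b n, ?_, h1.2 n (by omega)⟩
  · have := h2.2 i (by omega)
    rw [extN_lt hi] at this
    exact this
  · have := h2.2 n (by omega)
    rw [extN_self] at this
    exact this

end CSupAux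

open CReachAux CSupAux

theorem vc1 (hp : c.pre.Ok) (hn : Nice c.pre) (hs : ∀ z, z ∈ c.sup ↔ z ∈ c.pre.supS)
    (hz : ∀ l, l ∈ c.zp ↔ l ∈ c.pre.zpS) : c.Vc1 := by
  refine ⟨?_, ?_, ?_⟩
  · rw [hs]
    refine ⟨0, fun _ => some 0, fun _ => none,
      ⟨rfl, fun i hi => absurd hi (Nat.not_lt_zero i)⟩, ?_⟩
    have h : c.pre.supOf 0 (fun _ => none) = {((some 0, 1) : Option ℕ × ℕ)} := by
      ext u
      constructor
      · rintro ⟨y, b, f, h1, h2, h3, rfl⟩
        rw [Set.mem_singleton_iff, h1.1, h2.1]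
        rfl
      · intro hu
        rw [Set.mem_singleton_iff] at hu
        subst hu
        exact ⟨fun _ => some 0, fun _ => none, fun _ => 1,
          ⟨rfl, fun i hi => absurd hi (Nat.not_lt_zero i)⟩,
          ⟨rfl, fun i hi => absurd hi (Nat.not_lt_zero i)⟩, fun i _ => hp.star_D, rfl⟩
    rw [h, toL_singleton]
  · intro l hl
    rw [hz]
    exact Or.inl (Or.inl hl)
  · intro g hg l hl hlg
    rw [hz]
    exact Or.inr ⟨g, hg, l, hl, hlg, rfl⟩

theorem vc2 (hp : c.pre.Ok) (hn : Nice c.pre) (hs : ∀ z, z ∈ c.sup ↔ z ∈ c.pre.supS)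
    (ht : ∀ g ∈ c.ga ++ c.gb, c.pre.Total g) : c.Vc2 := by
  intro z hz hz0
  obtain ⟨n, x, a, h1, rfl⟩ := (hs z).1 hz
  simp only at hz0
  have hx : c.pre.ext (x n) none none := Or.inr ⟨rfl, rfl, hz0⟩
  refine ⟨_, (hs _).2 (sup_ext h1 hx), rfl, ?_, ?_⟩
  · intro u hu
    simp only at hu
    rw [mem_toL (fin_supOf hn _ _)] at hu
    obtain ⟨hD, y, hy, t, hnd, hext⟩ := supOf_succ hu
    refine ⟨hD, y, (mem_toL (fin_supOf hn _ _)).2 hy, (y.2, none, t, u.2), ?_, rfl, rfl, rfl,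
      Cert.ext_iff.2 hext⟩
    rcases hnd with h | ⟨f, v, f', w, h, _⟩
    · exact h
    · exact absurd h (by simp)
  · intro hxn g hg
    simp only at hxn ⊢
    rw [mem_toL (fin_supOf hn _ _)]
    obtain ⟨y, b, f, k1, k2, k3, k4, k5⟩ := ht g hg n x (extN a n none) (path_congr h1 none) hxn
      extN_self
    exact ⟨y, b, f, k1, k2, k3, by rw [k4, k5]⟩

theorem vc3 (hp : c.pre.Ok) (hn : Nice c.pre) (hs : ∀ z, z ∈ c.sup ↔ z ∈ c.pre.supS)
    : c.Vc3 := by
  intro z hz l _ x' _ hx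
  obtain ⟨n, x, a, h1, rfl⟩ := (hs z).1 hz
  have hx' : c.pre.ext (x n) (some l) x' := Cert.ext_iff.1 hx
  refine ⟨_, (hs _).2 (sup_ext h1 hx'), rfl, ?_⟩
  intro u hu
  simp only at hu
  rw [mem_toL (fin_supOf hn _ _)] at hu
  obtain ⟨hD, y, hy, t, hnd, hext⟩ := supOf_succ hu
  refine ⟨hD, y, (mem_toL (fin_supOf hn _ _)).2 hy, ?_⟩
  rcases hnd with h | ⟨f, v, f', w, hl, ht, _, hg⟩
  · exact Or.inl ⟨(y.2, some l, t, u.2), h, rfl, rfl, rfl, Cert.ext_iff.2 hext⟩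
  · have hl' : l = (f, v) := Option.some.inj hl
    subst hl' ht
    exact Or.inr ⟨(y.2, f, f', u.2, w), hg, rfl, rfl, rfl, Cert.ext_iff.2 hext⟩

theorem vc4 (hp : c.pre.Ok) (hn : Nice c.pre) (hs : ∀ z, z ∈ c.sup ↔ z ∈ c.pre.supS)
    : c.Vc4 := by
  intro z hz e he hze
  obtain ⟨n, x, a, h1, rfl⟩ := (hs z).1 hz
  simp only at hze
  have hrk : 0 < c.pre.rk e.2.1 := hn.tg_rk e.1 e.2.1 e.2.2 he
  obtain ⟨v, hv, hvn⟩ := exists_out _ (fin_zp hn) e.2.1 (c.pre.rk e.2.1) hrk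
  have hx : c.pre.ext (x n) (some (e.2.1, v)) (some e.2.2) := by
    refine Or.inl ⟨e.1, (e.2.1, v), e.2.2, hze, rfl, rfl, Or.inr ⟨hv, ?_, he⟩⟩
    exact fun h => hvn (Or.inl (Or.inl h))
  refine ⟨_, (hs _).2 (sup_ext h1 hx), rfl, ?_⟩
  intro u hu
  simp only at hu
  rw [mem_toL (fin_supOf hn _ _)] at hu
  obtain ⟨hD, y, hy, t, hnd, hext⟩ := supOf_succ hu
  refine ⟨hD, y, (mem_toL (fin_supOf hn _ _)).2 hy, ?_⟩
  rcases hnd with h | ⟨f, v', f', w, hl, ht, hok, hg⟩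
  · exact absurd (Or.inl (Or.inr ⟨_, h, rfl⟩)) hvn
  · have hl' : (e.2.1, v) = (f, v') := Option.some.inj hl
    have hf : e.2.1 = f := (Prod.mk.injEq _ _ _ _ ▸ hl').1
    have hv' : v = v' := (Prod.mk.injEq _ _ _ _ ▸ hl').2
    subst hf hv' ht
    refine ⟨(y.2, e.2.1, f', u.2, w), hg, rfl, rfl, rfl, ?_⟩
    rcases hext with ⟨q, l, q', k1, k2, k3, k4⟩ | ⟨k1, _⟩
    · have k2' : (f', sh v w) = l := Option.some.inj k2
      subst k2'
      rcases k4 with k4 | ⟨_, _, k4⟩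
      · exfalso
        apply hvn
        refine Or.inr ⟨(y.2, e.2.1, f', u.2, w), hg, (f', sh v w), (hp.wf_tr _ _ _ k4).2, rfl, ?_⟩
        simp only
        rw [ush_sh]
        rw [hv]
        exact (hp.wf_gen _ _ _ _ _ hg).1.symm
      · exact ⟨(q, f', q'), k4, rfl, k1, k3⟩
    · exact absurd k1 (by simp)

end Pool.Agent.Lib.P77fd2d
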