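import Pool.Agent.Lib.P77fd2d.CAlg

/-!
# MODULE P77fd2d.CWords  (0.8h)   black box: `exists_out` (optional)

The checks Vd1-Vd6 from the conditions `WN`.

* Lemma: `c.pre.Ev c.gc u e → c.evc u = (e, true)` (induction on Ev).  Membership in c.pre.inS is membership in c.sl (Iff.rfl).
* Vd1: `gc_S` for (k,true) and (k,false), `rel`.  * Vd2: `y` with `Cert.nd_iff`.  * Vd3: `fw`.  * Vd4: `J_run` (c.pre.st0 = 0).
* Vd5: `base_J`, `xw_run`, `w_xw`.
* Vd6: first part: e ∈ exp with e.s = some l (≠ none): l is ok (`wf_exp`), gl (some l) = l, so if l.1 ∈ j0 then `sep` is contradicted.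
  second part: g ∈ gen, g.f ∈ j0, g.f' = xw.1: xw is ok (`xw_run`, `wf_tr`), v := ush xw.2 g.w is ok for g.f, sh v g.w = xw.2 (equal lengths), the
  generic square nd 1 (some (g.f, v)) (some xw) 0 contradicts `sep`.
-/

namespace Pool.Agent.Lib.P77fd2d
variable {c : Cert}

theorem CWordsAux.evc_of_ev {u : Word} {e : ℕ} (h : c.pre.Ev c.gc u e) : c.evc u = (e, true) := by
  induction h with
  | nil => rfl
  | @cons l w e _ hS ih =>
    have h1 : c.evc (l :: w) = (c.mulf (c.gc l) (c.evc w).1,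
      (c.evc w).2 && decide (c.mulf (c.gc l) (c.evc w).1 ∈ c.sl)) := rfl
    have h2 : c.mulf (c.gc l) e ∈ c.sl := hS
    rw [h1, ih]
    simp only [Bool.true_and, decide_eq_true h2]
    rfl

theorem vd (hp : c.pre.Ok) (hn : Nice c.pre) {P : Pres} {Fw Y : List Word} {w : Word}
    (hga : c.ga.length = P.1) (hgb : c.gb.length = P.1)
    (hw : WN c.pre P Fw Y w c.gc {f | f ∈ c.j0} c.base c.xw) :
    c.Vd1 P ∧ c.Vd2 Y ∧ c.Vd3 Fw ∧ c.Vd4 ∧ c.Vd5 w ∧ c.Vd6 := by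
  have _ := hn
  refine ⟨?_, ?_, ?_, ?_, ?_, ?_⟩
  · refine ⟨hga, hgb, ?_, ?_⟩
    · intro k hk
      have hk' : k < P.1 := List.mem_range.1 hk
      obtain ⟨h1, _, h3⟩ := hw.gc_S (k, true) hk'
      obtain ⟨h4, _, h6⟩ := hw.gc_S (k, false) hk'
      exact ⟨h1, h4, h3, h6⟩
    · intro r hr
      exact CWordsAux.evc_of_ev (hw.rel r hr)
  · intro y hy
    obtain ⟨e, he, hnd⟩ := hw.y y hy
    rw [CWordsAux.evc_of_ev he]
    exact ⟨rfl, Cert.nd_iff.2 hnd⟩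
  · intro v hv u hu
    have hu' : u = v ∨ u = winv v := by simpa using hu
    obtain ⟨e, he, hJ⟩ := hw.fw v hv u hu'
    rw [CWordsAux.evc_of_ev he]
    refine ⟨rfl, fun f hf => ?_⟩
    obtain ⟨f', hf', w', hg⟩ := hJ f hf
    exact ⟨_, hg, rfl, rfl, rfl, hf'⟩
  · intro f hf
    obtain ⟨h1, h2⟩ := hw.J_run f hf
    constructor
    · rcases h1 with ⟨x', hx⟩ | h1
      · exact Or.inl ⟨_, hx, rfl, rfl⟩
      · exact Or.inr h1
    · intro l hl hlf
      obtain ⟨x', hx⟩ := h2 l hl hlf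
      exact ⟨_, hx, rfl, rfl⟩
  · obtain ⟨x', hx⟩ := hw.xw_run
    obtain ⟨e, he, hnd⟩ := hw.w_xw
    refine ⟨hw.base_J.1, hw.base_J.2, ⟨_, hx, rfl, rfl⟩, ?_⟩
    rw [CWordsAux.evc_of_ev he]
    exact ⟨rfl, Cert.nd_iff.2 hnd⟩
  · constructor
    · intro e he h1 h2 h3 h4 h5
      have hs := CAlgAux.eq_some_gl h4
      refine hw.sep (Cert.gl e.2.1) h5 ((hp.wf_exp _ _ _ _ he).1 _ hs) ?_
      have h6 := CAlgAux.nd_exp he
      rw [h1, h2, h3, hs] at h6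
      exact h6
    · intro g hg h1 h2 h3 h4
      obtain ⟨x', hx⟩ := hw.xw_run
      have hok : c.xw.2.length = c.rkf c.xw.1 := (hp.wf_tr _ _ _ hx).1
      have hwf : g.2.2.2.2.length = c.rkf g.2.1 ∧ c.rkf g.2.2.1 = c.rkf g.2.1 :=
        hp.wf_gen _ _ _ _ _ hg
      have hlen : c.xw.2.length = g.2.2.2.2.length := by
        rw [hok, ← h4, hwf.2, hwf.1]
      have hv : (ush c.xw.2 g.2.2.2.2).length = c.rkf g.2.1 := by
        rw [CAlgAux.ush_length hlen, hwf.1]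
      have h6 := CAlgAux.nd_gen hg hv
      rw [CAlgAux.sh_ush hlen, h1, h2, h4] at h6
      exact hw.sep (g.2.1, ush c.xw.2 g.2.2.2.2) h3 hv h6

end Pool.Agent.Lib.P77fd2d
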