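import Pool.Agent.Lib.P77fd2d.CertDef

/-!
# MODULE P77fd2d.CertAlg  (1h)   no black box

The local algebraic conditions of the machine `c.pre` from the finite checks `Va1`-`Va6`.

Use `Cert.nd_iff`, `Cert.ok_iff` (all relations of `c.pre` unfold to list memberships; `c.pre.inD d` is
`d ∈ c.dl` by `Iff.rfl`).  An element of `c.pre.nd d s t d'` is explicit or generic:
`s = some (f,v)`, `t = some (f', sh v w)`, v.length = rk f = w.length = rk f'.
Useful lemmas on vectors (lists of equal length): `ush (sh v w) w = v`, `sh (ush v w) w = v`,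
`sh (sh v w) w' = sh v (sh w w')`, `sh (sh v w) (w.map (-·)) = v`, `sh v (replicate n 0) = v`, lengths.
* `nd_mul`: four cases explicit/generic × explicit/generic, the four parts of Va5.  E.g. generic (g) then explicit (h):
   s = some (g.f, v), t = some (g.f', sh v g.w) = h.s, and v = ush (sh v g.w) g.w.
* `nd_inv`: Va4.  * `nd_none`: Va3 (a generic square has s ≠ none).
* `step_star`, `step_one`: Va6; explicit transition: directly; generic transition `(x, f, x') ∈ tg` for the letter
   `(f, v)`, v.length = rk f: the generic square with w = replicate (rk f) 0.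
-/

namespace Pool.Agent.Lib.P77fd2d
namespace Cert
variable {c : Cert}

namespace AlgAux

theorem ush_sh {v w : List ℤ} (h : v.length = w.length) : ush (sh v w) w = v := by
  unfold ush sh
  induction v generalizing w with
  | nil => simp
  | cons x v ih =>
    cases w with
    | nil => simp at h
    | cons y w =>
      simp only [List.zipWith_cons_cons]
      rw [ih (by simpa using h)]
      simp

theorem sh_assoc (u v w : List ℤ) : sh (sh u v) w = sh u (sh v w) := by
  unfold sh
  induction u generalizing v w with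
  | nil => simp
  | cons x u ih =>
    cases v with
    | nil => simp
    | cons y v =>
      cases w with
      | nil => simp
      | cons z w =>
        simp only [List.zipWith_cons_cons]
        rw [ih, add_assoc]

theorem sh_neg {v w : List ℤ} (h : v.length = w.length) :
    sh (sh v w) (w.map fun z => -z) = v := by
  unfold sh
  induction v generalizing w with
  | nil => simp
  | cons x v ih =>
    cases w with
    | nil => simp at h
    | cons y w =>
      simp only [List.zipWith_cons_cons, List.map_cons]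
      rw [ih (by simpa using h)]
      simp

theorem sh_zero {v : List ℤ} {n : ℕ} (h : v.length = n) : sh v (List.replicate n (0:ℤ)) = v := by
  unfold sh
  induction v generalizing n with
  | nil => simp
  | cons x v ih =>
    cases n with
    | zero => simp at h
    | succ n =>
      rw [List.replicate_succ, List.zipWith_cons_cons, ih (by simpa using h), add_zero]

theorem sh_length {v w : List ℤ} (h : v.length = w.length) : (sh v w).length = w.length := by
  unfold sh
  rw [List.length_zipWith, h, min_self]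

/-- data of a generic square -/
theorem gen_data (h2 : c.Va2) {d d' : ℕ} {s t : Option L}
    (h : ∃ g ∈ c.gen, g.1 = d ∧ g.2.2.2.1 = d' ∧ s = some (g.2.1, (gl s).2) ∧
      t = some (g.2.2.1, sh (gl s).2 g.2.2.2.2) ∧ c.okP (gl s)) :
    ∃ (f f' : ℕ) (v w : List ℤ), (d, f, f', d', w) ∈ c.gen ∧ s = some (f, v) ∧
      t = some (f', sh v w) ∧ v.length = w.length ∧ v.length = c.rkf f ∧ w.length = c.rkf f ∧
      c.rkf f' = c.rkf f := by
  obtain ⟨⟨a, f, f', b, w⟩, hg, h1, h3, h4, h5, h6⟩ := h
  simp only at h1 h3 h4 h5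
  subst h1 h3
  have hgs : gl s = (f, (gl s).2) := by
    conv_lhs => rw [h4]
    rfl
  have h7 := h2.1 _ hg
  have h8 : (gl s).2.length = c.rkf f := by
    have := h6
    rw [hgs] at this
    exact this
  simp only at h7
  exact ⟨f, f', (gl s).2, w, hg, h4, h5, by rw [h8, h7.1], h8, h7.1, h7.2⟩

theorem mk_gen {d d' f f' : ℕ} {v w : List ℤ} (hg : (d, f, f', d', w) ∈ c.gen)
    (hv : v.length = c.rkf f) : c.ndP d (some (f, v)) (some (f', sh v w)) d' :=
  Or.inr ⟨_, hg, rfl, rfl, rfl, rfl, hv⟩

end AlgAux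

open AlgAux

theorem wf_gen (h2 : c.Va2) : ∀ d f f' d' w, (d, f, f', d', w) ∈ c.pre.gen →
    w.length = c.pre.rk f ∧ c.pre.rk f' = c.pre.rk f := by
  intro d f f' d' w h
  exact h2.1 _ h

theorem wf_exp (h2 : c.Va2) : ∀ d s t d', (d, s, t, d') ∈ c.pre.exp →
    (∀ l, s = some l → c.pre.ok l) ∧ (∀ l, t = some l → c.pre.ok l) := by
  intro d s t d' h
  have h3 := h2.2.1 _ h
  constructor
  · rintro l rfl
    exact h3.1 (by simp)
  · rintro l rfl
    exact h3.2 (by simp)

theorem wf_tr (h2 : c.Va2) : ∀ x l x', (x, l, x') ∈ c.pre.tr → c.pre.ok l ∧ l ∈ c.pre.zone := by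
  intro x l x' h
  exact h2.2.2.1 _ h

theorem nd_none (h3 : c.Va3) : ∀ d d', c.pre.nd d none none d' → d = d' := by
  intro d d' h
  rcases nd_iff.2 h with h | ⟨g, _, _, _, h, _⟩
  · exact h3.1 _ h rfl rfl
  · exact absurd h (by simp)

theorem nd_none' (h3 : c.Va3) : ∀ d ∈ c.pre.inD, d ≠ c.pre.star → c.pre.nd d none none d := by
  intro d hd hs
  exact Or.inl (h3.2 d hd hs)

theorem nd_inv (h2 : c.Va2) (h4 : c.Va4) : ∀ d s t d', d ∈ c.pre.inD → d' ∈ c.pre.inD →
    c.pre.nd d s t d' → c.pre.nd (c.pre.inv d) t s (c.pre.inv d') := by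
  intro d s t d' hd hd' h
  rcases nd_iff.2 h with h | h
  · exact nd_iff.1 (h4.1 _ h hd hd')
  · obtain ⟨f, f', v, w, hg, rfl, rfl, hvw, hv, hw, hr⟩ := gen_data h2 h
    have h5 := h4.2 _ hg hd hd'
    have h6 := mk_gen (v := sh v w) h5 (by rw [sh_length hvw, hw]; exact hr.symm)
    simp only [sh_neg hvw] at h6
    exact nd_iff.1 h6

theorem nd_mul (h2 : c.Va2) (h5 : c.Va5) : ∀ d e d' e' s t u, d ∈ c.pre.inD → e ∈ c.pre.inD →
    d' ∈ c.pre.inD → e' ∈ c.pre.inD → c.pre.nd d s t d' → c.pre.nd e t u e' →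
      c.pre.nd (c.pre.mul d e) s u (c.pre.mul d' e') := by
  intro d e d' e' s t u hd he hd' he' h h'
  obtain ⟨p1, p2, p3, p4⟩ := h5
  rcases nd_iff.2 h with h | h <;> rcases nd_iff.2 h' with h' | h'
  · exact nd_iff.1 (p1 _ h _ h' rfl hd hd' he he')
  · obtain ⟨f, f', v, w, hg, rfl, rfl, hvw, hv, hw, hr⟩ := gen_data h2 h'
    exact nd_iff.1 (p2 _ h _ hg rfl hd hd' he he')
  · obtain ⟨f, f', v, w, hg, rfl, rfl, hvw, hv, hw, hr⟩ := gen_data h2 h
    have := p3 _ hg _ h' rfl hd hd' he he'
    simp only [gl, Option.getD_some, ush_sh hvw] at this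
    exact nd_iff.1 this
  · obtain ⟨f, f', v, w, hg, rfl, rfl, hvw, hv, hw, hr⟩ := gen_data h2 h
    obtain ⟨f2, f2', v2, w2, hg2, ht, rfl, hvw2, hv2, hw2, hr2⟩ := gen_data h2 h'
    have ht' := Option.some.inj ht
    have h6 : f' = f2 := congrArg Prod.fst ht'
    have h7 : sh v w = v2 := congrArg Prod.snd ht'
    subst h6
    subst h7
    have := p4 _ hg _ hg2 rfl hd hd' he he'
    have h8 := mk_gen (v := v) this hv
    simp only [← sh_assoc] at h8
    exact nd_iff.1 h8

theorem step_ne (h6 : c.Va6) : ∀ x l x', c.pre.step x l x' → x' ≠ c.pre.st0 := by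
  rintro x l x' (h | ⟨_, _, h⟩)
  · exact (h6.1 _ h).1
  · exact (h6.2 _ h).1

theorem step_star (h2 : c.Va2) (h6 : c.Va6) : ∀ l x', c.pre.step c.pre.st0 l x' →
    c.pre.nd c.pre.star (some l) (some l) c.pre.one := by
  rintro l x' (h | ⟨h0, _, h⟩)
  · exact nd_iff.1 (h6.1 _ h).2
  · have h3 := (h6.2 _ h).2
    have h4 := mk_gen (v := l.2) h3 h0
    simp only [sh_zero (n := c.rkf l.1) h0] at h4
    exact nd_iff.1 h4

theorem step_one (h2 : c.Va2) (h6 : c.Va6) : ∀ x l x', x ≠ c.pre.st0 → c.pre.step x l x' →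
    c.pre.nd c.pre.one (some l) (some l) c.pre.one := by
  rintro x l x' hx (h | ⟨h0, _, h⟩)
  · have h3 := (h6.1 _ h).2
    have hx' : ¬ x = 0 := hx
    simp only [if_neg hx'] at h3
    exact nd_iff.1 h3
  · have h3 := (h6.2 _ h).2
    have hx' : ¬ x = 0 := hx
    simp only [if_neg hx'] at h3
    have h4 := mk_gen (v := l.2) h3 h0
    simp only [sh_zero (n := c.rkf l.1) h0] at h4
    exact nd_iff.1 h4

end Cert
end Pool.Agent.Lib.P77fd2d
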