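import Pool.Agent.Lib.P77fd2d.Mach
import Pool.Agent.Lib.P77fd2d.Stmt

/-!
# Concrete certificates and their validity (bounded formulas)
-/

namespace Pool.Agent.Lib.P77fd2d

abbrev L := ℕ × List ℤ
/-- explicit squares `(d, s, t, d')` -/
abbrev EX := ℕ × Option L × Option L × ℕ
/-- generic squares `(d, f, f', d', w)` -/
abbrev GE := ℕ × ℕ × ℕ × ℕ × List ℤ
/-- pairs of states with a difference -/
abbrev TR := Option ℕ × Option ℕ × ℕ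
/-- superstates -/
abbrev SU := Option ℕ × List (Option ℕ × ℕ)

/-- certificates -/
abbrev Cert : Type :=
  ((List ℕ × List ℕ × List ℕ) × (List (List ℕ) × List ℕ) × (List EX × List GE)) ×
  ((List L × List L) × (List (ℕ × L × ℕ) × List (ℕ × ℕ × ℕ)) × (List TR × List TR)) ×
  (List SU × (List ℕ × L × L) × (List ℕ × List ℕ))

namespace Cert
def rk (c : Cert) : List ℕ := c.1.1.1
def dl (c : Cert) : List ℕ := c.1.1.2.1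
def sl (c : Cert) : List ℕ := c.1.1.2.2
def mul (c : Cert) : List (List ℕ) := c.1.2.1.1
def inv (c : Cert) : List ℕ := c.1.2.1.2
def exp (c : Cert) : List EX := c.1.2.2.1
def gen (c : Cert) : List GE := c.1.2.2.2
def zone (c : Cert) : List L := c.2.1.1.1
def zp (c : Cert) : List L := c.2.1.1.2
def tr (c : Cert) : List (ℕ × L × ℕ) := c.2.1.2.1.1
def tg (c : Cert) : List (ℕ × ℕ × ℕ) := c.2.1.2.1.2
def reach (c : Cert) : List TR := c.2.1.2.2.1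
def bad (c : Cert) : List TR := c.2.1.2.2.2
def sup (c : Cert) : List SU := c.2.2.1
def j0 (c : Cert) : List ℕ := c.2.2.2.1.1
def base (c : Cert) : L := c.2.2.2.1.2.1
def xw (c : Cert) : L := c.2.2.2.1.2.2
def ga (c : Cert) : List ℕ := c.2.2.2.2.1
def gb (c : Cert) : List ℕ := c.2.2.2.2.2

/-- rank of a family -/
def rkf (c : Cert) (f : ℕ) : ℕ := c.rk.getD f 0
def mulf (c : Cert) (a b : ℕ) : ℕ := (c.mul.getD a []).getD b 0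
def invf (c : Cert) (a : ℕ) : ℕ := c.inv.getD a 0

/-- the machine of a certificate -/
def pre (c : Cert) : Pre ℕ ℕ ℕ where
  rk := c.rkf
  one := 0
  star := 1
  inD := {d | d ∈ c.dl}
  inS := {d | d ∈ c.sl}
  mul := c.mulf
  inv := c.invf
  exp := {e | e ∈ c.exp}
  gen := {g | g ∈ c.gen}
  zone := {l | l ∈ c.zone}
  st0 := 0
  tr := {t | t ∈ c.tr}
  tg := {t | t ∈ c.tg}

/-- letter of an optional letter -/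
def gl (s : Option L) : L := s.getD (0, [])

def okP (c : Cert) (l : L) : Prop := l.2.length = c.rkf l.1

/-- squares -/
def ndP (c : Cert) (d : ℕ) (s t : Option L) (d' : ℕ) : Prop :=
  (d, s, t, d') ∈ c.exp ∨ ∃ g ∈ c.gen, g.1 = d ∧ g.2.2.2.1 = d' ∧ s = some (g.2.1, (gl s).2) ∧
    t = some (g.2.2.1, sh (gl s).2 g.2.2.2.2) ∧ c.okP (gl s)

/-- transitions of padded runs -/
def extP (c : Cert) (x : Option ℕ) (s : Option L) (x' : Option ℕ) : Prop :=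
  (∃ e ∈ c.tr, x = some e.1 ∧ s = some e.2.1 ∧ x' = some e.2.2) ∨
  (s ≠ none ∧ c.okP (gl s) ∧ gl s ∉ c.zone ∧
    ∃ e ∈ c.tg, x = some e.1 ∧ (gl s).1 = e.2.1 ∧ x' = some e.2.2) ∨
  (s = none ∧ x' = none ∧ x ≠ some 0)

/-- all possible values of padded states after a transition -/
def xs (c : Cert) : List (Option ℕ) :=
  none :: (c.tr.map (fun e => some e.2.2) ++ c.tg.map (fun e => some e.2.2))

/-! ### algebra -/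

def Va1 (c : Cert) : Prop :=
  0 ∈ c.sl ∧ 1 ∈ c.dl ∧ 1 ∉ c.sl ∧ c.invf 0 = 0 ∧ c.invf 1 = 1 ∧ c.mulf 1 1 = 1 ∧
  (∀ d ∈ c.sl, d ∈ c.dl ∧ c.mulf 0 d = d ∧ c.mulf d 0 = d ∧ c.mulf (c.invf d) d = 0) ∧
  (∀ d ∈ c.dl, c.invf d ∈ c.dl)

def Va2 (c : Cert) : Prop :=
  (∀ g ∈ c.gen, g.2.2.2.2.length = c.rkf g.2.1 ∧ c.rkf g.2.2.1 = c.rkf g.2.1) ∧
  (∀ e ∈ c.exp, (e.2.1 ≠ none → c.okP (gl e.2.1)) ∧ (e.2.2.1 ≠ none → c.okP (gl e.2.2.1))) ∧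
  (∀ e ∈ c.tr, c.okP e.2.1 ∧ e.2.1 ∈ c.zone) ∧
  (∀ l ∈ c.zone, c.okP l)

def Va3 (c : Cert) : Prop :=
  (∀ e ∈ c.exp, e.2.1 = none → e.2.2.1 = none → e.1 = e.2.2.2) ∧
  (∀ d ∈ c.dl, d ≠ 1 → (d, none, none, d) ∈ c.exp)

def Va4 (c : Cert) : Prop :=
  (∀ e ∈ c.exp, e.1 ∈ c.dl → e.2.2.2 ∈ c.dl →
    c.ndP (c.invf e.1) e.2.2.1 e.2.1 (c.invf e.2.2.2)) ∧
  (∀ g ∈ c.gen, g.1 ∈ c.dl → g.2.2.2.1 ∈ c.dl →
    (c.invf g.1, g.2.2.1, g.2.1, c.invf g.2.2.2.1, g.2.2.2.2.map (fun z => -z)) ∈ c.gen)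

def Va5 (c : Cert) : Prop :=
  (∀ e ∈ c.exp, ∀ h ∈ c.exp, e.2.2.1 = h.2.1 →
    e.1 ∈ c.dl → e.2.2.2 ∈ c.dl → h.1 ∈ c.dl → h.2.2.2 ∈ c.dl →
    c.ndP (c.mulf e.1 h.1) e.2.1 h.2.2.1 (c.mulf e.2.2.2 h.2.2.2)) ∧
  (∀ e ∈ c.exp, ∀ h ∈ c.gen, e.2.2.1 = some (h.2.1, (gl e.2.2.1).2) →
    e.1 ∈ c.dl → e.2.2.2 ∈ c.dl → h.1 ∈ c.dl → h.2.2.2.1 ∈ c.dl →
    c.ndP (c.mulf e.1 h.1) e.2.1 (some (h.2.2.1, sh (gl e.2.2.1).2 h.2.2.2.2))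
      (c.mulf e.2.2.2 h.2.2.2.1)) ∧
  (∀ g ∈ c.gen, ∀ h ∈ c.exp, h.2.1 = some (g.2.2.1, (gl h.2.1).2) →
    g.1 ∈ c.dl → g.2.2.2.1 ∈ c.dl → h.1 ∈ c.dl → h.2.2.2 ∈ c.dl →
    c.ndP (c.mulf g.1 h.1) (some (g.2.1, ush (gl h.2.1).2 g.2.2.2.2)) h.2.2.1
      (c.mulf g.2.2.2.1 h.2.2.2)) ∧
  (∀ g ∈ c.gen, ∀ h ∈ c.gen, g.2.2.1 = h.2.1 →
    g.1 ∈ c.dl → g.2.2.2.1 ∈ c.dl → h.1 ∈ c.dl → h.2.2.2.1 ∈ c.dl →
    (c.mulf g.1 h.1, g.2.1, h.2.2.1, c.mulf g.2.2.2.1 h.2.2.2.1, sh g.2.2.2.2 h.2.2.2.2) ∈ c.gen)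

def Va6 (c : Cert) : Prop :=
  (∀ e ∈ c.tr, e.2.2 ≠ 0 ∧ c.ndP (if e.1 = 0 then 1 else 0) (some e.2.1) (some e.2.1) 0) ∧
  (∀ e ∈ c.tg, e.2.2 ≠ 0 ∧
    ((if e.1 = 0 then 1 else 0), e.2.1, e.2.1, 0, List.replicate (c.rkf e.2.1) (0 : ℤ)) ∈ c.gen)

/-! ### reachable and bad pairs -/

/-- the successor triple is in the right list -/
def U (c : Cert) (T1 T2 : List TR) (x y : Option ℕ) (f : ℕ) : Prop :=
  (f ∈ c.dl → (x, y, f) ∈ T1) ∧ (f ∉ c.dl → (x, y, f) ∈ T2)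

/-- closure of the list `T` under pairs of transitions, with values in `T1` or `T2` -/
def Clos (c : Cert) (T T1 T2 : List TR) : Prop :=
  (∀ z ∈ T, ∀ e ∈ c.exp, e.1 = z.2.2 → ∀ x ∈ c.xs, ∀ y ∈ c.xs,
    c.extP z.1 e.2.1 x → c.extP z.2.1 e.2.2.1 y → c.U T1 T2 x y e.2.2.2) ∧
  (∀ z ∈ T, ∀ g ∈ c.gen, g.1 = z.2.2 → ∀ a ∈ c.tg, ∀ b ∈ c.tg,
    z.1 = some a.1 → z.2.1 = some b.1 → a.2.1 = g.2.1 → b.2.1 = g.2.2.1 →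
      c.U T1 T2 (some a.2.2) (some b.2.2) g.2.2.2.1) ∧
  (∀ z ∈ T, ∀ g ∈ c.gen, g.1 = z.2.2 → ∀ l ∈ c.zone, l.1 = g.2.1 → ∀ x ∈ c.xs, ∀ y ∈ c.xs,
    c.extP z.1 (some l) x → c.extP z.2.1 (some (g.2.2.1, sh l.2 g.2.2.2.2)) y →
      c.U T1 T2 x y g.2.2.2.1) ∧
  (∀ z ∈ T, ∀ g ∈ c.gen, g.1 = z.2.2 → ∀ l ∈ c.zone, l.1 = g.2.2.1 → ∀ x ∈ c.xs, ∀ y ∈ c.xs,
    c.extP z.1 (some (g.2.1, ush l.2 g.2.2.2.2)) x → c.extP z.2.1 (some l) y →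
      c.U T1 T2 x y g.2.2.2.1)

def Vb1 (c : Cert) : Prop := (some 0, some 0, 1) ∈ c.reach ∧ ∀ z ∈ c.bad, z.2.2 ∉ c.sl
def Vb2 (c : Cert) : Prop := c.Clos c.reach c.reach c.bad
def Vb3 (c : Cert) : Prop := c.Clos c.bad c.bad c.bad

/-! ### superstates -/

def Vc1 (c : Cert) : Prop :=
  (some 0, [(some 0, 1)]) ∈ c.sup ∧ (∀ l ∈ c.zone, l ∈ c.zp) ∧
  (∀ g ∈ c.gen, ∀ l ∈ c.zone, l.1 = g.2.2.1 → (g.2.1, ush l.2 g.2.2.2.2) ∈ c.zp)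

def Vc2 (c : Cert) : Prop :=
  ∀ z ∈ c.sup, z.1 ≠ some 0 → ∃ z' ∈ c.sup, z'.1 = none ∧
    (∀ u ∈ z'.2, u.2 ∈ c.dl ∧ ∃ y ∈ z.2, ∃ e ∈ c.exp, e.1 = y.2 ∧ e.2.1 = none ∧ e.2.2.2 = u.2 ∧
      c.extP y.1 e.2.2.1 u.1) ∧
    (z.1 = none → ∀ g ∈ c.ga ++ c.gb, (none, g) ∈ z'.2)

def Vc3 (c : Cert) : Prop :=
  ∀ z ∈ c.sup, ∀ l ∈ c.zp, ∀ x ∈ c.xs, c.extP z.1 (some l) x → ∃ z' ∈ c.sup, z'.1 = x ∧
    ∀ u ∈ z'.2, u.2 ∈ c.dl ∧ ∃ y ∈ z.2,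
      (∃ e ∈ c.exp, e.1 = y.2 ∧ e.2.1 = some l ∧ e.2.2.2 = u.2 ∧ c.extP y.1 e.2.2.1 u.1) ∨
      (∃ g ∈ c.gen, g.1 = y.2 ∧ g.2.1 = l.1 ∧ g.2.2.2.1 = u.2 ∧
        c.extP y.1 (some (g.2.2.1, sh l.2 g.2.2.2.2)) u.1)

def Vc4 (c : Cert) : Prop :=
  ∀ z ∈ c.sup, ∀ a ∈ c.tg, z.1 = some a.1 → ∃ z' ∈ c.sup, z'.1 = some a.2.2 ∧
    ∀ u ∈ z'.2, u.2 ∈ c.dl ∧ ∃ y ∈ z.2, ∃ g ∈ c.gen, g.1 = y.2 ∧ g.2.1 = a.2.1 ∧
      g.2.2.2.1 = u.2 ∧ ∃ b ∈ c.tg, b.2.1 = g.2.2.1 ∧ y.1 = some b.1 ∧ u.1 = some b.2.2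

/-! ### words -/

/-- difference of a letter -/
def gc (c : Cert) (l : ℕ × Bool) : ℕ := if l.2 then c.ga.getD l.1 0 else c.gb.getD l.1 0

/-- evaluation of words: value, and whether all intermediate values are in `sl` -/
def evc (c : Cert) (w : Word) : ℕ × Bool :=
  w.foldr (fun l r => (c.mulf (c.gc l) r.1, r.2 && decide (c.mulf (c.gc l) r.1 ∈ c.sl))) (0, true)

def Vd1 (P : Pres) (c : Cert) : Prop :=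
  c.ga.length = P.1 ∧ c.gb.length = P.1 ∧
  (∀ k ∈ List.range P.1, c.gc (k, true) ∈ c.sl ∧ c.gc (k, false) ∈ c.sl ∧
    c.gc (k, false) = c.invf (c.gc (k, true)) ∧ c.gc (k, true) = c.invf (c.gc (k, false))) ∧
  (∀ r ∈ P.2, c.evc r = (0, true))

def Vd2 (Y : List Word) (c : Cert) : Prop :=
  ∀ y ∈ Y, (c.evc y).2 = true ∧ c.ndP 1 (some c.base) (some c.base) (c.evc y).1

def Vd3 (Fw : List Word) (c : Cert) : Prop :=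
  ∀ v ∈ Fw, ∀ u ∈ [v, winv v], (c.evc u).2 = true ∧
    ∀ f ∈ c.j0, ∃ g ∈ c.gen, g.1 = 1 ∧ g.2.1 = f ∧ g.2.2.2.1 = (c.evc u).1 ∧ g.2.2.1 ∈ c.j0

def Vd4 (c : Cert) : Prop :=
  ∀ f ∈ c.j0, ((∃ a ∈ c.tg, a.1 = 0 ∧ a.2.1 = f) ∨ (c.rkf f = 0 ∧ (f, []) ∈ c.zone)) ∧
    ∀ l ∈ c.zone, l.1 = f → ∃ e ∈ c.tr, e.1 = 0 ∧ e.2.1 = l

def Vd5 (w : Word) (c : Cert) : Prop :=
  c.base.1 ∈ c.j0 ∧ c.okP c.base ∧ (∃ e ∈ c.tr, e.1 = 0 ∧ e.2.1 = c.xw) ∧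
  (c.evc (winv w)).2 = true ∧ c.ndP 1 (some c.base) (some c.xw) (c.evc (winv w)).1

def Vd6 (c : Cert) : Prop :=
  (∀ e ∈ c.exp, e.1 = 1 → e.2.2.2 = 0 → e.2.2.1 = some c.xw → e.2.1 ≠ none →
    (gl e.2.1).1 ∉ c.j0) ∧
  (∀ g ∈ c.gen, g.1 = 1 → g.2.2.2.1 = 0 → g.2.1 ∈ c.j0 → g.2.2.1 ≠ c.xw.1)

end Cert

/-- validity of a certificate for an instance -/
structure Valid (P : Pres) (Fw Y : List Word) (w : Word) (c : Cert) : Prop where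
  a1 : c.Va1
  a2 : c.Va2
  a3 : c.Va3
  a4 : c.Va4
  a5 : c.Va5
  a6 : c.Va6
  b1 : c.Vb1
  b2 : c.Vb2
  b3 : c.Vb3
  c1 : c.Vc1
  c2 : c.Vc2
  c3 : c.Vc3
  c4 : c.Vc4
  d1 : c.Vd1 P
  d2 : c.Vd2 Y
  d3 : c.Vd3 Fw
  d4 : c.Vd4
  d5 : c.Vd5 w
  d6 : c.Vd6

namespace Cert
variable {c : Cert}

theorem ok_iff {l : L} : c.okP l ↔ c.pre.ok l := Iff.rfl

theorem nd_iff {d : ℕ} {s t : Option L} {d' : ℕ} : c.ndP d s t d' ↔ c.pre.nd d s t d' := by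
  unfold ndP Pre.nd
  constructor
  · rintro (h | ⟨⟨d1, f, f', d2, w⟩, hg, h1, h2, h3, h4, h5⟩)
    · exact Or.inl h
    · simp only at h1 h2 h3 h4
      subst h1 h2
      right
      refine ⟨f, (gl s).2, f', w, h3, h4, ?_, hg⟩
      have : gl s = (f, (gl s).2) := by
        conv_lhs => rw [h3]
        simp [gl]
      rw [← this]; exact h5
  · rintro (h | ⟨f, v, f', w, h1, h2, h3, h4⟩)
    · exact Or.inl h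
    · right
      subst h1
      exact ⟨(d, f, f', d', w), h4, rfl, rfl, rfl, h2, h3⟩

theorem ext_iff {x : Option ℕ} {s : Option L} {x' : Option ℕ} :
    c.extP x s x' ↔ c.pre.ext x s x' := by
  unfold extP Pre.ext Pre.step
  constructor
  · rintro (⟨⟨q, l, q'⟩, he, h1, h2, h3⟩ | ⟨h0, h1, h2, ⟨q, f, q'⟩, he, h3, h4, h5⟩ | h)
    · exact Or.inl ⟨q, l, q', h1, h2, h3, Or.inl he⟩
    · obtain ⟨l, rfl⟩ := Option.ne_none_iff_exists'.1 h0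
      simp only at h4
      refine Or.inl ⟨q, l, q', h3, rfl, h5, Or.inr ⟨h1, h2, ?_⟩⟩
      simp only [gl, Option.getD_some] at h4
      rw [h4]; exact he
    · exact Or.inr h
  · rintro (⟨q, l, q', h1, h2, h3, h4 | ⟨h4, h5, h6⟩⟩ | h)
    · exact Or.inl ⟨(q, l, q'), h4, h1, h2, h3⟩
    · subst h2
      exact Or.inr (Or.inl ⟨by simp, h4, h5, (q, l.1, q'), h6, h1, rfl, h3⟩)
    · exact Or.inr (Or.inr h)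

/-- the state after a transition is in the list `xs` -/
theorem mem_xs {x : Option ℕ} {s : Option L} {x' : Option ℕ} (h : c.extP x s x') : x' ∈ c.xs := by
  unfold extP at h
  unfold xs
  rcases h with ⟨e, he, _, _, h3⟩ | ⟨_, _, _, e, he, _, _, h3⟩ | ⟨_, h3, _⟩
  · rw [h3]
    apply List.mem_cons_of_mem
    apply List.mem_append_left
    exact List.mem_map.2 ⟨e, he, rfl⟩
  · rw [h3]
    apply List.mem_cons_of_mem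
    apply List.mem_append_right
    exact List.mem_map.2 ⟨e, he, rfl⟩
  · rw [h3]; exact List.mem_cons_self

end Cert

end Pool.Agent.Lib.P77fd2d
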