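import Pool.Agent.Lib.P77fd2d.CertDef

/-!
# MODULE P77fd2d.CertReach  (1h)   no black box

The condition `noreturn` of the machine `c.pre` from the finite checks `Vb1`-`Vb3`.

(1) `clos_step`: if `c.Clos T T1 T2`, z = (x, y, f) ∈ T, ext x s x', ext y t y', nd f s t f' then `c.U T1 T2 x' y' f'`.
  If the square is explicit: first part of Clos (x', y' ∈ c.xs by `mem_xs`).  If it is generic, s = some (f1,v), t = some (f2, sh v w),
  g = (f, f1, f2, f', w) ∈ gen: if (f1,v) ∈ zone: third part (l = (f1,v)); if (f2, sh v w) ∈ zone: fourth part, with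
  ush (sh v w) w = v (equal lengths by Va2); otherwise both letters are outside the zone, and the two transitions
  must be generic (an explicit transition has its letter in the zone by Va2): second part.
(2) `noreturn`: by induction on i ≤ n: (x i, y i, f i) is in reach with f i ∈ dl [U gives this: membership in `reach` when f ∈ dl],
  or in bad.  [Invariant Q i: (f i ∈ dl ∧ (x i,y i,f i) ∈ reach) ∨ (x i,y i,f i) ∈ bad.]  Once in bad, always in bad (Vb3:
  U c bad bad: in both cases of f' the triple is in bad).  If f j ∉ dl for some j ≤ n then Q j gives bad at j, so bad at n,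
  and `Vb1` says f n ∉ sl, contradiction with f n ∈ inS.  Start: (some 0, some 0, 1) ∈ reach, 1 ∈ dl (hypothesis h1).
-/

namespace Pool.Agent.Lib.P77fd2d
namespace Cert
variable {c : Cert}

namespace ReachAux

theorem ush_sh {v w : List ℤ} (h : v.length = w.length) : ush (sh v w) w = v := by
  unfold ush sh
  induction v generalizing w with
  | nil => simp
  | cons x v ih =>
    cases w with
    | nil => simp at h
    | cons y w =>
      simp only [List.zipWith_cons_cons]
      rw [ih (by simpa using h)]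
      simp

theorem clos_step {T T1 T2 : List TR} (h2 : c.Va2) (hc : c.Clos T T1 T2) {x y x' y' : Option ℕ}
    {s t : Option L} {f f' : ℕ} (hz : (x, y, f) ∈ T) (hx : c.extP x s x') (hy : c.extP y t y')
    (hn : c.ndP f s t f') : c.U T1 T2 x' y' f' := by
  rcases hn with hn | ⟨g, hg, h1, h3, h4, h5, h6⟩
  · exact hc.1 _ hz _ hn rfl x' (mem_xs hx) y' (mem_xs hy) hx hy
  · set v := (gl s).2 with hv
    have hgs : gl s = (g.2.1, v) := by
      conv_lhs => rw [h4]
      rfl
    have hlen : v.length = g.2.2.2.2.length := by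
      rw [(h2.1 g hg).1]
      have := h6
      rw [hgs] at this
      exact this
    by_cases hz1 : (g.2.1, v) ∈ c.zone
    · have := hc.2.2.1 _ hz g hg h1 _ hz1 rfl x' (mem_xs hx) y' (mem_xs hy)
        (by rw [← h4]; exact hx) (by rw [← h5]; exact hy)
      rw [h3] at this
      exact this
    by_cases hz2 : (g.2.2.1, sh v g.2.2.2.2) ∈ c.zone
    · have := hc.2.2.2 _ hz g hg h1 _ hz2 rfl x' (mem_xs hx) y' (mem_xs hy)
        (by rw [ush_sh hlen, ← h4]; exact hx) (by rw [← h5]; exact hy)
      rw [h3] at this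
      exact this
    have hxg : ∃ a ∈ c.tg, x = some a.1 ∧ g.2.1 = a.2.1 ∧ x' = some a.2.2 := by
      rcases hx with ⟨e, he, _, h, _⟩ | ⟨_, _, _, e, he, h, h', h''⟩ | ⟨h, _⟩
      · rw [h4] at h
        rw [Option.some.inj h] at hz1
        exact absurd (h2.2.2.1 e he).2 hz1
      · rw [hgs] at h'
        exact ⟨e, he, h, h', h''⟩
      · rw [h4] at h; exact absurd h (by simp)
    have hyg : ∃ b ∈ c.tg, y = some b.1 ∧ g.2.2.1 = b.2.1 ∧ y' = some b.2.2 := by
      have hgt : gl t = (g.2.2.1, sh v g.2.2.2.2) := by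
        rw [h5]; rfl
      rcases hy with ⟨e, he, _, h, _⟩ | ⟨_, _, _, e, he, h, h', h''⟩ | ⟨h, _⟩
      · rw [h5] at h
        rw [Option.some.inj h] at hz2
        exact absurd (h2.2.2.1 e he).2 hz2
      · rw [hgt] at h'
        exact ⟨e, he, h, h', h''⟩
      · rw [h5] at h; exact absurd h (by simp)
    obtain ⟨a, ha, ha1, ha2, ha3⟩ := hxg
    obtain ⟨b, hb, hb1, hb2, hb3⟩ := hyg
    have := hc.2.1 _ hz g hg h1 a ha b hb ha1 hb1 ha2.symm hb2.symm
    rw [ha3, hb3, ← h3]
    exact this

end ReachAux

open ReachAux in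
theorem noreturn (h1 : 1 ∈ c.dl) (h2 : c.Va2) (hb1 : c.Vb1) (hb2 : c.Vb2) (hb3 : c.Vb3) :
    ∀ (n : ℕ) (x y : ℕ → Option ℕ) (a b : ℕ → Option L) (f : ℕ → ℕ),
    c.pre.Path n x a → c.pre.Path n y b → c.pre.Diff n a b f → f n ∈ c.pre.inS →
      ∀ i ≤ n, f i ∈ c.pre.inD := by
  intro n x y a b f hx hy hf hfn
  have hQ : ∀ i ≤ n, (f i ∈ c.dl ∧ (x i, y i, f i) ∈ c.reach) ∨ (x i, y i, f i) ∈ c.bad := by
    intro i
    induction i with
    | zero =>
      intro _
      left
      have h3 : f 0 = 1 := hf.1
      have h4 : x 0 = some 0 := hx.1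
      have h5 : y 0 = some 0 := hy.1
      rw [h3, h4, h5]
      exact ⟨h1, hb1.1⟩
    | succ i ih =>
      intro hi
      have hex := ext_iff.2 (hx.2 i (by omega))
      have hey := ext_iff.2 (hy.2 i (by omega))
      have hnd := nd_iff.2 (hf.2 i (by omega))
      rcases ih (by omega) with ⟨_, h⟩ | h
      · have hU := clos_step h2 hb2 h hex hey hnd
        by_cases hd : f (i + 1) ∈ c.dl
        · exact Or.inl ⟨hd, hU.1 hd⟩
        · exact Or.inr (hU.2 hd)
      · have hU := clos_step h2 hb3 h hex hey hnd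
        by_cases hd : f (i + 1) ∈ c.dl
        · exact Or.inr (hU.1 hd)
        · exact Or.inr (hU.2 hd)
  have hmono : ∀ i ≤ n, (x i, y i, f i) ∈ c.bad → (x n, y n, f n) ∈ c.bad := by
    intro i hi hbad
    have key : ∀ k, i + k ≤ n → (x (i + k), y (i + k), f (i + k)) ∈ c.bad := by
      intro k
      induction k with
      | zero => intro _; exact hbad
      | succ k ih =>
        intro hk
        have hex := ext_iff.2 (hx.2 (i + k) (by omega))
        have hey := ext_iff.2 (hy.2 (i + k) (by omega))
        have hnd := nd_iff.2 (hf.2 (i + k) (by omega))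
        have hU := clos_step h2 hb3 (ih (by omega)) hex hey hnd
        by_cases hd : f (i + k + 1) ∈ c.dl
        · exact hU.1 hd
        · exact hU.2 hd
    have := key (n - i) (by omega)
    rwa [show i + (n - i) = n by omega] at this
  intro i hi
  by_contra hd
  have hd' : f i ∉ c.dl := hd
  rcases hQ i hi with ⟨h, _⟩ | h
  · exact hd' h
  · exact hb1.2 _ (hmono i hi h) hfn

end Cert
end Pool.Agent.Lib.P77fd2d
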