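import Pool.Agent.Lib.P77fd2d.CertDef

/-!
# MODULE P77fd2d.CertSup  (1.2h)   no black box

The condition `Total` for the machine `c.pre` from the finite checks `Vc1`-`Vc4`.

Invariant along a path (x, a): for each n there is (x n, S) ∈ sup such that every (u, d) ∈ S is REALISED:
  ∃ y b f, Path n y b, Diff n a b f, ∀ i ≤ n, f i ∈ inD, y n = u, f n = d.
Start n = 0: Vc1, S = [(some 0, 1)], 1 ∈ dl (h1).
Step with letter a n = some l, ext (x n) (some l) (x (n+1)):
 * if l ∈ zp: Vc3 with x := x (n+1) ∈ xs (`mem_xs`).  Each u ∈ z'.2 comes from y ∈ z.2 realised, and a pair of a square and a transition: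
   explicit e: nd (d) (some l) e.2.2.1 u.2 and ext y.1 e.2.2.1 u.1; generic g: the square nd d (some l) (some (g.f', sh l.2 g.w)) u.2
   (the second part of `ndP`; c.okP l holds because a transition is possible with l: Va2 or the definition).
   Extend the realising path by this letter (functions ℕ → _: use `Function.update` or `fun i => if i ≤ n then .. else ..`).
 * if l ∉ zp then l ∉ zone (Vc1) so the transition is generic (Va2: explicit ones are in the zone): a' = (q, l.1, q') ∈ tg, x n = some q,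
   x (n+1) = some q': Vc4.  Each u ∈ z'.2: y ∈ z.2, g ∈ gen, b ∈ tg: the letter t = (g.f', sh l.2 g.w) is ok (Va2, lengths) and it is
   NOT in the zone: otherwise (g.f, ush (sh l.2 g.w) g.w) = l ∈ zp by the last part of Vc1 (g.f = a'.f = l.1, ush (sh v w) w = v).
   So the transition y.1 → u.1 with t is generic (b), and the square is generic.
Step with a n = none (then x (n+1) = none and x n ≠ some 0): Vc2.
Totality: x n = none, a n = none: apply the step Vc2 once more to z = (none, S): the new S' contains (none, g) for all g ∈ ga ++ gb,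
and is realised at n + 1.
-/

namespace Pool.Agent.Lib.P77fd2d
namespace Cert
variable {c : Cert}

namespace SupAux

/-- the pair `(u, d)` is realised at time `n` -/
def Real (c : Cert) (n : ℕ) (a : ℕ → Option L) (u : Option ℕ) (d : ℕ) : Prop :=
  ∃ (y : ℕ → Option ℕ) (b : ℕ → Option L) (f : ℕ → ℕ),
    c.pre.Path n y b ∧ c.pre.Diff n a b f ∧ (∀ i ≤ n, f i ∈ c.dl) ∧ y n = u ∧ f n = d

theorem real_zero (h1 : 1 ∈ c.dl) (a : ℕ → Option L) : Real c 0 a (some 0) 1 := by
  refine ⟨fun _ => some 0, fun _ => none, fun _ => 1, ⟨rfl, fun i hi => absurd hi (Nat.not_lt_zero i)⟩,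
    ⟨rfl, fun i hi => absurd hi (Nat.not_lt_zero i)⟩, fun _ _ => h1, rfl, rfl⟩

theorem real_succ {n : ℕ} {a : ℕ → Option L} {u u' : Option ℕ} {d d' : ℕ} {t : Option L}
    (h : Real c n a u d) (he : c.extP u t u') (hn : c.ndP d (a n) t d') (hd : d' ∈ c.dl) :
    Real c (n + 1) a u' d' := by
  obtain ⟨y, b, f, ⟨hy0, hy⟩, ⟨hf0, hf⟩, hfd, hyn, hfn⟩ := h
  refine ⟨Function.update y (n + 1) u', Function.update b n t, Function.update f (n + 1) d',
    ⟨?_, ?_⟩, ⟨?_, ?_⟩, ?_, ?_, ?_⟩
  · rw [Function.update_of_ne (by omega)]; exact hy0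
  · intro i hi
    rcases Nat.lt_succ_iff_lt_or_eq.1 hi with hlt | rfl
    · rw [Function.update_of_ne (by omega), Function.update_of_ne (by omega),
        Function.update_of_ne (by omega)]
      exact hy i hlt
    · rw [Function.update_of_ne (by omega), Function.update_self, Function.update_self, hyn]
      exact ext_iff.1 he
  · rw [Function.update_of_ne (by omega)]; exact hf0
  · intro i hi
    rcases Nat.lt_succ_iff_lt_or_eq.1 hi with hlt | rfl
    · rw [Function.update_of_ne (by omega), Function.update_of_ne (by omega),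
        Function.update_of_ne (by omega)]
      exact hf i hlt
    · rw [Function.update_of_ne (by omega), Function.update_self, Function.update_self, hfn]
      exact nd_iff.1 hn
  · intro i hi
    rcases Nat.lt_or_eq_of_le hi with hlt | rfl
    · rw [Function.update_of_ne (by omega)]
      exact hfd i (by omega)
    · rw [Function.update_self]; exact hd
  · rw [Function.update_self]
  · rw [Function.update_self]

/-- the invariant -/
def Inv (c : Cert) (n : ℕ) (x : ℕ → Option ℕ) (a : ℕ → Option L) : Prop :=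
  ∃ z ∈ c.sup, z.1 = x n ∧ ∀ u ∈ z.2, Real c n a u.1 u.2

theorem ush_sh {v w : List ℤ} (h : v.length = w.length) : ush (sh v w) w = v := by
  unfold ush sh
  induction v generalizing w with
  | nil => simp
  | cons x v ih =>
    cases w with
    | nil => simp at h
    | cons y w =>
      simp only [List.zipWith_cons_cons]
      rw [ih (by simpa using h)]
      simp

theorem step_none (hc2 : c.Vc2) {n : ℕ} {x : ℕ → Option ℕ} {a : ℕ → Option L}
    (hi : Inv c n x a) (ha : a n = none) (hx : x n ≠ some 0) :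
    ∃ z' ∈ c.sup, z'.1 = none ∧ (∀ u ∈ z'.2, Real c (n + 1) a u.1 u.2) ∧
      (x n = none → ∀ g ∈ c.ga ++ c.gb, (none, g) ∈ z'.2) := by
  obtain ⟨z, hz, hz1, hr⟩ := hi
  obtain ⟨z', hz', hz1', hu, hg⟩ := hc2 z hz (by rw [hz1]; exact hx)
  refine ⟨z', hz', hz1', ?_, fun hxn => hg (by rw [hz1, hxn])⟩
  intro u huz
  obtain ⟨hud, y, hy, e, he, h1, h2, h3, h4⟩ := hu u huz
  refine real_succ (hr y hy) h4 (Or.inl ?_) hud
  rw [ha, ← h1, ← h2, ← h3]
  exact he

theorem step (h2 : c.Va2) (hc1 : c.Vc1) (hc2 : c.Vc2) (hc3 : c.Vc3) (hc4 : c.Vc4) {n : ℕ}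
    {x : ℕ → Option ℕ} {a : ℕ → Option L} (hi : Inv c n x a)
    (he : c.extP (x n) (a n) (x (n + 1))) : Inv c (n + 1) x a := by
  rcases ha : a n with _ | l
  · -- the letter is `none`
    have hx : x (n + 1) = none ∧ x n ≠ some 0 := by
      rcases he with ⟨e, _, _, h, _⟩ | ⟨h, _⟩ | ⟨_, h, h'⟩
      · rw [ha] at h; exact absurd h (by simp)
      · exact absurd ha h
      · exact ⟨h, h'⟩
    obtain ⟨z', hz', hz1, hr, _⟩ := step_none hc2 hi ha hx.2
    exact ⟨z', hz', by rw [hz1, hx.1], hr⟩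
  · obtain ⟨z, hz, hz1, hr⟩ := hi
    by_cases hl : l ∈ c.zp
    · have hok : c.okP l := by
        rcases he with ⟨e, he, _, h, _⟩ | ⟨_, h, _⟩ | ⟨h, _⟩
        · rw [ha] at h
          rw [Option.some.inj h]
          exact (h2.2.2.1 e he).1
        · rw [ha] at h; exact h
        · rw [ha] at h; exact absurd h (by simp)
      obtain ⟨z', hz', hz1', hu⟩ := hc3 z hz l hl (x (n + 1)) (mem_xs he)
        (by rw [hz1, ← ha]; exact he)
      refine ⟨z', hz', hz1', ?_⟩
      intro u huz
      obtain ⟨hud, y, hy, h⟩ := hu u huz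
      rcases h with ⟨e, he', h1, h3, h4, h5⟩ | ⟨g, hg, h1, h3, h4, h5⟩
      · refine real_succ (hr y hy) h5 (Or.inl ?_) hud
        rw [ha, ← h1, ← h3, ← h4]
        exact he'
      · refine real_succ (hr y hy) h5 (Or.inr ⟨g, hg, h1, h4, ?_, ?_, ?_⟩) hud
        · rw [ha, h3]; rfl
        · rw [ha]; rfl
        · rw [ha]; exact hok
    · have hlz : l ∉ c.zone := fun h => hl (hc1.2.1 l h)
      have hgen : c.okP l ∧ ∃ e ∈ c.tg, x n = some e.1 ∧ l.1 = e.2.1 ∧ x (n + 1) = some e.2.2 := by
        rcases he with ⟨e, he, _, h, _⟩ | ⟨_, h, _, h'⟩ | ⟨h, _⟩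
        · rw [ha] at h
          rw [Option.some.inj h] at hlz
          exact absurd (h2.2.2.1 e he).2 hlz
        · rw [ha] at h h'
          exact ⟨h, h'⟩
        · rw [ha] at h; exact absurd h (by simp)
      obtain ⟨hok, e, he', hx1, hl1, hx2⟩ := hgen
      obtain ⟨z', hz', hz1', hu⟩ := hc4 z hz e he' (by rw [hz1, hx1])
      refine ⟨z', hz', by rw [hz1', hx2], ?_⟩
      intro u huz
      obtain ⟨hud, y, hy, g, hg, h1, h3, h4, b, hb, hb1, hyb, hub⟩ := hu u huz
      have hlen : g.2.2.2.2.length = c.rkf g.2.1 := (h2.1 g hg).1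
      have hlen2 : c.rkf g.2.2.1 = c.rkf g.2.1 := (h2.1 g hg).2
      have hgl : g.2.1 = l.1 := by rw [h3, hl1]
      have hll : l.2.length = g.2.2.2.2.length := by
        rw [hlen, hgl]; exact hok
      refine real_succ (t := some (g.2.2.1, sh l.2 g.2.2.2.2)) (hr y hy) ?_
        (Or.inr ⟨g, hg, h1, h4, ?_, ?_, ?_⟩) hud
      · refine Or.inr (Or.inl ⟨by simp, ?_, ?_, b, hb, hyb, ?_, hub⟩)
        · show (sh l.2 g.2.2.2.2).length = c.rkf g.2.2.1
          unfold sh
          rw [List.length_zipWith, hll, min_self, hlen, hlen2]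
        · intro hz
          apply hl
          have h5 := hc1.2.2 g hg _ hz rfl
          have h6 : (g.2.1, ush (sh l.2 g.2.2.2.2) g.2.2.2.2) = l := by
            rw [ush_sh hll, hgl]
          rw [← h6]
          exact h5
        · show g.2.2.1 = b.2.1
          exact hb1.symm
      · rw [ha, hgl]; rfl
      · rw [ha]; rfl
      · rw [ha]; exact hok

theorem inv_of_path (h1 : 1 ∈ c.dl) (h2 : c.Va2) (hc1 : c.Vc1) (hc2 : c.Vc2) (hc3 : c.Vc3)
    (hc4 : c.Vc4) {n : ℕ} {x : ℕ → Option ℕ} {a : ℕ → Option L} (hp : c.pre.Path n x a) :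
    ∀ m ≤ n, Inv c m x a := by
  intro m
  induction m with
  | zero =>
    intro _
    refine ⟨_, hc1.1, ?_, ?_⟩
    · rw [hp.1]; rfl
    · intro u hu
      rw [List.mem_singleton] at hu
      rw [hu]
      exact real_zero h1 a
  | succ m ih =>
    intro hm
    exact step h2 hc1 hc2 hc3 hc4 (ih (by omega)) (ext_iff.2 (hp.2 m (by omega)))

end SupAux

open SupAux in
theorem total (h1 : 1 ∈ c.dl) (h2 : c.Va2) (hc1 : c.Vc1) (hc2 : c.Vc2) (hc3 : c.Vc3) (hc4 : c.Vc4) :
    ∀ g ∈ c.ga ++ c.gb, c.pre.Total g := by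
  intro g hg n x a hp hx ha
  have hi := inv_of_path h1 h2 hc1 hc2 hc3 hc4 hp n le_rfl
  obtain ⟨z', -, -, hr, hgz⟩ := step_none hc2 hi ha (by rw [hx]; simp)
  obtain ⟨y, b, f, h3, h4, h5, h6, h7⟩ := hr (none, g) (hgz hx g hg)
  exact ⟨y, b, f, h3, h4, h5, h6, h7⟩

end Cert
end Pool.Agent.Lib.P77fd2d
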