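import Pool.Agent.Lib.P77fd2d.CertAlg
import Pool.Agent.Lib.P77fd2d.CertReach
import Pool.Agent.Lib.P77fd2d.CertSup
import Pool.Agent.Lib.P77fd2d.Action

/-!
# MODULE P77fd2d.CertSound  (0.8h)   black boxes: CertAlg, CertReach, CertSup, Action

A valid certificate refutes membership.

`c.pre.Ok` from the theorems of CertAlg, CertReach (Va1 gives the small conditions).
`WC` with gc := c.gc, J := {l | l.1 ∈ c.j0 ∧ c.okP l}, base := c.base, xw := c.xw:
 * gc_S: Vd1 for k < P.1 (List.mem_range), c.gc l is an element of ga or gb (getD at k < length) so `total` applies.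
 * gc_out: getD beyond the length gives 0.
 * evaluation: lemma `(c.evc w).2 = true → c.pre.Ev c.gc w (c.evc w).1` by induction on w (foldr).
 * rel, y, fw: Vd1, Vd2, Vd3 (`nd_iff`); for fw: for l ∈ J take g with g.f = l.1 and l' = (g.f', sh l.2 g.w), ok because rk f' = rk f and
   lengths (Va2); the generic square.
 * J_run: Vd4: if l ∈ zone, explicit transition; otherwise the generic one (if the second alternative holds, rk = 0 so l = (f, []) ∈ zone).
 * xw_run, w_xw: Vd5.  * sep: Vd6: a square nd 1 (some l) (some xw) 0 is explicit (first part, gl (some l) = l) or generic (second part: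
   some xw = some (g.f', _) so g.f' = xw.1).
-/

namespace Pool.Agent.Lib.P77fd2d
namespace CertSoundAux

theorem ok {P : Pres} {Fw Y : List Word} {w : Word} {c : Cert}
    (h : Valid P Fw Y w c) : c.pre.Ok where
  wf_gen := Cert.wf_gen h.a2
  wf_exp := Cert.wf_exp h.a2
  wf_tr := Cert.wf_tr h.a2
  S_D := fun d hd => (h.a1.2.2.2.2.2.2.1 d hd).1
  one_S := h.a1.1
  star_D := h.a1.2.1
  star_S := h.a1.2.2.1
  inv_one := h.a1.2.2.2.1
  inv_star := h.a1.2.2.2.2.1
  mul_star := h.a1.2.2.2.2.2.1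
  inv_D := h.a1.2.2.2.2.2.2.2
  one_mul := fun d hd => (h.a1.2.2.2.2.2.2.1 d hd).2.1
  mul_one := fun d hd => (h.a1.2.2.2.2.2.2.1 d hd).2.2.1
  inv_mul := fun d hd => (h.a1.2.2.2.2.2.2.1 d hd).2.2.2
  nd_none := Cert.nd_none h.a3
  nd_none' := Cert.nd_none' h.a3
  nd_inv := Cert.nd_inv h.a2 h.a4
  nd_mul := Cert.nd_mul h.a2 h.a5
  step_ne := Cert.step_ne h.a6
  step_star := Cert.step_star h.a2 h.a6
  step_one := Cert.step_one h.a2 h.a6
  noreturn := Cert.noreturn h.a1.2.1 h.a2 h.b1 h.b2 h.b3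

theorem ev {c : Cert} (w : Word) (h : (c.evc w).2 = true) : c.pre.Ev c.gc w (c.evc w).1 := by
  induction w with
  | nil => exact Pre.Ev.nil
  | cons l w ih =>
    have e : c.evc (l :: w) = (c.mulf (c.gc l) (c.evc w).1,
      (c.evc w).2 && decide (c.mulf (c.gc l) (c.evc w).1 ∈ c.sl)) := rfl
    rw [e] at h ⊢
    simp only [Bool.and_eq_true, decide_eq_true_eq] at h
    exact Pre.Ev.cons (ih h.1) h.2

theorem getD_mem {l : List ℕ} {k : ℕ} (h : k < l.length) : l.getD k 0 ∈ l := by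
  rw [List.getD_eq_getElem _ _ h]
  exact List.getElem_mem h

end CertSoundAux

open CertSoundAux in
theorem not_mem_of_valid {P : Pres} {Fw Y : List Word} {w : Word} {c : Cert}
    (h : Valid P Fw Y w c) : ¬ Mem P Fw Y w := by
  have htot := Cert.total h.a1.2.1 h.a2 h.c1 h.c2 h.c3 h.c4
  obtain ⟨hga, hgb, hd1, hd1r⟩ := h.d1
  refine not_mem_of_machine (ok h) (gc := c.gc) (J := {l | l.1 ∈ c.j0 ∧ c.okP l})
    (base := c.base) (xw := c.xw) ?_
  constructor
  · rintro ⟨k, b⟩ hk
    have hk' : k < P.1 := hk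
    obtain ⟨h1, h2, h3, h4⟩ := hd1 k (List.mem_range.2 hk')
    cases b with
    | true =>
      refine ⟨h1, ?_, h3⟩
      apply htot
      exact List.mem_append_left _ (getD_mem (by rw [hga]; exact hk'))
    | false =>
      refine ⟨h2, ?_, h4⟩
      apply htot
      exact List.mem_append_right _ (getD_mem (by rw [hgb]; exact hk'))
  · rintro ⟨k, b⟩ hk
    have hk' : P.1 ≤ k := Nat.le_of_not_lt hk
    cases b with
    | true =>
      show c.ga.getD k 0 = 0
      exact List.getD_eq_default _ _ (by rw [hga]; exact hk')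
    | false =>
      show c.gb.getD k 0 = 0
      exact List.getD_eq_default _ _ (by rw [hgb]; exact hk')
  · intro r hr
    have h1 := hd1r r hr
    have h2 := ev (c := c) r (by rw [h1])
    rw [h1] at h2
    exact h2
  · intro y hy
    obtain ⟨h1, h2⟩ := h.d2 y hy
    exact ⟨_, ev y h1, Cert.nd_iff.1 h2⟩
  · intro v hv u hu
    obtain ⟨h1, h2⟩ := h.d3 v hv u (by simpa using hu)
    refine ⟨_, ev u h1, ?_⟩
    rintro ⟨f, v'⟩ ⟨hf, hok⟩
    obtain ⟨⟨d, f1, f', d', w'⟩, hg, e1, e2, e3, e4⟩ := h2 f hf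
    simp only at e1 e2 e3 e4
    subst e1 e2 e3
    obtain ⟨l1, l2⟩ := h.a2.1 _ hg
    simp only at l1 l2
    have hok' : v'.length = c.rkf f1 := hok
    refine ⟨(f', sh v' w'), ⟨e4, ?_⟩, Or.inr ⟨f1, v', f', w', rfl, rfl, hok, hg⟩⟩
    show (sh v' w').length = c.rkf f'
    unfold sh
    rw [List.length_zipWith, l1, hok', min_self, l2]
  · rintro l ⟨hl1, hl2⟩
    obtain ⟨h1, h2⟩ := h.d4 l.1 hl1
    by_cases hz : l ∈ c.zone
    · obtain ⟨⟨q, l', q'⟩, he, e1, e2⟩ := h2 l hz rfl
      simp only at e1 e2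
      subst e1 e2
      exact ⟨q', Or.inl he⟩
    · rcases h1 with ⟨⟨q, f, q'⟩, ha, e1, e2⟩ | ⟨h3, h4⟩
      · simp only at e1 e2
        subst e1 e2
        exact ⟨q', Or.inr ⟨hl2, hz, ha⟩⟩
      · exfalso
        apply hz
        have h5 : l.2.length = 0 := by
          have : l.2.length = c.rkf l.1 := hl2
          rw [this, h3]
        have h6 : l = (l.1, []) := by
          rw [← List.eq_nil_of_length_eq_zero h5]
        rw [h6]
        exact h4
  · exact ⟨h.d5.1, h.d5.2.1⟩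
  · obtain ⟨⟨q, l, q'⟩, he, e1, e2⟩ := h.d5.2.2.1
    simp only at e1 e2
    subst e1
    rw [← e2]
    exact ⟨q', Or.inl he⟩
  · exact ⟨_, ev _ h.d5.2.2.2.1, Cert.nd_iff.1 h.d5.2.2.2.2⟩
  · rintro l ⟨hl1, hl2⟩ hn
    rcases hn with he | ⟨f, v, f', w', e1, e2, _, hg⟩
    · exact h.d6.1 _ he rfl rfl rfl (by simp) hl1
    · have e1' : l = (f, v) := Option.some.inj e1
      have e2' : c.xw = (f', sh v w') := Option.some.inj e2
      refine h.d6.2 _ hg rfl rfl ?_ ?_
      · rw [e1'] at hl1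
        exact hl1
      · rw [e2']

end Pool.Agent.Lib.P77fd2d
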