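import Pool.Agent.Lib.P77fd2d.Iso

/-!
# MODULE P77fd2d.Close  (1.5h)   black boxes: `slim`, `iso`

Vertices of a geodesic are close in the WORD metric to vertices of a broken geodesic with the same ends.

PROOF.  Let T, D be the constants of `slim`, `iso`; claim K = m T ((m+3) D + 1).
Let x = ev u1 be a vertex of u = u1 ++ u2.  Among all pairs (y, r), y = ev w1 a vertex of w
(w = w1 ++ w2), r an `Ok` word with ev r = x⁻¹ y, choose one minimising first `r.length` and then
the sum over the letters of r of `wl` of the letter (e.g. minimise the lexicographic pair, or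
two successive `Nat.find`s / well-founded minimum).  Then r is geodesic and, by `slim`, r.length ≤ m T.
Claim: every letter s of r has wl s.2 ≤ (m+3) D + 1; then wl (x⁻¹ y) ≤ sum ≤ K.
For a letter of A: wl ≤ 1.  Let r = r1 ++ (some i, p) :: r2, z = x ev r1, z' = z p, and O = z P i.
(take g := z⁻¹, i.e. use NoE i (z⁻¹ * start) for paths from `start`; z is in O.)
Since u is geodesic it has at most one O-edge (`geo_noE`), so the part of u before x or the
part of u after x has no O-edge.  Choose such a side and let e be its endpoint (e = 1 or e = ev u =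
ev w).  Say the side is u2, e = ev u (the case of u1 is symmetric, using `inv`).
The path from z' to z:  r2 (z' → y), w2 (y → e), inv u2 (e → x), r1 (x → z): Brk (m + 3).
r1, r2 have no O-edges because r is geodesic with an O-edge there (`geo_noE`), inv u2 has none.
 * If w2 has no O-edge: `iso` gives wl (p⁻¹) ≤ (m+3) D.
 * If w2 has a vertex in O (in particular if it has an O-edge): let q be the LAST vertex of w2 in O
   (first one when walking from e: apply `first_mem` to inv w2); the part of w2 from q to e has no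
   O-edges.  Minimality: x → z → q is a path with r1.length + 1 letters (the last letter is (some i, z⁻¹ q));
   it ends at a vertex of w, so r.length ≤ r1.length + 1, hence r2 = [].  The alternative
   r' = r1 ++ [(some i, z⁻¹ q)] has the same length, so by minimality of the sum
   wl p ≤ wl (z⁻¹ q).  And the path q → e (part of w2), e → x (inv u2), x → z (r1) is Brk (m+2) without
   O-edges: wl (z⁻¹ q) ≤ (m+2) D.
-/

namespace Pool.Agent.Lib.P77fd2d
variable {ι G : Type} [Group G]
namespace RH
variable {S : RH ι G}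

/-- sum of the word lengths of the letters -/
private noncomputable def sw (S : RH ι G) (r : List (Ltr ι G)) : ℕ :=
  (r.map (fun s => S.wl s.2)).sum

private theorem sw_append (r t : List (Ltr ι G)) : sw S (r ++ t) = sw S r + sw S t := by
  simp [sw]

private theorem sw_cons (s : Ltr ι G) (t : List (Ltr ι G)) :
    sw S (s :: t) = S.wl s.2 + sw S t := by
  simp [sw]

private theorem wl_ev_le (hS : S.Good) (r : List (Ltr ι G)) (B : ℕ)
    (h : ∀ s ∈ r, S.wl s.2 ≤ B) : S.wl (ev r) ≤ r.length * B := by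
  induction r with
  | nil => simp
  | cons s r ih =>
    have h1 := ih (fun t ht => h t (by simp [ht]))
    have h2 := h s (by simp)
    have h3 := wl_mul hS s.2 (ev r)
    rw [ev_cons, List.length_cons, Nat.succ_mul]
    omega

/-- the common part of the two sides -/
private theorem side (hS : S.Good) {D : ℕ}
    (hD : ∀ (m : ℕ) (i : ι) (g : G) (w : List (Ltr ι G)),
      S.Brk m w → g ∈ S.P i → g * ev w ∈ S.P i → S.NoE i g w → S.wl (ev w) ≤ m * D)
    {m : ℕ} {i : ι} {e x z p : G} {v t r r1 r2 : List (Ltr ι G)}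
    (hv : S.Geo v) (hx : x = e * ev v) (hr : r = r1 ++ (some i, p) :: r2) (hgr : S.Geo r)
    (hz : z = x * ev r1) (ht : S.Brk m t) (hy : x * ev r = e * ev t)
    (hno : S.NoE i (z⁻¹ * e) v)
    (hmin : ∀ t1 t2 r', t = t1 ++ t2 → S.Ok r' → x * ev r' = e * ev t1 →
      r.length ≤ r'.length ∧ (r'.length = r.length → sw S r ≤ sw S r')) :
    S.wl p ≤ (m + 3) * D := by
  subst hr
  have hok := hgr.1
  rw [ok_append, ok_cons] at hok
  have hp : p ∈ S.P i := hok.2.1
  have h1 : z⁻¹ * x * ev r1 = 1 := by rw [hz]; group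
  have hgn := geo_noE hS (g := z⁻¹ * x) hgr (by rw [h1]; exact (S.P i).one_mem)
  obtain ⟨hn1, hn2⟩ := hgn
  rw [h1, one_mul] at hn2
  have hgr1 : S.Geo r1 := (geo_append hS hgr).1
  have hgr2 : S.Geo r2 := by
    have := (geo_append hS hgr).2
    have h3 : S.Geo ([(some i, p)] ++ r2) := by simpa using this
    exact (geo_append hS h3).2
  have hzx : z⁻¹ * e * ev v = z⁻¹ * x := by rw [hx]; group
  rcases first_mem (S := S) i (z⁻¹ * e) t with hA | ⟨t1, t2, htt, hq, hnt⟩
  · -- no vertex of `t` in the coset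
    have hnt : S.NoE i (z⁻¹ * e) t := noE_of_notMem hA
    have hpy : p * ev r2 = z⁻¹ * e * ev t := by
      rw [mul_assoc, ← hy, ev_append, ev_cons, hz]
      simp only
      group
    have hbrk : S.Brk (1 + (m + (1 + 1))) (r2 ++ (inv t ++ (v ++ r1))) :=
      brk_append (brk_of_geo hgr2) (brk_append (brk_inv hS ht)
        (brk_append (brk_of_geo hv) (brk_of_geo hgr1)))
    have hval : p * ev (r2 ++ (inv t ++ (v ++ r1))) = 1 := by
      rw [ev_append, ← mul_assoc, hpy, ev_append, ev_inv, ev_append]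
      have : z⁻¹ * e * ev t * ((ev t)⁻¹ * (ev v * ev r1)) = z⁻¹ * e * ev v * ev r1 := by group
      rw [this, hzx, h1]
    have hN : S.NoE i p (r2 ++ (inv t ++ (v ++ r1))) := by
      rw [noE_append, noE_append, noE_append]
      refine ⟨hn2, ?_, ?_, ?_⟩
      · rw [hpy]
        exact noE_inv (brk_ok ht) hnt
      · rw [hpy, ev_inv]
        have : z⁻¹ * e * ev t * (ev t)⁻¹ = z⁻¹ * e := by group
        rw [this]
        exact hno
      · rw [hpy, ev_inv]
        have : z⁻¹ * e * ev t * (ev t)⁻¹ * ev v = z⁻¹ * x := by rw [← hzx]; group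
        rw [this]
        exact hn1
    have := hD _ i p _ hbrk hp (by rw [hval]; exact (S.P i).one_mem) hN
    have hval' : ev (r2 ++ (inv t ++ (v ++ r1))) = p⁻¹ := eq_inv_of_mul_eq_one_right hval
    rw [hval', wl_inv hS] at this
    have e1 : 1 + (m + (1 + 1)) = m + 3 := by omega
    rw [e1] at this
    exact this
  · -- `q = e * ev t1` in the coset
    have hq' : (z⁻¹ * (e * ev t1)) ∈ S.P i := by rw [← mul_assoc]; exact hq
    have hok' : S.Ok (r1 ++ [(some i, z⁻¹ * (e * ev t1))]) := by
      rw [ok_append, ok_cons]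
      exact ⟨hok.1, hq', ok_nil⟩
    have hm := hmin t1 t2 (r1 ++ [(some i, z⁻¹ * (e * ev t1))]) htt hok' (by
      rw [ev_append, ev_cons, ev_nil, hz]
      simp only
      group)
    obtain ⟨hm1, hm2⟩ := hm
    simp only [List.length_append, List.length_cons, List.length_nil] at hm1
    have hr2 : r2 = [] := List.length_eq_zero_iff.1 (by omega)
    subst hr2
    have hm3 := hm2 (by simp)
    rw [sw_append, sw_append, sw_cons, sw_cons] at hm3
    simp only at hm3
    have hm4 : S.wl p ≤ S.wl (z⁻¹ * (e * ev t1)) := by omega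
    have hb1 : S.Brk m t1 := (brk_split hS ht t1 t2 htt).1
    have hbrk : S.Brk (m + (1 + 1)) (inv t1 ++ (v ++ r1)) :=
      brk_append (brk_inv hS hb1) (brk_append (brk_of_geo hv) (brk_of_geo hgr1))
    have hval : z⁻¹ * (e * ev t1) * ev (inv t1 ++ (v ++ r1)) = 1 := by
      rw [ev_append, ev_append, ev_inv]
      have : z⁻¹ * (e * ev t1) * ((ev t1)⁻¹ * (ev v * ev r1)) = z⁻¹ * e * ev v * ev r1 := by group
      rw [this, hzx, h1]
    have hN : S.NoE i (z⁻¹ * (e * ev t1)) (inv t1 ++ (v ++ r1)) := by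
      rw [noE_append, noE_append]
      refine ⟨?_, ?_, ?_⟩
      · have := noE_inv (brk_ok hb1) hnt
        rw [mul_assoc] at this
        exact this
      · rw [ev_inv]
        have : z⁻¹ * (e * ev t1) * (ev t1)⁻¹ = z⁻¹ * e := by group
        rw [this]
        exact hno
      · rw [ev_inv]
        have : z⁻¹ * (e * ev t1) * (ev t1)⁻¹ * ev v = z⁻¹ * x := by rw [← hzx]; group
        rw [this]
        exact hn1
    have h5 := hD _ i _ _ hbrk hq' (by rw [hval]; exact (S.P i).one_mem) hN
    have hval' : ev (inv t1 ++ (v ++ r1)) = (z⁻¹ * (e * ev t1))⁻¹ := eq_inv_of_mul_eq_one_right hval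
    rw [hval', wl_inv hS] at h5
    have h6 : (m + (1 + 1)) * D ≤ (m + 3) * D := Nat.mul_le_mul_right D (by omega)
    omega

theorem close [Finite ι] (hS : S.Good) : ∀ m : ℕ, ∃ K : ℕ, ∀ u w : List (Ltr ι G), S.Geo u →
    S.Brk m w → ev w = ev u → ∀ u1 u2, u = u1 ++ u2 →
      ∃ w1 w2, w = w1 ++ w2 ∧ S.wl ((ev u1)⁻¹ * ev w1) ≤ K := by
  classical
  obtain ⟨T, hT⟩ := slim hS
  obtain ⟨D, hD⟩ := iso hS
  intro m
  refine ⟨m * T * ((m + 3) * D + 1), ?_⟩
  intro u w hu hw hwu u1 u2 huu
  -- candidates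
  have hex : ∃ n, ∃ s w1 w2 r, w = w1 ++ w2 ∧ S.Ok r ∧ ev u1 * ev r = ev w1 ∧ r.length = n ∧
      sw S r = s := by
    obtain ⟨r, hr1, hr2⟩ := exists_ok hS ((ev u1)⁻¹ * ev w)
    exact ⟨r.length, sw S r, w, [], r, by simp, hr1, by rw [hr2]; group, rfl, rfl⟩
  have hex2 := Nat.find_spec hex
  have hmin1 := fun k (hk : k < Nat.find hex) => Nat.find_min hex hk
  have hmin2 := fun k (hk : k < Nat.find hex2) => Nat.find_min hex2 hk
  obtain ⟨w1, w2, r, hww, hokr, hxr, hrl, hrs⟩ := Nat.find_spec hex2
  have hmin : ∀ w1' w2' r', w = w1' ++ w2' → S.Ok r' → ev u1 * ev r' = ev w1' →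
      r.length ≤ r'.length ∧ (r'.length = r.length → sw S r ≤ sw S r') := by
    intro w1' w2' r' h1 h2 h3
    constructor
    · by_contra hlt
      push Not at hlt
      rw [hrl] at hlt
      exact hmin1 _ hlt ⟨sw S r', w1', w2', r', h1, h2, h3, rfl, rfl⟩
    · intro h4
      by_contra hlt
      push Not at hlt
      rw [hrs] at hlt
      exact hmin2 _ hlt ⟨w1', w2', r', h1, h2, h3, by rw [h4, hrl], rfl⟩
  have hgr : S.Geo r := by
    refine ⟨hokr, ?_⟩
    obtain ⟨r', hr1, hr2⟩ := exists_geo hS (ev r)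
    have h1 := (hmin w1 w2 r' hww hr1.1 (by rw [hr2, hxr])).1
    have h2 := hr1.2
    rw [hr2] at h2
    have h3 := rl_le hokr
    omega
  have hlen : r.length ≤ m * T := by
    obtain ⟨w1', w2', h1, h2⟩ := hT m u w hu hw hwu u1 u2 huu
    obtain ⟨r', hr1, hr2⟩ := exists_geo hS ((ev u1)⁻¹ * ev w1')
    have h3 := (hmin w1' w2' r' h1 hr1.1 (by rw [hr2]; group)).1
    have h4 := hr1.2
    rw [hr2] at h4
    omega
  refine ⟨w1, w2, hww, ?_⟩
  have hev : (ev u1)⁻¹ * ev w1 = ev r := by rw [← hxr]; group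
  rw [hev]
  refine (wl_ev_le hS r ((m + 3) * D + 1) ?_).trans (Nat.mul_le_mul_right _ hlen)
  rintro ⟨o, p⟩ hs
  simp only
  cases o with
  | none =>
    have : p ∈ S.A := hokr _ hs
    have := wl_le_one this
    omega
  | some i =>
    obtain ⟨r1, r2, hr⟩ := List.append_of_mem hs
    suffices h : S.wl p ≤ (m + 3) * D by omega
    subst huu
    obtain ⟨hgu1, hgu2⟩ := geo_append hS hu
    subst hww
    obtain ⟨hb1, hb2⟩ := brk_split hS hw w1 w2 rfl
    rcases noE_or (S := S) i ((ev u1 * ev r1)⁻¹ * 1) u1 with hno | ⟨a, q, b, hab, haP⟩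
    · refine side hS hD (e := 1) (x := ev u1) (v := u1) (t := w1) hgu1 (by simp) hr hgr rfl hb1
        (by rw [hxr, one_mul]) hno ?_
      intro t1 t2 r' h1 h2 h3
      refine hmin t1 (t2 ++ w2) r' (by rw [h1]; simp) h2 (by rw [h3, one_mul])
    · have hno : S.NoE i ((ev u1 * ev r1)⁻¹ * ev u1) u2 := by
        have hg : S.Geo (a ++ (some i, q) :: (b ++ u2)) := by
          rw [hab] at hu
          simpa using hu
        have h2 := (geo_noE hS hg haP).2
        rw [noE_append] at h2
        have h3 := h2.2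
        have h4 : (ev u1 * ev r1)⁻¹ * 1 * ev a * q * ev b = (ev u1 * ev r1)⁻¹ * ev u1 := by
          have : ev u1 = ev a * (q * ev b) := by rw [hab]; simp
          rw [mul_one, mul_assoc, mul_assoc, ← this]
        rw [h4] at h3
        exact h3
      refine side hS hD (e := ev (u1 ++ u2)) (x := ev u1) (v := inv u2) (t := inv w2)
        (geo_inv hS hgu2) (by simp) hr hgr rfl (brk_inv hS hb2) ?_ ?_ ?_
      · rw [hxr, ← hwu]; simp
      · have := noE_inv hgu2.1 hno
        simpa [mul_assoc] using this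
      · intro t1 t2 r' h1 h2 h3
        have h4 : w2 = inv t2 ++ inv t1 := by
          have := congrArg inv h1
          simpa using this
        refine hmin (w1 ++ inv t2) (inv t1) r' (by rw [h4]; simp) h2 ?_
        rw [h3, ← hwu, h4]
        simp [mul_assoc]

end RH
end Pool.Agent.Lib.P77fd2d
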