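import Pool.Agent.Lib.P77fd2d.NiceDef

/-!
# MODULE P77fd2d.Transfer  (1.8h)   no black box

Transport of a machine along injective codings.

p' := p.map cF cD cX.  Basic facts (cF, cD, cX injective):
 * rk' (cF f) = rk f; rk' n = 0 if n is not a code; `ok' (cF f, v) ↔ ok (f, v)`.
 * mul' (cD d) (cD e) = cD (mul d e) for d, e ∈ inD (the chosen pair is (d,e) by injectivity); inv' (cD d) = cD (inv d) for d ∈ inD.
 * nd' a s t a' ↔ ∃ d s0 t0 d', a = cD d, s = cOL cF s0, t = cOL cF t0, a' = cD d', nd d s0 t0 d'.  [explicit and generic cases; in the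
   generic case of nd' the letter (f', v) has f' = cF f.]
 * step', ext' similarly (Option.map cX on padded states); st0' = cX st0.
 * a path of p' of length n is the image of a path of p of length n (build x0, a0 by choice index by index: x 0 = some (cX st0); every
   later x i is in the image; choose preimages of x i and a i - they are unique by injectivity, so that the
   consecutive transitions fit), conversely images of paths are paths; the same for Diff.  Outside the range of indices define by a default value, e.g. the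
   preimage if there is one and none/star otherwise.
 * Ev' (cD ∘ gc) w e' ↔ / ← Ev gc w e, e' = cD e (only ← needed; values e ∈ inS ⊆ inD; note gc l ∈ inD for all l is needed for mul':
   gc l ∈ inS or gc l = one ∈ inS: hypotheses `gc_S`, `gc_out`).
Then all fields of Ok, Nice, WN, Norm are transported one by one.
-/

namespace Pool.Agent.Lib.P77fd2d
variable {F D X : Type} {p : Pre F D X} {cF : F → ℕ} {cD : D → ℕ} {cX : X → ℕ}

open Pre

/-! ### basic facts -/

open scoped Classical in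

private theorem rk_map (hF : cF.Injective) (f : F) : (p.map cF cD cX).rk (cF f) = p.rk f := by
  have h : ∃ g, cF g = cF f := ⟨f, rfl⟩
  have e : (p.map cF cD cX).rk (cF f) = p.rk h.choose := by
    show (if h : ∃ g, cF g = cF f then p.rk h.choose else 0) = _
    rw [dif_pos h]
  rw [e, hF h.choose_spec]

open scoped Classical in
private theorem rk_map_ne {n : ℕ} (h : (p.map cF cD cX).rk n ≠ 0) :
    ∃ f, cF f = n ∧ p.rk f ≠ 0 := by
  by_cases hc : ∃ g, cF g = n
  · have e : (p.map cF cD cX).rk n = p.rk hc.choose := by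
      show (if h : ∃ g, cF g = n then p.rk h.choose else 0) = _
      rw [dif_pos hc]
    exact ⟨hc.choose, hc.choose_spec, by rw [← e]; exact h⟩
  · exfalso
    apply h
    show (if h : ∃ g, cF g = n then p.rk h.choose else 0) = _
    rw [dif_neg hc]

open scoped Classical in
private theorem mul_map (hD : cD.Injective) {d e : D} (hd : d ∈ p.inD) (he : e ∈ p.inD) :
    (p.map cF cD cX).mul (cD d) (cD e) = cD (p.mul d e) := by
  have h : ∃ q : D × D, q.1 ∈ p.inD ∧ q.2 ∈ p.inD ∧ cD q.1 = cD d ∧ cD q.2 = cD e :=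
    ⟨(d, e), hd, he, rfl, rfl⟩
  have e1 : (p.map cF cD cX).mul (cD d) (cD e) = cD (p.mul h.choose.1 h.choose.2) := by
    show (if h : ∃ q : D × D, q.1 ∈ p.inD ∧ q.2 ∈ p.inD ∧ cD q.1 = cD d ∧ cD q.2 = cD e then
      cD (p.mul h.choose.1 h.choose.2) else 0) = _
    rw [dif_pos h]
  rw [e1, hD h.choose_spec.2.2.1, hD h.choose_spec.2.2.2]

open scoped Classical in
private theorem inv_map (hD : cD.Injective) {d : D} (hd : d ∈ p.inD) :
    (p.map cF cD cX).inv (cD d) = cD (p.inv d) := by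
  have h : ∃ q, q ∈ p.inD ∧ cD q = cD d := ⟨d, hd, rfl⟩
  have e1 : (p.map cF cD cX).inv (cD d) = cD (p.inv h.choose) := by
    show (if h : ∃ q, q ∈ p.inD ∧ cD q = cD d then cD (p.inv h.choose) else 0) = _
    rw [dif_pos h]
  rw [e1, hD h.choose_spec.2]

private theorem okm (hF : cF.Injective) {f : F} {v : List ℤ} :
    (p.map cF cD cX).ok (cF f, v) ↔ p.ok (f, v) := by
  unfold Pre.ok
  simp only
  rw [rk_map hF]

private theorem okm' (hF : cF.Injective) {l : Lt F} :
    (p.map cF cD cX).ok (cF l.1, l.2) ↔ p.ok l := okm hF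

private theorem cOL_inj (hF : cF.Injective) {s t : Option (Lt F)}
    (h : cOL cF s = cOL cF t) : s = t := by
  cases s with
  | none =>
    cases t with
    | none => rfl
    | some t => simp [cOL] at h
  | some s =>
    cases t with
    | none => simp [cOL] at h
    | some t =>
      simp only [cOL, Option.map_some, Option.some.injEq, Prod.mk.injEq] at h
      exact congrArg some (Prod.ext (hF h.1) h.2)

private theorem mapX_inj (hX : cX.Injective) {s t : Option X}
    (h : s.map cX = t.map cX) : s = t := Option.map_injective hX h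

private theorem nd_map_iff (hF : cF.Injective) {a a' : ℕ} {s t : Option L} :
    (p.map cF cD cX).nd a s t a' ↔
      ∃ d s0 t0 d', cD d = a ∧ cOL cF s0 = s ∧ cOL cF t0 = t ∧ cD d' = a' ∧ p.nd d s0 t0 d' := by
  constructor
  · rintro (⟨⟨d, s0, t0, d'⟩, he, h⟩ | ⟨f, v, f', w, hs, ht, hok, ⟨⟨d, g, g', d', w'⟩, hg, h⟩⟩)
    · simp only [Prod.mk.injEq] at h
      exact ⟨d, s0, t0, d', h.1, h.2.1, h.2.2.1, h.2.2.2, Or.inl he⟩
    · simp only [Prod.mk.injEq] at h
      obtain ⟨h1, h2, h3, h4, h5⟩ := h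
      subst h2 h3 h5
      refine ⟨d, some (g, v), some (g', sh v w'), d', h1, by rw [hs]; rfl, by rw [ht]; rfl, h4,
        Or.inr ⟨g, v, g', w', rfl, rfl, (okm hF).1 hok, hg⟩⟩
  · rintro ⟨d, s0, t0, d', rfl, rfl, rfl, rfl, h | ⟨f, v, f', w, hs, ht, hok, hg⟩⟩
    · exact Or.inl ⟨(d, s0, t0, d'), h, rfl⟩
    · subst hs ht
      exact Or.inr ⟨cF f, v, cF f', w, rfl, rfl, (okm hF).2 hok, ⟨(d, f, f', d', w), hg, rfl⟩⟩

private theorem nd_map (hF : cF.Injective) (hD : cD.Injective) {d d' : D}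
    {s t : Option (Lt F)} :
    (p.map cF cD cX).nd (cD d) (cOL cF s) (cOL cF t) (cD d') ↔ p.nd d s t d' := by
  rw [nd_map_iff hF]
  constructor
  · rintro ⟨d1, s1, t1, d1', h1, h2, h3, h4, h⟩
    rw [← hD h1, ← hD h4, ← cOL_inj hF h2, ← cOL_inj hF h3]
    exact h
  · intro h
    exact ⟨d, s, t, d', rfl, rfl, rfl, rfl, h⟩

private theorem step_map_iff (hF : cF.Injective) {a b : ℕ} {l : L} :
    (p.map cF cD cX).step a l b ↔
      ∃ x l0 x', cX x = a ∧ (cF l0.1, l0.2) = l ∧ cX x' = b ∧ p.step x l0 x' := by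
  constructor
  · rintro (⟨⟨x, l0, x'⟩, he, h⟩ | ⟨hok, hz, ⟨⟨x, f, x'⟩, he, h⟩⟩)
    · simp only [Prod.mk.injEq] at h
      exact ⟨x, l0, x', h.1, h.2.1, h.2.2, Or.inl he⟩
    · simp only [Prod.mk.injEq] at h
      obtain ⟨h1, h2, h3⟩ := h
      have hl : ((cF f, l.2) : L) = l := by rw [h2]
      refine ⟨x, (f, l.2), x', h1, hl, h3, Or.inr ⟨?_, ?_, he⟩⟩
      · rw [← hl] at hok
        exact (okm hF).1 hok
      · intro hz'
        apply hz
        exact ⟨(f, l.2), hz', hl⟩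
  · rintro ⟨x, l0, x', rfl, rfl, rfl, h | ⟨hok, hz, he⟩⟩
    · exact Or.inl ⟨(x, l0, x'), h, rfl⟩
    · refine Or.inr ⟨(okm' hF).2 hok, ?_, ⟨(x, l0.1, x'), he, rfl⟩⟩
      rintro ⟨l1, hl1, h⟩
      simp only [Prod.mk.injEq] at h
      apply hz
      have : l1 = l0 := Prod.ext (hF h.1) h.2
      rw [← this]
      exact hl1

private theorem step_map (hF : cF.Injective) (hX : cX.Injective) {x x' : X} {l : Lt F} :
    (p.map cF cD cX).step (cX x) (cF l.1, l.2) (cX x') ↔ p.step x l x' := by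
  rw [step_map_iff hF]
  constructor
  · rintro ⟨x1, l1, x1', h1, h2, h3, h⟩
    simp only [Prod.mk.injEq] at h2
    have : l1 = l := Prod.ext (hF h2.1) h2.2
    rw [← hX h1, ← hX h3, ← this]
    exact h
  · intro h
    exact ⟨x, l, x', rfl, rfl, rfl, h⟩

private theorem ext_map_iff (hF : cF.Injective) (hX : cX.Injective) {x : Option X}
    {s : Option L} {v : Option ℕ} :
    (p.map cF cD cX).ext (x.map cX) s v ↔
      ∃ s0 x', cOL cF s0 = s ∧ x'.map cX = v ∧ p.ext x s0 x' := by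
  constructor
  · rintro (⟨q, l, q', hx, hs, hv, hst⟩ | ⟨hs, hv, hx⟩)
    · obtain ⟨y, l0, y', h1, h2, h3, h⟩ := (step_map_iff hF).1 hst
      subst h1 h2 h3 hs hv
      have hxy : x = some y := mapX_inj hX (by rw [hx]; rfl)
      exact ⟨some l0, some y', rfl, rfl, Or.inl ⟨y, l0, y', hxy, rfl, rfl, h⟩⟩
    · refine ⟨none, none, by rw [hs]; rfl, by rw [hv]; rfl, Or.inr ⟨rfl, rfl, ?_⟩⟩
      rintro rfl
      exact hx rfl
  · rintro ⟨s0, x', rfl, rfl, ⟨q, l, q', hx, hs, hv, hst⟩ | ⟨hs, hv, hx⟩⟩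
    · subst hx hs hv
      exact Or.inl ⟨cX q, (cF l.1, l.2), cX q', rfl, rfl, rfl, (step_map hF hX).2 hst⟩
    · subst hs hv
      refine Or.inr ⟨rfl, rfl, ?_⟩
      intro h
      apply hx
      exact mapX_inj hX (h.trans rfl)

/-! ### preimages -/

open Classical in
private noncomputable def gX (cX : X → ℕ) (u : Option ℕ) : Option X :=
  if h : ∃ x : Option X, x.map cX = u then h.choose else none

open Classical in
private noncomputable def gO (cF : F → ℕ) (u : Option L) : Option (Lt F) :=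
  if h : ∃ x : Option (Lt F), cOL cF x = u then h.choose else none

open Classical in
private noncomputable def gD (cD : D → ℕ) (d0 : D) (u : ℕ) : D :=
  if h : ∃ x : D, cD x = u then h.choose else d0

private theorem gX_map (hX : cX.Injective) (x : Option X) : gX cX (x.map cX) = x := by
  have h : ∃ y : Option X, y.map cX = x.map cX := ⟨x, rfl⟩
  have e : gX cX (x.map cX) = h.choose := by
    unfold gX
    rw [dif_pos h]
  rw [e]
  exact mapX_inj hX h.choose_spec

private theorem gO_map (hF : cF.Injective) (x : Option (Lt F)) : gO cF (cOL cF x) = x := by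
  have h : ∃ y : Option (Lt F), cOL cF y = cOL cF x := ⟨x, rfl⟩
  have e : gO cF (cOL cF x) = h.choose := by
    unfold gO
    rw [dif_pos h]
  rw [e]
  exact cOL_inj hF h.choose_spec

private theorem gD_map (hD : cD.Injective) (d0 x : D) : gD cD d0 (cD x) = x := by
  have h : ∃ y : D, cD y = cD x := ⟨x, rfl⟩
  have e : gD cD d0 (cD x) = h.choose := by
    unfold gD
    rw [dif_pos h]
  rw [e]
  exact hD h.choose_spec

private theorem path_pull (hF : cF.Injective) (hX : cX.Injective) {n : ℕ}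
    {x : ℕ → Option ℕ} {a : ℕ → Option L} (h : (p.map cF cD cX).Path n x a) :
    p.Path n (fun i => gX cX (x i)) (fun i => gO cF (a i)) ∧
      (∀ i ≤ n, (gX cX (x i)).map cX = x i) ∧ ∀ i < n, cOL cF (gO cF (a i)) = a i := by
  obtain ⟨h0, h1⟩ := h
  have hx : ∀ i ≤ n, (gX cX (x i)).map cX = x i := by
    intro i
    induction i with
    | zero =>
      intro _
      have e : x 0 = (some p.st0).map cX := h0
      rw [e, gX_map hX]
    | succ i ih =>
      intro hi
      have h2 := h1 i (by omega)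
      rw [← ih (by omega), ext_map_iff hF hX] at h2
      obtain ⟨s0, x', -, h4, -⟩ := h2
      rw [← h4, gX_map hX]
  have key : ∀ i < n, p.ext (gX cX (x i)) (gO cF (a i)) (gX cX (x (i + 1))) ∧
      cOL cF (gO cF (a i)) = a i := by
    intro i hi
    have h2 := h1 i hi
    rw [← hx i (by omega), ext_map_iff hF hX] at h2
    obtain ⟨s0, x', h3, h4, h5⟩ := h2
    rw [← h3, ← h4, gO_map hF, gX_map hX]
    exact ⟨h5, rfl⟩
  refine ⟨⟨?_, fun i hi => (key i hi).1⟩, hx, fun i hi => (key i hi).2⟩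
  show gX cX (x 0) = some p.st0
  have e : x 0 = (some p.st0).map cX := h0
  rw [e, gX_map hX]

private theorem path_push (hF : cF.Injective) (hX : cX.Injective) {n : ℕ}
    {x : ℕ → Option X} {a : ℕ → Option (Lt F)} (h : p.Path n x a) :
    (p.map cF cD cX).Path n (fun i => (x i).map cX) (fun i => cOL cF (a i)) := by
  refine ⟨?_, ?_⟩
  · show (x 0).map cX = some (cX p.st0)
    rw [h.1]
    rfl
  · intro i hi
    exact (ext_map_iff hF hX).2 ⟨a i, x (i + 1), rfl, rfl, h.2 i hi⟩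

private theorem diff_pull (hF : cF.Injective) (hD : cD.Injective) {n : ℕ}
    {a b : ℕ → Option L} {f : ℕ → ℕ} (h : (p.map cF cD cX).Diff n a b f) :
    p.Diff n (fun i => gO cF (a i)) (fun i => gO cF (b i)) (fun i => gD cD p.star (f i)) ∧
      ∀ i ≤ n, cD (gD cD p.star (f i)) = f i := by
  obtain ⟨h0, h1⟩ := h
  have h0' : f 0 = cD p.star := h0
  have key : ∀ i < n, p.nd (gD cD p.star (f i)) (gO cF (a i)) (gO cF (b i))
      (gD cD p.star (f (i + 1))) ∧ cD (gD cD p.star (f (i + 1))) = f (i + 1) := by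
    intro i hi
    obtain ⟨d, s, t, d', e1, e2, e3, e4, h2⟩ := (nd_map_iff hF).1 (h1 i hi)
    rw [← e1, ← e2, ← e3, ← e4, gD_map hD, gD_map hD, gO_map hF, gO_map hF]
    exact ⟨h2, rfl⟩
  refine ⟨⟨?_, fun i hi => (key i hi).1⟩, ?_⟩
  · show gD cD p.star (f 0) = p.star
    rw [h0', gD_map hD]
  · intro i hi
    cases i with
    | zero => rw [h0', gD_map hD]
    | succ i => exact (key i (by omega)).2

private theorem total_map (hF : cF.Injective) (hD : cD.Injective) (hX : cX.Injective) {g : D}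
    (h : p.Total g) : (p.map cF cD cX).Total (cD g) := by
  intro n x a hpath hxn han
  obtain ⟨hp1, hp2, hp3⟩ := path_pull hF hX hpath
  have e1 : gX cX (x n) = none := by
    rw [hxn]
    exact gX_map hX none
  have e2 : gO cF (a n) = none := by
    rw [han]
    exact gO_map hF none
  obtain ⟨y, b, f, h1, h2, h3, h4, h5⟩ := h n _ _ hp1 e1 e2
  refine ⟨fun i => (y i).map cX, fun i => cOL cF (b i), fun i => cD (f i), path_push hF hX h1,
    ⟨?_, ?_⟩, ?_, ?_, ?_⟩
  · show cD (f 0) = cD p.star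
    rw [h2.1]
  · intro i hi
    have h6 := h2.2 i hi
    have h7 : cOL cF (gO cF (a i)) = a i := by
      by_cases hin : i < n
      · exact hp3 i hin
      · have : i = n := by omega
        subst this
        rw [han]
        rw [han] at e2
        rw [e2]
        rfl
    rw [← h7]
    exact (nd_map hF hD).2 h6
  · intro i hi
    exact ⟨f i, h3 i hi, rfl⟩
  · show (y (n + 1)).map cX = none
    rw [h4]
    rfl
  · show cD (f (n + 1)) = cD g
    rw [h5]

private theorem ev_mem (hp : p.Ok) {gc : ℕ × Bool → D} {w : Word} {e : D} (h : p.Ev gc w e) :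
    e ∈ p.inS := by
  cases h with
  | nil => exact hp.one_S
  | cons _ h => exact h

private theorem ev_map (hp : p.Ok) (hD : cD.Injective) {gc : ℕ × Bool → D}
    (hgc : ∀ l, gc l ∈ p.inD) {w : Word} {e : D} (h : p.Ev gc w e) :
    (p.map cF cD cX).Ev (fun l => cD (gc l)) w (cD e) := by
  induction h with
  | nil => exact Pre.Ev.nil
  | @cons l w e h1 h2 ih =>
    have e1 : (p.map cF cD cX).mul (cD (gc l)) (cD e) = cD (p.mul (gc l) e) :=
      mul_map hD (hgc l) (hp.S_D (ev_mem hp h1))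
    have h3 : (p.map cF cD cX).mul ((fun l => cD (gc l)) l) (cD e) ∈ (p.map cF cD cX).inS := by
      show (p.map cF cD cX).mul (cD (gc l)) (cD e) ∈ (p.map cF cD cX).inS
      rw [e1]
      exact ⟨_, h2, rfl⟩
    have h4 := Pre.Ev.cons (p := p.map cF cD cX) (gc := fun l => cD (gc l)) (l := l) ih h3
    have e2 : (p.map cF cD cX).mul ((fun l => cD (gc l)) l) (cD e) = cD (p.mul (gc l) e) := e1
    rw [e2] at h4
    exact h4

/-- membership in the images -/
private theorem inD_map {a : ℕ} (h : a ∈ (p.map cF cD cX).inD) : ∃ d ∈ p.inD, cD d = a := h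

private theorem inS_map {a : ℕ} (h : a ∈ (p.map cF cD cX).inS) : ∃ d ∈ p.inS, cD d = a := h

private theorem mem_inD_map (hD : cD.Injective) {d : D} (h : cD d ∈ (p.map cF cD cX).inD) :
    d ∈ p.inD := by
  obtain ⟨e, he, h1⟩ := h
  rw [← hD h1]
  exact he

private theorem gen_map {a f f' a' : ℕ} {w : List ℤ}
    (h : (a, f, f', a', w) ∈ (p.map cF cD cX).gen) :
    ∃ d g g' d', cD d = a ∧ cF g = f ∧ cF g' = f' ∧ cD d' = a' ∧ (d, g, g', d', w) ∈ p.gen := by
  obtain ⟨⟨d, g, g', d', w'⟩, h1, h2⟩ := h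
  simp only [Prod.mk.injEq] at h2
  obtain ⟨h2, h3, h4, h5, h6⟩ := h2
  subst h6
  exact ⟨d, g, g', d', h2, h3, h4, h5, h1⟩

private theorem mem_gen_map {d d' : D} {f f' : F} {w : List ℤ} (h : (d, f, f', d', w) ∈ p.gen) :
    (cD d, cF f, cF f', cD d', w) ∈ (p.map cF cD cX).gen := ⟨_, h, rfl⟩

private theorem tg_map {a f b : ℕ} (h : (a, f, b) ∈ (p.map cF cD cX).tg) :
    ∃ x g y, cX x = a ∧ cF g = f ∧ cX y = b ∧ (x, g, y) ∈ p.tg := by
  obtain ⟨⟨x, g, y⟩, h1, h2⟩ := h
  simp only [Prod.mk.injEq] at h2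
  exact ⟨x, g, y, h2.1, h2.2.1, h2.2.2, h1⟩

private theorem tr_map {a : ℕ} {l : L} {b : ℕ} (h : (a, l, b) ∈ (p.map cF cD cX).tr) :
    ∃ x l0 y, cX x = a ∧ (cF l0.1, l0.2) = l ∧ cX y = b ∧ (x, l0, y) ∈ p.tr := by
  obtain ⟨⟨x, l0, y⟩, h1, h2⟩ := h
  simp only [Prod.mk.injEq] at h2
  exact ⟨x, l0, y, h2.1, h2.2.1, h2.2.2, h1⟩

private theorem zone_map {l : L} (h : l ∈ (p.map cF cD cX).zone) :
    ∃ l0 ∈ p.zone, (cF l0.1, l0.2) = l := h

theorem ok_map (hp : p.Ok) (hn : Nice p) (hF : cF.Injective) (hD : cD.Injective) (hX : cX.Injective) :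
    (p.map cF cD cX).Ok where
  wf_gen := by
    intro a f f' a' w h
    obtain ⟨d, g, g', d', rfl, rfl, rfl, rfl, k⟩ := gen_map h
    rw [rk_map hF, rk_map hF]
    exact hp.wf_gen _ _ _ _ _ k
  wf_exp := by
    rintro a s t a' ⟨⟨d, s0, t0, d'⟩, h1, h2⟩
    simp only [Prod.mk.injEq] at h2
    obtain ⟨-, h3, h4, -⟩ := h2
    obtain ⟨h5, h6⟩ := hp.wf_exp _ _ _ _ h1
    constructor
    · intro l hl
      rw [hl] at h3
      cases s0 with
      | none => simp [cOL] at h3
      | some l0 =>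
        simp only [cOL, Option.map_some, Option.some.injEq] at h3
        rw [← h3]
        exact (okm' hF).2 (h5 l0 rfl)
    · intro l hl
      rw [hl] at h4
      cases t0 with
      | none => simp [cOL] at h4
      | some l0 =>
        simp only [cOL, Option.map_some, Option.some.injEq] at h4
        rw [← h4]
        exact (okm' hF).2 (h6 l0 rfl)
  wf_tr := by
    intro a l b h
    obtain ⟨x, l0, y, rfl, rfl, rfl, k⟩ := tr_map h
    obtain ⟨h1, h2⟩ := hp.wf_tr _ _ _ k
    exact ⟨(okm' hF).2 h1, ⟨l0, h2, rfl⟩⟩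
  S_D := Set.image_mono hp.S_D
  one_S := ⟨_, hp.one_S, rfl⟩
  star_D := ⟨_, hp.star_D, rfl⟩
  star_S := by
    rintro ⟨d, h1, h2⟩
    apply hp.star_S
    have : d = p.star := hD h2
    rw [← this]
    exact h1
  inv_one := by
    show (p.map cF cD cX).inv (cD p.one) = cD p.one
    rw [inv_map hD (hp.S_D hp.one_S), hp.inv_one]
  inv_star := by
    show (p.map cF cD cX).inv (cD p.star) = cD p.star
    rw [inv_map hD hp.star_D, hp.inv_star]
  mul_star := by
    show (p.map cF cD cX).mul (cD p.star) (cD p.star) = cD p.star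
    rw [mul_map hD hp.star_D hp.star_D, hp.mul_star]
  inv_D := by
    rintro _ ⟨d, hd, rfl⟩
    rw [inv_map hD hd]
    exact ⟨_, hp.inv_D d hd, rfl⟩
  one_mul := by
    rintro _ ⟨d, hd, rfl⟩
    show (p.map cF cD cX).mul (cD p.one) (cD d) = cD d
    rw [mul_map hD (hp.S_D hp.one_S) (hp.S_D hd), hp.one_mul d hd]
  mul_one := by
    rintro _ ⟨d, hd, rfl⟩
    show (p.map cF cD cX).mul (cD d) (cD p.one) = cD d
    rw [mul_map hD (hp.S_D hd) (hp.S_D hp.one_S), hp.mul_one d hd]
  inv_mul := by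
    rintro _ ⟨d, hd, rfl⟩
    show (p.map cF cD cX).mul ((p.map cF cD cX).inv (cD d)) (cD d) = cD p.one
    rw [inv_map hD (hp.S_D hd), mul_map hD (hp.inv_D _ (hp.S_D hd)) (hp.S_D hd), hp.inv_mul d hd]
  nd_none := by
    intro a a' h
    obtain ⟨d, s, t, d', rfl, h2, h3, rfl, k⟩ := (nd_map_iff hF).1 h
    have hs : s = none := cOL_inj hF (h2.trans rfl)
    have ht : t = none := cOL_inj hF (h3.trans rfl)
    rw [hs, ht] at k
    rw [hp.nd_none _ _ k]
  nd_none' := by
    rintro _ ⟨d, hd, rfl⟩ hne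
    have h := hp.nd_none' d hd (fun h => hne (by rw [h]; rfl))
    exact (nd_map hF hD (s := none) (t := none)).2 h
  nd_inv := by
    rintro _ s t _ ⟨d, hd, rfl⟩ ⟨d', hd', rfl⟩ h
    obtain ⟨e, s0, t0, e', h1, rfl, rfl, h4, k⟩ := (nd_map_iff hF).1 h
    rw [hD h1, hD h4] at k
    rw [inv_map hD hd, inv_map hD hd']
    exact (nd_map hF hD).2 (hp.nd_inv _ _ _ _ hd hd' k)
  nd_mul := by
    rintro _ _ _ _ s t u ⟨d, hd, rfl⟩ ⟨e, he, rfl⟩ ⟨d', hd', rfl⟩ ⟨e', he', rfl⟩ h h'
    obtain ⟨d1, s1, t1, d1', k1, rfl, rfl, k4, k⟩ := (nd_map_iff hF).1 h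
    obtain ⟨e1, t2, u2, e1', l1, l2, rfl, l4, k'⟩ := (nd_map_iff hF).1 h'
    rw [hD k1, hD k4] at k
    rw [hD l1, hD l4, cOL_inj hF l2] at k'
    rw [mul_map hD hd he, mul_map hD hd' he']
    exact (nd_map hF hD).2 (hp.nd_mul _ _ _ _ _ _ _ hd he hd' he' k k')
  step_ne := by
    intro a l b h
    obtain ⟨x, l0, x', rfl, rfl, rfl, k⟩ := (step_map_iff hF).1 h
    intro h2
    exact hp.step_ne _ _ _ k (hX h2)
  step_star := by
    intro l b h
    obtain ⟨x, l0, x', h1, rfl, rfl, k⟩ := (step_map_iff hF).1 h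
    have hx : x = p.st0 := hX h1
    rw [hx] at k
    exact (nd_map hF hD (s := some l0) (t := some l0)).2 (hp.step_star _ _ k)
  step_one := by
    intro a l b hne h
    obtain ⟨x, l0, x', rfl, rfl, rfl, k⟩ := (step_map_iff hF).1 h
    have hx : x ≠ p.st0 := fun e => hne (by rw [e]; rfl)
    exact (nd_map hF hD (s := some l0) (t := some l0)).2 (hp.step_one _ _ _ hx k)
  noreturn := by
    intro n x y a b f hx hy hf hn' i hi
    obtain ⟨hx1, hx2, hx3⟩ := path_pull hF hX hx
    obtain ⟨hy1, hy2, hy3⟩ := path_pull hF hX hy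
    obtain ⟨hf1, hf2⟩ := diff_pull hF hD hf
    have h1 : gD cD p.star (f n) ∈ p.inS := by
      obtain ⟨d, hd, h2⟩ := hn'
      rw [← h2, gD_map hD]
      exact hd
    have h2 := hp.noreturn n _ _ _ _ _ hx1 hy1 hf1 h1 i hi
    rw [← hf2 i hi]
    exact ⟨_, h2, rfl⟩

theorem nice_map (hp : p.Ok) (hn : Nice p) (hF : cF.Injective) (hD : cD.Injective)
    (hX : cX.Injective) : Nice (p.map cF cD cX) where
  fin_rk := by
    apply (hn.fin_rk.image cF).subset
    intro n h
    obtain ⟨f, rfl, h2⟩ := rk_map_ne h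
    exact ⟨f, h2, rfl⟩
  fin_D := hn.fin_D.image _
  fin_exp := hn.fin_exp.image _
  fin_gen := hn.fin_gen.image _
  fin_zone := hn.fin_zone.image _
  fin_tr := hn.fin_tr.image _
  fin_tg := hn.fin_tg.image _
  zone_ok := by
    rintro _ ⟨l, hl, rfl⟩
    exact (okm' hF).2 (hn.zone_ok l hl)
  gen_inv := by
    intro a f f' a' w ha ha' h
    obtain ⟨d, g, g', d', rfl, rfl, rfl, rfl, k⟩ := gen_map h
    have hd := mem_inD_map hD ha
    have hd' := mem_inD_map hD ha'
    rw [inv_map hD hd, inv_map hD hd']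
    exact mem_gen_map (hn.gen_inv _ _ _ _ _ hd hd' k)
  gen_mul := by
    intro a b a' b' f f' f'' w w' ha hb ha' hb' h h'
    obtain ⟨d, g, g', d', rfl, rfl, rfl, rfl, m⟩ := gen_map h
    obtain ⟨e, k, g'', e', rfl, h1, rfl, rfl, m'⟩ := gen_map h'
    rw [hF h1] at m'
    have hd := mem_inD_map hD ha
    have hd' := mem_inD_map hD ha'
    have he := mem_inD_map hD hb
    have he' := mem_inD_map hD hb'
    rw [mul_map hD hd he, mul_map hD hd' he']
    exact mem_gen_map (hn.gen_mul _ _ _ _ _ _ _ _ _ hd he hd' he' m m')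
  tg_gen0 := by
    intro f b h
    obtain ⟨x, g, y, h1, rfl, rfl, k⟩ := tg_map h
    have hx : x = p.st0 := hX h1
    rw [hx] at k
    rw [rk_map hF]
    exact mem_gen_map (hn.tg_gen0 _ _ k)
  tg_gen1 := by
    intro a f b hne h
    obtain ⟨x, g, y, rfl, rfl, rfl, k⟩ := tg_map h
    have hx : x ≠ p.st0 := fun e => hne (by rw [e]; rfl)
    rw [rk_map hF]
    exact mem_gen_map (hn.tg_gen1 _ _ _ hx k)
  tg_rk := by
    intro a f b h
    obtain ⟨x, g, y, rfl, rfl, rfl, k⟩ := tg_map h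
    rw [rk_map hF]
    exact hn.tg_rk _ _ _ k

open scoped Classical in
theorem norm_map (h0 : cD p.one = 0) (h1 : cD p.star = 1) (h2 : cX p.st0 = 0) :
    Norm (p.map cF cD cX) where
  one0 := h0
  star1 := h1
  st0 := h2
  mul_out := by
    intro a b h
    show (if h : ∃ q : D × D, q.1 ∈ p.inD ∧ q.2 ∈ p.inD ∧ cD q.1 = a ∧ cD q.2 = b then
      cD (p.mul h.choose.1 h.choose.2) else 0) = 0
    rw [dif_neg]
    rintro ⟨q, hq1, hq2, hq3, hq4⟩
    rcases h with h | h
    · exact h ⟨q.1, hq1, hq3⟩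
    · exact h ⟨q.2, hq2, hq4⟩
  inv_out := by
    intro a h
    show (if h : ∃ q, q ∈ p.inD ∧ cD q = a then cD (p.inv h.choose) else 0) = 0
    rw [dif_neg]
    rintro ⟨q, hq1, hq2⟩
    exact h ⟨q, hq1, hq2⟩

theorem wn_map (hp : p.Ok) (hn : Nice p) (hF : cF.Injective) (hD : cD.Injective)
    (hX : cX.Injective) {P : Pres} {Fw Y : List Word} {w : Word} {gc : ℕ × Bool → D} {J0 : Set F}
    {base xw : Lt F} (hw : WN p P Fw Y w gc J0 base xw) :
    WN (p.map cF cD cX) P Fw Y w (fun l => cD (gc l)) (cF '' J0) (cF base.1, base.2)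
      (cF xw.1, xw.2) := by
  have hgc : ∀ l, gc l ∈ p.inD := by
    intro l
    by_cases hl : l.1 < P.1
    · exact hp.S_D (hw.gc_S l hl).1
    · rw [hw.gc_out l hl]
      exact hp.S_D hp.one_S
  refine ⟨?_, ?_, ?_, ?_, ?_, ?_, ?_, ?_, ?_, ?_, ?_⟩
  · intro l hl
    obtain ⟨h1, h2, h3⟩ := hw.gc_S l hl
    refine ⟨⟨_, h1, rfl⟩, total_map hF hD hX h2, ?_⟩
    show cD (gc (l.1, !l.2)) = (p.map cF cD cX).inv (cD (gc l))
    rw [inv_map hD (hgc l), h3]
  · intro l hl
    show cD (gc l) = cD p.one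
    rw [hw.gc_out l hl]
  · intro r hr
    exact ev_map hp hD hgc (hw.rel r hr)
  · intro y hy
    obtain ⟨e, h1, h2⟩ := hw.y y hy
    exact ⟨cD e, ev_map hp hD hgc h1, (nd_map hF hD (s := some base) (t := some base)).2 h2⟩
  · exact hw.fin_J0.image _
  · intro v hv u hu
    obtain ⟨e, h1, h2⟩ := hw.fw v hv u hu
    refine ⟨cD e, ev_map hp hD hgc h1, ?_⟩
    rintro _ ⟨f, hf, rfl⟩
    obtain ⟨f', hf', w', h3⟩ := h2 f hf
    exact ⟨cF f', ⟨f', hf', rfl⟩, w', mem_gen_map h3⟩
  · rintro _ ⟨f, hf, rfl⟩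
    obtain ⟨h1, h2⟩ := hw.J_run f hf
    refine ⟨?_, ?_⟩
    · rcases h1 with ⟨x', h1⟩ | ⟨h1, h3⟩
      · exact Or.inl ⟨cX x', ⟨_, h1, rfl⟩⟩
      · refine Or.inr ⟨?_, ⟨_, h3, rfl⟩⟩
        rw [rk_map hF]
        exact h1
    · rintro _ ⟨l, hl, rfl⟩ h3
      obtain ⟨x', h4⟩ := h2 l hl (hF h3)
      exact ⟨cX x', ⟨_, h4, rfl⟩⟩
  · exact ⟨⟨_, hw.base_J.1, rfl⟩, (okm' hF).2 hw.base_J.2⟩
  · obtain ⟨x', h⟩ := hw.xw_run
    exact ⟨cX x', ⟨_, h, rfl⟩⟩
  · obtain ⟨e, h1, h2⟩ := hw.w_xw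
    exact ⟨cD e, ev_map hp hD hgc h1, (nd_map hF hD (s := some base) (t := some xw)).2 h2⟩
  · rintro ⟨n, v⟩ ⟨f, hf, h1⟩ hok hnd
    simp only at h1
    subst h1
    have h2 : p.ok (f, v) := (okm hF).1 hok
    exact hw.sep (f, v) hf h2 ((nd_map hF hD (s := some (f, v)) (t := some xw)).1 hnd)

end Pool.Agent.Lib.P77fd2d
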