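import Pool.Agent.Lib.P77fd2d.CFin
import Pool.Agent.Lib.P77fd2d.CReach
import Pool.Agent.Lib.P77fd2d.CSup
import Pool.Agent.Lib.P77fd2d.CWords
import Pool.Agent.Lib.P77fd2d.Transfer

/-!
# MODULE P77fd2d.Complete  (0.8h)   black boxes: CFin, CAlg, CReach, CSup, CWords, Transfer

A machine with the conditions Ok, Nice, WN yields a valid certificate.

(1) Codings: F countable: an injection cF : F → ℕ (`exists_injective_nat`/Encodable); D countable, one ≠ star (star ∉ inS, one ∈ inS):
 injection cD with cD one = 0, cD star = 1: from any injection e put cD x = if x = one then 0 else if x = star then 1 else e x + 2; the same for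
 cX with st0 ↦ 0.
(2) p' := p.map cF cD cX has Ok, Nice, Norm, WN (Transfer), gc' = cD ∘ gc, J0' = cF '' J0.
(3) c := mkc p' P.1 gc' J0' base' xw'; c.pre = p' (`mkc_pre`); rewrite hypotheses to c.pre.  c.gc = gc': for l.1 < P.1 by the lists (`List.getD`,
 `List.getElem_map`), for l.1 ≥ P.1: getD gives 0 = cD one (`gc_out`).  c.j0 = toL J0' (finite).  Lists reach, bad, sup, zp by `mem_toL`.
 total for elements of c.ga ++ c.gb: they are gc' (k, b) with k < P.1: WN.gc_S.
(4) Valid.
-/

namespace Pool.Agent.Lib.P77fd2d
namespace CompleteAux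

open Classical in
theorem code2 (D : Type) [Countable D] (a b : D) (hab : a ≠ b) :
    ∃ c : D → ℕ, c.Injective ∧ c a = 0 ∧ c b = 1 := by
  obtain ⟨e, he⟩ := Countable.exists_injective_nat D
  refine ⟨fun x => if x = a then 0 else if x = b then 1 else e x + 2, ?_, by simp, ?_⟩
  · intro x y h
    simp only at h
    by_cases h1 : x = a
    · by_cases h2 : y = a
      · rw [h1, h2]
      · by_cases h3 : y = b
        · simp [h1, h3, hab.symm] at h
        · simp [h1, h2, h3] at h
    · by_cases h1' : x = b
      · by_cases h2 : y = a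
        · simp [h1', h2, hab.symm] at h
        · by_cases h3 : y = b
          · rw [h1', h3]
          · simp only [h1, h1', h2, h3, if_false, if_true] at h
            subst h1'
            simp only [h1, if_false, if_true] at h
            omega
      · by_cases h2 : y = a
        · simp [h1, h1', h2] at h
        · by_cases h3 : y = b
          · simp only [h1, h1', if_false] at h
            subst h3
            simp only [h2, if_false, if_true] at h
            omega
          · simp only [h1, h1', h2, h3, if_false] at h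
            exact he (by omega)
  · simp [hab.symm]

open Classical in
theorem code1 (X : Type) [Countable X] (a : X) : ∃ c : X → ℕ, c.Injective ∧ c a = 0 := by
  obtain ⟨e, he⟩ := Countable.exists_injective_nat X
  refine ⟨fun x => if x = a then 0 else e x + 1, ?_, by simp⟩
  intro x y h
  simp only at h
  by_cases h1 : x = a
  · by_cases h2 : y = a
    · rw [h1, h2]
    · simp [h1, h2] at h
  · by_cases h2 : y = a
    · simp [h1, h2] at h
    · simp only [h1, h2, if_false] at h
      exact he (by omega)

theorem valid_norm {p : Pre ℕ ℕ ℕ} (hp : p.Ok) (hn : Nice p) (hN : Norm p) {P : Pres}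
    {Fw Y : List Word} {w : Word} {gc : ℕ × Bool → ℕ} {J0 : Set ℕ} {base xw : L}
    (hw : WN p P Fw Y w gc J0 base xw) : ∃ c : Cert, Valid P Fw Y w c := by
  set c : Cert := mkc p P.1 gc J0 base xw with hc
  have hpre : c.pre = p := mkc_pre hp hn hN P.1 gc J0 base xw
  have hga : c.ga = (List.range P.1).map (fun k => gc (k, true)) := rfl
  have hgb : c.gb = (List.range P.1).map (fun k => gc (k, false)) := rfl
  have hgc : c.gc = gc := by
    funext l
    obtain ⟨k, b⟩ := l
    by_cases hk : k < P.1
    · cases b with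
      | true =>
        show c.ga.getD k 0 = gc (k, true)
        rw [hga, List.getD_eq_getElem _ _ (by simpa using hk)]
        simp
      | false =>
        show c.gb.getD k 0 = gc (k, false)
        rw [hgb, List.getD_eq_getElem _ _ (by simpa using hk)]
        simp
    · have h0 : gc (k, b) = 0 := by
        rw [hw.gc_out (k, b) hk, hN.one0]
      rw [h0]
      cases b with
      | true =>
        show c.ga.getD k 0 = 0
        rw [hga, List.getD_eq_default _ _ (by simpa using hk)]
      | false =>
        show c.gb.getD k 0 = 0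
        rw [hgb, List.getD_eq_default _ _ (by simpa using hk)]
  have hj : {f | f ∈ c.j0} = J0 := by
    ext f
    exact mem_toL hw.fin_J0
  have hp' : c.pre.Ok := by rw [hpre]; exact hp
  have hn' : Nice c.pre := by rw [hpre]; exact hn
  have hw' : WN c.pre P Fw Y w c.gc {f | f ∈ c.j0} c.base c.xw := by
    rw [hpre, hgc, hj]
    exact hw
  have hr : ∀ z, z ∈ c.reach ↔ z ∈ c.pre.reachS := by
    intro z
    rw [hpre]
    exact mem_toL (fin_reach hn)
  have hb : ∀ z, z ∈ c.bad ↔ z ∈ c.pre.badS := by
    intro z
    rw [hpre]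
    exact mem_toL (fin_bad hn)
  have hs : ∀ z, z ∈ c.sup ↔ z ∈ c.pre.supS := by
    intro z
    rw [hpre]
    exact mem_toL (fin_sup hn)
  have hz : ∀ l, l ∈ c.zp ↔ l ∈ c.pre.zpS := by
    intro z
    rw [hpre]
    exact mem_toL (fin_zp hn)
  have ht : ∀ g ∈ c.ga ++ c.gb, c.pre.Total g := by
    intro g hg
    rw [hpre]
    rcases List.mem_append.1 hg with h | h
    · rw [hga] at h
      obtain ⟨k, hk, rfl⟩ := List.mem_map.1 h
      exact (hw.gc_S (k, true) (List.mem_range.1 hk)).2.1
    · rw [hgb] at h
      obtain ⟨k, hk, rfl⟩ := List.mem_map.1 h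
      exact (hw.gc_S (k, false) (List.mem_range.1 hk)).2.1
  obtain ⟨d1, d2, d3, d4, d5, d6⟩ := vd hp' hn' (by rw [hga]; simp) (by rw [hgb]; simp) hw'
  exact ⟨c, va1 hp', va2 hp' hn', va3 hp', va4 hp' hn', va5 hp' hn', va6 hp' hn',
    vb1 hp' hr hb, vb2 hp' hn' hr hb, vb3 hp' hn' hb,
    vc1 hp' hn' hs hz, vc2 hp' hn' hs ht, vc3 hp' hn' hs, vc4 hp' hn' hs,
    d1, d2, d3, d4, d5, d6⟩

end CompleteAux

open CompleteAux in
theorem exists_valid {F D X : Type} [Countable F] [Countable D] [Countable X] {p : Pre F D X}
    (hp : p.Ok) (hn : Nice p) {P : Pres} {Fw Y : List Word} {w : Word} {gc : ℕ × Bool → D}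
    {J0 : Set F} {base xw : Lt F} (hw : WN p P Fw Y w gc J0 base xw) :
    ∃ c : Cert, Valid P Fw Y w c := by
  obtain ⟨cF, hF⟩ := Countable.exists_injective_nat F
  obtain ⟨cD, hD, h0, h1⟩ := code2 D p.one p.star (fun h => hp.star_S (h ▸ hp.one_S))
  obtain ⟨cX, hX, h2⟩ := code1 X p.st0
  exact valid_norm (ok_map hp hn hF hD hX) (nice_map hp hn hF hD hX) (norm_map h0 h1 h2)
    (wn_map hp hn hF hD hX hw)

end Pool.Agent.Lib.P77fd2d
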