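import Pool.Agent.Lib.P77fd2d.Slim

/-!
# MODULE P77fd2d.Iso  (1.5h)   black box: Slim (only for statement of slimness)

Isolated components of broken geodesics are bounded: if a broken geodesic with `m` pieces starts and
ends in the coset `P i` and has no `P i`-edge inside this coset then its endpoints
are at word distance `≤ m * D`.

Proof: `Con i n x y`: `x` and `y` are joined by a path of length `≤ n` without edges in `P i`.
First the case of three pieces (`iso3`), then induction on the number of pieces.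
-/

namespace Pool.Agent.Lib.P77fd2d
variable {ι G : Type} [Group G]
namespace RH
variable {S : RH ι G}

/-- two points joined by a short path without edges in the coset `P i` -/
private def Con (S : RH ι G) (i : ι) (n : ℕ) (x y : G) : Prop :=
  ∃ w, S.Ok w ∧ S.NoE i x w ∧ w.length ≤ n ∧ x * ev w = y

private theorem con_mono {i : ι} {m n : ℕ} {x y : G} (hmn : m ≤ n) (h : Con S i m x y) :
    Con S i n x y := by
  obtain ⟨w, h1, h2, h3, h4⟩ := h
  exact ⟨w, h1, h2, h3.trans hmn, h4⟩

private theorem con_symm (hS : S.Good) {i : ι} {n : ℕ} {x y : G} (h : Con S i n x y) :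
    Con S i n y x := by
  obtain ⟨w, h1, h2, h3, h4⟩ := h
  refine ⟨inv w, ok_inv hS h1, ?_, by simpa using h3, ?_⟩
  · rw [← h4]
    exact noE_inv h1 h2
  · rw [← h4, ev_inv]
    group

private theorem con_trans {i : ι} {m n : ℕ} {x y z : G} (h : Con S i m x y)
    (h' : Con S i n y z) : Con S i (m + n) x z := by
  obtain ⟨w, h1, h2, h3, h4⟩ := h
  obtain ⟨v, k1, k2, k3, k4⟩ := h'
  refine ⟨w ++ v, ok_append.2 ⟨h1, k1⟩, ?_, ?_, ?_⟩
  · rw [noE_append, h4]
    exact ⟨h2, k2⟩
  · rw [List.length_append]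
    omega
  · rw [ev_append, ← mul_assoc, h4, k4]

private theorem con_rl (_hS : S.Good) {i : ι} {n : ℕ} {x y : G} (h : Con S i n x y) :
    S.rl (x⁻¹ * y) ≤ n := by
  obtain ⟨w, h1, h2, h3, h4⟩ := h
  have : x⁻¹ * y = ev w := by rw [← h4]; group
  rw [this]
  exact (rl_le h1).trans h3

private theorem con_geo (hS : S.Good) {i : ι} {g : G} {w a b a' b' : List (Ltr ι G)}
    (hw : S.Geo w) (hn : S.NoE i g w) (h : w = a ++ b) (h' : w = a' ++ b') :
    Con S i (S.rl ((g * ev a)⁻¹ * (g * ev a'))) (g * ev a) (g * ev a') := by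
  have key : ∀ {a b a' b' : List (Ltr ι G)}, w = a ++ b → w = a' ++ b' → (∃ c, a' = a ++ c) →
      Con S i (S.rl ((g * ev a)⁻¹ * (g * ev a'))) (g * ev a) (g * ev a') := by
    rintro a b a' b' h h' ⟨c, rfl⟩
    have h1 : S.Geo (a ++ (c ++ b')) := by
      rw [← List.append_assoc, ← h']; exact hw
    have h2 : S.NoE i g (a ++ (c ++ b')) := by
      rw [← List.append_assoc, ← h']; exact hn
    have h3 := (geo_append hS (geo_append hS h1).2).1
    have h4 := (noE_append.1 (noE_append.1 h2).2).1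
    refine ⟨c, h3.1, h4, ?_, ?_⟩
    · have h5 : (g * ev a)⁻¹ * (g * ev (a ++ c)) = ev c := by
        rw [ev_append]; group
      rw [h5, h3.2]
    · rw [ev_append, mul_assoc]
  rcases List.append_eq_append_iff.1 (h.symm.trans h') with ⟨c, hc1, hc2⟩ | ⟨c, hc1, hc2⟩
  · exact key h h' ⟨c, hc1⟩
  · have := key h' h ⟨c, hc1⟩
    rw [rl_symm hS]
    exact con_symm hS this

private theorem con_far (hS : S.Good) {i : ι} {n : ℕ} {x y : G} (h : S.rl (x⁻¹ * y) ≤ n)
    (hfar : ∀ o ∈ S.P i, n < S.rl (x⁻¹ * o)) : Con S i n x y := by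
  obtain ⟨c, hc, hc'⟩ := exists_geo hS (x⁻¹ * y)
  have hl : c.length ≤ n := by
    have := hc.2
    rw [hc'] at this
    omega
  refine ⟨c, hc.1, ?_, hl, by rw [hc']; group⟩
  apply noE_of_notMem
  intro w1 w2 hw hm
  have h1 := hfar _ hm
  have h2 : x⁻¹ * (x * ev w1) = ev w1 := by group
  rw [h2] at h1
  have h3 : S.Ok w1 := by
    have := hc.1
    rw [hw, ok_append] at this
    exact this.1
  have h4 := rl_le h3
  have h5 : w1.length ≤ c.length := by rw [hw, List.length_append]; omega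
  omega

/-- one side of the hexagon -/
private theorem side (hS : S.Good) {T : ℕ}
    (hT : ∀ (m : ℕ) (u w : List (Ltr ι G)), S.Geo u → S.Brk m w →
      ev w = ev u → ∀ u1 u2, u = u1 ++ u2 →
      ∃ w1 w2, w = w1 ++ w2 ∧ S.rl ((ev u1)⁻¹ * ev w1) ≤ m * T)
    {i : ι} {g : G} {w1 w2 w3 : List (Ltr ι G)} (h1 : S.Geo w1) (h2 : S.Geo w2) (h3 : S.Geo w3)
    (hg : g ∈ S.P i) (hy : g * ev (w1 ++ (w2 ++ w3)) ∈ S.P i) (hn : S.NoE i g w1) :
    ∃ b, Con S i (6 * T + 2) g b ∧ ((∃ a c, w2 = a ++ c ∧ b = g * ev w1 * ev a) ∨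
      (∃ a c, w3 = a ++ c ∧ b = g * ev w1 * ev w2 * ev a)) := by
  by_cases hlen : w1.length ≤ 3 * T + 2
  · refine ⟨g * ev w1, ⟨w1, h1.1, hn, by omega, rfl⟩, Or.inl ⟨[], w2, by simp, by simp⟩⟩
  push Not at hlen
  obtain ⟨a, ha⟩ : ∃ a, a = w1.take (3 * T + 2) := ⟨_, rfl⟩
  obtain ⟨a', ha'⟩ : ∃ a', a' = w1.drop (3 * T + 2) := ⟨_, rfl⟩
  have hw1 : w1 = a ++ a' := by rw [ha, ha', List.take_append_drop]
  have hal : a.length = 3 * T + 2 := by rw [ha, List.length_take]; omega
  have hga : S.Geo a := by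
    have := h1
    rw [hw1] at this
    exact (geo_append hS this).1
  have hna : S.NoE i g a := by
    have := hn
    rw [hw1] at this
    exact (noE_append.1 this).1
  have hfar : ∀ o ∈ S.P i, 3 * T < S.rl ((g * ev a)⁻¹ * o) := by
    intro o ho
    have e1 := rl_tri hS g o (g * ev a)
    have e2 : g⁻¹ * (g * ev a) = ev a := by group
    rw [e2, hga.2, hal] at e1
    have e3 : S.rl (g⁻¹ * o) ≤ 1 := rl_P_le_one ((S.P i).mul_mem ((S.P i).inv_mem hg) ho)
    rw [rl_symm hS o (g * ev a)] at e1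
    omega
  obtain ⟨q, hq⟩ : ∃ q, q = ev (w1 ++ (w2 ++ w3)) := ⟨_, rfl⟩
  have hqP : q ∈ S.P i := by
    rw [hq]
    exact (Subgroup.mul_mem_cancel_left _ hg).1 hy
  obtain ⟨e, he1, he2, he3⟩ : ∃ e : List (Ltr ι G), S.Geo e ∧ ev e = q ∧
      ∀ s ∈ e, s.2 ∈ S.P i := by
    by_cases hq1 : q = 1
    · exact ⟨[], geo_nil, by simp [hq1], by simp⟩
    · exact ⟨[(some i, q)], geo_letter hS (o := some i) hqP hq1, by simp, by simpa using hqP⟩
  have hB : S.Brk 3 (e ++ (inv w3 ++ inv w2)) :=
    Brk.cons he1 (Brk.cons (geo_inv hS h3) (brk_of_geo (geo_inv hS h2)))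
  have hev : ev (e ++ (inv w3 ++ inv w2)) = ev w1 := by
    simp only [ev_append, ev_inv, he2, hq]
    group
  obtain ⟨W1, W2, hW, hWd⟩ := hT 3 w1 _ h1 hB hev a a' hw1
  have hd : S.rl ((g * ev a)⁻¹ * (g * ev W1)) ≤ 3 * T := by
    have : (g * ev a)⁻¹ * (g * ev W1) = (ev a)⁻¹ * ev W1 := by group
    rw [this]
    exact hWd
  have hcon : Con S i (6 * T + 2) g (g * ev W1) := by
    have c1 : Con S i (3 * T + 2) g (g * ev a) := ⟨a, hga.1, hna, hal.le, rfl⟩
    have c2 := con_far hS hd hfar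
    exact con_mono (by omega) (con_trans c1 c2)
  refine ⟨g * ev W1, hcon, ?_⟩
  rcases List.append_eq_append_iff.1 hW with ⟨c, hc1, hc2⟩ | ⟨c, hc1, hc2⟩
  · rcases List.append_eq_append_iff.1 hc2 with ⟨c', hc3, hc4⟩ | ⟨c', hc3, hc4⟩
    · left
      have hw2 : w2 = inv W2 ++ inv c' := by
        have := congrArg inv hc4
        simpa using this
      refine ⟨inv W2, inv c', hw2, ?_⟩
      rw [hc1, hc3]
      simp only [ev_append, ev_inv, he2, hq]
      rw [hw2]
      simp only [ev_append, ev_inv]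
      group
    · right
      have hw3 : w3 = inv c' ++ inv c := by
        have := congrArg inv hc3
        simpa using this
      refine ⟨inv c', inv c, hw3, ?_⟩
      rw [hc1]
      simp only [ev_append, he2, hq]
      rw [hw3]
      simp only [ev_append, ev_inv]
      group
  · exfalso
    have hm : ev W1 ∈ S.P i := by
      unfold ev
      apply Subgroup.list_prod_mem
      intro x hx
      obtain ⟨s, hs, rfl⟩ := List.mem_map.1 hx
      exact he3 s (by rw [hc1]; simp [hs])
    have := hfar _ ((S.P i).mul_mem hg hm)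
    omega

/-- three pieces -/
private theorem con3 (hS : S.Good) {T : ℕ}
    (hT : ∀ (m : ℕ) (u w : List (Ltr ι G)), S.Geo u → S.Brk m w →
      ev w = ev u → ∀ u1 u2, u = u1 ++ u2 →
      ∃ w1 w2, w = w1 ++ w2 ∧ S.rl ((ev u1)⁻¹ * ev w1) ≤ m * T)
    {i : ι} {g : G} {w1 w2 w3 : List (Ltr ι G)} (h1 : S.Geo w1) (h2 : S.Geo w2) (h3 : S.Geo w3)
    (hg : g ∈ S.P i) (hy : g * ev (w1 ++ (w2 ++ w3)) ∈ S.P i)
    (hn : S.NoE i g (w1 ++ (w2 ++ w3))) :
    Con S i (24 * T + 9) g (g * ev (w1 ++ (w2 ++ w3))) := by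
  rw [noE_append, noE_append] at hn
  obtain ⟨hn1, hn2, hn3⟩ := hn
  obtain ⟨y, hyd⟩ : ∃ y, y = g * ev (w1 ++ (w2 ++ w3)) := ⟨_, rfl⟩
  rw [← hyd] at hy ⊢
  have hy3 : y = g * ev w1 * ev w2 * ev w3 := by
    rw [hyd]; simp only [ev_append]; group
  have hgy : S.rl (g⁻¹ * y) ≤ 1 := rl_P_le_one ((S.P i).mul_mem ((S.P i).inv_mem hg) hy)
  obtain ⟨b, hb, hb'⟩ := side hS hT h1 h2 h3 hg (by rw [← hyd]; exact hy) hn1
  have hend : y * ev (inv w3 ++ (inv w2 ++ inv w1)) = g := by
    rw [hy3]; simp only [ev_append, ev_inv]; group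
  have hn3' : S.NoE i y (inv w3) := by
    rw [hy3]
    exact noE_inv h3.1 hn3
  obtain ⟨c, hc, hc'⟩ := side hS hT (geo_inv hS h3) (geo_inv hS h2) (geo_inv hS h1) hy
    (by rw [hend]; exact hg) hn3'
  have hbd := con_rl hS hb
  have hcd := con_rl hS hc
  rcases hb' with ⟨a, a', ha, hba⟩ | ⟨a, a', ha, hba⟩
  · rcases hc' with ⟨d, d', hd, hcd'⟩ | ⟨d, d', hd, hcd'⟩
    · -- both on `w2`
      have hw2 : w2 = inv d' ++ inv d := by
        have := congrArg inv hd
        simpa using this
      have hce : c = g * ev w1 * ev (inv d') := by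
        rw [hcd', hy3]
        rw [hw2]
        simp only [ev_append, ev_inv]
        group
      have hcg := con_geo hS (g := g * ev w1) h2 hn2 ha hw2
      rw [← hba, ← hce] at hcg
      have e1 := rl_tri hS b g c
      have e2 := rl_tri hS g y c
      rw [rl_symm hS b g] at e1
      have := con_trans (con_trans hb hcg) (con_symm hS hc)
      exact con_mono (by omega) this
    · -- `c` on `w1`
      have hw1 : w1 = inv d' ++ inv d := by
        have := congrArg inv hd
        simpa using this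
      have hce : c = g * ev (inv d') := by
        rw [hcd', hy3]
        rw [hw1]
        simp only [ev_append, ev_inv]
        group
      have hcg := con_geo hS (g := g) h1 hn1 (a := []) (b := w1) rfl hw1
      rw [← hce] at hcg
      simp only [ev_nil, mul_one] at hcg
      have e2 := rl_tri hS g y c
      have := con_trans hcg (con_symm hS hc)
      exact con_mono (by omega) this
  · -- `b` on `w3`
    have hcg := con_geo hS (g := g * ev w1 * ev w2) h3 hn3 ha (a' := w3) (b' := []) (by simp)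
    rw [← hba, ← hy3] at hcg
    have e1 := rl_tri hS b g y
    rw [rl_symm hS b g] at e1
    have := con_trans hb hcg
    exact con_mono (by omega) this

private theorem noE_one {i : ι} {g : G} {w : List (Ltr ι G)} (hg : g ∈ S.P i)
    (h : S.NoE i g w) : S.NoE i 1 w := by
  intro w1 s w2 hw hs hm
  apply h w1 s w2 hw hs
  rw [one_mul] at hm
  exact (S.P i).mul_mem hg hm

private theorem brk_zero {w : List (Ltr ι G)} (h : S.Brk 0 w) : w = [] := by
  cases h
  rfl

private theorem brk_succ {m : ℕ} {w : List (Ltr ι G)} (h : S.Brk (m + 1) w) :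
    ∃ u w', w = u ++ w' ∧ S.Geo u ∧ S.Brk m w' := by
  cases h with
  | cons h1 h2 => exact ⟨_, _, rfl, h1, h2⟩

private theorem brk3 {w : List (Ltr ι G)} (h : S.Brk 3 w) :
    ∃ w1 w2 w3, w = w1 ++ (w2 ++ w3) ∧ S.Geo w1 ∧ S.Geo w2 ∧ S.Geo w3 := by
  obtain ⟨w1, r, rfl, h1, hr⟩ := brk_succ h
  obtain ⟨w2, r, rfl, h2, hr⟩ := brk_succ hr
  obtain ⟨w3, r, rfl, h3, hr⟩ := brk_succ hr
  obtain rfl := brk_zero hr
  exact ⟨w1, w2, w3, by rw [List.append_nil], h1, h2, h3⟩

theorem iso [Finite ι] (hS : S.Good) : ∃ D : ℕ, ∀ (m : ℕ) (i : ι) (g : G) (w : List (Ltr ι G)),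
    S.Brk m w → g ∈ S.P i → g * ev w ∈ S.P i → S.NoE i g w → S.wl (ev w) ≤ m * D := by
  obtain ⟨T, hT⟩ := slim hS
  -- the constant
  have hD : ∀ i : ι, ∃ D : ℕ, ∀ p, p ∈ S.P i → (∃ w, S.Ok w ∧ S.NoE i 1 w ∧
      w.length ≤ 24 * T + 9 ∧ ev w = p) → S.wl p ≤ D := by
    intro i
    obtain ⟨D, hD⟩ := ((hS.proper i (24 * T + 9)).image S.wl).bddAbove
    exact ⟨D, fun p h1 h2 => hD ⟨p, ⟨h1, h2⟩, rfl⟩⟩
  choose Di hDi using hD
  obtain ⟨D, hDm⟩ := (Set.finite_range Di).bddAbove
  have h3 : ∀ (i : ι) (g : G) (w : List (Ltr ι G)), S.Brk 3 w → g ∈ S.P i → g * ev w ∈ S.P i →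
      S.NoE i g w → S.wl (ev w) ≤ D := by
    intro i g w hw hg hy hn
    obtain ⟨w1, w2, w3, rfl, g1, g2, g3⟩ := brk3 hw
    obtain ⟨v, v1, v2, v3, v4⟩ := con3 hS hT g1 g2 g3 hg hy hn
    have e : ev v = ev (w1 ++ (w2 ++ w3)) := mul_left_cancel v4
    rw [← e] at hy ⊢
    have hvP : ev v ∈ S.P i := (Subgroup.mul_mem_cancel_left _ hg).1 hy
    exact (hDi i _ hvP ⟨v, v1, noE_one hg v2, v3, rfl⟩).trans (hDm ⟨i, rfl⟩)
  refine ⟨D, ?_⟩
  intro m
  induction m with
  | zero =>
    intro i g w hw _ _ _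
    obtain rfl := brk_zero hw
    simp
  | succ m ih =>
    intro i g w hw hg hy hn
    by_cases hm : m + 1 ≤ 3
    · have := h3 i g w (brk_mono hm hw) hg hy hn
      nlinarith
    · obtain ⟨v1, r, rfl, hv1, hr⟩ := brk_succ hw
      obtain ⟨m, rfl⟩ : ∃ k, m = k + 1 := ⟨m - 1, by omega⟩
      obtain ⟨v2, w', rfl, hv2, hw'⟩ := brk_succ hr
      · · rw [← List.append_assoc] at hn hy ⊢
          rw [noE_append] at hn
          obtain ⟨u, hu, hu'⟩ := exists_geo hS (ev (v1 ++ v2))
          rcases noE_or (S := S) i g u with hnu | ⟨u1, p, u2, rfl, hp⟩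
          · have h1 := ih i g (u ++ w') (Brk.cons hu hw') hg
              (by rw [ev_append, hu', ← ev_append]; exact hy)
              (by rw [noE_append, hu']; exact ⟨hnu, hn.2⟩)
            rw [ev_append, hu', ← ev_append] at h1
            nlinarith
          · have hgn := geo_noE hS hu hp
            have hpp : p ∈ S.P i := by
              have := hu.1
              rw [ok_append, ok_cons] at this
              exact this.2.1
            have hqP : g * ev u1 * p ∈ S.P i := (S.P i).mul_mem hp hpp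
            have hu2 : S.Geo u2 := by
              have h4 : S.Geo ((u1 ++ [(some i, p)]) ++ u2) := by simpa using hu
              exact (geo_append hS h4).2
            have e1 : g * ev u1 * p * ev u2 = g * ev (v1 ++ v2) := by
              rw [← hu']; simp only [ev_append, ev_cons]; group
            have e2 : g * ev u1 * p * ev (u2 ++ w') = g * ev ((v1 ++ v2) ++ w') := by
              rw [ev_append, ← mul_assoc, e1, ev_append (v1 ++ v2) w', mul_assoc]
            have h1 := ih i (g * ev u1 * p) (u2 ++ w') (Brk.cons hu2 hw') hqP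
              (by rw [e2]; exact hy)
              (by rw [noE_append, e1]; exact ⟨hgn.2, hn.2⟩)
            have e3 : g * ev ((v1 ++ v2) ++ inv u2) = g * ev u1 * p := by
              have : g * ev ((v1 ++ v2) ++ inv u2) = g * ev (v1 ++ v2) * (ev u2)⁻¹ := by
                rw [ev_append, ev_inv]; group
              rw [this, ← e1]; group
            have h2 := h3 i g ((v1 ++ v2) ++ inv u2)
              (by
                rw [List.append_assoc]
                exact Brk.cons hv1 (Brk.cons hv2 (brk_of_geo (geo_inv hS hu2))))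
              hg (by rw [e3]; exact hqP)
              (by
                rw [noE_append]
                refine ⟨hn.1, ?_⟩
                rw [← e1]
                exact noE_inv hu2.1 hgn.2)
            have e4 : ev ((v1 ++ v2) ++ w') = ev ((v1 ++ v2) ++ inv u2) * ev (u2 ++ w') := by
              simp only [ev_append, ev_inv]; group
            rw [e4]
            have h5 := wl_mul hS (ev ((v1 ++ v2) ++ inv u2)) (ev (u2 ++ w'))
            nlinarith

end RH
end Pool.Agent.Lib.P77fd2d
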