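import Pool.Agent.Lib.P77fd2d.Root
import Pool.Agent.Lib.P77fd2d.Iso

/-!
# MODULE P77fd2d.Omin  (0.8h)   black box: `iso`

In a coset not contained in `R` the points nearest to `R` form a set of bounded word diameter.

PROOF.  σ from r1, M0 := M(σ) from r2, D from `iso`; M := 7 D + M0 (any such constant).
O = x P i, y = x p ∈ O, both with rho = m := min of rho on O.  (k,u), (k',u') R-geodesics to x and y.
u has no O-edge: an O-edge u = u1 ++ (some i, q) :: u2 with k ev u1 ∈ O would give
rho (k ev u1) = u1.length < u.length = m.  Same for u'.  Let v be a geodesic word from k to k'.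
 * If v has no O-edge: path x → (inv u) k → (v) k' → (u') y is Brk 3 without O-edges:
   wl p ≤ 3 D  (`iso` with g := x⁻¹ x = 1).
 * Otherwise v = v1 ++ (some i, q) :: v2, z = k ev v1 ∈ O, z' = z q; by r1 both are within σ of R and
   as O ⊄ R, r2 gives wl q ≤ M0.  x → (inv u) k → (v1) z: Brk 2: wl (x⁻¹ z) ≤ 2 D;
   z' → (v2) k' → (u') y : wl (z'⁻¹ y) ≤ 2 D.  So wl p ≤ 4 D + M0.
-/

namespace Pool.Agent.Lib.P77fd2d
variable {ι G : Type} [Group G]
namespace RH
variable {S : RH ι G} {R : Set G}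

namespace OminAux

/-- an `R`-geodesic to a nearest point of a coset has no edge in this coset -/
theorem noE_near (hS : S.Good) (hR : R.Nonempty) {i : ι} {x k : G} {u : List (Ltr ι G)}
    (hmin : ∀ q ∈ S.P i, S.rho R x ≤ S.rho R (x * q)) (hu : S.RGeo R k u)
    (he : S.rho R (k * ev u) = S.rho R x) : S.NoE i (x⁻¹ * k) u := by
  rcases noE_or i (x⁻¹ * k) u with h | ⟨u1, q, u2, h1, h2⟩
  · exact h
  · exfalso
    have h3 := hmin _ h2
    have e : x * (x⁻¹ * k * ev u1) = k * ev u1 := by group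
    rw [e] at h3
    rw [h1] at hu
    have h4 := (rgeo_left hS hR hu).2.2
    have h5 := hu.2.2
    rw [h1] at he
    rw [List.length_append, List.length_cons] at h5
    omega

end OminAux

theorem omin [Finite ι] (hS : S.Good) (hR : S.Root R) : ∃ M : ℕ,
    ∀ (i : ι) (x p : G), p ∈ S.P i → (∃ q ∈ S.P i, x * q ∉ R) →
      (∀ q ∈ S.P i, S.rho R x ≤ S.rho R (x * q)) → S.rho R (x * p) = S.rho R x → S.wl p ≤ M := by
  obtain ⟨σ, hσ⟩ := hR.r1
  obtain ⟨M0, hM0⟩ := hR.r2 σ
  obtain ⟨D, hD⟩ := iso hS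
  refine ⟨7 * D + M0, fun i x p hp hnot hmin heq => ?_⟩
  obtain ⟨k, u, hu, hku⟩ := exists_rgeo hS hR.ne x
  obtain ⟨k', u', hu', hku'⟩ := exists_rgeo hS hR.ne (x * p)
  have n1 : S.NoE i (x⁻¹ * k) u := OminAux.noE_near hS hR.ne hmin hu (by rw [hku])
  have n2 : S.NoE i (x⁻¹ * k') u' := OminAux.noE_near hS hR.ne hmin hu' (by rw [hku', heq])
  have g1 := rgeo_geo hu
  have g2 := rgeo_geo hu'
  obtain ⟨v, hv, hve⟩ := exists_geo hS (k⁻¹ * k')
  have hev : ev u = k⁻¹ * x := by rw [← hku]; group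
  have hev' : ev u' = k'⁻¹ * (x * p) := by rw [← hku']; group
  have n3 : S.NoE i 1 (inv u) := by
    have := noE_inv hu.2.1 n1
    have e : x⁻¹ * k * ev u = 1 := by rw [hev]; group
    rwa [e] at this
  have e1 : (1 : G) * ev (inv u) = x⁻¹ * k := by rw [ev_inv, hev]; group
  rcases noE_or i (x⁻¹ * k) v with h | ⟨v1, q, v2, h1, h2⟩
  · -- no edge in the coset
    have hb : S.Brk 3 (inv u ++ (v ++ u')) :=
      brk_append (brk_of_geo (geo_inv hS g1)) (brk_append (brk_of_geo hv) (brk_of_geo g2))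
    have e2 : ev (inv u ++ (v ++ u')) = p := by
      rw [ev_append, ev_append, ev_inv, hve, hev, hev']; group
    have := hD 3 i 1 _ hb (S.P i).one_mem (by rw [one_mul, e2]; exact hp) (by
      rw [noE_append, noE_append]
      refine ⟨n3, ?_, ?_⟩
      · rw [e1]; exact h
      · rw [e1, hve]
        have e : x⁻¹ * k * (k⁻¹ * k') = x⁻¹ * k' := by group
        rw [e]; exact n2)
    rw [e2] at this
    omega
  · have hvg := hv
    rw [h1] at hv
    obtain ⟨n4, n5⟩ := geo_noE hS hv h2
    have hq : q ∈ S.P i := by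
      have := hv.1
      rw [ok_append, ok_cons] at this
      exact this.2.1
    set z : G := x⁻¹ * k * ev v1 with hz
    have hzP : z ∈ S.P i := h2
    -- first part
    have gv1 := (geo_append hS hv).1
    have gv2 : S.Geo v2 := by
      have h' : S.Geo ((v1 ++ [(some i, q)]) ++ v2) := by simpa using hv
      exact (geo_append hS h').2
    have b1 : S.Brk 2 (inv u ++ v1) :=
      brk_append (brk_of_geo (geo_inv hS g1)) (brk_of_geo gv1)
    have e2 : ev (inv u ++ v1) = z := by
      rw [ev_append, ev_inv, hev, hz]; group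
    have w1 := hD 2 i 1 _ b1 (S.P i).one_mem (by rw [one_mul, e2]; exact hzP) (by
      rw [noE_append]
      refine ⟨n3, ?_⟩
      rw [e1]; exact n4)
    rw [e2] at w1
    -- last part
    have hev2 : z * q * ev v2 = x⁻¹ * k' := by
      have : ev v = ev v1 * (q * ev v2) := by rw [h1, ev_append, ev_cons]
      rw [hve] at this
      rw [hz]
      calc x⁻¹ * k * ev v1 * q * ev v2 = x⁻¹ * k * (ev v1 * (q * ev v2)) := by group
        _ = x⁻¹ * k' := by rw [← this]; group
    have b2 : S.Brk 2 (v2 ++ u') := brk_append (brk_of_geo gv2) (brk_of_geo g2)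
    have e3 : z * q * ev (v2 ++ u') = p := by
      rw [ev_append, ← mul_assoc, hev2, hev']; group
    have w2 := hD 2 i (z * q) _ b2 ((S.P i).mul_mem hzP hq) (by rw [e3]; exact hp) (by
      rw [noE_append]
      refine ⟨n5, ?_⟩
      rw [hev2]; exact n2)
    -- the edge
    have hkv : k * ev v ∈ R := by
      rw [hve]
      have : k * (k⁻¹ * k') = k' := by group
      rw [this]; exact hu'.1
    have w3 : S.wl q ≤ M0 := by
      refine hM0 i (k * ev v1) q hq ?_ (hσ k v hvg hu.1 hkv v1 _ h1) ?_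
      · obtain ⟨q0, hq0, hq0R⟩ := hnot
        refine ⟨z⁻¹ * q0, (S.P i).mul_mem ((S.P i).inv_mem hzP) hq0, ?_⟩
        have : k * ev v1 * (z⁻¹ * q0) = x * q0 := by rw [hz]; group
        rw [this]; exact hq0R
      · have := hσ k v hvg hu.1 hkv (v1 ++ [(some i, q)]) v2 (by simp [h1])
        simpa [mul_assoc] using this
    have e4 : p = z * (q * ev (v2 ++ u')) := by rw [← e3]; group
    have w4 := wl_mul hS z (q * ev (v2 ++ u'))
    have w5 := wl_mul hS q (ev (v2 ++ u'))
    rw [← e4] at w4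
    omega

end RH
end Pool.Agent.Lib.P77fd2d
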