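import Pool.Agent.Lib.P77fd2d.Fellow
import Pool.Agent.Lib.P77fd2d.Omin

/-!
# MODULE P77fd2d.Cone  (1.5h)   black boxes: `fellow`, `omin`

Finitely many cone types (Cannon's argument in the relative setting).

PROOF.
(S) Claim S: there is N0 ≥ 1 such that
  (S1) if `rho (y p) = rho y + 1` for some p ∈ P i then also for some p'' ∈ P i with wl p'' ≤ N0;
  (S2) if `rho (y p'') = rho y + 1` for some p'' ∈ P i, then for every p ∈ P i with
       wl p > N0: rho (y p) = rho y + 1.
  Proof: let M be the constant of `omin`; for each i for which P i has an element of wl > M choose one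
  such element e_i; N0 := max (M, wl e_i, 1) (ι finite).  If rho (y p) = rho y + 1 then, all
  values of rho on O = y P i being within 1 of each other (rl (q⁻¹q') ≤ 1, `rho_mul`), rho y is the minimum on O (any
  q: rho (y p) ≤ rho (y q) + 1), and O ⊄ R as rho (y p) ≠ 0 (`rho_eq_zero`).
  By `omin`, any p' ∈ P i with rho (y p') = rho y has wl p' ≤ M; and rho (y p') ∈ {rho y, rho y + 1}.
  So (S2) [wl p > N0 ≥ M].  (S1): if wl p ≤ M take p'' = p, otherwise e_i exists, take p'' = e_i.
(T) Sub-claim: let N := max(K, N0) with K the constant of `fellow` for N0.  If τ_N(x) = τ_N(x') (the hypothesis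
  of `cone_eq`) and w ∈ cone x ∩ cone x' then for all g with wl g ≤ N0:
     rho (x w g) + rho x' = rho (x' w g) + rho x.
  Proof of ≤ (the other by symmetry): (k',u') R-geodesic to x' w g and (k,u) R-geodesic to x', so (k, u ++ w)
  is an R-geodesic to x' w (`rgeo_append`).  `fellow` at j = u.length: g' := x'⁻¹ k' ev (u'.take j) has
  wl ≤ K.  rho (x' g') = min j u'.length and x' g' ev (u'.drop j) = x' w g, i.e.
  x w g = x g' ev (u'.drop j), so rho (x w g) ≤ rho (x g') + (u'.length - j)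
  = rho (x' g') + rho x - rho x' + (u'.length - j) = u'.length + rho x - rho x'.
(I) Induction on w (from the right, `List.reverseRecOn`): w ∈ cone x ↔ w ∈ cone x'.  Step: by `cone_append`
  w ∈ cone x ∩ cone x' and [s] ∈ cone (x w); show [s] ∈ cone (x' w).
  If wl s.2 ≤ N0 (e.g. s a letter of A): (T) with g = s.2 and with g = 1.
  Otherwise s = (some i, p), wl p > N0; by (S1) there is p'', wl ≤ N0 with
  rho (x w p'') = rho (x w) + 1; by (T) the same for x'; by (S2) rho (x' w p) = rho (x' w) + 1.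
(F) Finiteness: the map x ↦ (g ↦ (rho (x g) : ℤ) - rho x) restricted to the finite ball {wl g ≤ N} takes
  values in [-N, N] (rho is 1-Lipschitz for rl ≤ wl), so has finite range; by `cone_eq` cone x is a
  function of it.
-/

namespace Pool.Agent.Lib.P77fd2d
variable {ι G : Type} [Group G]
namespace RH
variable {S : RH ι G} {R : Set G}

/-- Claim S of the header -/
theorem claimS [Finite ι] (hS : S.Good) (hR : S.Root R) : ∃ N0 : ℕ,
    (∀ (i : ι) (y p : G), p ∈ S.P i → S.rho R (y * p) = S.rho R y + 1 →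
      ∃ q ∈ S.P i, S.wl q ≤ N0 ∧ S.rho R (y * q) = S.rho R y + 1) ∧
    (∀ (i : ι) (y q p : G), q ∈ S.P i → S.rho R (y * q) = S.rho R y + 1 → p ∈ S.P i →
      N0 < S.wl p → S.rho R (y * p) = S.rho R y + 1) := by
  classical
  obtain ⟨M, hM⟩ := omin hS hR
  have key : ∀ (i : ι) (y p : G), p ∈ S.P i → S.rho R (y * p) = S.rho R y + 1 →
      ∀ p' ∈ S.P i, M < S.wl p' → S.rho R (y * p') = S.rho R y + 1 := by
    intro i y p hp h p' hp' hlt
    have hmin : ∀ q ∈ S.P i, S.rho R y ≤ S.rho R (y * q) := by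
      intro q hq
      have h1 := rho_mul hS hR.ne (y * q) (q⁻¹ * p)
      have h2 : S.rl (q⁻¹ * p) ≤ 1 := rl_P_le_one ((S.P i).mul_mem ((S.P i).inv_mem hq) hp)
      have e : y * q * (q⁻¹ * p) = y * p := by group
      rw [e] at h1
      omega
    have hout : ∃ q ∈ S.P i, y * q ∉ R := by
      refine ⟨p, hp, fun hm => ?_⟩
      have := rho_eq_zero (S := S) hm
      omega
    have h1 := hmin p' hp'
    have h2 := rho_mul hS hR.ne y p'
    have h3 : S.rl p' ≤ 1 := rl_P_le_one hp'
    by_cases h4 : S.rho R (y * p') = S.rho R y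
    · have := hM i y p' hp' hout hmin h4
      omega
    · omega
  have he : ∀ i : ι, ∃ e : G, (∃ p ∈ S.P i, M < S.wl p) → e ∈ S.P i ∧ M < S.wl e := by
    intro i
    by_cases h : ∃ p ∈ S.P i, M < S.wl p
    · obtain ⟨p, hp, hp'⟩ := h
      exact ⟨p, fun _ => ⟨hp, hp'⟩⟩
    · exact ⟨1, fun h' => absurd h' h⟩
  choose e he using he
  obtain ⟨B, hB⟩ := (Set.finite_range (fun i => S.wl (e i))).bddAbove
  have hB' : ∀ i, S.wl (e i) ≤ B := fun i => hB ⟨i, rfl⟩
  refine ⟨max M B, ?_, ?_⟩
  · intro i y p hp h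
    by_cases hw : S.wl p ≤ M
    · exact ⟨p, hp, hw.trans (le_max_left _ _), h⟩
    · obtain ⟨h1, h2⟩ := he i ⟨p, hp, by omega⟩
      exact ⟨e i, h1, (hB' i).trans (le_max_right _ _), key i y p hp h (e i) h1 h2⟩
  · intro i y q p hq h hp hlt
    exact key i y q hq h p hp (lt_of_le_of_lt (le_max_left _ _) hlt)

/-- one inequality of sub-claim T of the header -/
theorem claimT (hS : S.Good) (hR : S.Root R) {N0 K : ℕ}
    (hK : ∀ (k : G) (u : List (Ltr ι G)) (k' : G) (u' : List (Ltr ι G)), S.RGeo R k u →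
      S.RGeo R k' u' → S.wl ((k * ev u)⁻¹ * (k' * ev u')) ≤ N0 → ∀ j,
        S.wl ((k * ev (u.take j))⁻¹ * (k' * ev (u'.take j))) ≤ K)
    {x x' : G} (hx : ∀ g, S.wl g ≤ K → S.rho R (x * g) + S.rho R x' = S.rho R (x' * g) + S.rho R x)
    {w : List (Ltr ι G)} (hw' : w ∈ S.cone R x') {g : G} (hg : S.wl g ≤ N0) :
    S.rho R (x * ev w * g) + S.rho R x' ≤ S.rho R (x' * ev w * g) + S.rho R x := by
  obtain ⟨k', u', hu', he'⟩ := exists_rgeo hS hR.ne (x' * ev w * g)
  obtain ⟨k, u, hu, he⟩ := exists_rgeo hS hR.ne x'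
  have huw : S.RGeo R k (u ++ w) := rgeo_append hu (by rw [he]; exact hw')
  have h1 := hK k (u ++ w) k' u' huw hu' (by
    have e : (k * ev (u ++ w))⁻¹ * (k' * ev u') = g := by
      rw [ev_append, ← mul_assoc k, he, he']; group
    rw [e]; exact hg) u.length
  rw [List.take_left' rfl, he] at h1
  set g' := x'⁻¹ * (k' * ev (u'.take u.length)) with hg'
  have h2 := (rgeo_take hS hR.ne hu' u.length).2.2
  have h3 : x' * g' = k' * ev (u'.take u.length) := by rw [hg']; group
  have h4 := hx g' h1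
  rw [h3, h2] at h4
  have h5 : ev w * g = g' * ev (u'.drop u.length) := by
    have h6 : k' * (ev (u'.take u.length) * ev (u'.drop u.length)) = x' * ev w * g := by
      rw [← ev_append, List.take_append_drop, he']
    have h7 : x' * (g' * ev (u'.drop u.length)) = x' * (ev w * g) := by
      rw [← mul_assoc, h3, mul_assoc, h6, mul_assoc]
    exact (mul_left_cancel h7).symm
  have h8 : S.Ok (u'.drop u.length) := by
    have := hu'.2.1
    rw [← List.take_append_drop u.length u', ok_append] at this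
    exact this.2
  have h9 := rho_mul hS hR.ne (x * g') (ev (u'.drop u.length))
  have h10 := rl_le h8
  have h11 : x * ev w * g = x * g' * ev (u'.drop u.length) := by
    rw [mul_assoc, h5, ← mul_assoc]
  have h12 := hu'.2.2
  rw [he'] at h12
  have h13 : (u'.take u.length).length + (u'.drop u.length).length = u'.length := by
    rw [← List.length_append, List.take_append_drop]
  rw [h11]
  omega

theorem mem_cone_letter {x : G} {s : Ltr ι G} :
    [s] ∈ S.cone R x ↔ s.2 ∈ S.Alph s.1 ∧ S.rho R (x * s.2) = S.rho R x + 1 := by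
  simp [cone]

/-- one inclusion, for words -/
theorem cone_sub [Finite ι] (hS : S.Good) (hR : S.Root R) {N0 K : ℕ}
    (h1N : 1 ≤ N0)
    (hS1 : ∀ (i : ι) (y p : G), p ∈ S.P i → S.rho R (y * p) = S.rho R y + 1 →
      ∃ q ∈ S.P i, S.wl q ≤ N0 ∧ S.rho R (y * q) = S.rho R y + 1)
    (hS2 : ∀ (i : ι) (y q p : G), q ∈ S.P i → S.rho R (y * q) = S.rho R y + 1 → p ∈ S.P i →
      N0 < S.wl p → S.rho R (y * p) = S.rho R y + 1)
    (hK : ∀ (k : G) (u : List (Ltr ι G)) (k' : G) (u' : List (Ltr ι G)), S.RGeo R k u →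
      S.RGeo R k' u' → S.wl ((k * ev u)⁻¹ * (k' * ev u')) ≤ N0 → ∀ j,
        S.wl ((k * ev (u.take j))⁻¹ * (k' * ev (u'.take j))) ≤ K)
    {x x' : G} (hx : ∀ g, S.wl g ≤ K → S.rho R (x * g) + S.rho R x' = S.rho R (x' * g) + S.rho R x)
    (w : List (Ltr ι G)) : w ∈ S.cone R x → w ∈ S.cone R x' := by
  have hx' : ∀ g, S.wl g ≤ K →
      S.rho R (x' * g) + S.rho R x = S.rho R (x * g) + S.rho R x' := fun g hg => (hx g hg).symm
  induction w using List.reverseRecOn with
  | nil => intro _; exact nil_mem_cone x'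
  | append_singleton w s ih =>
    intro h
    obtain ⟨hw, hs⟩ := (cone_append hS hR.ne).1 h
    have hw' := ih hw
    refine (cone_append hS hR.ne).2 ⟨hw', ?_⟩
    have T : ∀ g, S.wl g ≤ N0 → S.rho R (x * ev w * g) + S.rho R x' =
        S.rho R (x' * ev w * g) + S.rho R x := fun g hg =>
      le_antisymm (claimT hS hR hK hx hw' hg) (claimT hS hR hK hx' hw hg)
    have T1 := T 1 (by simp)
    rw [mul_one, mul_one] at T1
    rw [mem_cone_letter] at hs ⊢
    refine ⟨hs.1, ?_⟩
    have hs2 := hs.2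
    by_cases hl : S.wl s.2 ≤ N0
    · have T2 := T s.2 hl
      omega
    · obtain ⟨o, p⟩ := s
      cases o with
      | none =>
        have : S.wl p ≤ 1 := wl_le_one hs.1
        simp only at hl
        omega
      | some i =>
        have hp : p ∈ S.P i := hs.1
        obtain ⟨q, hq, hq1, hq2⟩ := hS1 i (x * ev w) p hp hs.2
        have T2 := T q hq1
        have h3 : S.rho R (x' * ev w * q) = S.rho R (x' * ev w) + 1 := by omega
        exact hS2 i (x' * ev w) q p hq h3 hp (by simpa using hl)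

theorem cone_eq [Finite ι] (hS : S.Good) (hR : S.Root R) : ∃ N : ℕ, ∀ x x' : G,
    (∀ g, S.wl g ≤ N → S.rho R (x * g) + S.rho R x' = S.rho R (x' * g) + S.rho R x) →
      S.cone R x = S.cone R x' := by
  obtain ⟨N0, hS1, hS2⟩ := claimS hS hR
  obtain ⟨K, hK⟩ := fellow hS hR (N0 + 1)
  have hS1' : ∀ (i : ι) (y p : G), p ∈ S.P i → S.rho R (y * p) = S.rho R y + 1 →
      ∃ q ∈ S.P i, S.wl q ≤ N0 + 1 ∧ S.rho R (y * q) = S.rho R y + 1 := by
    intro i y p hp h
    obtain ⟨q, h1, h2, h3⟩ := hS1 i y p hp h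
    exact ⟨q, h1, by omega, h3⟩
  have hS2' : ∀ (i : ι) (y q p : G), q ∈ S.P i → S.rho R (y * q) = S.rho R y + 1 → p ∈ S.P i →
      N0 + 1 < S.wl p → S.rho R (y * p) = S.rho R y + 1 := by
    intro i y q p hq h hp hlt
    exact hS2 i y q p hq h hp (by omega)
  refine ⟨K, fun x x' hx => Set.Subset.antisymm ?_ ?_⟩
  · exact fun w hw => cone_sub hS hR (by omega) hS1' hS2' hK hx w hw
  · exact fun w hw => cone_sub hS hR (by omega) hS1' hS2' hK (fun g hg => (hx g hg).symm) w hw

theorem cone_finite [Finite ι] (hS : S.Good) (hR : S.Root R) :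
    (Set.range (S.cone R)).Finite := by
  obtain ⟨N, hN⟩ := cone_eq hS hR
  have hb := ball_finite hS N
  have : Finite {g : G | S.wl g ≤ N} := hb
  let F : G → ({g : G | S.wl g ≤ N} → ℤ) := fun x g => (S.rho R (x * g.1) : ℤ) - S.rho R x
  have hF : (Set.range F).Finite := by
    have h1 : (Set.univ.pi (fun _ : {g : G | S.wl g ≤ N} => Set.Icc (-(N : ℤ)) N)).Finite :=
      Set.Finite.pi' (fun _ => Set.finite_Icc _ _) |>.subset (by
        intro f hf i
        exact hf i (Set.mem_univ i))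
    refine h1.subset ?_
    rintro _ ⟨x, rfl⟩ g _
    have h2 : S.wl g.1 ≤ N := g.2
    have h3 := rl_le_wl hS g.1
    have h4 := rho_mul hS hR.ne x g.1
    have h5 := rho_mul' hS hR.ne x g.1
    show (S.rho R (x * g.1) : ℤ) - S.rho R x ∈ Set.Icc (-(N : ℤ)) N
    rw [Set.mem_Icc]
    constructor <;> omega
  have hfac : Function.FactorsThrough (S.cone R) F := by
    intro x x' h
    apply hN
    intro g hg
    have := congrFun h ⟨g, hg⟩
    simp only [F] at this
    omega
  obtain ⟨e, he⟩ := (Function.factorsThrough_iff (f := F) (S.cone R)).1 hfac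
  rw [he, Set.range_comp]
  exact hF.image e

/-- peripheral letters in a cone type: all long ones or none -/
theorem long_letters [Finite ι] (hS : S.Good) (hR : S.Root R) : ∃ L : ℕ,
    ∀ (i : ι) (x p p' : G), p ∈ S.P i → p' ∈ S.P i → L < S.wl p' → [(some i, p)] ∈ S.cone R x →
      [(some i, p')] ∈ S.cone R x := by
  obtain ⟨N0, _, hS2⟩ := claimS hS hR
  refine ⟨N0, ?_⟩
  intro i x p p' hp hp' hl h
  rw [mem_cone_letter] at h ⊢
  exact ⟨hp', hS2 i x p p' hp h.2 hp' hl⟩

end RH
end Pool.Agent.Lib.P77fd2d
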