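import Pool.Agent.Lib.P77fd2d.Mach

/-!
# Integer coordinates on a finitely generated commutative group modulo a subgroup

`Coord P Lam`: coordinates on the subgroup `P` modulo `Lam`.
-/

namespace Pool.Agent.Lib.P77fd2d
variable {G : Type} [Group G]

/-- coordinates on `P` modulo `Lam` -/
structure Coord (P Lam : Subgroup G) where
  r : ℕ
  m : ℕ
  c : ℕ → List ℤ → G
  mem : ∀ t v, t < m → v.length = r → c t v ∈ P
  surj : ∀ p ∈ P, ∃ t v, t < m ∧ v.length = r ∧ (c t v)⁻¹ * p ∈ Lam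
  inj : ∀ t v t' v', t < m → t' < m → v.length = r → v'.length = r →
    (c t v)⁻¹ * c t' v' ∈ Lam → t = t' ∧ v = v'
  tr : ∀ t < m, ∀ d ∈ P, ∃ t' w, t' < m ∧ w.length = r ∧
    ∀ v : List ℤ, v.length = r → (c t v * d)⁻¹ * c t' (sh v w) ∈ Lam

namespace CoordAux

/-- structure of a finitely generated commutative additive group modulo a subgroup -/
theorem addStruct (A : Type) [AddCommGroup A] [AddGroup.FG A] (L : AddSubgroup A) :
    ∃ (n : ℕ) (T : Type) (_ : AddCommGroup T) (_ : Finite T) (f : A →+ (Fin n → ℤ) × T),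
      Function.Surjective f ∧ ∀ x, f x = 0 ↔ x ∈ L := by
  obtain ⟨n, ι, _, p, hp, e, ⟨E⟩⟩ := AddCommGroup.equiv_free_prod_directSum_zmod (A ⧸ L)
  classical
  have hfin : Finite (DirectSum ι fun i => ZMod (p i ^ e i)) := by
    have : ∀ i, NeZero (p i ^ e i) := fun i => ⟨pow_ne_zero _ (hp i).ne_zero⟩
    have : ∀ i, Finite (ZMod (p i ^ e i)) := fun i => inferInstance
    exact Finite.of_equiv _ (DirectSum.addEquivProd (fun i => ZMod (p i ^ e i))).symm.toEquiv
  refine ⟨n, DirectSum ι fun i => ZMod (p i ^ e i), inferInstance, hfin, ?_⟩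
  let F1 : (Fin n →₀ ℤ) ≃+ (Fin n → ℤ) :=
    { Finsupp.equivFunOnFinite with map_add' := fun _ _ => rfl }
  let E2 : (Fin n →₀ ℤ) × (DirectSum ι fun i => ZMod (p i ^ e i)) ≃+
      (Fin n → ℤ) × (DirectSum ι fun i => ZMod (p i ^ e i)) :=
    AddEquiv.prodCongr F1 (AddEquiv.refl _)
  let f : A →+ (Fin n → ℤ) × (DirectSum ι fun i => ZMod (p i ^ e i)) :=
    (E.trans E2).toAddMonoidHom.comp (QuotientAddGroup.mk' L)
  refine ⟨f, ?_, ?_⟩
  · intro y
    obtain ⟨z, hz⟩ := (E.trans E2).surjective y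
    obtain ⟨x, hx⟩ := QuotientAddGroup.mk'_surjective L z
    exact ⟨x, by simp only [f, AddMonoidHom.comp_apply, hx]; exact hz⟩
  · intro x
    have h1 : f x = (E.trans E2) (QuotientAddGroup.mk' L x) := rfl
    rw [h1, AddEquiv.map_eq_zero_iff, QuotientAddGroup.mk'_apply, QuotientAddGroup.eq_zero_iff]

/-- coordinates as a map -/
theorem exists_map (P Lam : Subgroup G) (hc : ∀ x ∈ P, ∀ y ∈ P, x * y = y * x) (hf : P.FG) :
    ∃ (n : ℕ) (T : Type) (_ : AddCommGroup T) (_ : Finite T) (f : P → (Fin n → ℤ) × T),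
      Function.Surjective f ∧ (∀ x y, f (x * y) = f x + f y) ∧
      ∀ x y : P, f x = f y ↔ ((x⁻¹ * y : P) : G) ∈ Lam := by
  let _ : CommGroup P := { (inferInstance : Group P) with
    mul_comm := fun x y => Subtype.ext (hc x x.2 y y.2) }
  have : Group.FG P := (Group.fg_iff_subgroup_fg P).2 hf
  have : AddGroup.FG (Additive P) := AddGroup.fg_iff_mul_fg.2 (by infer_instance)
  let L : AddSubgroup (Additive P) := Subgroup.toAddSubgroup (Lam.subgroupOf P)
  obtain ⟨n, T, i1, i2, f, hf1, hf2⟩ := addStruct (Additive P) L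
  refine ⟨n, T, i1, i2, fun x => f (Additive.ofMul x), ?_, ?_, ?_⟩
  · intro y
    obtain ⟨x, hx⟩ := hf1 y
    exact ⟨x.toMul, hx⟩
  · intro x y
    change f (Additive.ofMul (x * y)) = f (Additive.ofMul x) + f (Additive.ofMul y)
    rw [ofMul_mul, map_add]
  · intro x y
    have h1 : f (Additive.ofMul (x⁻¹ * y)) = f (Additive.ofMul y) - f (Additive.ofMul x) := by
      rw [ofMul_mul, ofMul_inv, map_add, map_neg]
      abel
    have h2 := hf2 (Additive.ofMul (x⁻¹ * y))
    rw [h1] at h2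
    change f (Additive.ofMul x) = f (Additive.ofMul y) ↔ _
    constructor
    · intro h
      have h3 : Additive.ofMul (x⁻¹ * y) ∈ L := h2.1 (by rw [h]; simp)
      exact h3
    · intro h
      have h3 : Additive.ofMul (x⁻¹ * y) ∈ L := h
      exact (sub_eq_zero.1 (h2.2 h3)).symm

end CoordAux

open CoordAux

theorem exists_coord (P Lam : Subgroup G) (hc : ∀ x ∈ P, ∀ y ∈ P, x * y = y * x) (hf : P.FG)
    (hL : Lam ≤ P) : Nonempty (Coord P Lam) := by
  classical
  obtain ⟨n, T, i1, i2, f, hf1, hf2, hf3⟩ := exists_map P Lam hc hf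
  let N : ℕ := Nat.card T
  let en : Fin N ≃ T := (Finite.equivFin T).symm
  let vec : List ℤ → Fin n → ℤ := fun v i => v.getD i 0
  let g : (Fin n → ℤ) × T → P := Function.surjInv hf1
  have hg : ∀ z, f (g z) = z := Function.surjInv_eq hf1
  let c : ℕ → List ℤ → G := fun t v => if h : t < N then ((g (vec v, en ⟨t, h⟩) : P) : G) else 1
  have hc1 : ∀ t v (h : t < N), c t v = ((g (vec v, en ⟨t, h⟩) : P) : G) := by
    intro t v h
    simp only [c, dif_pos h]
  have vec_inj : ∀ v v' : List ℤ, v.length = n → v'.length = n → vec v = vec v' → v = v' := by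
    intro v v' hv hv' h
    apply List.ext_getElem (by omega)
    intro i h1 h2
    have := congrFun h ⟨i, by omega⟩
    simp only [vec] at this
    rw [List.getD_eq_getElem _ _ h1, List.getD_eq_getElem _ _ h2] at this
    exact this
  have vec_surj : ∀ z : Fin n → ℤ, ∃ v : List ℤ, v.length = n ∧ vec v = z := by
    intro z
    refine ⟨List.ofFn z, by simp, ?_⟩
    funext i
    simp only [vec]
    rw [List.getD_eq_getElem _ _ (by simp)]
    simp
  have vec_sh : ∀ v w : List ℤ, v.length = n → w.length = n → vec (sh v w) = vec v + vec w := by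
    intro v w hv hw
    funext i
    have hi := i.2
    simp only [vec, sh, Pi.add_apply]
    rw [List.getD_eq_getElem _ _ (by simp; omega), List.getD_eq_getElem _ _ (by omega),
      List.getD_eq_getElem _ _ (by omega)]
    simp
  refine ⟨⟨n, N, c, ?_, ?_, ?_, ?_⟩⟩
  · intro t v ht hv
    rw [hc1 t v ht]
    exact (g _).2
  · intro p hp
    obtain ⟨v, hv, hv2⟩ := vec_surj (f ⟨p, hp⟩).1
    refine ⟨(en.symm (f ⟨p, hp⟩).2 : Fin N), v, Fin.is_lt _, hv, ?_⟩
    rw [hc1 _ v (Fin.is_lt _), hv2]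
    have h1 : f (g ((f ⟨p, hp⟩).1, en ⟨(en.symm (f ⟨p, hp⟩).2 : Fin N), Fin.is_lt _⟩)) =
        f ⟨p, hp⟩ := by
      rw [hg]
      simp
    have := (hf3 _ _).1 h1
    simpa using this
  · intro t v t' v' ht ht' hv hv' h
    rw [hc1 t v ht, hc1 t' v' ht'] at h
    have h1 := (hf3 (g (vec v, en ⟨t, ht⟩)) (g (vec v', en ⟨t', ht'⟩))).2 (by simpa using h)
    rw [hg, hg, Prod.mk.injEq] at h1
    refine ⟨?_, vec_inj v v' hv hv' h1.1⟩
    have := en.injective h1.2
    simpa using this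
  · intro t ht d hd
    obtain ⟨w, hw, hw2⟩ := vec_surj (f ⟨d, hd⟩).1
    refine ⟨(en.symm (en ⟨t, ht⟩ + (f ⟨d, hd⟩).2) : Fin N), w, Fin.is_lt _, hw, ?_⟩
    intro v hv
    rw [hc1 t v ht, hc1 _ (sh v w) (Fin.is_lt _)]
    have h1 : f (g (vec v, en ⟨t, ht⟩) * ⟨d, hd⟩) =
        f (g (vec (sh v w), en ⟨(en.symm (en ⟨t, ht⟩ + (f ⟨d, hd⟩).2) : Fin N), Fin.is_lt _⟩)) := by
      rw [hf2, hg, hg, vec_sh v w hv hw, hw2]
      simp [Prod.ext_iff]
    have := (hf3 _ _).1 h1
    simpa using this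

end Pool.Agent.Lib.P77fd2d
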