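import Pool.Agent.Lib.P77fd2d.RootsB

/-!
# MODULE P77fd2d.Matching  (1.3h)   black boxes: `roots_wl`, `iso`

Long peripheral edges of an `R`-geodesic are matched by peripheral edges, at the same index and
with close end points, of any other `R`-geodesic whose endpoint is close.

PROOF.  C2 := constant of `roots_wl` for N, D of `iso`, L := (C2 + N + 4) D.
x = k ev u, x' = k' ev u'.  vA: A-path from k to k' (Brk C2, no peripheral letters), c: A-path from
x to x' (Brk N).  u' = v1 ++ (some i, p) :: v2, z = k' ev v1, z' = z p, O = z P i, wl p > L.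
O is not contained in R (otherwise `rgeo_noE` for u' with g = z⁻¹ is contradicted at this edge) - in
fact this is not needed.  v1 and v2 have no O-edges (`geo_noE`, `rgeo_geo`).
If u had no O-edges, the path z → (inv v1) k' → (inv vA) k → (u) x → (c) x' → (inv v2) z' would be
Brk (C2+N+3) without O-edges, so wl p ≤ (C2+N+3) D, contradiction.  Hence (`noE_or` with g = z⁻¹ k)
u = u1 ++ (some i, q) :: u2 with y := k ev u1 ∈ O, i.e. z⁻¹ y ∈ P i; y' = y q.
Path y → (inv u1) k → (vA) k' → (v1) z : Brk (C2 + 2), no O-edges: wl (y⁻¹ z) ≤ (C2+2) D ≤ L.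
Path y' → (u2) x → (c) x' → (inv v2) z' : Brk (N+2), no O-edges: wl (y'⁻¹ z') ≤ (N+2) D ≤ L.
Indices: rho y = u1.length, rho y' = u1.length + 1, rho z = v1.length, rho z' = v1.length + 1
(`rgeo_left`), and y, y', z, z' ∈ O are at relative distance ≤ 1 of each other, so
|rho y' - rho z| ≤ 1 and |rho z' - rho y| ≤ 1, i.e. u1.length ≤ v1.length and conversely.
-/

namespace Pool.Agent.Lib.P77fd2d
variable {ι G : Type} [Group G]
namespace RH
variable {S : RH ι G} {R : Set G}

theorem matching [Finite ι] (hS : S.Good) (hR : S.Root R) : ∀ N : ℕ, ∃ L : ℕ,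
    ∀ (k : G) (u : List (Ltr ι G)) (k' : G) (u' : List (Ltr ι G)), S.RGeo R k u → S.RGeo R k' u' →
      S.wl ((k * ev u)⁻¹ * (k' * ev u')) ≤ N →
      ∀ v1 i p v2, u' = v1 ++ (some i, p) :: v2 → L < S.wl p →
        ∃ u1 q u2, u = u1 ++ (some i, q) :: u2 ∧ u1.length = v1.length ∧
          (k * ev u1)⁻¹ * (k' * ev v1) ∈ S.P i ∧
          S.wl ((k * ev u1)⁻¹ * (k' * ev v1)) ≤ L ∧
          S.wl ((k * ev u1 * q)⁻¹ * (k' * ev v1 * p)) ≤ L := by
  intro N
  obtain ⟨C, hC⟩ := roots_wl hS hR N
  obtain ⟨D, hD⟩ := iso hS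
  refine ⟨(C + N + 4) * D, ?_⟩
  intro k u k' u' hu hu' hN v1 i p v2 hsplit hp
  have hne : R.Nonempty := hR.ne
  have hgu : S.Geo u := rgeo_geo hu
  have hgu' : S.Geo u' := rgeo_geo hu'
  -- the path from `k` to `k'`
  obtain ⟨vA, hvA1, hvA2, -, hvA4⟩ := exists_apath hS (k⁻¹ * k')
  have hvA : S.Brk C vA := brk_mono (hC k u k' u' hu hu' hN) hvA1
  -- the path from `x` to `x'`
  obtain ⟨c, hc1, hc2, -, hc4⟩ := exists_apath hS ((k * ev u)⁻¹ * (k' * ev u'))
  have hc : S.Brk N c := brk_mono hN hc1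
  rw [hsplit] at hgu'
  have hokv := hgu'.1
  rw [ok_append, ok_cons] at hokv
  obtain ⟨hokv1, hpal, hokv2⟩ := hokv
  have hpP : p ∈ S.P i := hpal
  have hgv1 : S.Geo v1 := (geo_append hS hgu').1
  have hgv2 : S.Geo v2 := by
    have h := (geo_append hS hgu').2
    have h' : S.Geo ([((some i, p) : Ltr ι G)] ++ v2) := by simpa using h
    exact (geo_append hS h').2
  -- `z = k' ev v1`; everything is translated by `z⁻¹`
  have e1 : (k' * ev v1)⁻¹ * k' * ev v1 = 1 := by group
  obtain ⟨nv1, nv2⟩ := geo_noE hS (g := (k' * ev v1)⁻¹ * k') hgu'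
    (by rw [e1]; exact (S.P i).one_mem)
  rw [e1, one_mul] at nv2
  have nv1' : S.NoE i 1 (inv v1) := by
    have h := noE_inv hokv1 nv1
    rw [e1] at h
    exact h
  have nv2' : S.NoE i (p * ev v2) (inv v2) := noE_inv hokv2 nv2
  have nvA : S.NoE i ((k' * ev v1)⁻¹ * k) vA := noE_of_none hvA2
  have nvA' : S.NoE i ((k' * ev v1)⁻¹ * k') (inv vA) := by
    have h := noE_inv (brk_ok hvA) nvA
    rw [hvA4] at h
    have e : (k' * ev v1)⁻¹ * k * (k⁻¹ * k') = (k' * ev v1)⁻¹ * k' := by group
    rw [e] at h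
    exact h
  have ex' : (k' * ev v1)⁻¹ * (k' * ev u') = p * ev v2 := by
    rw [hsplit, ev_append, ev_cons]
    group
  rcases noE_or i ((k' * ev v1)⁻¹ * k) u with hno | ⟨u1, q, u2, eu, hmem⟩
  · exfalso
    have hW : S.Brk (1 + (C + (1 + (N + 1)))) (inv v1 ++ (inv vA ++ (u ++ (c ++ inv v2)))) :=
      brk_append (brk_of_geo (geo_inv hS hgv1)) (brk_append (brk_inv hS hvA)
        (brk_append (brk_of_geo hgu) (brk_append hc (brk_of_geo (geo_inv hS hgv2)))))
    have hev : ev (inv v1 ++ (inv vA ++ (u ++ (c ++ inv v2)))) = p := by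
      simp only [ev_append, ev_inv, hvA4, hc4, hsplit, ev_cons]
      group
    have hNoE : S.NoE i 1 (inv v1 ++ (inv vA ++ (u ++ (c ++ inv v2)))) := by
      rw [noE_append, noE_append, noE_append, noE_append]
      refine ⟨nv1', ?_, ?_, noE_of_none hc2, ?_⟩
      · have e : 1 * ev (inv v1) = (k' * ev v1)⁻¹ * k' := by rw [ev_inv]; group
        rw [e]
        exact nvA'
      · have e : 1 * ev (inv v1) * ev (inv vA) = (k' * ev v1)⁻¹ * k := by
          rw [ev_inv, ev_inv, hvA4]; group
        rw [e]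
        exact hno
      · have e : 1 * ev (inv v1) * ev (inv vA) * ev u * ev c = p * ev v2 := by
          rw [ev_inv, ev_inv, hvA4, hc4, ← ex']; group
        rw [e]
        exact nv2'
    have h := hD _ i 1 _ hW (S.P i).one_mem (by rw [hev, one_mul]; exact hpP) hNoE
    rw [hev] at h
    have h2 : (1 + (C + (1 + (N + 1)))) * D ≤ (C + N + 4) * D :=
      Nat.mul_le_mul_right _ (by omega)
    omega
  · rw [eu] at hgu
    have hoku := hgu.1
    rw [ok_append, ok_cons] at hoku
    obtain ⟨hoku1, hqal, hoku2⟩ := hoku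
    have hqP : q ∈ S.P i := hqal
    have hgu1 : S.Geo u1 := (geo_append hS hgu).1
    have hgu2 : S.Geo u2 := by
      have h := (geo_append hS hgu).2
      have h' : S.Geo ([((some i, q) : Ltr ι G)] ++ u2) := by simpa using h
      exact (geo_append hS h').2
    obtain ⟨nu1, nu2⟩ := geo_noE hS hgu hmem
    have nu1' := noE_inv hoku1 nu1
    have hmem' : (k * ev u1)⁻¹ * (k' * ev v1) ∈ S.P i := by
      have h := (S.P i).inv_mem hmem
      have e : ((k' * ev v1)⁻¹ * k * ev u1)⁻¹ = (k * ev u1)⁻¹ * (k' * ev v1) := by group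
      rw [e] at h
      exact h
    refine ⟨u1, q, u2, eu, ?_, hmem', ?_, ?_⟩
    · -- the indices
      have hu1 : S.RGeo R k u1 := by
        rw [eu] at hu
        exact rgeo_left hS hne hu
      have hu1' : S.RGeo R k (u1 ++ [(some i, q)]) := by
        have h : S.RGeo R k ((u1 ++ [(some i, q)]) ++ u2) := by
          rw [eu] at hu
          simpa using hu
        exact rgeo_left hS hne h
      have hv1 : S.RGeo R k' v1 := by
        rw [hsplit] at hu'
        exact rgeo_left hS hne hu'
      have hv1' : S.RGeo R k' (v1 ++ [(some i, p)]) := by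
        have h : S.RGeo R k' ((v1 ++ [(some i, p)]) ++ v2) := by
          rw [hsplit] at hu'
          simpa using hu'
        exact rgeo_left hS hne h
      have a1 := hu1.2.2
      have a2 := hu1'.2.2
      have b1 := hv1.2.2
      have b2 := hv1'.2.2
      have c1 := rho_mul hS hne (k' * ev v1) ((k' * ev v1)⁻¹ * (k * ev (u1 ++ [(some i, q)])))
      have c2 := rho_mul hS hne (k * ev u1) ((k * ev u1)⁻¹ * (k' * ev (v1 ++ [(some i, p)])))
      have d1 : S.rl ((k' * ev v1)⁻¹ * (k * ev (u1 ++ [(some i, q)]))) ≤ 1 := by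
        apply rl_P_le_one (i := i)
        have e : (k' * ev v1)⁻¹ * (k * ev (u1 ++ [(some i, q)])) =
            (k' * ev v1)⁻¹ * k * ev u1 * q := by
          simp [mul_assoc]
        rw [e]
        exact (S.P i).mul_mem hmem hqP
      have d2 : S.rl ((k * ev u1)⁻¹ * (k' * ev (v1 ++ [(some i, p)]))) ≤ 1 := by
        apply rl_P_le_one (i := i)
        have e : (k * ev u1)⁻¹ * (k' * ev (v1 ++ [(some i, p)])) =
            (k * ev u1)⁻¹ * (k' * ev v1) * p := by
          simp [mul_assoc]
        rw [e]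
        exact (S.P i).mul_mem hmem' hpP
      rw [mul_inv_cancel_left] at c1 c2
      simp only [List.length_append, List.length_singleton] at a2 b2
      omega
    · -- the first end point
      have hW : S.Brk (1 + (C + 1)) (inv u1 ++ (vA ++ v1)) :=
        brk_append (brk_of_geo (geo_inv hS hgu1)) (brk_append hvA (brk_of_geo hgv1))
      have hev : ev (inv u1 ++ (vA ++ v1)) = (k * ev u1)⁻¹ * (k' * ev v1) := by
        simp only [ev_append, ev_inv, hvA4]
        group
      have hNoE : S.NoE i ((k' * ev v1)⁻¹ * k * ev u1) (inv u1 ++ (vA ++ v1)) := by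
        rw [noE_append, noE_append]
        refine ⟨nu1', noE_of_none hvA2, ?_⟩
        have e : (k' * ev v1)⁻¹ * k * ev u1 * ev (inv u1) * ev vA = (k' * ev v1)⁻¹ * k' := by
          rw [ev_inv, hvA4]; group
        rw [e]
        exact nv1
      have h := hD _ i _ _ hW hmem (by
        rw [hev]
        have e : (k' * ev v1)⁻¹ * k * ev u1 * ((k * ev u1)⁻¹ * (k' * ev v1)) = 1 := by group
        rw [e]
        exact (S.P i).one_mem) hNoE
      rw [hev] at h
      have h2 : (1 + (C + 1)) * D ≤ (C + N + 4) * D := Nat.mul_le_mul_right _ (by omega)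
      omega
    · -- the second end point
      have hW : S.Brk (1 + (N + 1)) (u2 ++ (c ++ inv v2)) :=
        brk_append (brk_of_geo hgu2) (brk_append hc (brk_of_geo (geo_inv hS hgv2)))
      have hev : ev (u2 ++ (c ++ inv v2)) = (k * ev u1 * q)⁻¹ * (k' * ev v1 * p) := by
        simp only [ev_append, ev_inv, hc4, hsplit, eu, ev_cons]
        group
      have hNoE : S.NoE i ((k' * ev v1)⁻¹ * k * ev u1 * q) (u2 ++ (c ++ inv v2)) := by
        rw [noE_append, noE_append]
        refine ⟨nu2, noE_of_none hc2, ?_⟩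
        have e : (k' * ev v1)⁻¹ * k * ev u1 * q * ev u2 * ev c = p * ev v2 := by
          rw [hc4, ← ex', eu, ev_append, ev_cons]; group
        rw [e]
        exact nv2'
      have h := hD _ i _ _ hW ((S.P i).mul_mem hmem hqP) (by
        rw [hev]
        have e : (k' * ev v1)⁻¹ * k * ev u1 * q * ((k * ev u1 * q)⁻¹ * (k' * ev v1 * p)) = p := by
          group
        rw [e]
        exact hpP) hNoE
      rw [hev] at h
      have h2 : (1 + (N + 1)) * D ≤ (C + N + 4) * D := Nat.mul_le_mul_right _ (by omega)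
      omega

end RH
end Pool.Agent.Lib.P77fd2d
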