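import Pool.Agent.Lib.P77fd2d.Near
import Pool.Agent.Lib.P77fd2d.Matching

/-!
# MODULE P77fd2d.Fellow  (1.5h)   black boxes: `near`, `matching`

Synchronous fellow traveller property of `R`-geodesics in the word metric.

PROOF.  K0 := constant of `near`, L of `matching` (both for N; the hypothesis is symmetric in the
two geodesics, so both can be applied in both directions; take L ≥ 1).
Write a(j) = k ev (u.take j), b(j) = k' ev (u'.take j), D(j) = wl (a(j)⁻¹ b(j)).
(0) For j ≥ u.length and j ≥ u'.length: D(j) ≤ N.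
(1) A letter of u' at index l with wl > L is matched: l < u.length, the letter of u at index l is
    peripheral, D(l) ≤ L and D(l+1) ≤ L.  Same with u and u' exchanged.
    Consequence: if the letter of u' at index l has wl ≤ L then the letter of u at index l (if any) has
    wl ≤ 3 L (if it is > L it is matched, D(l), D(l+1) ≤ L, so it is ≤ L + L + L); letters of A have wl ≤ 1 ≤ L.
(2) Let j ≤ u.length, vertex a(j).  By `near` there is l ≤ u'.length with wl (a(j)⁻¹ b(l)) ≤ K0,
    |j - l| ≤ K0.
    Case l ≤ j: consider the letters of u' with index in [l, j).  If all (existing) have wl ≤ L: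
      wl (b(l)⁻¹ b(j)) ≤ K0 L, so D(j) ≤ K0 + K0 L.
      Otherwise let m be the largest index in [l,j) with a long letter of u'; D(m+1) ≤ L, the letters of
      u' with index in (m, j) are ≤ L, those of u are ≤ 3 L: D(j) ≤ L + K0 (L + 3 L).
    Case l > j: letters of u' with index in [j, l): all short: D(j) ≤ K0 + K0 L; otherwise let m be
      the smallest index in [j, l) with a long letter; D(m) ≤ L and letters of index in [j, m) are ≤ L
      for u' and ≤ 3 L for u: D(j) ≤ L + K0 (4 L).
    So D(j) ≤ K1 := K0 + L + 4 K0 L for j ≤ u.length; by symmetry also for j ≤ u'.length (wl_symm).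
    With (0) all j are covered.
A convenient formulation: a lemma if letters of index in [s, t) of u have wl ≤ B then
wl (a(s)⁻¹ a(t)) ≤ (t - s) B (List.take, induction on t), valid also beyond the length (no letter).
-/

namespace Pool.Agent.Lib.P77fd2d
variable {ι G : Type} [Group G]
namespace RH
variable {S : RH ι G} {R : Set G}

/-- value of the letter of index `l` (1 if there is none) -/
private def lv (u : List (Ltr ι G)) (l : ℕ) : G := ((u[l]?).map Prod.snd).getD 1

private theorem ev_take_succ (u : List (Ltr ι G)) (l : ℕ) :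
    ev (u.take (l + 1)) = ev (u.take l) * lv u l := by
  rw [List.take_add_one, ev_append]
  unfold lv
  cases u[l]? with
  | none => simp
  | some s => simp

private theorem wl_take (hS : S.Good) (k : G) (u : List (Ltr ι G)) (B s : ℕ) : ∀ n : ℕ,
    (∀ i, s ≤ i → i < s + n → S.wl (lv u i) ≤ B) →
      S.wl ((k * ev (u.take s))⁻¹ * (k * ev (u.take (s + n)))) ≤ n * B := by
  intro n
  induction n with
  | zero => intro _; simp
  | succ n ih =>
    intro h
    have h1 := ih (fun i h1 h2 => h i h1 (by omega))
    have h2 := h (s + n) (by omega) (by omega)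
    have h3 : (k * ev (u.take s))⁻¹ * (k * ev (u.take (s + (n + 1)))) =
        ((k * ev (u.take s))⁻¹ * (k * ev (u.take (s + n)))) * lv u (s + n) := by
      rw [← add_assoc, ev_take_succ]
      group
    rw [h3]
    have h4 := wl_mul hS ((k * ev (u.take s))⁻¹ * (k * ev (u.take (s + n)))) (lv u (s + n))
    have h5 : (n + 1) * B = n * B + B := by ring
    omega

/-- the distance of the vertices of index `j` -/
private noncomputable def dd (S : RH ι G) (k : G) (u : List (Ltr ι G)) (k' : G)
    (u' : List (Ltr ι G)) (j : ℕ) : ℕ :=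
  S.wl ((k * ev (u.take j))⁻¹ * (k' * ev (u'.take j)))

private theorem dd_symm (hS : S.Good) (k : G) (u : List (Ltr ι G)) (k' : G)
    (u' : List (Ltr ι G)) (j : ℕ) : dd S k u k' u' j = dd S k' u' k u j := wl_symm hS _ _

/-- a long letter is matched -/
private theorem matched (hS : S.Good) {L : ℕ} {k : G} {u : List (Ltr ι G)} {k' : G}
    {u' : List (Ltr ι G)} (hu' : S.Ok u')
    (hm : ∀ v1 i p v2, u' = v1 ++ (some i, p) :: v2 → L < S.wl p →
        ∃ u1 q u2, u = u1 ++ (some i, q) :: u2 ∧ u1.length = v1.length ∧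
          (k * ev u1)⁻¹ * (k' * ev v1) ∈ S.P i ∧
          S.wl ((k * ev u1)⁻¹ * (k' * ev v1)) ≤ L ∧
          S.wl ((k * ev u1 * q)⁻¹ * (k' * ev v1 * p)) ≤ L)
    {l : ℕ} (hl : L + 1 < S.wl (lv u' l)) :
    dd S k u k' u' l ≤ L ∧ dd S k u k' u' (l + 1) ≤ L := by
  unfold lv at hl
  cases h : u'[l]? with
  | none =>
    rw [h] at hl
    simp at hl
  | some s =>
    rw [h] at hl
    simp only [Option.map_some, Option.getD_some] at hl
    obtain ⟨o, p⟩ := s
    have hlen : l < u'.length := (List.getElem?_eq_some_iff.1 h).1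
    have hget : u'[l] = (o, p) := (List.getElem?_eq_some_iff.1 h).2
    have hmem : ((o, p) : Ltr ι G) ∈ u' := List.mem_of_getElem? h
    have halph := hu' _ hmem
    cases o with
    | none =>
      have : S.wl p ≤ 1 := wl_le_one halph
      simp only at hl
      omega
    | some i =>
      simp only at hl
      have hsplit : u' = u'.take l ++ (some i, p) :: u'.drop (l + 1) := by
        rw [← hget, List.cons_getElem_drop_succ, List.take_append_drop]
      obtain ⟨u1, q, u2, e, elen, _, h1, h2⟩ := hm _ i p _ hsplit (by omega)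
      have hlen1 : (u'.take l).length = l := by
        rw [List.length_take]; omega
      rw [hlen1] at elen
      have e1 : u.take l = u1 := by
        rw [e, ← elen, List.take_left']
        rfl
      have e2 : ev (u.take (l + 1)) = ev u1 * q := by
        rw [ev_take_succ, e1]
        congr 1
        unfold lv
        rw [e, ← elen]
        simp
      have e3 : ev (u'.take (l + 1)) = ev (u'.take l) * p := by
        rw [ev_take_succ]
        congr 1
        unfold lv
        rw [h]
        simp
      constructor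
      · unfold dd
        rw [e1]
        exact h1
      · unfold dd
        rw [e2, e3, ← mul_assoc k, ← mul_assoc k']
        exact h2

private theorem dd_step (hS : S.Good) (k : G) (u : List (Ltr ι G)) (k' : G)
    (u' : List (Ltr ι G)) (j : ℕ) :
    dd S k u k' u' (j + 1) ≤ S.wl (lv u j) + dd S k u k' u' j + S.wl (lv u' j) ∧
    dd S k u k' u' j ≤ S.wl (lv u j) + dd S k u k' u' (j + 1) + S.wl (lv u' j) ∧
    S.wl (lv u j) ≤ dd S k u k' u' j + S.wl (lv u' j) + dd S k u k' u' (j + 1) := by
  have e1 : k * ev (u.take (j + 1)) = k * ev (u.take j) * lv u j := by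
    rw [ev_take_succ, mul_assoc]
  have e2 : k' * ev (u'.take (j + 1)) = k' * ev (u'.take j) * lv u' j := by
    rw [ev_take_succ, mul_assoc]
  unfold dd
  rw [e1, e2]
  generalize k * ev (u.take j) = x
  generalize k' * ev (u'.take j) = y
  generalize lv u j = s
  generalize lv u' j = t
  have hs := wl_inv hS s
  have ht := wl_inv hS t
  refine ⟨?_, ?_, ?_⟩
  · have e : (x * s)⁻¹ * (y * t) = s⁻¹ * (x⁻¹ * y) * t := by group
    rw [e]
    have h1 := wl_mul hS (s⁻¹ * (x⁻¹ * y)) t
    have h2 := wl_mul hS s⁻¹ (x⁻¹ * y)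
    omega
  · have e : x⁻¹ * y = s * ((x * s)⁻¹ * (y * t)) * t⁻¹ := by group
    rw [e]
    have h1 := wl_mul hS (s * ((x * s)⁻¹ * (y * t))) t⁻¹
    have h2 := wl_mul hS s ((x * s)⁻¹ * (y * t))
    omega
  · have e : s = x⁻¹ * y * t * ((x * s)⁻¹ * (y * t))⁻¹ := by group
    have h1 := wl_mul hS (x⁻¹ * y * t) ((x * s)⁻¹ * (y * t))⁻¹
    have h2 := wl_mul hS (x⁻¹ * y) t
    have h3 := wl_inv hS ((x * s)⁻¹ * (y * t))
    rw [← e] at h1
    omega

/-- the estimate at the indices `j ≤ u.length` -/
private theorem half (hS : S.Good) {L K0 : ℕ} {k : G} {u : List (Ltr ι G)} {k' : G}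
    {u' : List (Ltr ι G)}
    (h1 : ∀ l, L + 1 < S.wl (lv u' l) → dd S k u k' u' l ≤ L ∧ dd S k u k' u' (l + 1) ≤ L)
    (h2 : ∀ l, L + 1 < S.wl (lv u l) → dd S k u k' u' l ≤ L ∧ dd S k u k' u' (l + 1) ≤ L)
    (hn : ∀ u1 u2, u = u1 ++ u2 → ∃ v1 v2, u' = v1 ++ v2 ∧
        S.wl ((k * ev u1)⁻¹ * (k' * ev v1)) ≤ K0 ∧
          u1.length ≤ v1.length + K0 ∧ v1.length ≤ u1.length + K0)
    {j : ℕ} (hj : j ≤ u.length) :
    dd S k u k' u' j ≤ K0 + L + 4 * (K0 * (L + 1)) := by
  -- short letters of `u'` have short partners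
  have hshort : ∀ l, S.wl (lv u' l) ≤ L + 1 → S.wl (lv u l) ≤ 3 * (L + 1) := by
    intro l hl
    by_cases hc : L + 1 < S.wl (lv u l)
    · have h3 := h2 l hc
      have h4 := (dd_step hS k u k' u' l).2.2
      omega
    · omega
  have hfw : ∀ i n, dd S k u k' u' i ≤ L → dd S k u k' u' (i + n) ≤ L + 4 * (n * (L + 1)) := by
    intro i n hi
    induction n with
    | zero => simpa using hi
    | succ n ih =>
      have e : i + (n + 1) = i + n + 1 := by omega
      have e' : (n + 1) * (L + 1) = n * (L + 1) + (L + 1) := by ring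
      rw [e, e']
      by_cases hc : L + 1 < S.wl (lv u' (i + n))
      · have := (h1 _ hc).2
        omega
      · have h3 := hshort (i + n) (by omega)
        have h4 := (dd_step hS k u k' u' (i + n)).1
        omega
  have hbw : ∀ n i, dd S k u k' u' (i + n) ≤ L → dd S k u k' u' i ≤ L + 4 * (n * (L + 1)) := by
    intro n
    induction n with
    | zero => intro i hi; simpa using hi
    | succ n ih =>
      intro i hi
      have e : i + (n + 1) = i + 1 + n := by omega
      rw [e] at hi
      have e' : (n + 1) * (L + 1) = n * (L + 1) + (L + 1) := by ring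
      rw [e']
      have h5 := ih (i + 1) hi
      by_cases hc : L + 1 < S.wl (lv u' i)
      · have := (h1 _ hc).1
        omega
      · have h3 := hshort i (by omega)
        have h4 := (dd_step hS k u k' u' i).2.1
        omega
  obtain ⟨v1, v2, e, hd, hi1, hi2⟩ := hn (u.take j) (u.drop j) (List.take_append_drop j u).symm
  have hlen : (u.take j).length = j := by rw [List.length_take]; omega
  rw [hlen] at hi1 hi2
  have ev1 : v1 = u'.take v1.length := by
    rw [e, List.take_left']
    rfl
  rw [ev1] at hd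
  generalize v1.length = l at hd hi1 hi2 ev1
  rcases le_total l j with hlj | hlj
  · obtain ⟨n, rfl⟩ := Nat.exists_eq_add_of_le hlj
    by_cases hall : ∀ i, l ≤ i → i < l + n → S.wl (lv u' i) ≤ L + 1
    · have h3 := wl_take hS k' u' (L + 1) l n hall
      have h4 := wl_tri hS (k * ev (u.take (l + n))) (k' * ev (u'.take l))
        (k' * ev (u'.take (l + n)))
      have h5 : n * (L + 1) ≤ K0 * (L + 1) := Nat.mul_le_mul_right _ (by omega)
      unfold dd
      omega
    · push Not at hall
      obtain ⟨m, hm1, hm2, hm3⟩ := hall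
      have h3 := (h1 m hm3).2
      have h4 := hfw (m + 1) (l + n - (m + 1)) h3
      have e' : m + 1 + (l + n - (m + 1)) = l + n := by omega
      rw [e'] at h4
      have h5 : (l + n - (m + 1)) * (L + 1) ≤ K0 * (L + 1) :=
        Nat.mul_le_mul_right _ (by omega)
      omega
  · obtain ⟨n, rfl⟩ := Nat.exists_eq_add_of_le hlj
    by_cases hall : ∀ i, j ≤ i → i < j + n → S.wl (lv u' i) ≤ L + 1
    · have h3 := wl_take hS k' u' (L + 1) j n hall
      rw [wl_symm hS] at h3
      have h4 := wl_tri hS (k * ev (u.take j)) (k' * ev (u'.take (j + n)))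
        (k' * ev (u'.take j))
      have h5 : n * (L + 1) ≤ K0 * (L + 1) := Nat.mul_le_mul_right _ (by omega)
      unfold dd
      omega
    · push Not at hall
      obtain ⟨m, hm1, hm2, hm3⟩ := hall
      have h3 := (h1 m hm3).1
      have e' : j + (m - j) = m := by omega
      have h4 := hbw (m - j) j (by rw [e']; exact h3)
      have h5 : (m - j) * (L + 1) ≤ K0 * (L + 1) := Nat.mul_le_mul_right _ (by omega)
      omega

theorem fellow [Finite ι] (hS : S.Good) (hR : S.Root R) : ∀ N : ℕ, ∃ K : ℕ,
    ∀ (k : G) (u : List (Ltr ι G)) (k' : G) (u' : List (Ltr ι G)), S.RGeo R k u → S.RGeo R k' u' →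
      S.wl ((k * ev u)⁻¹ * (k' * ev u')) ≤ N → ∀ j,
        S.wl ((k * ev (u.take j))⁻¹ * (k' * ev (u'.take j))) ≤ K := by
  intro N
  obtain ⟨K0, hK0⟩ := near hS hR N
  obtain ⟨L, hL⟩ := matching hS hR N
  refine ⟨K0 + L + 4 * (K0 * (L + 1)) + N, ?_⟩
  intro k u k' u' hu hu' hN j
  have hN' : S.wl ((k' * ev u')⁻¹ * (k * ev u)) ≤ N := by rw [wl_symm hS]; exact hN
  have m1 : ∀ l, L + 1 < S.wl (lv u' l) →
      dd S k u k' u' l ≤ L ∧ dd S k u k' u' (l + 1) ≤ L :=
    fun l hl => matched hS hu'.2.1 (hL k u k' u' hu hu' hN) hl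
  have m2 : ∀ l, L + 1 < S.wl (lv u l) →
      dd S k' u' k u l ≤ L ∧ dd S k' u' k u (l + 1) ≤ L :=
    fun l hl => matched hS hu.2.1 (hL k' u' k u hu' hu hN') hl
  have m1' : ∀ l, L + 1 < S.wl (lv u' l) →
      dd S k' u' k u l ≤ L ∧ dd S k' u' k u (l + 1) ≤ L := by
    intro l hl
    rw [dd_symm hS k' u' k u l, dd_symm hS k' u' k u (l + 1)]
    exact m1 l hl
  have m2' : ∀ l, L + 1 < S.wl (lv u l) →
      dd S k u k' u' l ≤ L ∧ dd S k u k' u' (l + 1) ≤ L := by
    intro l hl
    rw [dd_symm hS k u k' u' l, dd_symm hS k u k' u' (l + 1)]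
    exact m2 l hl
  by_cases h1 : j ≤ u.length
  · have := half hS m1 m2' (hK0 k u k' u' hu hu' hN) h1
    unfold dd at this
    omega
  · by_cases h2 : j ≤ u'.length
    · have := half hS m2 m1' (hK0 k' u' k u hu' hu hN') h2
      rw [dd_symm hS] at this
      unfold dd at this
      omega
    · rw [List.take_of_length_le (by omega), List.take_of_length_le (by omega)]
      omega

end RH
end Pool.Agent.Lib.P77fd2d
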