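import Pool.Agent.Lib.P77fd2d.PrimD

/-!
# MODULE P77fd2d.Positive  (1.5h)   black box: `re_exists`

Membership in the double coset is r.e.

Certificate: (Rl, A, B) with Rl : List (Word × ℕ × Bool) (conjugating word, index of a relator, sign), A : List (ℕ × Bool) (index in Fw, sign),
B : List (ℕ × Bool) (index in Y, sign).  Word of the certificate:
  W = concatenation over Rl of u ++ r^{±} ++ winv u  ++  concatenation over A of (Fw_k)^{±}  ++ concatenation over B of (Y_k)^{±}
(with `List.getD k []`, ± by winv).  Check: fr n w = fr n W in the free group, i.e.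
`FreeGroup.reduce (filter w) = FreeGroup.reduce (filter W)` where filter keeps the letters (k, b) with k < n.
-/

namespace Pool.Agent.Lib.P77fd2d

namespace Positive

/-- push a letter on a reduced word -/
def push (x : ℕ × Bool) (l : Word) : Word :=
  if l.head? = some (x.1, !x.2) then l.tail else x :: l

/-- reduction of words -/
def red (w : Word) : Word := w.foldr push []

/-- keep the letters with index `< n` -/
def filt (n : ℕ) (w : Word) : Word := w.foldr (fun l r => if l.1 < n then l :: r else r) []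

/-- normal form -/
def nf (n : ℕ) (w : Word) : Word := red (filt n w)

theorem red_eq (w : Word) : red w = FreeGroup.reduce w := by
  induction w with
  | nil => rfl
  | cons x w ih =>
    rw [FreeGroup.reduce.cons, ← ih]
    change push x (red w) = _
    unfold push
    cases h : red w with
    | nil => simp
    | cons hd tl =>
      obtain ⟨k, b⟩ := x
      obtain ⟨k', b'⟩ := hd
      by_cases h1 : k' = k
      · subst h1
        cases b <;> cases b' <;> simp
      · have h2 : ¬ k = k' := fun e => h1 e.symm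
        simp [h1, h2]

theorem map_fr (n : ℕ) (w : Word) :
    FreeGroup.map (Fin.val : Fin n → ℕ) (fr n w) = FreeGroup.mk (filt n w) := by
  induction w with
  | nil => rfl
  | cons l w ih =>
    rw [fr_cons, map_mul, ih]
    obtain ⟨k, b⟩ := l
    by_cases h : k < n
    · have e : filt n ((k, b) :: w) = (k, b) :: filt n w := by simp [filt, h]
      rw [e]
      have e2 : FreeGroup.mk ((k, b) :: filt n w) = FreeGroup.mk [(k, b)] * FreeGroup.mk (filt n w) := by
        rw [FreeGroup.mul_mk]; rfl
      rw [e2]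
      congr 1
      cases b
      · simp [fr, h, FreeGroup.of, FreeGroup.inv_mk, FreeGroup.invRev]
      · simp [fr, h, FreeGroup.of]
    · have e : filt n ((k, b) :: w) = filt n w := by simp [filt, h]
      rw [e]
      simp [fr, h]

theorem nf_iff (n : ℕ) (w w' : Word) : nf n w = nf n w' ↔ fr n w = fr n w' := by
  unfold nf
  rw [red_eq, red_eq]
  constructor
  · intro h
    have h1 := FreeGroup.reduce.exact h
    rw [← map_fr, ← map_fr] at h1
    exact FreeGroup.map_injective Fin.val_injective h1
  · intro h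
    apply FreeGroup.reduce.sound
    rw [← map_fr, ← map_fr, h]

/-- the word of a signed index -/
def pw (Ws : List Word) (l : ℕ × Bool) : Word :=
  if l.2 = true then Ws.getD l.1 [] else winv (Ws.getD l.1 [])

/-- the word of a list of signed indices -/
def cw (Ws : List Word) (A : List (ℕ × Bool)) : Word := A.flatMap (pw Ws)

/-- a conjugate of a relator or its inverse -/
def cj (R : List Word) (t : Word × (ℕ × Bool)) : Word := t.1 ++ (pw R t.2 ++ winv t.1)

/-- a product of conjugates of relators -/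
def rlw (R : List Word) (T : List (Word × (ℕ × Bool))) : Word := T.flatMap (cj R)

/-- certificates of membership -/
abbrev PC := List (Word × (ℕ × Bool)) × (List (ℕ × Bool) × List (ℕ × Bool))

/-- the word of a certificate -/
def cword (q : Inst) (c : PC) : Word := rlw q.1.2 c.1 ++ (cw q.2.1 c.2.1 ++ cw q.2.2.1 c.2.2)

theorem cw_nil (Ws : List Word) : cw Ws [] = [] := rfl
theorem cw_append (Ws : List Word) (A B : List (ℕ × Bool)) :
    cw Ws (A ++ B) = cw Ws A ++ cw Ws B := by simp [cw]
theorem cw_cons (Ws : List Word) (l : ℕ × Bool) (A : List (ℕ × Bool)) :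
    cw Ws (l :: A) = pw Ws l ++ cw Ws A := by simp [cw]
theorem rlw_append (R : List Word) (A B : List (Word × (ℕ × Bool))) :
    rlw R (A ++ B) = rlw R A ++ rlw R B := by simp [rlw]
theorem rlw_cons (R : List Word) (t : Word × (ℕ × Bool)) (A : List (Word × (ℕ × Bool))) :
    rlw R (t :: A) = cj R t ++ rlw R A := by simp [rlw]

theorem fr_pw_flip (n : ℕ) (Ws : List Word) (l : ℕ × Bool) :
    fr n (pw Ws (l.1, !l.2)) = (fr n (pw Ws l))⁻¹ := by
  obtain ⟨k, b⟩ := l
  cases b
  · simp [pw, fr_winv]
  · simp [pw, fr_winv]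

theorem fr_cw_winv (n : ℕ) (Ws : List Word) (A : List (ℕ × Bool)) :
    fr n (cw Ws (winv A)) = (fr n (cw Ws A))⁻¹ := by
  induction A with
  | nil => simp [winv, cw]
  | cons l A ih =>
    have e : winv (l :: A) = winv A ++ [(l.1, !l.2)] := by simp [winv]
    rw [e, cw_append, fr_append, ih, cw_cons, cw_nil, List.append_nil, fr_pw_flip, cw_cons,
      fr_append, mul_inv_rev]

/-- flip the signs and reverse -/
def rinv (T : List (Word × (ℕ × Bool))) : List (Word × (ℕ × Bool)) :=
  (T.map (fun t => (t.1, (t.2.1, !t.2.2)))).reverse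

theorem fr_cj_flip (n : ℕ) (R : List Word) (t : Word × (ℕ × Bool)) :
    fr n (cj R (t.1, (t.2.1, !t.2.2))) = (fr n (cj R t))⁻¹ := by
  unfold cj
  rw [fr_append, fr_append, fr_append, fr_append, fr_winv]
  have h := fr_pw_flip n R t.2
  dsimp only at h ⊢
  rw [h]
  group

theorem fr_rlw_rinv (n : ℕ) (R : List Word) (T : List (Word × (ℕ × Bool))) :
    fr n (rlw R (rinv T)) = (fr n (rlw R T))⁻¹ := by
  induction T with
  | nil => simp [rinv, rlw]
  | cons t T ih =>
    have e : rinv (t :: T) = rinv T ++ [(t.1, (t.2.1, !t.2.2))] := by simp [rinv]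
    rw [e, rlw_append, fr_append, ih, rlw_cons]
    have e2 : rlw R [] = [] := rfl
    rw [e2, List.append_nil, fr_cj_flip, rlw_cons, fr_append, mul_inv_rev]

theorem fr_surj (n : ℕ) (u : FreeGroup (Fin n)) : ∃ w, fr n w = u := by
  obtain ⟨l, rfl⟩ := Quot.exists_rep u
  change ∃ w, fr n w = FreeGroup.mk l
  induction l with
  | nil => exact ⟨[], rfl⟩
  | cons x l ih =>
    obtain ⟨w, hw⟩ := ih
    obtain ⟨⟨k, hk⟩, b⟩ := x
    refine ⟨(k, b) :: w, ?_⟩
    rw [fr_cons, hw]
    have e2 : FreeGroup.mk (((⟨k, hk⟩ : Fin n), b) :: l)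
        = FreeGroup.mk [((⟨k, hk⟩ : Fin n), b)] * FreeGroup.mk l := by
      rw [FreeGroup.mul_mk]; rfl
    rw [e2]
    congr 1
    cases b
    · simp [fr, hk, FreeGroup.of, FreeGroup.inv_mk, FreeGroup.invRev]
    · simp [fr, hk, FreeGroup.of]

theorem getD_mem_or (Ws : List Word) (k : ℕ) : Ws.getD k [] ∈ Ws ∨ Ws.getD k [] = [] := by
  by_cases h : k < Ws.length
  · left
    rw [List.getD_eq_getElem _ _ h]
    exact List.getElem_mem h
  · right
    exact List.getD_eq_default _ _ (not_lt.1 h)

theorem elt_of_fr {P : Pres} {w w' : Word} (h : fr P.1 w = fr P.1 w') : elt P w = elt P w' := by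
  unfold elt
  rw [h]

theorem pw_mem (P : Pres) (Ws : List Word) (l : ℕ × Bool) : elt P (pw Ws l) ∈ sg P Ws := by
  have h0 : elt P (Ws.getD l.1 []) ∈ sg P Ws := by
    rcases getD_mem_or Ws l.1 with h | h
    · exact Subgroup.subset_closure ⟨_, h, rfl⟩
    · rw [h, elt_nil]
      exact Subgroup.one_mem _
  unfold pw
  split_ifs
  · exact h0
  · rw [elt_winv]
    exact Subgroup.inv_mem _ h0

theorem cw_mem (P : Pres) (Ws : List Word) (A : List (ℕ × Bool)) : elt P (cw Ws A) ∈ sg P Ws := by
  induction A with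
  | nil =>
    rw [cw_nil, elt_nil]
    exact Subgroup.one_mem _
  | cons l A ih =>
    rw [cw_cons, elt_append]
    exact Subgroup.mul_mem _ (pw_mem P Ws l) ih

theorem exists_cw (P : Pres) (Ws : List Word) {g : Grp P} (hg : g ∈ sg P Ws) :
    ∃ A, g = elt P (cw Ws A) := by
  unfold sg at hg
  induction hg using Subgroup.closure_induction with
  | mem x hx =>
    obtain ⟨w, hw, rfl⟩ := hx
    obtain ⟨k, hk, e⟩ := List.mem_iff_getElem.1 hw
    refine ⟨[(k, true)], ?_⟩
    rw [cw_cons, cw_nil, List.append_nil]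
    simp only [pw, if_true]
    rw [List.getD_eq_getElem _ _ hk, e]
  | one => exact ⟨[], by rw [cw_nil, elt_nil]⟩
  | mul x y _ _ hx hy =>
    obtain ⟨A, rfl⟩ := hx
    obtain ⟨B, rfl⟩ := hy
    exact ⟨A ++ B, by rw [cw_append, elt_append]⟩
  | inv x _ hx =>
    obtain ⟨A, rfl⟩ := hx
    refine ⟨winv A, ?_⟩
    rw [← elt_winv]
    apply elt_of_fr
    rw [fr_winv, fr_cw_winv]

theorem elt_pw_rel (P : Pres) (l : ℕ × Bool) : elt P (pw P.2 l) = 1 := by
  have h0 : elt P (P.2.getD l.1 []) = 1 := by
    rcases getD_mem_or P.2 l.1 with h | h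
    · exact elt_rel P h
    · rw [h, elt_nil]
  unfold pw
  split_ifs
  · exact h0
  · rw [elt_winv, h0, inv_one]

theorem elt_rlw (P : Pres) (T : List (Word × (ℕ × Bool))) : elt P (rlw P.2 T) = 1 := by
  induction T with
  | nil => exact elt_nil P
  | cons t T ih =>
    rw [rlw_cons, elt_append, ih, mul_one]
    unfold cj
    rw [elt_append, elt_append, elt_pw_rel, elt_winv]
    group

theorem exists_rlw (P : Pres) {r : FreeGroup (Fin P.1)}
    (hr : r ∈ Subgroup.normalClosure (rels P)) : ∃ T, r = fr P.1 (rlw P.2 T) := by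
  unfold Subgroup.normalClosure at hr
  induction hr using Subgroup.closure_induction with
  | mem x hx =>
    obtain ⟨a, ha, hc⟩ := Group.mem_conjugatesOfSet_iff.1 hx
    obtain ⟨c, hc⟩ := isConj_iff.1 hc
    obtain ⟨w, hw, rfl⟩ := ha
    obtain ⟨u, rfl⟩ := fr_surj P.1 c
    obtain ⟨k, hk, e⟩ := List.mem_iff_getElem.1 hw
    refine ⟨[(u, (k, true))], ?_⟩
    rw [rlw_cons]
    have e2 : rlw P.2 [] = [] := rfl
    rw [e2, List.append_nil]
    unfold cj
    rw [fr_append, fr_append, fr_winv, ← hc]
    simp only [pw, if_true, List.getD_eq_getElem _ _ hk, e]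
    rw [mul_assoc]
  | one => exact ⟨[], rfl⟩
  | mul x y _ _ hx hy =>
    obtain ⟨A, rfl⟩ := hx
    obtain ⟨B, rfl⟩ := hy
    exact ⟨A ++ B, by rw [rlw_append, fr_append]⟩
  | inv x _ hx =>
    obtain ⟨A, rfl⟩ := hx
    exact ⟨rinv A, by rw [fr_rlw_rinv]⟩

theorem mem_iff (q : Inst) : Mem q.1 q.2.1 q.2.2.1 q.2.2.2 ↔
    ∃ c : PC, nf q.1.1 q.2.2.2 = nf q.1.1 (cword q c) := by
  obtain ⟨P, Fw, Y, w⟩ := q
  constructor
  · rintro ⟨a, ha, b, hb, hab⟩
    obtain ⟨A, rfl⟩ := exists_cw P Fw ha
    obtain ⟨B, rfl⟩ := exists_cw P Y hb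
    dsimp only at hab
    rw [← elt_append] at hab
    unfold elt at hab
    have h1 : fr P.1 w * (fr P.1 (cw Fw A ++ cw Y B))⁻¹ ∈ Subgroup.normalClosure (rels P) := by
      rw [← PresentedGroup.mk_eq_one_iff, map_mul, map_inv, hab, mul_inv_cancel]
    obtain ⟨T, hT⟩ := exists_rlw P h1
    refine ⟨(T, (A, B)), ?_⟩
    rw [nf_iff]
    unfold cword
    dsimp only
    rw [fr_append, ← hT, inv_mul_cancel_right]
  · rintro ⟨⟨T, A, B⟩, hc⟩
    rw [nf_iff] at hc
    refine ⟨elt P (cw Fw A), cw_mem P Fw A, elt P (cw Y B), cw_mem P Y B, ?_⟩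
    dsimp only at hc ⊢
    rw [elt_of_fr hc]
    unfold cword
    dsimp only
    rw [elt_append, elt_rlw, one_mul, elt_append]

/-! ### primitive recursiveness -/

theorem prim_push : Primrec₂ push := by
  unfold push
  refine Primrec.ite ?_ ?_ ?_
  · refine prim_eq (Primrec.list_head?.comp Primrec.snd) ?_
    exact Primrec.option_some.comp (Primrec.pair (Primrec.fst.comp Primrec.fst)
      (Primrec.not.comp (Primrec.snd.comp Primrec.fst)))
  · exact Primrec.list_tail.comp Primrec.snd
  · exact Primrec.list_cons.comp Primrec.fst Primrec.snd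

theorem prim_red : Primrec red := by
  unfold red
  refine Primrec.list_foldr (f := fun w : Word => w) (g := fun _ => [])
    (h := fun _ y => push y.1 y.2) Primrec.id (Primrec.const []) ?_
  exact prim_push.comp (Primrec.fst.comp Primrec.snd) (Primrec.snd.comp Primrec.snd)

theorem prim_filt : Primrec₂ filt := by
  unfold filt
  refine Primrec.list_foldr (f := fun x : ℕ × Word => x.2) (g := fun _ => [])
    (h := fun x y => if y.1.1 < x.1 then y.1 :: y.2 else y.2) Primrec.snd (Primrec.const []) ?_
  refine Primrec.ite ?_ ?_ ?_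
  · exact Primrec.nat_lt.comp (Primrec.fst.comp (Primrec.fst.comp Primrec.snd))
      (Primrec.fst.comp Primrec.fst)
  · exact Primrec.list_cons.comp (Primrec.fst.comp Primrec.snd) (Primrec.snd.comp Primrec.snd)
  · exact Primrec.snd.comp Primrec.snd

theorem prim_nf : Primrec₂ nf := prim_red.comp prim_filt

theorem prim_pw : Primrec₂ pw := by
  unfold pw
  have hg : Primrec fun x : List Word × (ℕ × Bool) => x.1.getD x.2.1 [] :=
    (Primrec.list_getD []).comp Primrec.fst (Primrec.fst.comp Primrec.snd)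
  refine Primrec.ite ?_ hg (prim_winv.comp hg)
  exact prim_eq (Primrec.snd.comp Primrec.snd) (Primrec.const true)

theorem prim_cw : Primrec₂ cw := by
  unfold cw
  exact Primrec.list_flatMap Primrec.snd
    (prim_pw.comp (Primrec.fst.comp Primrec.fst) Primrec.snd)

theorem prim_cj : Primrec₂ cj := by
  unfold cj
  refine Primrec.list_append.comp (Primrec.fst.comp Primrec.snd) (Primrec.list_append.comp ?_ ?_)
  · exact prim_pw.comp Primrec.fst (Primrec.snd.comp Primrec.snd)
  · exact prim_winv.comp (Primrec.fst.comp Primrec.snd)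

theorem prim_rlw : Primrec₂ rlw := by
  unfold rlw
  exact Primrec.list_flatMap Primrec.snd
    (prim_cj.comp (Primrec.fst.comp Primrec.fst) Primrec.snd)

theorem prim_cword : Primrec₂ cword := by
  unfold cword
  refine Primrec.list_append.comp ?_ (Primrec.list_append.comp ?_ ?_)
  · exact prim_rlw.comp (Primrec.snd.comp (Primrec.fst.comp Primrec.fst))
      (Primrec.fst.comp Primrec.snd)
  · exact prim_cw.comp (Primrec.fst.comp (Primrec.snd.comp Primrec.fst))
      (Primrec.fst.comp (Primrec.snd.comp Primrec.snd))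
  · exact prim_cw.comp (Primrec.fst.comp (Primrec.snd.comp (Primrec.snd.comp Primrec.fst)))
      (Primrec.snd.comp (Primrec.snd.comp Primrec.snd))

end Positive

theorem re_mem : REPred fun q : Inst => Mem q.1 q.2.1 q.2.2.1 q.2.2.2 := by
  have hR : PrimrecPred fun x : Inst × Positive.PC =>
      Positive.nf x.1.1.1 x.1.2.2.2 = Positive.nf x.1.1.1 (Positive.cword x.1 x.2) := by
    have hn : Primrec fun x : Inst × Positive.PC => x.1.1.1 :=
      Primrec.fst.comp (Primrec.fst.comp Primrec.fst)
    refine prim_eq (Positive.prim_nf.comp hn ?_) (Positive.prim_nf.comp hn ?_)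
    · exact Primrec.snd.comp (Primrec.snd.comp (Primrec.snd.comp Primrec.fst))
    · exact Positive.prim_cword.comp Primrec.fst Primrec.snd
  have h := re_exists hR
  have e : (fun q : Inst => Mem q.1 q.2.1 q.2.2.1 q.2.2.2) = fun q : Inst =>
      ∃ c : Positive.PC, Positive.nf q.1.1 q.2.2.2 = Positive.nf q.1.1 (Positive.cword q c) := by
    funext q
    exact propext (Positive.mem_iff q)
  rw [e]
  exact h

end Pool.Agent.Lib.P77fd2d
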