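import Pool.Agent.Lib.P77fd2d.Cone

/-!
# MODULE P77fd2d.Generic  (1.2h)   black boxes: `cone_eq`, `matching`, `fellow`

The cone type after a long peripheral letter is generic; same for root points far from the other roots.

Notation: dist(P i, g) := distI i g := sInf {rl (p⁻¹ * g) | p ∈ P i}.

(G1) `generic`: let N be the constant of `cone_eq` and L the constant of `matching` for this N (take
  the max with what is needed).  If p ∈ P i, wl p > L, [(some i,p)] ∈ cone x and z = x p, then for all g with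
  wl g ≤ N: rho (z g) = rho z + distI i g.
  Proof.  ρ(z) = m + 1, m = rho x; x P i = O; all values of rho on O are ≤ m + 1 (rl ≤ 1 from x).
  ≤ : for q ∈ P i, z g = (z q) (q⁻¹ g), rho (z g) ≤ rho (z q) + rl (q⁻¹ g) ≤ m + 1 + rl (q⁻¹ g).
  ≥ : (k,u) R-geodesic to x, (k, u ++ [(some i,p)]) is an R-geodesic to z (`rgeo_append`); (k',u') an R-geodesic to
  z g; the ends are within N.  `matching` (with the roles: the long letter is on the geodesic to z,
  so apply it to the pair (k',u'), (k, u++[..])): u' = u1 ++ (some i,q) :: u2 with u1.length = u.length = m and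
  y' := k' ev u1 q ∈ O (because k' ev u1 ∈ O), so u2 leads from y' ∈ O to z g:
  y' = z p' with p' ∈ P i and rl (p'⁻¹ g) ≤ u2.length, so distI i g ≤ u2.length = rho (z g) - (m+1).
  Two such points z, z' have the same N-type, `cone_eq` gives cone z = cone z'.
(G2) `generic_root`: let K be the constant of `fellow` for N.  If x P i ⊆ R and every y ∈ R with
  wl (x⁻¹ y) ≤ K lies in x P i (i.e. x⁻¹ y ∈ P i) then for wl g ≤ N: rho x = 0 and
  rho (x g) = distI i g: ≤ : x q ∈ R, rho (x g) ≤ rl (q⁻¹ g).  ≥ : (k',u') R-geodesic to x g, (x, []) is an R-geodesic to x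
  (`rgeo_nil`), `fellow` with j = 0: wl (x⁻¹ k') ≤ K so k' = x q with q ∈ P i, u' leads from
  x q to x g : distI i g ≤ rl (q⁻¹ g) ≤ u'.length = rho (x g).
-/

namespace Pool.Agent.Lib.P77fd2d
variable {ι G : Type} [Group G]
namespace RH

/-- relative distance from the peripheral `P i` -/
noncomputable def distI (S : RH ι G) (i : ι) (g : G) : ℕ :=
  sInf {n | ∃ p ∈ S.P i, S.rl (p⁻¹ * g) = n}

variable {S : RH ι G} {R : Set G}

theorem exists_distI (i : ι) (g : G) : ∃ p ∈ S.P i, S.rl (p⁻¹ * g) = S.distI i g :=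
  Nat.sInf_mem (s := {n | ∃ p ∈ S.P i, S.rl (p⁻¹ * g) = n}) ⟨_, 1, (S.P i).one_mem, rfl⟩

theorem distI_le {i : ι} {p : G} (hp : p ∈ S.P i) (g : G) : S.distI i g ≤ S.rl (p⁻¹ * g) :=
  Nat.sInf_le ⟨p, hp, rfl⟩

theorem generic_formula (hS : S.Good) (hR : S.Root R) {N L : ℕ}
    (hL : ∀ (k : G) (u : List (Ltr ι G)) (k' : G) (u' : List (Ltr ι G)), S.RGeo R k u →
      S.RGeo R k' u' → S.wl ((k * ev u)⁻¹ * (k' * ev u')) ≤ N →
      ∀ v1 i p v2, u' = v1 ++ (some i, p) :: v2 → L < S.wl p →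
        ∃ u1 q u2, u = u1 ++ (some i, q) :: u2 ∧ u1.length = v1.length ∧
          (k * ev u1)⁻¹ * (k' * ev v1) ∈ S.P i ∧
          S.wl ((k * ev u1)⁻¹ * (k' * ev v1)) ≤ L ∧
          S.wl ((k * ev u1 * q)⁻¹ * (k' * ev v1 * p)) ≤ L)
    {i : ι} {x p : G} (hp : p ∈ S.P i) (hl : L < S.wl p) (hc : [(some i, p)] ∈ S.cone R x)
    {g : G} (hg : S.wl g ≤ N) :
    S.rho R (x * p * g) = S.rho R (x * p) + S.distI i g := by
  have hc2 : S.rho R (x * p) = S.rho R x + 1 := (mem_cone_letter.1 hc).2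
  refine le_antisymm ?_ ?_
  · obtain ⟨q, hq, hq'⟩ := exists_distI (S := S) i g
    have h1 := rho_mul hS hR.ne (x * (p * q)) (q⁻¹ * g)
    have h2 := rho_mul hS hR.ne x (p * q)
    have h3 : S.rl (p * q) ≤ 1 := rl_P_le_one ((S.P i).mul_mem hp hq)
    have e : x * (p * q) * (q⁻¹ * g) = x * p * g := by group
    rw [e] at h1
    omega
  · obtain ⟨k, u, hu, he⟩ := exists_rgeo hS hR.ne x
    obtain ⟨k', u', hu', he'⟩ := exists_rgeo hS hR.ne (x * p * g)
    have hup : S.RGeo R k (u ++ [(some i, p)]) := rgeo_append hu (by rw [he]; exact hc)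
    have e1 : k * ev (u ++ [((some i, p) : Ltr ι G)]) = x * p := by
      rw [ev_append, ← mul_assoc, he]; simp
    obtain ⟨u1, q, u2, hs, hlen, hm, -, -⟩ := hL k' u' k (u ++ [(some i, p)]) hu' hup (by
      rw [e1, he']
      have e2 : (x * p * g)⁻¹ * (x * p) = g⁻¹ := by group
      rw [e2, wl_inv hS]; exact hg) u i p [] rfl hl
    rw [he] at hm
    have hok := hu'.2.1
    rw [hs, ok_append, ok_cons] at hok
    have hq : q ∈ S.P i := hok.2.1
    -- y' = k' ev u1 q
    have h1 : (x * p)⁻¹ * (k' * ev u1 * q) ∈ S.P i := by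
      have e3 : (x * p)⁻¹ * (k' * ev u1 * q) = p⁻¹ * ((k' * ev u1)⁻¹ * x)⁻¹ * q := by group
      rw [e3]
      exact (S.P i).mul_mem ((S.P i).mul_mem ((S.P i).inv_mem hp) ((S.P i).inv_mem hm)) hq
    have h2 := distI_le h1 g
    have e4 : ((x * p)⁻¹ * (k' * ev u1 * q))⁻¹ * g = ev u2 := by
      have e5 : k' * ev u' = k' * ev u1 * q * ev u2 := by rw [hs]; simp [mul_assoc]
      have e6 : ((x * p)⁻¹ * (k' * ev u1 * q))⁻¹ * g = (k' * ev u1 * q)⁻¹ * (x * p * g) := by group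
      rw [e6, ← he', e5]; group
    rw [e4] at h2
    have h3 := rl_le hok.2.2
    have h4 := hu'.2.2
    rw [he', hs] at h4
    have h5 := hu.2.2
    rw [he] at h5
    simp only [List.length_append, List.length_cons] at h4
    omega

theorem generic [Finite ι] (hS : S.Good) (hR : S.Root R) : ∃ L : ℕ,
    ∀ (i : ι) (x p x' p' : G), p ∈ S.P i → p' ∈ S.P i → L < S.wl p → L < S.wl p' →
      [(some i, p)] ∈ S.cone R x → [(some i, p')] ∈ S.cone R x' →
        S.cone R (x * p) = S.cone R (x' * p') := by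
  obtain ⟨N, hN⟩ := cone_eq hS hR
  obtain ⟨L, hL⟩ := matching hS hR N
  refine ⟨L, ?_⟩
  intro i x p x' p' hp hp' hl hl' hc hc'
  apply hN
  intro g hg
  have h1 := generic_formula hS hR hL hp hl hc hg
  have h2 := generic_formula hS hR hL hp' hl' hc' hg
  omega

theorem generic_root [Finite ι] (hS : S.Good) (hR : S.Root R) : ∃ n : ℕ,
    ∀ (i : ι) (x x' : G), (∀ q ∈ S.P i, x * q ∈ R) → (∀ q ∈ S.P i, x' * q ∈ R) →
      (∀ y ∈ R, S.wl (x⁻¹ * y) ≤ n → x⁻¹ * y ∈ S.P i) →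
      (∀ y ∈ R, S.wl (x'⁻¹ * y) ≤ n → x'⁻¹ * y ∈ S.P i) →
        S.cone R x = S.cone R x' := by
  obtain ⟨N, hN⟩ := cone_eq hS hR
  obtain ⟨K, hK⟩ := fellow hS hR N
  refine ⟨K, ?_⟩
  have key : ∀ (i : ι) (x : G), (∀ q ∈ S.P i, x * q ∈ R) →
      (∀ y ∈ R, S.wl (x⁻¹ * y) ≤ K → x⁻¹ * y ∈ S.P i) → ∀ g, S.wl g ≤ N →
        S.rho R x = 0 ∧ S.rho R (x * g) = S.distI i g := by
    intro i x h1 h2 g hg
    have hx : x ∈ R := by simpa using h1 1 (S.P i).one_mem
    refine ⟨rho_eq_zero hx, le_antisymm ?_ ?_⟩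
    · obtain ⟨q, hq, hq'⟩ := exists_distI (S := S) i g
      have h3 := rho_le (S := S) (h1 q hq) (x * g)
      have e : (x * q)⁻¹ * (x * g) = q⁻¹ * g := by group
      rw [e] at h3
      omega
    · obtain ⟨k', u', hu', he'⟩ := exists_rgeo hS hR.ne (x * g)
      have h3 := hK x [] k' u' (rgeo_nil hx) hu' (by
        rw [he']
        have e : (x * ev ([] : List (Ltr ι G)))⁻¹ * (x * g) = g := by rw [ev_nil]; group
        rw [e]; exact hg) 0
      simp only [List.take_zero, ev_nil, mul_one] at h3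
      have h4 := h2 k' hu'.1 h3
      have h5 := distI_le h4 g
      have e2 : (x⁻¹ * k')⁻¹ * g = ev u' := by
        have e3 : (x⁻¹ * k')⁻¹ * g = k'⁻¹ * (x * g) := by group
        rw [e3, ← he']; group
      rw [e2] at h5
      have h6 := rl_le hu'.2.1
      have h7 := hu'.2.2
      rw [he'] at h7
      omega
  intro i x x' h1 h1' h2 h2'
  apply hN
  intro g hg
  obtain ⟨a1, a2⟩ := key i x h1 h2 g hg
  obtain ⟨b1, b2⟩ := key i x' h1' h2' g hg
  omega

end RH
end Pool.Agent.Lib.P77fd2d
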