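import Pool.Agent.Lib.P77fd2d.Flats

/-!
# MODULE P77fd2d.HFin  (0.5h)   no black box (pure finiteness)

A coset `z P i` with finite stabiliser `{h ∈ H | z⁻¹ h z ∈ P i}` is close to `H` only in a bounded part.

PROOF.  z = h a and z q = h' b with h, h' ∈ H, wl a, wl b ≤ n (a = h⁻¹ z etc.), q = a⁻¹ (h⁻¹ h') b.
For fixed (i,a,b) let F(i,a,b) = {q ∈ P i | ∃ k ∈ H, q = a⁻¹ k b}.  If {k ∈ H | a⁻¹ k a ∈ P i} is finite
then F(i,a,b) is finite: for q1 = a⁻¹ k1 b, q2 = a⁻¹ k2 b fixed: q1 q2⁻¹ = a⁻¹ (k1 k2⁻¹) a, so k1 k2⁻¹ is in the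
finite set and k1, q1 are determined by it.  The set {k ∈ H | a⁻¹ k a ∈ P i} is
the conjugate by h of {k ∈ H | z⁻¹ k z ∈ P i} (z = h a), so it is finite under the hypothesis.
Take M = sup of wl over the finite union of the F(i,a,b), (i,a,b) ∈ ι × B_n × B_n (`ball_finite`) with finite
stabiliser.
-/

namespace Pool.Agent.Lib.P77fd2d
variable {ι G : Type} [Group G]
namespace RH
variable {S : RH ι G} {H : Subgroup G}

lemma hfin_aux (H : Subgroup G) (P : Subgroup G) (a b : G)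
    (hfin : {k : G | k ∈ H ∧ a⁻¹ * k * a ∈ P}.Finite) :
    {q : G | q ∈ P ∧ ∃ k ∈ H, q = a⁻¹ * k * b}.Finite := by
  rcases Set.eq_empty_or_nonempty {q : G | q ∈ P ∧ ∃ k ∈ H, q = a⁻¹ * k * b} with h | ⟨q2, hq2, k2, hk2, e2⟩
  · rw [h]; exact Set.finite_empty
  · refine (hfin.image (fun k => a⁻¹ * k * a * q2)).subset ?_
    rintro q ⟨hq, k, hk, e⟩
    refine ⟨k * k2⁻¹, ⟨H.mul_mem hk (H.inv_mem hk2), ?_⟩, ?_⟩
    · have e3 : a⁻¹ * (k * k2⁻¹) * a = q * q2⁻¹ := by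
        rw [e, e2]; group
      rw [e3]
      exact P.mul_mem hq (P.inv_mem hq2)
    · show a⁻¹ * (k * k2⁻¹) * a * q2 = q
      rw [e, e2]; group

theorem hfin [Finite ι] (hS : S.Good) (H : Subgroup G) : ∀ n : ℕ, ∃ M : ℕ,
    ∀ (i : ι) (z q : G), q ∈ S.P i → {h : G | h ∈ H ∧ z⁻¹ * h * z ∈ S.P i}.Finite →
      (∃ h ∈ H, S.wl (h⁻¹ * z) ≤ n) → (∃ h ∈ H, S.wl (h⁻¹ * (z * q)) ≤ n) → S.wl q ≤ M := by
  intro n
  have hB := ball_finite hS n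
  have hU : (⋃ i : ι, ⋃ a ∈ {g : G | S.wl g ≤ n}, ⋃ b ∈ {g : G | S.wl g ≤ n},
      {q : G | {k : G | k ∈ H ∧ a⁻¹ * k * a ∈ S.P i}.Finite ∧
        (q ∈ S.P i ∧ ∃ k ∈ H, q = a⁻¹ * k * b)}).Finite := by
    refine Set.finite_iUnion fun i => hB.biUnion fun a _ => hB.biUnion fun b _ => ?_
    by_cases hf : {k : G | k ∈ H ∧ a⁻¹ * k * a ∈ S.P i}.Finite
    · exact (hfin_aux H (S.P i) a b hf).subset fun q hq => hq.2
    · refine Set.finite_empty.subset fun q hq => (hf hq.1).elim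
  obtain ⟨M, hM⟩ := (hU.image S.wl).bddAbove
  refine ⟨M, ?_⟩
  rintro i z q hq hf ⟨h, hh, hwl⟩ ⟨h', hh', hwl'⟩
  refine hM ⟨q, ?_, rfl⟩
  simp only [Set.mem_iUnion]
  refine ⟨i, h⁻¹ * z, hwl, h'⁻¹ * (z * q), hwl', ?_, hq, h⁻¹ * h', H.mul_mem (H.inv_mem hh) hh', ?_⟩
  · have hinj : Function.Injective (fun k : G => h * k * h⁻¹) := by
      intro x y hxy
      simpa using hxy
    refine (hf.preimage (f := fun k : G => h * k * h⁻¹) hinj.injOn).subset ?_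
    rintro k ⟨hk, hk'⟩
    refine ⟨H.mul_mem (H.mul_mem hh hk) (H.inv_mem hh), ?_⟩
    have e : z⁻¹ * (h * k * h⁻¹) * z = (h⁻¹ * z)⁻¹ * k * (h⁻¹ * z) := by group
    show z⁻¹ * (h * k * h⁻¹) * z ∈ S.P i
    rw [e]; exact hk'
  · group

end RH
end Pool.Agent.Lib.P77fd2d
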