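import Pool.Agent.Lib.P77fd2d.Link
import Pool.Agent.Lib.P77fd2d.HFin
import Pool.Agent.Lib.P77fd2d.Close

/-!
# MODULE P77fd2d.RootQC  (1.3h)   black boxes: `link`, `hfin`, `close`, `iso`, `flat_near`

The root set of a relatively quasiconvex subgroup satisfies the hypotheses `Root`.

PROOF.  m, s from `link`, σ from `hH`, D from `iso`.  R := RS.  (translate by h ∈ H: `rs_left`)
(r1) x, y = x ev u ∈ R, u geodesic; link paths w1: x → h, w2: y → h' ; v geodesic word from h to h' (value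
 h⁻¹h' ∈ H).  w := w1 ++ v ++ inv w2 is Brk (2m+1) with the ends of u.  By `close` each vertex of u is within
 K of a vertex of w; a vertex of w1 or w2 is within s of R, a vertex h ev v1 of v is within σ of
 H ⊆ R (quasiconvexity for the word v, translated by h).  So r1 holds with K + s + σ.
(r2) O = x P i not contained in R, x within n of y ∈ R, x p within n of y' ∈ R.  c1: A-path from x to y
 (≤ n pieces), w1: link path y → h, v: geodesic h → h', inv w2: h' → y', c2: A-path from y' to x p.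
 c1, w1, w2, c2 have no O-edges (second alternative in the last clause of `link`, with g = x⁻¹).
  * v has no O-edges: `iso`: wl p ≤ (2n + 2m + 1) D.
  * v = v1 ++ (some i,q) :: v2, z = h ev v1 ∈ O, z' = z q.  z and z' are within σ of H.  The
    stabiliser {k ∈ H | z⁻¹ k z ∈ P i} is finite, otherwise Flat i z and then O ⊆ R (`flat_mul`).
    `hfin`: wl q ≤ M_H(σ).  Path c1, w1, v1 from x to z: Brk (n+m+1), no O-edges (`geo_noE` for v1):
    wl (x⁻¹ z) ≤ (n+m+1) D; same for z' → x p.  So wl p ≤ 2 (n+m+1) D + M_H(σ).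
(exc) `exceptional`: Flat i x, O = x P i, y ∈ R, wl (x⁻¹ y) ≤ n, y ∉ O.  By `flat_near` z = x q0 ∈ O, h ∈ H with
 wl (h⁻¹ z) ≤ s1.  Link path wy : y → h' (first alternative `g * y ∉ P i` with g = x⁻¹ : no O-edges).  v
 geodesic h → h'.  Path z → (A-path, ≤ s1) h → (v) h' → (inv wy) y → (A-path ≤ n) x.
  * v without O-edges: wl (z⁻¹ x) ≤ (s1 + 1 + m + n) D, so wl (h⁻¹ x) ≤ s1 + (s1+1+m+n) D.
  * v = v1 ++ (some i, q) :: v2: z' = h ev v1 q ∈ O is a vertex of v, within σ of H; the path z' → (v2) h' → y → x is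
    Brk (1+m+n) without O-edges: x is within σ + (1+m+n) D of H.
-/

namespace Pool.Agent.Lib.P77fd2d
variable {ι G : Type} [Group G]
namespace RH
variable {S : RH ι G} {H : Subgroup G} {i0 : ι} {w0 : G}

namespace RootQCAux

theorem prefix3 {X : Type} {a b w1 v w2 : List X} (h : w1 ++ (v ++ w2) = a ++ b) :
    (∃ c, w1 = a ++ c) ∨ (∃ a' c, a = w1 ++ a' ∧ v = a' ++ c) ∨
      (∃ a' c, a = w1 ++ (v ++ a') ∧ w2 = a' ++ c) := by
  rcases List.append_eq_append_iff.1 h with ⟨c, hc1, hc2⟩ | ⟨c, hc1, _⟩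
  · rcases List.append_eq_append_iff.1 hc2 with ⟨d, hd1, hd2⟩ | ⟨d, hd1, _⟩
    · right; right
      exact ⟨d, b, by rw [hc1, hd1], hd2⟩
    · right; left
      exact ⟨c, d, hc1, hd1⟩
  · left
    exact ⟨c, hc1⟩

theorem none_inv {c : List (Ltr ι G)} (h : ∀ s ∈ c, s.1 = none) : ∀ s ∈ inv c, s.1 = none := by
  intro s hs
  simp only [inv, List.mem_reverse, List.mem_map] at hs
  obtain ⟨t, ht, rfl⟩ := hs
  exact h t ht

/-- an `A`-path between close points -/
theorem apath (hS : S.Good) {x y : G} {n : ℕ} (h : S.wl (x⁻¹ * y) ≤ n) :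
    ∃ w : List (Ltr ι G), S.Brk n w ∧ (∀ s ∈ w, s.1 = none) ∧ ev w = x⁻¹ * y := by
  obtain ⟨w, h1, h2, _, h4⟩ := exists_apath hS (x⁻¹ * y)
  exact ⟨w, brk_mono h h1, h2, h4⟩

/-- quasiconvexity along a geodesic between points of `H` -/
theorem qc_near {σ : ℕ} (hσ : ∀ u, S.Geo u → ev u ∈ H → ∀ u1 u2, u = u1 ++ u2 →
      ∃ h ∈ H, S.wl (h⁻¹ * ev u1) ≤ σ)
    {h h' : G} (hh : h ∈ H) (hh' : h' ∈ H) {v : List (Ltr ι G)} (hv : S.Geo v)
    (hv' : ev v = h⁻¹ * h') {v1 v2 : List (Ltr ι G)} (hvv : v = v1 ++ v2) :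
    ∃ k ∈ H, S.wl (k⁻¹ * (h * ev v1)) ≤ σ := by
  obtain ⟨k, hk, hk2⟩ := hσ v hv (by rw [hv']; exact H.mul_mem (H.inv_mem hh) hh') v1 v2 hvv
  refine ⟨h * k, H.mul_mem hh hk, ?_⟩
  have e : (h * k)⁻¹ * (h * ev v1) = k⁻¹ * ev v1 := by group
  rw [e]
  exact hk2

end RootQCAux

theorem root_rs [Finite ι] (hS : S.Good) (hH : S.QC H) (i0 : ι) (w0 : G) :
    S.Root (S.RS H i0 w0) := by
  obtain ⟨m, s, hlink⟩ := link hS hH i0 w0
  obtain ⟨σ, hσ⟩ := hH
  obtain ⟨D, hD⟩ := iso (S := S) hS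
  refine ⟨⟨1, rs_H H.one_mem⟩, ?_, ?_⟩
  · obtain ⟨K, hK⟩ := close hS (m + (1 + m))
    refine ⟨s + σ + K, fun x u hu hx hy u1 u2 huu => ?_⟩
    obtain ⟨w1, hw1, hh, hn1, _⟩ := hlink x hx
    obtain ⟨w2, hw2, hh', hn2, _⟩ := hlink (x * ev u) hy
    obtain ⟨v, hv, hv'⟩ := exists_geo hS ((x * ev w1)⁻¹ * (x * ev u * ev w2))
    have hb : S.Brk (m + (1 + m)) (w1 ++ (v ++ inv w2)) :=
      brk_append hw1 (brk_append (brk_of_geo hv) (brk_inv hS hw2))
    have hev : ev (w1 ++ (v ++ inv w2)) = ev u := by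
      rw [ev_append, ev_append, ev_inv, hv']
      group
    obtain ⟨a, b, hab, hd⟩ := hK u (w1 ++ (v ++ inv w2)) hu hb hev u1 u2 huu
    have hnear : ∃ y ∈ S.RS H i0 w0, S.wl (y⁻¹ * (x * ev a)) ≤ s + σ := by
      rcases RootQCAux.prefix3 hab with ⟨c, hc⟩ | ⟨a', c, ha, hc⟩ | ⟨a', c, ha, hc⟩
      · obtain ⟨y, hy1, hy2⟩ := hn1 a c hc
        exact ⟨y, hy1, by omega⟩
      · obtain ⟨k, hk1, hk2⟩ := RootQCAux.qc_near hσ hh hh' hv hv' hc
        refine ⟨k, rs_H hk1, ?_⟩
        have e : x * ev a = x * ev w1 * ev a' := by rw [ha, ev_append, mul_assoc]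
        rw [e]
        omega
      · have hw2' : w2 = inv c ++ inv a' := by
          rw [← inv_append, ← hc, inv_inv']
        obtain ⟨y, hy1, hy2⟩ := hn2 _ _ hw2'
        refine ⟨y, hy1, ?_⟩
        have e : x * ev a = x * ev u * ev (inv c) := by
          rw [ha, ev_append, ev_append, hv']
          have e2 : ev w2 = ev (inv c) * (ev a')⁻¹ := by
            rw [hw2', ev_append, ev_inv a']
          rw [e2]
          group
        rw [e]
        omega
    obtain ⟨y, hy1, hy2⟩ := hnear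
    refine ⟨y, hy1, ?_⟩
    have h1 := wl_tri hS y (x * ev a) (x * ev u1)
    have h2 : (x * ev a)⁻¹ * (x * ev u1) = (ev a)⁻¹ * ev u1 := by group
    rw [h2, wl_symm hS (ev a) (ev u1)] at h1
    omega
  · intro n
    obtain ⟨M, hM⟩ := hfin hS H σ
    refine ⟨(2 * n + 2 * m + 1) * D + (n + m + 1) * D + (n + m + 1) * D + M, ?_⟩
    rintro i x p hp ⟨q0, hq0, hq0R⟩ ⟨y, hy, hyx⟩ ⟨y', hy', hyx'⟩
    obtain ⟨w1, hw1, hh, _, hno1⟩ := hlink y hy
    obtain ⟨w2, hw2, hh', _, hno2⟩ := hlink y' hy'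
    obtain ⟨v, hv, hv'⟩ := exists_geo hS ((y * ev w1)⁻¹ * (y' * ev w2))
    obtain ⟨c1, hc1, hc1n, hc1e⟩ := RootQCAux.apath (S := S) hS (x := x) (y := y) (n := n)
      (by rw [wl_symm hS]; exact hyx)
    obtain ⟨c2, hc2, hc2n, hc2e⟩ := RootQCAux.apath (S := S) hS (x := y') (y := x * p) (n := n)
      hyx'
    have hR : (x⁻¹ : G)⁻¹ * q0 ∉ S.RS H i0 w0 := by rw [inv_inv]; exact hq0R
    have n1 : S.NoE i (x⁻¹ * y) w1 := hno1 i x⁻¹ (Or.inr ⟨q0, hq0, hR⟩)
    have n2 : S.NoE i (x⁻¹ * y') w2 := hno2 i x⁻¹ (Or.inr ⟨q0, hq0, hR⟩)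
    have n2' := noE_inv (brk_ok hw2) n2
    have hone : (1:G) ∈ S.P i := (S.P i).one_mem
    rcases noE_or (S := S) i (x⁻¹ * (y * ev w1)) v with n3 | ⟨v1, q, v2, hvv, hz⟩
    · have hb : S.Brk (2 * n + 2 * m + 1) (c1 ++ (w1 ++ (v ++ (inv w2 ++ c2)))) := by
        have h1 : S.Brk (n + (m + (1 + (m + n)))) (c1 ++ (w1 ++ (v ++ (inv w2 ++ c2)))) :=
          brk_append hc1 (brk_append hw1 (brk_append (brk_of_geo hv)
            (brk_append (brk_inv hS hw2) hc2)))
        have h2 : n + (m + (1 + (m + n))) = 2 * n + 2 * m + 1 := by omega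
        rwa [h2] at h1
      have hev : ev (c1 ++ (w1 ++ (v ++ (inv w2 ++ c2)))) = p := by
        rw [ev_append, ev_append, ev_append, ev_append, ev_inv, hv', hc1e, hc2e]
        group
      have hno : S.NoE i 1 (c1 ++ (w1 ++ (v ++ (inv w2 ++ c2)))) := by
        rw [noE_append, noE_append, noE_append, noE_append]
        refine ⟨noE_of_none hc1n, ?_, ?_, ?_, noE_of_none hc2n⟩
        · rw [one_mul, hc1e]
          exact n1
        · rw [one_mul, hc1e]
          have e : x⁻¹ * y * ev w1 = x⁻¹ * (y * ev w1) := by group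
          rw [e]
          exact n3
        · have e : 1 * ev c1 * ev w1 * ev v = x⁻¹ * y' * ev w2 := by
            rw [hc1e, hv']
            group
          rw [e]
          exact n2'
      have h1 := hD _ i 1 _ hb hone (by rw [hev, one_mul]; exact hp) hno
      rw [hev] at h1
      omega
    · have hq : q ∈ S.P i := by
        have h1 := hv.1
        rw [hvv, ok_append, ok_cons] at h1
        exact h1.2.1
      rw [hvv] at hv hv'
      obtain ⟨n3, n4⟩ := geo_noE hS hv hz
      set z : G := y * ev w1 * ev v1 with hzdef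
      have hzx : x⁻¹ * z ∈ S.P i := by
        have e : x⁻¹ * z = x⁻¹ * (y * ev w1) * ev v1 := by rw [hzdef]; group
        rw [e]
        exact hz
      obtain ⟨gv1, gv2⟩ := geo_append hS hv
      have gv2' : S.Geo v2 := by
        have h1 : S.Geo ([(some i, q)] ++ v2) := by simpa using gv2
        exact (geo_append hS h1).2
      -- finiteness of the stabiliser
      have hfinite : {h : G | h ∈ H ∧ z⁻¹ * h * z ∈ S.P i}.Finite := by
        by_contra hinf
        have hflat : S.Flat H i0 i z := Or.inl hinf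
        apply hq0R
        have e : x * q0 = z * (z⁻¹ * x * q0) := by group
        rw [e]
        refine rs_flat ((flat_mul hS ?_).2 hflat)
        refine (S.P i).mul_mem ?_ hq0
        have e2 : z⁻¹ * x = (x⁻¹ * z)⁻¹ := by group
        rw [e2]
        exact (S.P i).inv_mem hzx
      have h1 := RootQCAux.qc_near hσ hh hh' hv hv' rfl
      have h2 := RootQCAux.qc_near (v1 := v1 ++ [(some i, q)]) (v2 := v2) hσ hh hh' hv hv'
        (by simp)
      have hwq : S.wl q ≤ M := by
        refine hM i z q hq hfinite h1 ?_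
        have e : z * q = y * ev w1 * ev (v1 ++ [(some i, q)]) := by
          rw [hzdef, ev_append]
          simp [mul_assoc]
        rw [e]
        exact h2
      -- from x to z
      have k1 : S.wl (x⁻¹ * z) ≤ (n + m + 1) * D := by
        have hb : S.Brk (n + m + 1) (c1 ++ (w1 ++ v1)) := by
          have h3 : S.Brk (n + (m + 1)) (c1 ++ (w1 ++ v1)) :=
            brk_append hc1 (brk_append hw1 (brk_of_geo gv1))
          rwa [← Nat.add_assoc] at h3
        have hev : ev (c1 ++ (w1 ++ v1)) = x⁻¹ * z := by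
          rw [ev_append, ev_append, hc1e, hzdef]
          group
        have hno : S.NoE i 1 (c1 ++ (w1 ++ v1)) := by
          rw [noE_append, noE_append]
          refine ⟨noE_of_none hc1n, ?_, ?_⟩
          · rw [one_mul, hc1e]
            exact n1
          · rw [one_mul, hc1e]
            have e : x⁻¹ * y * ev w1 = x⁻¹ * (y * ev w1) := by group
            rw [e]
            exact n3
        have h3 := hD _ i 1 _ hb hone (by rw [hev, one_mul]; exact hzx) hno
        rwa [hev] at h3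
      -- from z q to x p
      have k2 : S.wl ((z * q)⁻¹ * (x * p)) ≤ (n + m + 1) * D := by
        have hb : S.Brk (n + m + 1) (v2 ++ (inv w2 ++ c2)) := by
          have h3 : S.Brk (1 + (m + n)) (v2 ++ (inv w2 ++ c2)) :=
            brk_append (brk_of_geo gv2') (brk_append (brk_inv hS hw2) hc2)
          have h4 : 1 + (m + n) = n + m + 1 := by omega
          rwa [h4] at h3
        have hv2 : z * q * ev v2 = y' * ev w2 := by
          have h3 : y * ev w1 * ev (v1 ++ (some i, q) :: v2) = y' * ev w2 := by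
            rw [hv']; group
          rw [← h3, hzdef, ev_append, ev_cons]
          group
        have hev : ev (v2 ++ (inv w2 ++ c2)) = (z * q)⁻¹ * (x * p) := by
          rw [ev_append, ev_append, ev_inv, hc2e]
          have h3 : ev v2 = (z * q)⁻¹ * (y' * ev w2) := by rw [← hv2]; group
          rw [h3]
          group
        have hst : x⁻¹ * (z * q) ∈ S.P i := by
          rw [← mul_assoc]
          exact (S.P i).mul_mem hzx hq
        have hno : S.NoE i (x⁻¹ * (z * q)) (v2 ++ (inv w2 ++ c2)) := by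
          rw [noE_append, noE_append]
          refine ⟨?_, ?_, noE_of_none hc2n⟩
          · have e : x⁻¹ * (z * q) = x⁻¹ * (y * ev w1) * ev v1 * q := by rw [hzdef]; group
            rw [e]
            exact n4
          · have e : x⁻¹ * (z * q) * ev v2 = x⁻¹ * y' * ev w2 := by
              rw [mul_assoc, hv2]; group
            rw [e]
            exact n2'
        have h3 := hD _ i _ _ hb hst (by
          rw [hev]
          have e : x⁻¹ * (z * q) * ((z * q)⁻¹ * (x * p)) = p := by group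
          rw [e]
          exact hp) hno
        rwa [hev] at h3
      have e : p = (x⁻¹ * z) * (q * ((z * q)⁻¹ * (x * p))) := by group
      have h3 := wl_mul hS (x⁻¹ * z) (q * ((z * q)⁻¹ * (x * p)))
      have h4 := wl_mul hS q ((z * q)⁻¹ * (x * p))
      rw [← e] at h3
      omega

theorem exceptional [Finite ι] (hS : S.Good) (hH : S.QC H) (i0 : ι) (w0 : G) : ∀ n : ℕ, ∃ n' : ℕ,
    ∀ (i : ι) (x y : G), S.Flat H i0 i x → y ∈ S.RS H i0 w0 → S.wl (x⁻¹ * y) ≤ n →
      x⁻¹ * y ∉ S.P i → ∃ h ∈ H, S.wl (h⁻¹ * x) ≤ n' := by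
  obtain ⟨m, s, hlink⟩ := link hS hH i0 w0
  obtain ⟨s1, hs1⟩ := flat_near hS hH i0
  obtain ⟨σ, hσ⟩ := hH
  obtain ⟨D, hD⟩ := iso (S := S) hS
  intro n
  refine ⟨s1 + (s1 + 1 + m + n) * D + σ + (1 + m + n) * D, ?_⟩
  intro i x y hflat hy hxy hnot
  obtain ⟨q0, hq0, h, hh, hhz⟩ := hs1 i x hflat
  obtain ⟨wy, hwy, hh', _, hnoy⟩ := hlink y hy
  obtain ⟨v, hv, hv'⟩ := exists_geo hS (h⁻¹ * (y * ev wy))
  have n2 : S.NoE i (x⁻¹ * y) wy := hnoy i x⁻¹ (Or.inl hnot)
  have n2' := noE_inv (brk_ok hwy) n2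
  obtain ⟨c1, hc1, hc1n, hc1e⟩ := RootQCAux.apath (S := S) hS (x := x * q0) (y := h) (n := s1)
    (by rw [wl_symm hS]; exact hhz)
  obtain ⟨c2, hc2, hc2n, hc2e⟩ := RootQCAux.apath (S := S) hS (x := y) (y := x) (n := n)
    (by rw [wl_symm hS]; exact hxy)
  have hone : (1:G) ∈ S.P i := (S.P i).one_mem
  rcases noE_or (S := S) i (x⁻¹ * h) v with n3 | ⟨v1, q, v2, hvv, hz⟩
  · refine ⟨h, hh, ?_⟩
    have hb : S.Brk (s1 + 1 + m + n) (c1 ++ (v ++ (inv wy ++ c2))) := by
      have h1 : S.Brk (s1 + (1 + (m + n))) (c1 ++ (v ++ (inv wy ++ c2))) :=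
        brk_append hc1 (brk_append (brk_of_geo hv) (brk_append (brk_inv hS hwy) hc2))
      have h2 : s1 + (1 + (m + n)) = s1 + 1 + m + n := by omega
      rwa [h2] at h1
    have hev : ev (c1 ++ (v ++ (inv wy ++ c2))) = (x * q0)⁻¹ * x := by
      rw [ev_append, ev_append, ev_append, ev_inv, hv', hc1e, hc2e]
      group
    have hno : S.NoE i q0 (c1 ++ (v ++ (inv wy ++ c2))) := by
      rw [noE_append, noE_append, noE_append]
      refine ⟨noE_of_none hc1n, ?_, ?_, noE_of_none hc2n⟩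
      · have e : q0 * ev c1 = x⁻¹ * h := by rw [hc1e]; group
        rw [e]
        exact n3
      · have e : q0 * ev c1 * ev v = x⁻¹ * y * ev wy := by rw [hc1e, hv']; group
        rw [e]
        exact n2'
    have h1 := hD _ i q0 _ hb hq0 (by
      rw [hev]
      have e : q0 * ((x * q0)⁻¹ * x) = 1 := by group
      rw [e]
      exact hone) hno
    rw [hev] at h1
    have h2 := wl_tri hS h (x * q0) x
    omega
  · have hq : q ∈ S.P i := by
      have h1 := hv.1
      rw [hvv, ok_append, ok_cons] at h1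
      exact h1.2.1
    rw [hvv] at hv hv'
    obtain ⟨n3, n4⟩ := geo_noE hS hv hz
    obtain ⟨gv1, gv2⟩ := geo_append hS hv
    have gv2' : S.Geo v2 := by
      have h1 : S.Geo ([(some i, q)] ++ v2) := by simpa using gv2
      exact (geo_append hS h1).2
    obtain ⟨k, hk1, hk2⟩ := RootQCAux.qc_near (v1 := v1 ++ [(some i, q)]) (v2 := v2) hσ hh hh'
      hv hv' (by simp)
    set z : G := h * ev v1 * q with hzdef
    have hzx : x⁻¹ * z ∈ S.P i := by
      have e : x⁻¹ * z = x⁻¹ * h * ev v1 * q := by rw [hzdef]; group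
      rw [e]
      exact (S.P i).mul_mem hz hq
    have hv2 : z * ev v2 = y * ev wy := by
      have h3 : h * ev (v1 ++ (some i, q) :: v2) = y * ev wy := by
        rw [hv']; group
      rw [← h3, hzdef, ev_append, ev_cons]
      group
    have hb : S.Brk (1 + m + n) (v2 ++ (inv wy ++ c2)) := by
      have h3 : S.Brk (1 + (m + n)) (v2 ++ (inv wy ++ c2)) :=
        brk_append (brk_of_geo gv2') (brk_append (brk_inv hS hwy) hc2)
      rwa [← Nat.add_assoc] at h3
    have hev : ev (v2 ++ (inv wy ++ c2)) = z⁻¹ * x := by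
      rw [ev_append, ev_append, ev_inv, hc2e]
      have h3 : ev v2 = z⁻¹ * (y * ev wy) := by rw [← hv2]; group
      rw [h3]
      group
    have hno : S.NoE i (x⁻¹ * z) (v2 ++ (inv wy ++ c2)) := by
      rw [noE_append, noE_append]
      refine ⟨?_, ?_, noE_of_none hc2n⟩
      · have e : x⁻¹ * z = x⁻¹ * h * ev v1 * q := by rw [hzdef]; group
        rw [e]
        exact n4
      · have e : x⁻¹ * z * ev v2 = x⁻¹ * y * ev wy := by
          rw [mul_assoc, hv2]; group
        rw [e]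
        exact n2'
    have h1 := hD _ i _ _ hb hzx (by
      rw [hev]
      have e : x⁻¹ * z * (z⁻¹ * x) = 1 := by group
      rw [e]
      exact hone) hno
    rw [hev] at h1
    refine ⟨k, hk1, ?_⟩
    have h2 := wl_tri hS k z x
    have e : h * ev (v1 ++ [(some i, q)]) = z := by
      rw [hzdef, ev_append]
      simp [mul_assoc]
    rw [e] at hk2
    omega

end RH
end Pool.Agent.Lib.P77fd2d
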