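import Pool.Agent.Lib.P77fd2d.Iso

/-!
# MODULE P77fd2d.Square   black box: `iso`

A square `d * t = p * d'` with a long peripheral letter `p`, short sides `d, d'` and `t` at most one
letter is a square inside the coset.
-/

namespace Pool.Agent.Lib.P77fd2d
variable {ι G : Type} [Group G]
namespace RH
variable {S : RH ι G}

theorem square [Finite ι] (hS : S.Good) : ∀ K : ℕ, ∃ L : ℕ,
    ∀ (i : ι) (p d d' : G) (t : List (Ltr ι G)), p ∈ S.P i → L < S.wl p → S.wl d ≤ K →
      S.wl d' ≤ K → S.Ok t → t.length ≤ 1 → d * ev t = p * d' →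
        d ∈ S.P i ∧ d' ∈ S.P i ∧ ∃ q ∈ S.P i, t = [(some i, q)] := by
  obtain ⟨D, hD⟩ := iso hS
  intro K
  refine ⟨(2 * K + 1) * D, ?_⟩
  intro i p d d' t hp hL hd hd' hok ht heq
  obtain ⟨a, ha1, ha2, _, ha4⟩ := exists_apath hS d
  obtain ⟨b, hb1, hb2, _, hb4⟩ := exists_apath hS d'⁻¹
  rw [wl_inv hS] at hb1
  have key : ∀ s : List (Ltr ι G), S.Brk 1 s → ev s = ev t → S.NoE i d s → False := by
    intro s hs1 hs2 hs3
    have hv : ev (a ++ (s ++ b)) = p := by
      rw [ev_append, ev_append, ha4, hb4, hs2, ← mul_assoc, heq]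
      group
    have hB : S.Brk (2 * K + 1) (a ++ (s ++ b)) :=
      brk_mono (by omega) (brk_append ha1 (brk_append hs1 hb1))
    have hN : S.NoE i 1 (a ++ (s ++ b)) := by
      rw [noE_append, noE_append]
      refine ⟨noE_of_none ha2, ?_, noE_of_none hb2⟩
      rw [ha4, one_mul]
      exact hs3
    have h := hD (2 * K + 1) i 1 (a ++ (s ++ b)) hB (S.P i).one_mem
      (by rw [hv, one_mul]; exact hp) hN
    rw [hv] at h
    omega
  cases t with
  | nil => exact (key [] (brk_nil 1) rfl (noE_nil i d)).elim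
  | cons x t' =>
    have ht' : t' = [] := by
      rw [List.length_cons] at ht
      exact List.length_eq_zero_iff.1 (by omega)
    subst ht'
    obtain ⟨o, q⟩ := x
    have hq : q ∈ S.Alph o := by
      have := (ok_cons.1 hok).1
      exact this
    by_cases hq1 : q = 1
    · subst hq1
      exact (key [] (brk_nil 1) (by simp) (noE_nil i d)).elim
    · have hB : S.Brk 1 [(o, q)] := brk_of_geo (geo_letter hS hq hq1)
      by_cases hN : S.NoE i d [(o, q)]
      · exact (key _ hB rfl hN).elim
      · rw [noE_cons] at hN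
        have h1 : o = some i ∧ d ∈ S.P i := by
          by_contra hc
          apply hN
          refine ⟨?_, noE_nil i _⟩
          intro h2 h3
          exact hc ⟨h2, h3⟩
        obtain ⟨rfl, hdi⟩ := h1
        have hqi : q ∈ S.P i := hq
        refine ⟨hdi, ?_, q, hqi, rfl⟩
        have h2 : d' = p⁻¹ * (d * q) := by
          have : ev [((some i, q) : Ltr ι G)] = q := by simp
          rw [this] at heq
          rw [heq]
          group
        rw [h2]
        exact (S.P i).mul_mem ((S.P i).inv_mem hp) ((S.P i).mul_mem hdi hqi)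

end RH
end Pool.Agent.Lib.P77fd2d
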