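import Pool.Agent.Lib.P77fd2d.Sem
import Pool.Agent.Lib.P77fd2d.Generic
import Pool.Agent.Lib.P77fd2d.Square
import Pool.Agent.Lib.P77fd2d.RootQC

/-!
# MODULE P77fd2d.SemF  (1.5h)   black boxes: fellow, square, long_letters, generic, generic_root, cone_finite, root_rs, exceptional, flat_near, iso, exists_coord

Existence of the data with all the facts.

(A) `two_flats`: there is n1 such that Flat i x, Flat j x, i ≠ j imply wl (h⁻¹ x) ≤ n1 for some h ∈ H.
  Proof: `flat_near` (constant s): z = x q, q ∈ P i, h ∈ H, wl (h⁻¹ z) ≤ s; z' = x q', q' ∈ P j, h' ∈ H, wl (h'⁻¹ z') ≤ s.  v geodesic word from h to h'.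
  Path from z: A-path to h, v, A-path from h' to z', letter (some j, q'⁻¹) (nothing if q' = 1) to x: O := x P i contains z and x.  The A-paths and the letter (label
  j ≠ i) are no O-edges.  If v has no O-edge, `iso`: wl (z⁻¹ x) ≤ (2 s + 2) D, so x is within s + (2s+2) D of H.
  If v = v1 ++ (some i, p) :: v2 with the edge in O: z'' = h ev v1 p ∈ O is a vertex of v, within σ of H (quasiconvexity), and the path
  z'' → (v2) h' → z' → x is Brk (s + 2) without O-edges (`geo_noE`): wl (z''⁻¹ x) ≤ (s+2) D.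
(B) representatives of flats: each Flat i x has q ∈ P i, h ∈ H with x q = h b, wl b ≤ s (`flat_near`), so x = h b q⁻¹, Flat i b.  On the finite set
  {(i,b) | wl b ≤ s, Flat i b} choose representatives of the equivalence relation (i,b) ~ (i,b') iff b = h b' p: e.g. the set of all
  (i, b) such that b is the chosen representative (`Quotient.out`-like choice or `Finset`/minimal element for an enumeration).  fl1, fl2, fl3, finiteness.
(C) coordinates: cP, cF by `exists_coord` (P i commutative and f.g.; Lam ≤ P i).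
(D) constants in this order: N given, K := max (constant of `fellow` for N) N; L := max of 1, constant of `square` for 2K, of `long_letters`, of `generic`, and
  wl (c t []) for the finitely many (i,t), t < m_i; n0 := max of: wl w0 (and 2K + wl w0), constant of `exceptional` for max (2K) n_g, where n_g is the
  constant of `generic_root`, n1 + 2K, and wl (x c t []) for (i,x) ∈ FL, t < m.
(E) far_root: Flat i x, far x, y ∈ R, wl (x⁻¹ y) ≤ 2K: x⁻¹ y ∈ P i by `exceptional`; if y w0⁻¹ ∈ H then x is within 2K + wl w0 of H (x = y (x⁻¹y)⁻¹ = h w0 (..)): contradiction;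
  if Flat j y, j ≠ i: y = x p with p ∈ P i so Flat i y (`flat_mul`), (A): y is within n1 of H, x within n1 + 2K.
(F) gen_root: `generic_root`: x q ∈ R (`flat_mul`, `rs_flat`), y ∈ R with wl (x⁻¹y) ≤ n_g is in x P i by `exceptional`.
The statement is for a given S, H, i0, w0, N.
-/

namespace Pool.Agent.Lib.P77fd2d
namespace RH
variable {ι G : Type} [Group G] {S : RH ι G} {H : Subgroup G}

/-- a point on two different flats is close to `H` -/
theorem semF_two [Finite ι] (hS : S.Good) (hH : S.QC H) (i0 : ι) : ∃ n1 : ℕ,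
    ∀ (i j : ι) (x : G), S.Flat H i0 i x → S.Flat H i0 j x → i ≠ j →
      ∃ h ∈ H, S.wl (h⁻¹ * x) ≤ n1 := by
  obtain ⟨D, hD⟩ := iso hS
  obtain ⟨s, hs⟩ := flat_near hS hH i0
  obtain ⟨σ, hσ⟩ := hH
  refine ⟨s + σ + (s + 1 + s + 1) * D + (1 + s + 1) * D, ?_⟩
  intro i j x hi hj hij
  obtain ⟨q, hq, h, hh, hz⟩ := hs i x hi
  obtain ⟨q', hq', h', hh', hz'⟩ := hs j x hj
  obtain ⟨c1, a1, a2, a3, a4⟩ := exists_apath hS ((x * q)⁻¹ * h)
  obtain ⟨c2, b1, b2, b3, b4⟩ := exists_apath hS (h'⁻¹ * (x * q'))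
  obtain ⟨v, hv, hv'⟩ := exists_geo hS (h⁻¹ * h')
  have a1' : S.Brk s c1 := brk_mono (by rw [wl_symm hS]; exact hz) a1
  have b1' : S.Brk s c2 := brk_mono hz' b1
  obtain ⟨c3, d1, d2, d3⟩ : ∃ c3 : List (Ltr ι G), S.Brk 1 c3 ∧ (∀ t ∈ c3, t.1 = some j) ∧
      ev c3 = q'⁻¹ := by
    by_cases hq1 : q' = 1
    · exact ⟨[], brk_nil 1, by simp, by simp [hq1]⟩
    · exact ⟨[(some j, q'⁻¹)], brk_of_geo (geo_letter hS (o := some j) ((S.P j).inv_mem hq')
        (by simpa using hq1)), by simp, by simp⟩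
  have nc3 : ∀ g, S.NoE i g c3 := by
    intro g w1 t w2 hw ht
    have := d2 t (by simp [hw])
    rw [this] at ht
    exact absurd (Option.some.inj ht).symm hij
  rcases noE_or (S := S) i (x⁻¹ * h) v with hn | ⟨v1, p, v2, hv1, hm⟩
  · have key := hD (s + (1 + (s + 1))) i (x⁻¹ * (x * q)) (c1 ++ (v ++ (c2 ++ c3)))
      (brk_append a1' (brk_append (brk_of_geo hv) (brk_append b1' d1)))
      (by simpa using hq) (by
        simp only [ev_append, a4, hv', b4, d3]
        have : x⁻¹ * (x * q) * ((x * q)⁻¹ * h * (h⁻¹ * h' * (h'⁻¹ * (x * q') * q'⁻¹))) = 1 := by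
          group
        rw [this]; exact Subgroup.one_mem _) (by
        rw [noE_append, noE_append, noE_append]
        refine ⟨noE_of_none a2, ?_, noE_of_none b2, nc3 _⟩
        rw [a4]
        have : x⁻¹ * (x * q) * ((x * q)⁻¹ * h) = x⁻¹ * h := by group
        rw [this]; exact hn)
    refine ⟨h, hh, ?_⟩
    have e : ev (c1 ++ (v ++ (c2 ++ c3))) = (x * q)⁻¹ * x := by
      simp only [ev_append, a4, hv', b4, d3]
      group
    rw [e] at key
    have t := wl_tri hS h (x * q) x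
    have : (s + (1 + (s + 1))) * D = (s + 1 + s + 1) * D := by ring
    omega
  · subst hv1
    have hp : p ∈ S.P i := by
      have := hv.1
      rw [ok_append, ok_cons] at this
      exact this.2.1
    obtain ⟨_, n2⟩ := geo_noE hS (g := x⁻¹ * h) hv hm
    have key := hD (1 + (s + 1)) i (x⁻¹ * h * ev v1 * p) (v2 ++ (c2 ++ c3))
      (brk_append (brk_of_geo (geo_append hS (u := v1 ++ [(some i, p)]) (by simpa using hv)).2)
        (brk_append b1' d1))
      ((S.P i).mul_mem hm hp) (by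
        have e1 : ev (v1 ++ (some i, p) :: v2) = ev v1 * p * ev v2 := by simp [mul_assoc]
        rw [e1] at hv'
        simp only [ev_append, b4, d3]
        have : x⁻¹ * h * ev v1 * p * (ev v2 * (h'⁻¹ * (x * q') * q'⁻¹)) =
            x⁻¹ * h * (ev v1 * p * ev v2) * h'⁻¹ * x := by group
        rw [this, hv']
        have : x⁻¹ * h * (h⁻¹ * h') * h'⁻¹ * x = 1 := by group
        rw [this]; exact Subgroup.one_mem _) (by
        rw [noE_append, noE_append]
        exact ⟨n2, noE_of_none b2, nc3 _⟩)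
    obtain ⟨h1, hh1, k1⟩ := hσ _ hv (by
      rw [hv']; exact H.mul_mem (H.inv_mem hh) hh') (v1 ++ [(some i, p)]) v2 (by simp)
    refine ⟨h * h1, H.mul_mem hh hh1, ?_⟩
    have t := wl_tri hS (h * h1) (h * (ev v1 * p)) x
    have e2 : (h * h1)⁻¹ * (h * (ev v1 * p)) = h1⁻¹ * ev (v1 ++ [(some i, p)]) := by
      simp only [ev_append, ev_cons, ev_nil, mul_one]; group
    have e3 : ev (v2 ++ (c2 ++ c3)) = (h * (ev v1 * p))⁻¹ * x := by
      have e1 : ev (v1 ++ (some i, p) :: v2) = ev v1 * p * ev v2 := by simp [mul_assoc]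
      rw [e1] at hv'
      simp only [ev_append, b4, d3]
      have : ev v2 = (ev v1 * p)⁻¹ * (h⁻¹ * h') := by rw [← hv']; group
      rw [this]; group
    rw [e2] at t
    rw [e3] at key
    have : (1 + (s + 1)) * D = (1 + s + 1) * D := by ring
    omega

/-- representatives of the flats modulo `H` -/
theorem semF_rep [Finite ι] (hS : S.Good) (hH : S.QC H) (i0 : ι) : ∃ FL : Set (ι × G),
    FL.Finite ∧ (∀ q ∈ FL, S.Flat H i0 q.1 q.2) ∧
    (∀ i x, S.Flat H i0 i x → ∃ y, (i, y) ∈ FL ∧ ∃ h ∈ H, ∃ p ∈ S.P i, x = h * y * p) ∧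
    (∀ i x y, (i, x) ∈ FL → (i, y) ∈ FL → (∃ h ∈ H, ∃ p ∈ S.P i, x = h * y * p) → x = y) := by
  classical
  obtain ⟨s, hs⟩ := flat_near hS hH i0
  let st : ι → Setoid G := fun i =>
    { r := fun x y => ∃ h ∈ H, ∃ p ∈ S.P i, x = h * y * p
      iseqv :=
        { refl := fun x => ⟨1, H.one_mem, 1, (S.P i).one_mem, by simp⟩
          symm := by
            rintro x y ⟨h, hh, p, hp, rfl⟩
            exact ⟨h⁻¹, H.inv_mem hh, p⁻¹, (S.P i).inv_mem hp, by group⟩
          trans := by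
            rintro x y z ⟨h, hh, p, hp, rfl⟩ ⟨h', hh', p', hp', rfl⟩
            exact ⟨h * h', H.mul_mem hh hh', p' * p, (S.P i).mul_mem hp' hp, by group⟩ } }
  let pick : ∀ i, Quotient (st i) → G := fun i c =>
    if h : ∃ b, S.wl b ≤ s ∧ Quotient.mk (st i) b = c then h.choose else 1
  have hpick : ∀ i x, S.Flat H i0 i x → S.wl (pick i (Quotient.mk (st i) x)) ≤ s ∧
      Quotient.mk (st i) (pick i (Quotient.mk (st i) x)) = Quotient.mk (st i) x := by
    intro i x hx
    have hex : ∃ b, S.wl b ≤ s ∧ Quotient.mk (st i) b = Quotient.mk (st i) x := by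
      obtain ⟨q, hq, h, hh, hw⟩ := hs i x hx
      refine ⟨h⁻¹ * (x * q), hw, Quotient.sound (s := st i) ?_⟩
      exact ⟨h⁻¹, H.inv_mem hh, q, hq, by group⟩
    simp only [pick]
    rw [dif_pos hex]
    exact hex.choose_spec
  have hexact : ∀ i (x y : G), Quotient.mk (st i) x = Quotient.mk (st i) y →
      ∃ h ∈ H, ∃ p ∈ S.P i, x = h * y * p := fun i x y h => Quotient.exact (s := st i) h
  refine ⟨{z | ∃ x, S.Flat H i0 z.1 x ∧ z.2 = pick z.1 (Quotient.mk (st z.1) x)}, ?_, ?_, ?_, ?_⟩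
  · apply ((Set.finite_univ (α := ι)).prod (ball_finite hS s)).subset
    rintro ⟨i, y⟩ ⟨x, hx, hy⟩
    have hy : y = pick i (Quotient.mk (st i) x) := hy
    refine ⟨trivial, ?_⟩
    show S.wl y ≤ s
    rw [hy]
    exact (hpick i x hx).1
  · rintro ⟨i, y⟩ ⟨x, hx, hy⟩
    have hy : y = pick i (Quotient.mk (st i) x) := hy
    obtain ⟨h, hh, p, hp, e⟩ := hexact i _ _ (hpick i x hx).2
    show S.Flat H i0 i y
    rw [hy, e, mul_assoc]
    exact (flat_left hh).2 ((flat_mul hS hp).2 hx)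
  · intro i x hx
    obtain ⟨h, hh, p, hp, e⟩ := hexact i _ _ (hpick i x hx).2
    exact ⟨pick i (Quotient.mk (st i) x), ⟨x, hx, rfl⟩, h⁻¹, H.inv_mem hh, p⁻¹,
      (S.P i).inv_mem hp, by rw [e]; group⟩
  · rintro i x y ⟨x0, hx0, e1⟩ ⟨y0, hy0, e2⟩ hxy
    simp only at e1 e2 hx0 hy0
    have k1 := (hpick i x0 hx0).2
    have k2 := (hpick i y0 hy0).2
    rw [← e1] at k1
    rw [← e2] at k2
    have : Quotient.mk (st i) x = Quotient.mk (st i) y := Quotient.sound (s := st i) hxy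
    rw [e1, e2, ← k1, ← k2, this]

theorem semF_bound {T : Set G} (hT : T.Finite) : ∃ B : ℕ, ∀ g ∈ T, S.wl g ≤ B := by
  obtain ⟨B, hB⟩ := (hT.image S.wl).bddAbove
  exact ⟨B, fun g hg => hB ⟨g, hg, rfl⟩⟩

end RH

theorem exists_dat {ι G : Type} [Group G] [Finite ι] (S : RH ι G) (hS : S.Good)
    (hfg : ∀ i, (S.P i).FG) (H : Subgroup G) (hH : S.QC H) (i0 : ι) (w0 : G) (N : ℕ) (hN : 1 ≤ N) :
    ∃ E : Dat ι G, E.S = S ∧ E.H = H ∧ E.i0 = i0 ∧ E.w0 = w0 ∧ E.N = N ∧ E.Fact := by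
  have hR : S.Root (S.RS H i0 w0) := RH.root_rs hS hH i0 w0
  obtain ⟨n1, hn1⟩ := RH.semF_two hS hH i0
  obtain ⟨FL, f0, f1, f2, f3⟩ := RH.semF_rep hS hH i0
  have cP : ∀ i, Nonempty (Coord (S.P i) ⊥) := fun i =>
    exists_coord _ _ (hS.comm i) (hfg i) bot_le
  have cF : ∀ i x, Nonempty (Coord (S.P i) (Lam S H i x)) := fun i x =>
    exists_coord _ _ (hS.comm i) (hfg i) inf_le_left
  choose cP _ using fun i => (⟨Classical.choice (cP i), trivial⟩ : ∃ _ : Coord (S.P i) ⊥, True)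
  choose cF _ using fun i x =>
    (⟨Classical.choice (cF i x), trivial⟩ : ∃ _ : Coord (S.P i) (Lam S H i x), True)
  obtain ⟨K0, hK0⟩ := RH.fellow hS hR N
  obtain ⟨L1, hL1⟩ := RH.square hS (2 * max K0 N)
  obtain ⟨L2, hL2⟩ := RH.long_letters hS hR
  obtain ⟨L3, hL3⟩ := RH.generic hS hR
  obtain ⟨L4, hL4⟩ : ∃ B : ℕ, ∀ i t, t < (cP i).m → S.wl ((cP i).c t []) ≤ B := by
    have hT : (⋃ i, (fun t => (cP i).c t []) '' {t | t < (cP i).m}).Finite :=
      Set.finite_iUnion (fun i => (Set.finite_lt_nat _).image _)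
    obtain ⟨B, hB⟩ := RH.semF_bound (S := S) hT
    exact ⟨B, fun i t ht => hB _ (Set.mem_iUnion.2 ⟨i, t, ht, rfl⟩)⟩
  obtain ⟨ng, hng⟩ := RH.generic_root hS hR
  obtain ⟨n2, hn2⟩ := RH.exceptional hS hH i0 w0 (max (2 * max K0 N) ng)
  obtain ⟨n3, hn3⟩ : ∃ B : ℕ, ∀ i x t, (i, x) ∈ FL → t < (cF i x).m →
      S.wl (x * (cF i x).c t []) ≤ B := by
    have hT : (⋃ q ∈ FL, (fun t => q.2 * (cF q.1 q.2).c t []) '' {t | t < (cF q.1 q.2).m}).Finite :=
      f0.biUnion (fun q _ => (Set.finite_lt_nat _).image _)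
    obtain ⟨B, hB⟩ := RH.semF_bound (S := S) hT
    refine ⟨B, fun i x t hx ht => hB _ ?_⟩
    simp only [Set.mem_iUnion]
    exact ⟨(i, x), hx, t, ht, rfl⟩
  refine ⟨⟨S, H, i0, w0, N, max K0 N, 1 + L1 + L2 + L3 + L4,
    2 * max K0 N + S.wl w0 + n1 + n2 + n3, cP, cF, FL⟩, rfl, rfl, rfl, rfl, rfl, ?_⟩
  -- a far point of a flat is not exceptional
  have hexc : ∀ i x, S.Flat H i0 i x →
      (∀ h ∈ H, 2 * max K0 N + S.wl w0 + n1 + n2 + n3 < S.wl (h⁻¹ * x)) →
      ∀ y ∈ S.RS H i0 w0, S.wl (x⁻¹ * y) ≤ max (2 * max K0 N) ng → x⁻¹ * y ∈ S.P i := by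
    intro i x hx hfar y hy hxy
    by_contra hcon
    obtain ⟨h, hh, hw⟩ := hn2 i x y hx hy hxy hcon
    have := hfar h hh
    omega
  constructor
  case good => exact hS
  case root => exact hR
  case NK => exact le_max_right _ _
  case N1 => exact hN
  case L1 => show 1 ≤ 1 + L1 + L2 + L3 + L4; omega
  case fellow =>
    intro k u k' u' h1 h2 h3 j
    exact (hK0 k u k' u' h1 h2 h3 j).trans (le_max_left _ _)
  case square =>
    intro i p d d' t h1 h2 h3 h4 h5 h6 h7
    have h2 : 1 + L1 + L2 + L3 + L4 < S.wl p := h2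
    exact hL1 i p d d' t h1 (by omega) h3 h4 h5 h6 h7
  case long =>
    intro i x p p' h1 h2 h3 h4
    have h3 : 1 + L1 + L2 + L3 + L4 < S.wl p' := h3
    exact hL2 i x p p' h1 h2 (by omega) h4
  case generic =>
    intro i x p x' p' h1 h2 h3 h4 h5 h6
    have h3 : 1 + L1 + L2 + L3 + L4 < S.wl p := h3
    have h4 : 1 + L1 + L2 + L3 + L4 < S.wl p' := h4
    exact hL3 i x p x' p' h1 h2 (by omega) (by omega) h5 h6
  case cone_fin => exact RH.cone_finite hS hR
  case n0_w => show S.wl w0 ≤ 2 * max K0 N + S.wl w0 + n1 + n2 + n3; omega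
  case fl_fin => exact f0
  case fl1 => exact f1
  case fl2 => exact f2
  case fl3 => exact f3
  case far_root =>
    intro i x hx hfar y hy hxy
    have hfar : ∀ h ∈ H, 2 * max K0 N + S.wl w0 + n1 + n2 + n3 < S.wl (h⁻¹ * x) := hfar
    have hxy : S.wl (x⁻¹ * y) ≤ 2 * max K0 N := hxy
    have hmem := hexc i x hx hfar y hy (hxy.trans (le_max_left _ _))
    refine ⟨hmem, ?_, ?_⟩
    · intro hcon
      have hcon : y * w0⁻¹ ∈ H := hcon
      have h1 := hfar (y * w0⁻¹) hcon
      have h2 := RH.wl_tri hS (y * w0⁻¹) y x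
      have e : (y * w0⁻¹)⁻¹ * y = w0 := by group
      rw [e, RH.wl_symm hS y x] at h2
      omega
    · intro j hj
      by_contra hij
      have hy' : S.Flat H i0 i y := by
        have : y = x * (x⁻¹ * y) := by group
        rw [this]
        exact (RH.flat_mul hS hmem).2 hx
      obtain ⟨h, hh, hw⟩ := hn1 i j y hy' hj (fun e => hij e.symm)
      have h1 := hfar h hh
      have h2 := RH.wl_tri hS h y x
      rw [RH.wl_symm hS y x] at h2
      omega
  case L_fin =>
    intro i t ht _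
    have := hL4 i t ht
    show S.wl ((cP i).c t []) ≤ 1 + L1 + L2 + L3 + L4
    omega
  case n0_fin =>
    intro i x t hx ht _
    refine ⟨1, H.one_mem, ?_⟩
    have := hn3 i x t hx ht
    show S.wl (1⁻¹ * (x * (cF i x).c t [])) ≤ 2 * max K0 N + S.wl w0 + n1 + n2 + n3
    rw [inv_one, one_mul]
    omega
  case gen_root =>
    intro i x x' hx hx' hfar hfar'
    apply hng i x x'
    · intro q hq
      exact RH.rs_flat ((RH.flat_mul hS hq).2 hx)
    · intro q hq
      exact RH.rs_flat ((RH.flat_mul hS hq).2 hx')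
    · intro y hy hxy
      exact hexc i x hx hfar y hy (hxy.trans (le_max_right _ _))
    · intro y hy hxy
      exact hexc i x' hx' hfar' y hy (hxy.trans (le_max_right _ _))

end Pool.Agent.Lib.P77fd2d
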