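import Pool.Agent.Lib.P77fd2d.SemE
import Pool.Agent.Lib.P77fd2d.SemF
import Pool.Agent.Lib.P77fd2d.Complete
import Pool.Agent.Lib.P77fd2d.CertSound
import Pool.Agent.Lib.P77fd2d.Positive

/-!
# Assembly: the double coset membership problem is decidable on the promise
-/

namespace Pool.Agent.Lib.P77fd2d

/-- a group with good relative structure is countable -/
theorem countable_of_good {ι G : Type} [Group G] {S : RH ι G} (hS : S.Good) : Countable G := by
  have h : (Set.univ : Set G) = ⋃ n : ℕ, {g : G | S.wl g ≤ n} := by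
    ext g
    simp only [Set.mem_univ, Set.mem_iUnion, true_iff]
    refine ⟨S.wl g, ?_⟩
    show S.wl g ≤ S.wl g
    exact le_refl _
  rw [← Set.countable_univ_iff, h]
  exact Set.countable_iUnion (fun n => (RH.ball_finite hS n).countable)

instance {ι G : Type} [Countable ι] [Countable G] : Countable (Fam ι G) := by
  let e : Fam ι G → G ⊕ (ι × ℕ) ⊕ (ι × G × ℕ) ⊕ Unit := fun f => match f with
    | .gen a => Sum.inl a
    | .par i t => Sum.inr (Sum.inl (i, t))
    | .flat i x t => Sum.inr (Sum.inr (Sum.inl (i, x, t)))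
    | .xw => Sum.inr (Sum.inr (Sum.inr ()))
  have he : Function.Injective e := by
    intro a b h
    cases a <;> cases b <;> simp_all [e]
  exact he.countable

/-- completeness: non-membership on the promise has a certificate -/
theorem exists_cert {ι : Type} [Finite ι] {P : Pres} (S : RH ι (Grp P)) (hS : S.Good)
    (hA : ∀ l : ℕ × Bool, l.1 < P.1 → elt P [l] ∈ S.A) (hfg : ∀ i, (S.P i).FG) (i0 : ι)
    {Fw Y : List Word} {w : Word} (hP : S.P i0 = sg P Fw) (hQ : S.QC (sg P Y))
    (hmem : ¬ Mem P Fw Y w) : ∃ c : Cert, Valid P Fw Y w c := by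
  classical
  -- a bound for the lengths of all words
  obtain ⟨N, hN1, h1, h2, h3, h4⟩ : ∃ N : ℕ, 1 ≤ N ∧ (∀ r ∈ P.2, r.length ≤ N) ∧
      (∀ r ∈ Y, r.length ≤ N) ∧ (∀ r ∈ Fw, r.length ≤ N) ∧ w.length ≤ N := by
    refine ⟨1 + (P.2.map List.length).sum + (Y.map List.length).sum + (Fw.map List.length).sum +
      w.length, by omega, ?_, ?_, ?_, by omega⟩
    · intro r hr
      have := List.single_le_sum (l := P.2.map List.length) (by simp) r.length
        (List.mem_map.2 ⟨r, hr, rfl⟩)
      omega
    · intro r hr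
      have := List.single_le_sum (l := Y.map List.length) (by simp) r.length
        (List.mem_map.2 ⟨r, hr, rfl⟩)
      omega
    · intro r hr
      have := List.single_le_sum (l := Fw.map List.length) (by simp) r.length
        (List.mem_map.2 ⟨r, hr, rfl⟩)
      omega
  obtain ⟨E, e1, e2, e3, e4, e5, hE⟩ := exists_dat S hS hfg (sg P Y) hQ i0 (elt P (winv w)) N hN1
  subst e1 e3 e5
  have := countable_of_good hS
  have : Finite (Set.range (E.S.cone E.R)) := hE.cone_fin.to_subtype
  obtain ⟨gc, J0, base, xw, hW⟩ := Dat.exists_WN hE hA e2 hP e4 h1 h2 h3 h4 hmem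
  have : Countable ι := Finite.to_countable
  exact exists_valid (Dat.mach_ok hE) (Dat.nice hE) hW

/-- two disjoint r.e. predicates are separated by a partial recursive function -/
theorem decide_of_re {α : Type} [Primcodable α] {p q : α → Prop} (hp : REPred p) (hq : REPred q)
    (hpq : ∀ a, q a → ¬ p a) : ∃ f : α →. Bool, Partrec f ∧
      ∀ a, (p a ∨ q a) → ∃ b ∈ f a, (b = true ↔ p a) := by
  have h1 : Partrec (fun a => (Part.assert (p a) fun _ => Part.some ()).map (fun _ => true)) :=
    Partrec.map hp (Computable.const true).to₂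
  have h2 : Partrec (fun a => (Part.assert (q a) fun _ => Part.some ()).map (fun _ => false)) :=
    Partrec.map hq (Computable.const false).to₂
  obtain ⟨f, hf, H⟩ := Partrec.merge' h1 h2
  refine ⟨f, hf, ?_⟩
  intro a ha
  obtain ⟨H1, H2⟩ := H a
  have hd : (f a).Dom := by
    rw [H2]
    rcases ha with ha | ha
    · left
      simp only [Part.map_Dom]
      exact ⟨ha, trivial⟩
    · right
      simp only [Part.map_Dom]
      exact ⟨ha, trivial⟩
  obtain ⟨b, hb⟩ := Part.dom_iff_mem.1 hd
  refine ⟨b, hb, ?_⟩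
  rcases H1 b hb with h | h
  · rw [Part.mem_map_iff] at h
    obtain ⟨u, hu, rfl⟩ := h
    rw [Part.mem_assert_iff] at hu
    obtain ⟨hpa, _⟩ := hu
    simp [hpa]
  · rw [Part.mem_map_iff] at h
    obtain ⟨u, hu, rfl⟩ := h
    rw [Part.mem_assert_iff] at hu
    obtain ⟨hqa, _⟩ := hu
    simp [hpq a hqa]

/-- decidability on the instances for which non-membership has certificates -/
theorem decide_mem {α : Type} [Primcodable α] (inst : α → Inst) (hinst : Computable inst) :
    ∃ f : α →. Bool, Partrec f ∧ ∀ a, (¬ Mem (inst a).1 (inst a).2.1 (inst a).2.2.1 (inst a).2.2.2 →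
      ∃ c, Valid (inst a).1 (inst a).2.1 (inst a).2.2.1 (inst a).2.2.2 c) →
      ∃ b ∈ f a, (b = true ↔ Mem (inst a).1 (inst a).2.1 (inst a).2.2.1 (inst a).2.2.2) := by
  obtain ⟨f, hf, H⟩ := decide_of_re re_mem re_valid (by
    rintro q ⟨c, hc⟩
    exact not_mem_of_valid hc)
  refine ⟨fun a => f (inst a), hf.comp hinst, ?_⟩
  intro a ha
  apply H (inst a)
  by_cases h : Mem (inst a).1 (inst a).2.1 (inst a).2.2.1 (inst a).2.2.2
  · exact Or.inl h
  · exact Or.inr (ha h)

end Pool.Agent.Lib.P77fd2d
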