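import Pool.Agent.Lib.P77fd2d.Root

/-!
# Flats of a relatively quasiconvex subgroup and the root set
-/

namespace Pool.Agent.Lib.P77fd2d
variable {ι G : Type} [Group G]
namespace RH

/-- relative quasiconvexity of `H` -/
def QC (S : RH ι G) (H : Subgroup G) : Prop :=
  ∃ σ : ℕ, ∀ u, S.Geo u → ev u ∈ H → ∀ u1 u2, u = u1 ++ u2 → ∃ h ∈ H, S.wl (h⁻¹ * ev u1) ≤ σ

/-- the coset `x * P i` meets `H` in an infinite stabiliser, or it is an `H`-translate of `P i0` -/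
def Flat (S : RH ι G) (H : Subgroup G) (i0 i : ι) (x : G) : Prop :=
  {h : G | h ∈ H ∧ x⁻¹ * h * x ∈ S.P i}.Infinite ∨ (i = i0 ∧ ∃ h ∈ H, h * x ∈ S.P i0)

/-- the root set -/
def RS (S : RH ι G) (H : Subgroup G) (i0 : ι) (w0 : G) : Set G :=
  {x | x ∈ H ∨ x * w0⁻¹ ∈ H ∨ ∃ i, S.Flat H i0 i x}

variable {S : RH ι G} {H : Subgroup G} {i0 : ι} {w0 : G}

theorem flat_mul (hS : S.Good) {i : ι} {x p : G} (hp : p ∈ S.P i) :
    S.Flat H i0 i (x * p) ↔ S.Flat H i0 i x := by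
  have key : ∀ h : G, (x * p)⁻¹ * h * (x * p) ∈ S.P i ↔ x⁻¹ * h * x ∈ S.P i := by
    intro h
    have e : (x * p)⁻¹ * h * (x * p) = p⁻¹ * (x⁻¹ * h * x) * p := by group
    rw [e, Subgroup.mul_mem_cancel_right _ hp,
      Subgroup.mul_mem_cancel_left _ ((S.P i).inv_mem hp)]
  unfold Flat
  have e1 : {h : G | h ∈ H ∧ (x * p)⁻¹ * h * (x * p) ∈ S.P i} =
      {h : G | h ∈ H ∧ x⁻¹ * h * x ∈ S.P i} := by
    ext h; simp only [Set.mem_setOf_eq, key]
  rw [e1]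
  constructor
  · rintro (h | ⟨rfl, h, hh, h2⟩)
    · exact Or.inl h
    · exact Or.inr ⟨rfl, h, hh, by rw [← mul_assoc, Subgroup.mul_mem_cancel_right _ hp] at h2; exact h2⟩
  · rintro (h | ⟨rfl, h, hh, h2⟩)
    · exact Or.inl h
    · exact Or.inr ⟨rfl, h, hh, by rw [← mul_assoc, Subgroup.mul_mem_cancel_right _ hp]; exact h2⟩

theorem flat_left {i : ι} {x h : G} (hh : h ∈ H) :
    S.Flat H i0 i (h * x) ↔ S.Flat H i0 i x := by
  have key : ∀ (h x : G), h ∈ H → S.Flat H i0 i x → S.Flat H i0 i (h * x) := by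
    intro h x hh hx
    rcases hx with hx | ⟨rfl, k, hk, h2⟩
    · left
      apply (hx.image (f := fun k => h * k * h⁻¹) ?_).mono
      · rintro _ ⟨k, ⟨hk1, hk2⟩, rfl⟩
        refine ⟨H.mul_mem (H.mul_mem hh hk1) (H.inv_mem hh), ?_⟩
        have e : (h * x)⁻¹ * (h * k * h⁻¹) * (h * x) = x⁻¹ * k * x := by group
        rw [e]; exact hk2
      · intro a _ b _ hab
        simpa using hab
    · right
      refine ⟨rfl, k * h⁻¹, H.mul_mem hk (H.inv_mem hh), ?_⟩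
      have e : k * h⁻¹ * (h * x) = k * x := by group
      rw [e]; exact h2
  constructor
  · intro hx
    have := key h⁻¹ (h * x) (H.inv_mem hh) hx
    simpa using this
  · exact key h x hh

theorem rs_left {x h : G} (hh : h ∈ H) : h * x ∈ S.RS H i0 w0 ↔ x ∈ S.RS H i0 w0 := by
  unfold RS
  simp only [Set.mem_setOf_eq, flat_left hh]
  rw [Subgroup.mul_mem_cancel_left _ hh, mul_assoc, Subgroup.mul_mem_cancel_left _ hh]

theorem rs_H {x : G} (hx : x ∈ H) : x ∈ S.RS H i0 w0 := Or.inl hx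

theorem rs_w : w0 ∈ S.RS H i0 w0 := Or.inr (Or.inl (by simpa using H.one_mem))

theorem rs_flat {i : ι} {x : G} (hx : S.Flat H i0 i x) : x ∈ S.RS H i0 w0 :=
  Or.inr (Or.inr ⟨i, hx⟩)

theorem flat_P {p : G} (hp : p ∈ S.P i0) : S.Flat H i0 i0 p :=
  Or.inr ⟨rfl, 1, H.one_mem, by simpa using hp⟩

/-- `rho` and the cone types are invariant under `H` for an invariant root set -/
theorem rho_left {R : Set G} (hR : ∀ h ∈ H, ∀ x, h * x ∈ R ↔ x ∈ R) {h : G} (hh : h ∈ H) (x : G) :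
    S.rho R (h * x) = S.rho R x := by
  unfold rho
  congr 1
  ext n
  constructor
  · rintro ⟨k, hk, e⟩
    refine ⟨h⁻¹ * k, (hR _ (H.inv_mem hh) _).2 hk, ?_⟩
    rw [← e]; congr 1; group
  · rintro ⟨k, hk, e⟩
    refine ⟨h * k, (hR _ hh _).2 hk, ?_⟩
    rw [← e]; congr 1; group

theorem cone_left {R : Set G} (hR : ∀ h ∈ H, ∀ x, h * x ∈ R ↔ x ∈ R) {h : G} (hh : h ∈ H) (x : G) :
    S.cone R (h * x) = S.cone R x := by
  unfold cone
  ext w
  simp only [Set.mem_setOf_eq, mul_assoc, rho_left hR hh]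

end RH
end Pool.Agent.Lib.P77fd2d
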