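import Pool.Agent.Lib.P77fd2d.Flats
import Pool.Agent.Lib.P77fd2d.Iso

/-!
# MODULE P77fd2d.Link  (1.2h)   black box: `iso`

Every flat of the root set comes close to `H`, and each point of the root set `RS` is joined to `H` by a
short path with at most one long letter, staying near `RS`.

(1) `flat_near`.  Second kind (`i = i0`, `h * x ∈ P i0`): q := (h x)⁻¹, x q = h⁻¹ ∈ H.
 First kind: O = x P i, Λ = {h ∈ H | x⁻¹ h x ∈ P i} infinite.  Let z = x q0 ∈ O have minimal rl z, u a geodesic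
 word with ev u = z.  u (from 1) has no O-edge: NoE i x⁻¹ u, since a vertex ev u1 ∈ O with u1 shorter than u
 has smaller rl.  For h ∈ Λ the path z → (inv u) 1 → (v) h → (u) h z, v a geodesic word with value h, ends in
 h z = x (x⁻¹ h x) q0 ∈ O; the last part has no O-edges because NoE i (x⁻¹ h) u ↔ NoE i x⁻¹ u
 (x⁻¹ h = (x⁻¹ h x) x⁻¹ with x⁻¹ h x ∈ P i).  If v has no O-edge, `iso` gives
 wl (z⁻¹ h z) ≤ 3 D.  Only finitely many h satisfy this (`ball_finite`, conjugation is injective), so choose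
 h ∈ Λ with wl (z⁻¹ h z) > 3 D; then v has an O-edge, so a vertex ev v1 ∈ O, ev v1 = x q, and by
 quasiconvexity it is within σ of H.
(2) `link`.  m = s = 1 + wl w0 + σ1, σ1 the constant of (1).  Let x ∈ RS:
  x ∈ H: w = [];   x w0⁻¹ ∈ H: w = A-path (`exists_apath`) of w0⁻¹;
  Flat i x: q ∈ P i, h ∈ H with wl (h⁻¹ (x q)) ≤ σ1; w = [(some i, q)] ++ A-path from x q to h (without the first letter if
  q = 1, to have a geodesic piece).  Vertices: x, x q ∈ RS (`flat_mul`), the others within σ1 of x q.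
  The last property: A-letters are no problem; the letter (some i, q) at x: if j = i and g * x ∈ P i
  then the first alternative `g * x ∉ P j` fails and so does the second one: for q' ∈ P i,
  g⁻¹ q' = x (g x)⁻¹ q' ∈ x P i ⊆ RS.
-/

namespace Pool.Agent.Lib.P77fd2d
variable {ι G : Type} [Group G]
namespace RH
variable {S : RH ι G} {H : Subgroup G} {i0 : ι} {w0 : G}

theorem link_noE_mul {i : ι} {p g : G} (hp : p ∈ S.P i) {w : List (Ltr ι G)} (h : S.NoE i g w) :
    S.NoE i (p * g) w := by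
  intro w1 s w2 hw hs hm
  rw [mul_assoc, Subgroup.mul_mem_cancel_left _ hp] at hm
  exact h w1 s w2 hw hs hm

theorem link_wl_ev {w : List (Ltr ι G)} (hok : S.Ok w) (hw : ∀ s ∈ w, s.1 = none) :
    S.wl (ev w) ≤ w.length := by
  have h1 : ∀ a ∈ w.map Prod.snd, a ∈ S.A := by
    intro a ha
    simp only [List.mem_map] at ha
    obtain ⟨t, ht, rfl⟩ := ha
    have h2 := hok t ht
    rw [hw t ht] at h2
    exact h2
  have h3 := wl_le h1
  simpa [ev] using h3

theorem flat_near [Finite ι] (hS : S.Good) (hH : S.QC H) (i0 : ι) : ∃ s : ℕ,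
    ∀ (i : ι) (x : G), S.Flat H i0 i x → ∃ q ∈ S.P i, ∃ h ∈ H, S.wl (h⁻¹ * (x * q)) ≤ s := by
  obtain ⟨D, hD⟩ := iso hS
  obtain ⟨σ, hσ⟩ := hH
  refine ⟨σ, ?_⟩
  rintro i x (hinf | ⟨rfl, h, hh, hx⟩)
  · -- infinite stabiliser
    obtain ⟨q0, hq0, hmin⟩ : ∃ q0 ∈ S.P i, ∀ q ∈ S.P i, S.rl (x * q0) ≤ S.rl (x * q) := by
      have hne : ({n | ∃ q ∈ S.P i, S.rl (x * q) = n} : Set ℕ).Nonempty :=
        ⟨_, 1, (S.P i).one_mem, rfl⟩
      obtain ⟨q0, hq0, h0⟩ := Nat.sInf_mem hne
      refine ⟨q0, hq0, fun q hq => ?_⟩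
      rw [h0]
      exact Nat.sInf_le ⟨q, hq, rfl⟩
    obtain ⟨u, hu, huz⟩ := exists_geo hS (x * q0)
    have hNu : S.NoE i x⁻¹ u := by
      intro w1 s w2 hw _ hm
      subst hw
      have h1 := (geo_append hS hu).1
      have h2 := hmin (x⁻¹ * ev w1) hm
      have e : x * (x⁻¹ * ev w1) = ev w1 := by group
      rw [e, h1.2, ← huz, hu.2] at h2
      simp at h2
    have hfin : {h : G | S.wl ((x * q0)⁻¹ * h * (x * q0)) ≤ 3 * D}.Finite := by
      have := (ball_finite hS (3 * D)).preimage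
        (f := fun h => (x * q0)⁻¹ * h * (x * q0)) (by
          intro a _ b _ hab
          simpa using hab)
      exact this
    obtain ⟨h, ⟨hhH, hhP⟩, hhn⟩ := hinf.exists_notMem_finite hfin
    obtain ⟨v, hv, hvh⟩ := exists_geo hS h
    rcases noE_or (S := S) i x⁻¹ v with hN | ⟨w1, p, w2, hw, hm⟩
    · exfalso
      apply hhn
      have hb : S.Brk 3 (inv u ++ (v ++ u)) := by
        have h1 := brk_of_geo (geo_inv hS hu)
        have h2 := brk_of_geo hv
        have h3 := brk_of_geo hu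
        exact brk_append h1 (brk_append h2 h3)
      have e1 : ev (inv u ++ (v ++ u)) = (x * q0)⁻¹ * h * (x * q0) := by
        simp only [ev_append, ev_inv, huz, hvh, mul_assoc]
      have e2 : q0 * ev (inv u ++ (v ++ u)) = (x⁻¹ * h * x) * q0 := by
        rw [e1]; group
      have h3 := hD 3 i q0 (inv u ++ (v ++ u)) hb hq0 (by
        rw [e2]; exact (S.P i).mul_mem hhP hq0) (by
        rw [noE_append, noE_append]
        refine ⟨?_, ?_, ?_⟩
        · have := noE_inv hu.1 hNu
          rw [huz] at this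
          simpa using this
        · rw [ev_inv, huz]
          have e : q0 * (x * q0)⁻¹ = x⁻¹ := by group
          rw [e]; exact hN
        · rw [ev_inv, huz, hvh]
          have e : q0 * (x * q0)⁻¹ * h = (x⁻¹ * h * x) * x⁻¹ := by group
          rw [e]
          exact link_noE_mul hhP hNu)
      rw [e1] at h3
      exact h3
    · refine ⟨x⁻¹ * ev w1, hm, ?_⟩
      obtain ⟨k, hk, hk2⟩ := hσ v hv (by rw [hvh]; exact hhH) w1 _ hw
      refine ⟨k, hk, ?_⟩
      have e : x * (x⁻¹ * ev w1) = ev w1 := by group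
      rw [e]; exact hk2
  · refine ⟨(h * x)⁻¹, (S.P i).inv_mem hx, h⁻¹, H.inv_mem hh, ?_⟩
    have e : h⁻¹⁻¹ * (x * (h * x)⁻¹) = 1 := by group
    rw [e]; simp

theorem link [Finite ι] (hS : S.Good) (hH : S.QC H) (i0 : ι) (w0 : G) : ∃ m s : ℕ,
    ∀ x ∈ S.RS H i0 w0, ∃ w, S.Brk m w ∧ x * ev w ∈ H ∧
      (∀ w1 w2, w = w1 ++ w2 → ∃ y ∈ S.RS H i0 w0, S.wl (y⁻¹ * (x * ev w1)) ≤ s) ∧
      (∀ j g, (g * x ∉ S.P j ∨ ∃ q ∈ S.P j, g⁻¹ * q ∉ S.RS H i0 w0) → S.NoE j (g * x) w) := by
  obtain ⟨σ, hσ⟩ := flat_near hS hH i0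
  refine ⟨1 + S.wl w0 + σ, 1 + S.wl w0 + σ, ?_⟩
  intro x hx
  have hx' := hx
  rcases hx with hx | hx | ⟨i, hx⟩
  · refine ⟨[], brk_nil _, by simpa using hx, ?_, fun j g _ => noE_nil j _⟩
    intro w1 w2 hw
    obtain ⟨rfl, rfl⟩ := List.nil_eq_append_iff.1 hw
    exact ⟨x, hx', by simp⟩
  · obtain ⟨w, hw1, hw2, hw3, hw4⟩ := exists_apath hS w0⁻¹
    rw [wl_inv hS] at hw1 hw3
    refine ⟨w, brk_mono (by omega) hw1, by rw [hw4]; exact hx, ?_,
      fun j g _ => noE_of_none hw2⟩
    intro w1 w2 hw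
    refine ⟨x, hx', ?_⟩
    rw [inv_mul_cancel_left]
    subst hw
    have h1 : S.wl (ev w1) ≤ w1.length :=
      link_wl_ev (ok_append.1 (brk_ok hw1)).1 (fun s hs => hw2 s (by simp [hs]))
    rw [List.length_append] at hw3
    omega
  · obtain ⟨q, hq, h, hh, hl⟩ := hσ i x hx
    obtain ⟨w, hw1, hw2, hw3, hw4⟩ := exists_apath hS ((x * q)⁻¹ * h)
    have el : S.wl ((x * q)⁻¹ * h) = S.wl (h⁻¹ * (x * q)) := wl_symm hS _ _
    rw [el] at hw1 hw3
    have hshort : ∀ w1 w2, w = w1 ++ w2 → S.wl (ev w1) ≤ σ := by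
      intro w1 w2 hw
      subst hw
      have h1 : S.wl (ev w1) ≤ w1.length :=
        link_wl_ev (ok_append.1 (brk_ok hw1)).1 (fun s hs => hw2 s (by simp [hs]))
      rw [List.length_append] at hw3
      omega
    have hxq : x * q ∈ S.RS H i0 w0 := rs_flat ((flat_mul hS hq).2 hx)
    by_cases hq1 : q = 1
    · subst hq1
      refine ⟨w, brk_mono (by omega) hw1, ?_, ?_, fun j g _ => noE_of_none hw2⟩
      · rw [hw4]
        have e : x * ((x * 1)⁻¹ * h) = h := by group
        rw [e]; exact hh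
      · intro w1 w2 hw
        refine ⟨x, hx', ?_⟩
        rw [inv_mul_cancel_left]
        have := hshort w1 w2 hw
        omega
    · refine ⟨(some i, q) :: w, ?_, ?_, ?_, ?_⟩
      · have h1 : S.Brk 1 [(some i, q)] := brk_of_geo (geo_letter hS (o := some i) hq hq1)
        exact brk_mono (by omega) (brk_append h1 hw1)
      · rw [ev_cons, hw4]
        have e : x * (q * ((x * q)⁻¹ * h)) = h := by group
        rw [show ((some i, q) : Ltr ι G).2 = q from rfl, e]; exact hh
      · intro w1 w2 hw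
        cases w1 with
        | nil => exact ⟨x, hx', by simp⟩
        | cons a w1 =>
          simp only [List.cons_append, List.cons.injEq] at hw
          obtain ⟨rfl, hw⟩ := hw
          refine ⟨x * q, hxq, ?_⟩
          have e : (x * q)⁻¹ * (x * ev ((some i, q) :: w1)) = ev w1 := by
            rw [ev_cons]; group
          rw [e]
          have := hshort w1 w2 hw
          omega
      · intro j g hj
        rw [noE_cons]
        refine ⟨?_, noE_of_none hw2⟩
        intro hij hm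
        simp only [Option.some.injEq] at hij
        subst hij
        rcases hj with hj | ⟨q', hq', hj⟩
        · exact hj hm
        · apply hj
          have h1 : (g * x)⁻¹ * q' ∈ S.P i := (S.P i).mul_mem ((S.P i).inv_mem hm) hq'
          have e : g⁻¹ * q' = x * ((g * x)⁻¹ * q') := by group
          rw [e]
          exact rs_flat ((flat_mul hS h1).2 hx)

end RH
end Pool.Agent.Lib.P77fd2d
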