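import Mathlib

/-!
# Synchronous machines over letters `(family, integer vector)`

`F` = families of letters, `D` = differences, `X` = states.
-/

namespace Pool.Agent.Lib.P77fd2d

/-- translation of integer vectors (lists) -/
def sh (v w : List ℤ) : List ℤ := List.zipWith (· + ·) v w
/-- inverse translation -/
def ush (v w : List ℤ) : List ℤ := List.zipWith (· - ·) v w

/-- letters of a machine -/
abbrev Lt (F : Type) := F × List ℤ

/-- presentation of a machine: explicit and generic squares, explicit and generic transitions -/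
structure Pre (F D X : Type) where
  rk : F → ℕ
  one : D
  star : D
  inD : Set D
  inS : Set D
  mul : D → D → D
  inv : D → D
  exp : Set (D × Option (Lt F) × Option (Lt F) × D)
  gen : Set (D × F × F × D × List ℤ)
  zone : Set (Lt F)
  st0 : X
  tr : Set (X × Lt F × X)
  tg : Set (X × F × X)

namespace Pre
variable {F D X : Type} (p : Pre F D X)

/-- the vector has the right length -/
def ok (l : Lt F) : Prop := l.2.length = p.rk l.1

/-- the square relation: difference `d` before reading `(s,t)`, difference `d'` after -/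
def nd (d : D) (s t : Option (Lt F)) (d' : D) : Prop :=
  (d, s, t, d') ∈ p.exp ∨
    ∃ f v f' w, s = some (f, v) ∧ t = some (f', sh v w) ∧ p.ok (f, v) ∧ (d, f, f', d', w) ∈ p.gen

/-- transitions -/
def step (x : X) (l : Lt F) (x' : X) : Prop :=
  (x, l, x') ∈ p.tr ∨ (p.ok l ∧ l ∉ p.zone ∧ (x, l.1, x') ∈ p.tg)

/-- transitions of padded runs: `none` is the state of a run which has ended -/
def ext (x : Option X) (s : Option (Lt F)) (x' : Option X) : Prop :=
  (∃ q l q', x = some q ∧ s = some l ∧ x' = some q' ∧ p.step q l q') ∨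
    (s = none ∧ x' = none ∧ x ≠ some p.st0)

/-- a path of length `n` of padded states from the initial state -/
def Path (n : ℕ) (x : ℕ → Option X) (a : ℕ → Option (Lt F)) : Prop :=
  x 0 = some p.st0 ∧ ∀ i < n, p.ext (x i) (a i) (x (i + 1))

/-- a sequence of differences of length `n` for two sequences of padded letters -/
def Diff (n : ℕ) (a b : ℕ → Option (Lt F)) (f : ℕ → D) : Prop :=
  f 0 = p.star ∧ ∀ i < n, p.nd (f i) (a i) (b i) (f (i + 1))

/-- every run has a partner at difference `g`, with all differences in `inD`, ending at most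
one step later -/
def Total (g : D) : Prop :=
  ∀ (n : ℕ) (x : ℕ → Option X) (a : ℕ → Option (Lt F)), p.Path n x a → x n = none → a n = none →
    ∃ (y : ℕ → Option X) (b : ℕ → Option (Lt F)) (f : ℕ → D),
      p.Path (n + 1) y b ∧ p.Diff (n + 1) a b f ∧ (∀ i ≤ n + 1, f i ∈ p.inD) ∧
        y (n + 1) = none ∧ f (n + 1) = g

/-- the conditions making the machine describe a set with a group action -/
structure Ok : Prop where
  wf_gen : ∀ d f f' d' w, (d, f, f', d', w) ∈ p.gen → w.length = p.rk f ∧ p.rk f' = p.rk f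
  wf_exp : ∀ d s t d', (d, s, t, d') ∈ p.exp → (∀ l, s = some l → p.ok l) ∧ (∀ l, t = some l → p.ok l)
  wf_tr : ∀ x l x', (x, l, x') ∈ p.tr → p.ok l ∧ l ∈ p.zone
  S_D : p.inS ⊆ p.inD
  one_S : p.one ∈ p.inS
  star_D : p.star ∈ p.inD
  star_S : p.star ∉ p.inS
  inv_one : p.inv p.one = p.one
  inv_star : p.inv p.star = p.star
  mul_star : p.mul p.star p.star = p.star
  inv_D : ∀ d ∈ p.inD, p.inv d ∈ p.inD
  one_mul : ∀ d ∈ p.inS, p.mul p.one d = d
  mul_one : ∀ d ∈ p.inS, p.mul d p.one = d
  inv_mul : ∀ d ∈ p.inS, p.mul (p.inv d) d = p.one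
  nd_none : ∀ d d', p.nd d none none d' → d = d'
  nd_none' : ∀ d ∈ p.inD, d ≠ p.star → p.nd d none none d
  nd_inv : ∀ d s t d', d ∈ p.inD → d' ∈ p.inD → p.nd d s t d' → p.nd (p.inv d) t s (p.inv d')
  nd_mul : ∀ d e d' e' s t u, d ∈ p.inD → e ∈ p.inD → d' ∈ p.inD → e' ∈ p.inD →
    p.nd d s t d' → p.nd e t u e' → p.nd (p.mul d e) s u (p.mul d' e')
  step_ne : ∀ x l x', p.step x l x' → x' ≠ p.st0
  step_star : ∀ l x', p.step p.st0 l x' → p.nd p.star (some l) (some l) p.one
  step_one : ∀ x l x', x ≠ p.st0 → p.step x l x' → p.nd p.one (some l) (some l) p.one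
  noreturn : ∀ (n : ℕ) (x y : ℕ → Option X) (a b : ℕ → Option (Lt F)) (f : ℕ → D),
    p.Path n x a → p.Path n y b → p.Diff n a b f → f n ∈ p.inS → ∀ i ≤ n, f i ∈ p.inD

/-- evaluation of a word; every intermediate value has to lie in `inS` -/
inductive Ev (gc : ℕ × Bool → D) : List (ℕ × Bool) → D → Prop
  | nil : Ev gc [] p.one
  | cons {l w e} : Ev gc w e → p.mul (gc l) e ∈ p.inS → Ev gc (l :: w) (p.mul (gc l) e)

end Pre

end Pool.Agent.Lib.P77fd2d
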