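import Pool.Agent.Lib.P77fd2d.RootsB
import Pool.Agent.Lib.P77fd2d.Close

/-!
# MODULE P77fd2d.Near  (0.8h)   black boxes: `roots_wl`, `close`

Two `R`-geodesics with close endpoints: each vertex of the first is close (word metric) to some vertex
of the second one, and the indices are close too.

PROOF.  C2 := constant of `roots_wl` for N; vA the A-path from k to k' (≤ C2 pieces,
`exists_apath`), c the A-path from x' = k' ev u' to x = k ev u (≤ N pieces).
w := vA ++ u' ++ c is Brk (C2 + 1 + N) with the ends of u; apply `close` (monotone in number of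
pieces by `brk_mono`): the vertex k ev u1 is within K0 of a vertex of vA, u' or c.  A vertex of vA is
within C2 (its remaining length, wl of a word of A-letters ≤ length) of k' = k' ev [];
a vertex of c is within N of x' = k' ev u'.  So within K := K0 + C2 + N of a vertex k' ev v1 of u'.
Indices: rho (k ev u1) = u1.length, rho (k' ev v1) = v1.length (`rgeo_left`) and rho is 1-Lipschitz
for rl ≤ wl (`rho_mul`, `rho_mul'`).
-/

namespace Pool.Agent.Lib.P77fd2d
variable {ι G : Type} [Group G]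
namespace RH
variable {S : RH ι G} {R : Set G}

/-- word length of a word without peripheral letters -/
private theorem wl_of_none {w : List (Ltr ι G)} (hw : S.Ok w) (h : ∀ s ∈ w, s.1 = none) :
    S.wl (ev w) ≤ w.length := by
  have h1 := wl_le (S := S) (w := w.map Prod.snd) (by
    intro a ha
    rw [List.mem_map] at ha
    obtain ⟨s, hs, rfl⟩ := ha
    have h2 := hw s hs
    rw [h s hs] at h2
    exact h2)
  rw [List.length_map] at h1
  exact h1

theorem near [Finite ι] (hS : S.Good) (hR : S.Root R) : ∀ N : ℕ, ∃ K : ℕ,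
    ∀ (k : G) (u : List (Ltr ι G)) (k' : G) (u' : List (Ltr ι G)), S.RGeo R k u → S.RGeo R k' u' →
      S.wl ((k * ev u)⁻¹ * (k' * ev u')) ≤ N → ∀ u1 u2, u = u1 ++ u2 →
        ∃ v1 v2, u' = v1 ++ v2 ∧ S.wl ((k * ev u1)⁻¹ * (k' * ev v1)) ≤ K ∧
          u1.length ≤ v1.length + K ∧ v1.length ≤ u1.length + K := by
  intro N
  obtain ⟨C, hC⟩ := roots_wl hS hR N
  obtain ⟨K0, hK0⟩ := close hS (C + (1 + N))
  refine ⟨K0 + C + N, ?_⟩
  intro k u k' u' hu hu' hN u1 u2 hsplit
  have hne : R.Nonempty := hR.ne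
  have hgu : S.Geo u := rgeo_geo hu
  have hgu' : S.Geo u' := rgeo_geo hu'
  have hkk := hC k u k' u' hu hu' hN
  obtain ⟨vA, hvA1, hvA2, hvA3, hvA4⟩ := exists_apath hS (k⁻¹ * k')
  have hvA : S.Brk C vA := brk_mono hkk hvA1
  have hN' : S.wl ((k' * ev u')⁻¹ * (k * ev u)) ≤ N := by rw [wl_symm hS]; exact hN
  obtain ⟨c, hc1, hc2, hc3, hc4⟩ := exists_apath hS ((k' * ev u')⁻¹ * (k * ev u))
  have hc : S.Brk N c := brk_mono hN' hc1
  have hW : S.Brk (C + (1 + N)) (vA ++ (u' ++ c)) :=
    brk_append hvA (brk_append (brk_of_geo hgu') hc)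
  have hev : ev (vA ++ (u' ++ c)) = ev u := by
    simp only [ev_append, hvA4, hc4]
    group
  obtain ⟨w1, w2, hw, hclose⟩ := hK0 u _ hgu hW hev u1 u2 hsplit
  -- it is enough to find the splitting
  have key : ∀ v1 v2, u' = v1 ++ v2 → S.wl ((k * ev u1)⁻¹ * (k' * ev v1)) ≤ K0 + C + N →
      ∃ v1 v2, u' = v1 ++ v2 ∧ S.wl ((k * ev u1)⁻¹ * (k' * ev v1)) ≤ K0 + C + N ∧
          u1.length ≤ v1.length + (K0 + C + N) ∧ v1.length ≤ u1.length + (K0 + C + N) := by
    intro v1 v2 h1 h2
    refine ⟨v1, v2, h1, h2, ?_⟩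
    have a : S.RGeo R k u1 := by rw [hsplit] at hu; exact rgeo_left hS hne hu
    have b : S.RGeo R k' v1 := by rw [h1] at hu'; exact rgeo_left hS hne hu'
    have a1 := a.2.2
    have b1 := b.2.2
    have c1 := rho_mul hS hne (k * ev u1) ((k * ev u1)⁻¹ * (k' * ev v1))
    have c2 := rho_mul' hS hne (k * ev u1) ((k * ev u1)⁻¹ * (k' * ev v1))
    rw [mul_inv_cancel_left] at c1 c2
    have d := rl_le_wl hS ((k * ev u1)⁻¹ * (k' * ev v1))
    omega
  rcases List.append_eq_append_iff.1 hw with ⟨r, hr1, hr2⟩ | ⟨r, hr1, hr2⟩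
  · -- `w1 = vA ++ r`, `u' ++ c = r ++ w2`
    rcases List.append_eq_append_iff.1 hr2 with ⟨s, hs1, hs2⟩ | ⟨s, hs1, hs2⟩
    · -- `r = u' ++ s`, `c = s ++ w2`
      refine key u' [] (by simp) ?_
      have h1 : S.wl (ev s) ≤ N := by
        have h2 : S.Ok s := by
          have := brk_ok hc
          rw [hs2, ok_append] at this
          exact this.1
        have h3 := wl_of_none h2 (fun t ht => hc2 t (by rw [hs2]; simp [ht]))
        have h4 : s.length ≤ c.length := by rw [hs2]; simp
        omega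
      have e : (k * ev u1)⁻¹ * (k' * ev u') = (ev u1)⁻¹ * ev w1 * (ev s)⁻¹ := by
        rw [hr1, hs1, ev_append, ev_append, hvA4]
        group
      rw [e]
      have h5 := wl_mul hS ((ev u1)⁻¹ * ev w1) (ev s)⁻¹
      rw [wl_inv hS] at h5
      omega
    · -- `u' = r ++ s`, `w2 = s ++ c`
      refine key r s hs1 ?_
      have e : (k * ev u1)⁻¹ * (k' * ev r) = (ev u1)⁻¹ * ev w1 := by
        rw [hr1, ev_append, hvA4]
        group
      rw [e]
      omega
  · -- `vA = w1 ++ r`
    refine key [] u' (by simp) ?_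
    have h1 : S.wl (ev r) ≤ C := by
      have h2 : S.Ok r := by
        have := brk_ok hvA
        rw [hr1, ok_append] at this
        exact this.2
      have h3 := wl_of_none h2 (fun t ht => hvA2 t (by rw [hr1]; simp [ht]))
      have h4 : r.length ≤ vA.length := by rw [hr1]; simp
      omega
    have e : (k * ev u1)⁻¹ * (k' * ev ([] : List (Ltr ι G))) = (ev u1)⁻¹ * ev w1 * ev r := by
      have h2 := hvA4
      rw [hr1, ev_append] at h2
      rw [mul_assoc, h2, ev_nil]
      group
    rw [e]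
    have h5 := wl_mul hS ((ev u1)⁻¹ * ev w1) (ev r)
    omega

end RH
end Pool.Agent.Lib.P77fd2d
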