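import Pool.Agent.Lib.P77fd2d.Mach

/-!
# MODULE P77fd2d.Streams  (1h)   no black box

Runs as infinite streams of padded letters; the relations `Rel g`.

* `rel_refl`: f 0 = star, f i = one for i ≥ 1.  At 0: `ext (some st0) (a 0) (x 1)` forces a 0 = some l and a
  step (`ext` with s = none is impossible at st0), `step_star`.  At i ≥ 1: x i ≠ some st0 (by `step_ne`, or it is none);
  letter some l: `step_one`; letter none: `nd_none'` (one ∈ inD, one ≠ star because star ∉ inS).
* `rel_inv`: f' i = inv (f i).
* `rel_mul`: f'' i = mul (f i) (f' i), by `mul_star`, `nd_mul`; f'' is eventually mul g h ∈ inS, so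
  `noreturn` (for n large) gives f'' i ∈ inD for all i.
* `rel_total`: x n = none; then a n = none (`ext none _ _`), apply `Total`; extend b by none, y by none, f by g:
  `nd_none'` for g (g ∈ inS ⊆ inD, g ≠ star).
* `run_root`: x 0 = some st0, x 1 = some q, x i = none afterwards (q ≠ st0 by `step_ne`).
* `rel_root`: f 0 = star, f i = e for i ≥ 1 (`nd_none'`).
* `root_rel`: by `nd_none` f is constant from 1 on, so f 1 = one.
-/

namespace Pool.Agent.Lib.P77fd2d
namespace Pre
variable {F D X : Type} (p : Pre F D X)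

/-- streams which are (padded) runs -/
def Run (a : ℕ → Option (Lt F)) : Prop :=
  ∃ x : ℕ → Option X, x 0 = some p.st0 ∧ (∀ i, p.ext (x i) (a i) (x (i + 1))) ∧ ∃ n, x n = none

/-- the streams are at difference `g` -/
def Rel (g : D) (a b : ℕ → Option (Lt F)) : Prop :=
  ∃ f : ℕ → D, f 0 = p.star ∧ (∀ i, f i ∈ p.inD) ∧ (∀ i, p.nd (f i) (a i) (b i) (f (i + 1))) ∧
    ∃ n, ∀ i, n ≤ i → f i = g

/-- the run consisting of a root letter only -/
def root (l : Lt F) : ℕ → Option (Lt F) := fun i => if i = 0 then some l else none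

variable {p}

theorem streams_next_ne (hp : p.Ok) {x x' : Option X} {s : Option (Lt F)} (h : p.ext x s x') :
    x' ≠ some p.st0 := by
  rcases h with ⟨q, l, q', _, _, rfl, hs⟩ | ⟨_, rfl, _⟩
  · intro h
    exact hp.step_ne _ _ _ hs (Option.some.inj h)
  · simp

theorem streams_none {x : Option X} {s : Option (Lt F)} {x' : Option X} (h : p.ext x s x')
    (hx : x = none) : s = none ∧ x' = none := by
  rcases h with ⟨q, l, q', rfl, _, _, _⟩ | ⟨h1, h2, _⟩
  · simp at hx
  · exact ⟨h1, h2⟩

theorem streams_ne_star (hp : p.Ok) {g : D} (hg : g ∈ p.inS) : g ≠ p.star := by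
  rintro rfl
  exact hp.star_S hg

theorem rel_refl (hp : p.Ok) {a : ℕ → Option (Lt F)} (ha : p.Run a) : p.Rel p.one a a := by
  obtain ⟨x, h0, hx, _⟩ := ha
  refine ⟨fun i => if i = 0 then p.star else p.one, by simp, ?_, ?_, 1, ?_⟩
  · intro i
    by_cases hi : i = 0
    · simp [hi, hp.star_D]
    · simp [hi, hp.S_D hp.one_S]
  · intro i
    rcases Nat.eq_zero_or_pos i with rfl | hi
    · have h := hx 0
      rw [h0] at h
      rcases h with ⟨q, l, q', hq, hl, _, hs⟩ | ⟨_, _, hne⟩
      · have hq' : p.st0 = q := Option.some.inj hq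
        subst hq'
        simpa [hl] using hp.step_star l q' hs
      · exact absurd rfl hne
    · obtain ⟨j, rfl⟩ : ∃ j, i = j + 1 := ⟨i - 1, by omega⟩
      have hne := streams_next_ne hp (hx j)
      have h := hx (j + 1)
      simp only [Nat.add_eq_zero_iff, one_ne_zero, and_false, if_false]
      rcases h with ⟨q, l, q', hq, hl, _, hs⟩ | ⟨hn, _, _⟩
      · rw [hl]
        refine hp.step_one q l q' ?_ hs
        rintro rfl
        exact hne hq
      · rw [hn]
        exact hp.nd_none' _ (hp.S_D hp.one_S) (streams_ne_star hp hp.one_S)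
  · intro i hi
    have : i ≠ 0 := by omega
    simp [this]

theorem rel_inv (hp : p.Ok) {g : D} {a b : ℕ → Option (Lt F)} (h : p.Rel g a b) :
    p.Rel (p.inv g) b a := by
  obtain ⟨f, h0, hD, hn, n, hg⟩ := h
  exact ⟨fun i => p.inv (f i), by simp [h0, hp.inv_star], fun i => hp.inv_D _ (hD i),
    fun i => hp.nd_inv _ _ _ _ (hD i) (hD (i + 1)) (hn i), n, fun i hi => by simp [hg i hi]⟩

theorem rel_mul (hp : p.Ok) {g h : D} {a b c : ℕ → Option (Lt F)} (ha : p.Run a) (hc : p.Run c)
    (h1 : p.Rel g a b) (h2 : p.Rel h b c) (h3 : p.mul g h ∈ p.inS) : p.Rel (p.mul g h) a c := by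
  obtain ⟨f, f0, fD, fn, n, fg⟩ := h1
  obtain ⟨e, e0, eD, en, m, eg⟩ := h2
  obtain ⟨x, x0, hx, _⟩ := ha
  obtain ⟨y, y0, hy, _⟩ := hc
  have key : ∀ i, p.nd (p.mul (f i) (e i)) (a i) (c i) (p.mul (f (i + 1)) (e (i + 1))) := fun i =>
    hp.nd_mul _ _ _ _ _ _ _ (fD i) (eD i) (fD (i + 1)) (eD (i + 1)) (fn i) (en i)
  have k0 : p.mul (f 0) (e 0) = p.star := by rw [f0, e0, hp.mul_star]
  refine ⟨fun i => p.mul (f i) (e i), k0, ?_, key, max n m, ?_⟩
  · intro i
    let N := max i (max n m)
    have hN : p.mul (f N) (e N) = p.mul g h := by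
      rw [fg N (le_trans (le_max_left n m) (le_max_right i _)),
        eg N (le_trans (le_max_right n m) (le_max_right i _))]
    exact hp.noreturn N x y a c (fun i => p.mul (f i) (e i)) ⟨x0, fun i _ => hx i⟩
      ⟨y0, fun i _ => hy i⟩ ⟨k0, fun i _ => key i⟩ (by
        show p.mul (f N) (e N) ∈ p.inS
        rw [hN]; exact h3) i (le_max_left _ _)
  · intro i hi
    show p.mul (f i) (e i) = _
    rw [fg i (le_trans (le_max_left _ _) hi), eg i (le_trans (le_max_right _ _) hi)]

theorem rel_total (hp : p.Ok) {g : D} {a : ℕ → Option (Lt F)} (ha : p.Run a) (hg : p.Total g)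
    (hg' : g ∈ p.inS) : ∃ b, p.Run b ∧ p.Rel g a b := by
  obtain ⟨x, x0, hx, n, hn⟩ := ha
  have hst : ∀ i, n ≤ i → x i = none := by
    intro i hi
    induction i, hi using Nat.le_induction with
    | base => exact hn
    | succ k _ ih => exact (streams_none (hx k) ih).2
  have han : ∀ i, n ≤ i → a i = none := fun i hi => (streams_none (hx i) (hst i hi)).1
  obtain ⟨y, b, f, ⟨y0, hy⟩, ⟨f0, hf⟩, fD, yn, fg⟩ :=
    hg n x a ⟨x0, fun i _ => hx i⟩ hn (han n le_rfl)
  refine ⟨fun i => if i < n + 1 then b i else none, ?_, ?_⟩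
  · refine ⟨fun i => if i ≤ n + 1 then y i else none, by simpa using y0, ?_, n + 1, by simpa using yn⟩
    intro i
    by_cases hi : i < n + 1
    · have h1 : i ≤ n + 1 := by omega
      have h2 : i + 1 ≤ n + 1 := by omega
      simp only [hi, h1, h2, if_true]
      exact hy i hi
    · have h1 : (if i ≤ n + 1 then y i else none) = none := by
        by_cases h : i ≤ n + 1
        · have : i = n + 1 := by omega
          subst this
          simpa using yn
        · simp [h]
      have h2 : ¬ (i + 1 ≤ n + 1) := by omega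
      simp only [h1, hi, h2, if_false]
      exact Or.inr ⟨rfl, rfl, by simp⟩
  · refine ⟨fun i => if i ≤ n + 1 then f i else g, by simpa using f0, ?_, ?_, n + 1, ?_⟩
    · intro i
      by_cases hi : i ≤ n + 1
      · simpa [hi] using fD i hi
      · simpa [hi] using hp.S_D hg'
    · intro i
      by_cases hi : i < n + 1
      · have h1 : i ≤ n + 1 := by omega
        have h2 : i + 1 ≤ n + 1 := by omega
        simp only [hi, h1, h2, if_true]
        exact hf i hi
      · have h1 : (if i ≤ n + 1 then f i else g) = g := by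
          by_cases h : i ≤ n + 1
          · have : i = n + 1 := by omega
            subst this
            simpa using fg
          · simp [h]
        have h2 : ¬ (i + 1 ≤ n + 1) := by omega
        have h3 : a i = none := han i (by omega)
        simp only [h1, hi, h2, if_false, h3]
        exact hp.nd_none' _ (hp.S_D hg') (streams_ne_star hp hg')
    · intro i hi
      by_cases h : i ≤ n + 1
      · have : i = n + 1 := by omega
        subst this
        simpa using fg
      · simp [h]

theorem run_root (hp : p.Ok) {l : Lt F} {q : X} (h : p.step p.st0 l q) : p.Run (root l) := by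
  refine ⟨fun i => if i = 0 then some p.st0 else if i = 1 then some q else none, by simp, ?_, 2,
    by simp⟩
  intro i
  rcases Nat.eq_zero_or_pos i with rfl | hi
  · refine Or.inl ⟨p.st0, l, q, by simp, by simp [root], by simp, h⟩
  · have h0 : i ≠ 0 := by omega
    have h1 : i + 1 ≠ 1 := by omega
    refine Or.inr ⟨by simp [root, h0], by simp [h0], ?_⟩
    by_cases h2 : i = 1
    · simp only [h2, one_ne_zero, if_false, if_true]
      intro h3
      exact hp.step_ne _ _ _ h (Option.some.inj h3)
    · simp [h0, h2]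

theorem rel_root (hp : p.Ok) {l l' : Lt F} {e : D} (he : e ∈ p.inS)
    (h : p.nd p.star (some l) (some l') e) : p.Rel e (root l) (root l') := by
  refine ⟨fun i => if i = 0 then p.star else e, by simp, ?_, ?_, 1, ?_⟩
  · intro i
    by_cases hi : i = 0
    · simp [hi, hp.star_D]
    · simp [hi, hp.S_D he]
  · intro i
    by_cases hi : i = 0
    · subst hi
      simpa [root] using h
    · simpa [root, hi] using hp.nd_none' _ (hp.S_D he) (streams_ne_star hp he)
  · intro i hi
    have : i ≠ 0 := by omega
    simp [this]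

theorem root_rel (hp : p.Ok) {l l' : Lt F} (h : p.Rel p.one (root l) (root l')) :
    p.nd p.star (some l) (some l') p.one := by
  obtain ⟨f, f0, _, fn, n, fg⟩ := h
  have hc : ∀ i, f (i + 1) = f 1 := by
    intro i
    induction i with
    | zero => rfl
    | succ k ih =>
      have h := fn (k + 1)
      have e1 : root l (k + 1) = none := by simp [root]
      have e2 : root l' (k + 1) = none := by simp [root]
      rw [e1, e2] at h
      rw [← hp.nd_none _ _ h, ih]
  have h1 : f 1 = p.one := by
    rw [← hc n]
    exact fg (n + 1) (by omega)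
  have h := fn 0
  rw [f0] at h
  have e1 : root l 0 = some l := by simp [root]
  have e2 : root l' 0 = some l' := by simp [root]
  rw [e1, e2, zero_add, h1] at h
  exact h

end Pre
end Pool.Agent.Lib.P77fd2d
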