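import Pool.Agent.Lib.P77fd2d.CertDef
import Pool.Agent.Lib.P77fd2d.Streams

/-!
# Finiteness and closure conditions on machines (for completeness of the certificates)
-/

namespace Pool.Agent.Lib.P77fd2d

/-- finiteness and genericity conditions -/
structure Nice {F D X : Type} (p : Pre F D X) : Prop where
  fin_rk : {f | p.rk f ≠ 0}.Finite
  fin_D : p.inD.Finite
  fin_exp : p.exp.Finite
  fin_gen : p.gen.Finite
  fin_zone : p.zone.Finite
  fin_tr : p.tr.Finite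
  fin_tg : p.tg.Finite
  zone_ok : ∀ l ∈ p.zone, p.ok l
  gen_inv : ∀ d f f' d' w, d ∈ p.inD → d' ∈ p.inD → (d, f, f', d', w) ∈ p.gen →
    (p.inv d, f', f, p.inv d', w.map (fun z => -z)) ∈ p.gen
  gen_mul : ∀ d e d' e' f f' f'' w w', d ∈ p.inD → e ∈ p.inD → d' ∈ p.inD → e' ∈ p.inD →
    (d, f, f', d', w) ∈ p.gen → (e, f', f'', e', w') ∈ p.gen →
      (p.mul d e, f, f'', p.mul d' e', sh w w') ∈ p.gen
  tg_gen0 : ∀ f x', (p.st0, f, x') ∈ p.tg →
    (p.star, f, f, p.one, List.replicate (p.rk f) (0 : ℤ)) ∈ p.gen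
  tg_gen1 : ∀ x f x', x ≠ p.st0 → (x, f, x') ∈ p.tg →
    (p.one, f, f, p.one, List.replicate (p.rk f) (0 : ℤ)) ∈ p.gen
  tg_rk : ∀ x f x', (x, f, x') ∈ p.tg → 0 < p.rk f

/-- normalisation of machines over `ℕ` -/
structure Norm (p : Pre ℕ ℕ ℕ) : Prop where
  one0 : p.one = 0
  star1 : p.star = 1
  st0 : p.st0 = 0
  mul_out : ∀ a b, a ∉ p.inD ∨ b ∉ p.inD → p.mul a b = 0
  inv_out : ∀ a, a ∉ p.inD → p.inv a = 0

/-- conditions on the words (for completeness) -/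
structure WN {F D X : Type} (p : Pre F D X) (P : Pres) (Fw Y : List Word) (w : Word)
    (gc : ℕ × Bool → D) (J0 : Set F) (base xw : Lt F) : Prop where
  gc_S : ∀ l : ℕ × Bool, l.1 < P.1 → gc l ∈ p.inS ∧ p.Total (gc l) ∧ gc (l.1, !l.2) = p.inv (gc l)
  gc_out : ∀ l : ℕ × Bool, ¬ l.1 < P.1 → gc l = p.one
  rel : ∀ r ∈ P.2, p.Ev gc r p.one
  y : ∀ y ∈ Y, ∃ e, p.Ev gc y e ∧ p.nd p.star (some base) (some base) e
  fin_J0 : J0.Finite
  fw : ∀ v ∈ Fw, ∀ u, (u = v ∨ u = winv v) → ∃ e, p.Ev gc u e ∧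
    ∀ f ∈ J0, ∃ f' ∈ J0, ∃ w, (p.star, f, f', e, w) ∈ p.gen
  J_run : ∀ f ∈ J0, ((∃ x', (p.st0, f, x') ∈ p.tg) ∨ (p.rk f = 0 ∧ (f, []) ∈ p.zone)) ∧
    ∀ l ∈ p.zone, l.1 = f → ∃ x', (p.st0, l, x') ∈ p.tr
  base_J : base.1 ∈ J0 ∧ p.ok base
  xw_run : ∃ x', (p.st0, xw, x') ∈ p.tr
  w_xw : ∃ e, p.Ev gc (winv w) e ∧ p.nd p.star (some base) (some xw) e
  sep : ∀ l, l.1 ∈ J0 → p.ok l → ¬ p.nd p.star (some l) (some xw) p.one

namespace Pre
variable {F D X : Type}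

/-- coding of a square -/
def cOL (cF : F → ℕ) (s : Option (Lt F)) : Option L := s.map (fun l => (cF l.1, l.2))

open Classical in
/-- transport of a machine along injections into `ℕ` -/
noncomputable def map (p : Pre F D X) (cF : F → ℕ) (cD : D → ℕ) (cX : X → ℕ) : Pre ℕ ℕ ℕ where
  rk := fun n => if h : ∃ f, cF f = n then p.rk h.choose else 0
  one := cD p.one
  star := cD p.star
  inD := cD '' p.inD
  inS := cD '' p.inS
  mul := fun a b => if h : ∃ q : D × D, q.1 ∈ p.inD ∧ q.2 ∈ p.inD ∧ cD q.1 = a ∧ cD q.2 = b then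
    cD (p.mul h.choose.1 h.choose.2) else 0
  inv := fun a => if h : ∃ d, d ∈ p.inD ∧ cD d = a then cD (p.inv h.choose) else 0
  exp := (fun e => (cD e.1, cOL cF e.2.1, cOL cF e.2.2.1, cD e.2.2.2)) '' p.exp
  gen := (fun g => (cD g.1, cF g.2.1, cF g.2.2.1, cD g.2.2.2.1, g.2.2.2.2)) '' p.gen
  zone := (fun l => (cF l.1, l.2)) '' p.zone
  st0 := cX p.st0
  tr := (fun e => (cX e.1, (cF e.2.1.1, e.2.1.2), cX e.2.2)) '' p.tr
  tg := (fun e => (cX e.1, cF e.2.1, cX e.2.2)) '' p.tg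

end Pre

/-! ### the certificate of a normalised machine -/

open Classical in
/-- list of the elements of a finite set -/
noncomputable def toL {α : Type} (s : Set α) : List α := if h : s.Finite then h.toFinset.toList else []

theorem mem_toL {α : Type} {s : Set α} (h : s.Finite) {a : α} : a ∈ toL s ↔ a ∈ s := by
  unfold toL
  rw [dif_pos h]
  simp

open Classical in
/-- a bound for a finite set of numbers -/
noncomputable def bd (s : Set ℕ) : ℕ := if h : s.Finite then h.toFinset.sup id + 1 else 0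

theorem lt_bd {s : Set ℕ} (h : s.Finite) {a : ℕ} (ha : a ∈ s) : a < bd s := by
  unfold bd
  rw [dif_pos h]
  have : a ≤ h.toFinset.sup id := Finset.le_sup (f := id) (h.mem_toFinset.2 ha)
  omega

namespace Pre
variable (p : Pre ℕ ℕ ℕ)

def reachS : Set TR := {z | ∃ (n : ℕ) (x y : ℕ → Option ℕ) (a b : ℕ → Option L) (f : ℕ → ℕ),
  p.Path n x a ∧ p.Path n y b ∧ p.Diff n a b f ∧ (∀ i ≤ n, f i ∈ p.inD) ∧ z = (x n, y n, f n)}

def badS : Set TR := {z | ∃ (n : ℕ) (x y : ℕ → Option ℕ) (a b : ℕ → Option L) (f : ℕ → ℕ),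
  p.Path n x a ∧ p.Path n y b ∧ p.Diff n a b f ∧ (∃ i ≤ n, f i ∉ p.inD) ∧ z = (x n, y n, f n)}

/-- the superstate of a path -/
def supOf (n : ℕ) (a : ℕ → Option L) : Set (Option ℕ × ℕ) :=
  {u | ∃ (y : ℕ → Option ℕ) (b : ℕ → Option L) (f : ℕ → ℕ),
    p.Path n y b ∧ p.Diff n a b f ∧ (∀ i ≤ n, f i ∈ p.inD) ∧ u = (y n, f n)}

def supS : Set SU := {z | ∃ (n : ℕ) (x : ℕ → Option ℕ) (a : ℕ → Option L),
  p.Path n x a ∧ z = (x n, toL (p.supOf n a))}

def zpS : Set L := p.zone ∪ {l | ∃ e ∈ p.exp, e.2.1 = some l} ∪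
  {l | ∃ g ∈ p.gen, ∃ m ∈ p.zone, m.1 = g.2.2.1 ∧ l = (g.2.1, ush m.2 g.2.2.2.2)}

end Pre

/-- the certificate -/
noncomputable def mkc (p : Pre ℕ ℕ ℕ) (n : ℕ) (gc : ℕ × Bool → ℕ) (J0 : Set ℕ) (base xw : L) :
    Cert :=
  ((((List.range (bd {f | p.rk f ≠ 0})).map p.rk, toL p.inD, toL p.inS),
    ((List.range (bd p.inD)).map (fun a => (List.range (bd p.inD)).map (fun b => p.mul a b)),
      (List.range (bd p.inD)).map p.inv),
    (toL p.exp, toL p.gen)),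
  ((toL p.zone, toL p.zpS), (toL p.tr, toL p.tg), (toL p.reachS, toL p.badS)),
  (toL p.supS, (toL J0, base, xw), ((List.range n).map (fun k => gc (k, true)),
    (List.range n).map (fun k => gc (k, false)))))

end Pool.Agent.Lib.P77fd2d
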