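import Pool.Agent.Lib.P77fd2d.PrimV

/-!
# MODULE P77fd2d.PrimA  (1h)   black box: PrimV

Primitive recursiveness of the basic functions and relations on certificates.

* accessors: compositions of `Primrec.fst`, `Primrec.snd` (Cert is a nested product, the accessors are defined by projections).
* `ndP`, `extP`: `PrimrecPred.or/and`, `prim_mem`, `prim_exists` over c.gen, c.tr, c.tg.
* `evc`: `Primrec.list_foldr`.
-/

namespace Pool.Agent.Lib.P77fd2d

theorem prim_rk : Primrec Cert.rk := Primrec.fst.comp (Primrec.fst.comp Primrec.fst)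
theorem prim_dl : Primrec Cert.dl :=
  Primrec.fst.comp (Primrec.snd.comp (Primrec.fst.comp Primrec.fst))
theorem prim_sl : Primrec Cert.sl :=
  Primrec.snd.comp (Primrec.snd.comp (Primrec.fst.comp Primrec.fst))
theorem prim_mul : Primrec Cert.mul :=
  Primrec.fst.comp (Primrec.fst.comp (Primrec.snd.comp Primrec.fst))
theorem prim_inv : Primrec Cert.inv :=
  Primrec.snd.comp (Primrec.fst.comp (Primrec.snd.comp Primrec.fst))
theorem prim_exp : Primrec Cert.exp :=
  Primrec.fst.comp (Primrec.snd.comp (Primrec.snd.comp Primrec.fst))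
theorem prim_gen : Primrec Cert.gen :=
  Primrec.snd.comp (Primrec.snd.comp (Primrec.snd.comp Primrec.fst))
theorem prim_zone : Primrec Cert.zone :=
  Primrec.fst.comp (Primrec.fst.comp (Primrec.fst.comp Primrec.snd))
theorem prim_zp : Primrec Cert.zp :=
  Primrec.snd.comp (Primrec.fst.comp (Primrec.fst.comp Primrec.snd))
theorem prim_tr : Primrec Cert.tr :=
  Primrec.fst.comp (Primrec.fst.comp (Primrec.snd.comp (Primrec.fst.comp Primrec.snd)))
theorem prim_tg : Primrec Cert.tg :=
  Primrec.snd.comp (Primrec.fst.comp (Primrec.snd.comp (Primrec.fst.comp Primrec.snd)))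
theorem prim_reach : Primrec Cert.reach :=
  Primrec.fst.comp (Primrec.snd.comp (Primrec.snd.comp (Primrec.fst.comp Primrec.snd)))
theorem prim_bad : Primrec Cert.bad :=
  Primrec.snd.comp (Primrec.snd.comp (Primrec.snd.comp (Primrec.fst.comp Primrec.snd)))
theorem prim_sup : Primrec Cert.sup := Primrec.fst.comp (Primrec.snd.comp Primrec.snd)
theorem prim_j0 : Primrec Cert.j0 :=
  Primrec.fst.comp (Primrec.fst.comp (Primrec.snd.comp (Primrec.snd.comp Primrec.snd)))
theorem prim_base : Primrec Cert.base :=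
  Primrec.fst.comp (Primrec.snd.comp (Primrec.fst.comp (Primrec.snd.comp
    (Primrec.snd.comp Primrec.snd))))
theorem prim_xw : Primrec Cert.xw :=
  Primrec.snd.comp (Primrec.snd.comp (Primrec.fst.comp (Primrec.snd.comp
    (Primrec.snd.comp Primrec.snd))))
theorem prim_ga : Primrec Cert.ga :=
  Primrec.fst.comp (Primrec.snd.comp (Primrec.snd.comp (Primrec.snd.comp Primrec.snd)))
theorem prim_gb : Primrec Cert.gb :=
  Primrec.snd.comp (Primrec.snd.comp (Primrec.snd.comp (Primrec.snd.comp Primrec.snd)))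

theorem prim_xs : Primrec Cert.xs := by
  have h1 : Primrec fun c : Cert => c.tr.map (fun e => some e.2.2) :=
    Primrec.list_map prim_tr
      (Primrec.option_some.comp (Primrec.snd.comp (Primrec.snd.comp Primrec.snd))).to₂
  have h2 : Primrec fun c : Cert => c.tg.map (fun e => some e.2.2) :=
    Primrec.list_map prim_tg
      (Primrec.option_some.comp (Primrec.snd.comp (Primrec.snd.comp Primrec.snd))).to₂
  exact Primrec.list_cons.comp (Primrec.const none) (Primrec.list_append.comp h1 h2)

section comp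
variable {α : Type} [Primcodable α]

theorem prim_rkf {c : α → Cert} {f : α → ℕ} (hc : Primrec c) (hf : Primrec f) :
    Primrec fun a => (c a).rkf (f a) :=
  (Primrec.list_getD 0).comp (prim_rk.comp hc) hf

theorem prim_mulf {c : α → Cert} {f g : α → ℕ} (hc : Primrec c) (hf : Primrec f) (hg : Primrec g) :
    Primrec fun a => (c a).mulf (f a) (g a) :=
  (Primrec.list_getD 0).comp ((Primrec.list_getD []).comp (prim_mul.comp hc) hf) hg

theorem prim_invf {c : α → Cert} {f : α → ℕ} (hc : Primrec c) (hf : Primrec f) :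
    Primrec fun a => (c a).invf (f a) :=
  (Primrec.list_getD 0).comp (prim_inv.comp hc) hf

theorem prim_ok {c : α → Cert} {l : α → L} (hc : Primrec c) (hl : Primrec l) :
    PrimrecPred fun a => (c a).okP (l a) :=
  prim_eq (Primrec.list_length.comp (Primrec.snd.comp hl)) (prim_rkf hc (Primrec.fst.comp hl))

theorem prim_nd {c : α → Cert} {d d' : α → ℕ} {s t : α → Option L} (hc : Primrec c)
    (hd : Primrec d) (hs : Primrec s) (ht : Primrec t) (hd' : Primrec d') :
    PrimrecPred fun a => (c a).ndP (d a) (s a) (t a) (d' a) := by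
  refine PrimrecPred.or (prim_mem (hd.pair (hs.pair (ht.pair hd'))) (prim_exp.comp hc))
    (prim_exists (prim_gen.comp hc) (R := fun a g => g.1 = d a ∧ g.2.2.2.1 = d' a ∧
      s a = some (g.2.1, (Cert.gl (s a)).2) ∧
      t a = some (g.2.2.1, sh (Cert.gl (s a)).2 g.2.2.2.2) ∧ (c a).okP (Cert.gl (s a))) ?_)
  have g1 : Primrec fun q : α × GE => q.2.1 := Primrec.fst.comp Primrec.snd
  have g2 : Primrec fun q : α × GE => q.2.2.1 := Primrec.fst.comp (Primrec.snd.comp Primrec.snd)
  have g3 : Primrec fun q : α × GE => q.2.2.2.1 :=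
    Primrec.fst.comp (Primrec.snd.comp (Primrec.snd.comp Primrec.snd))
  have g4 : Primrec fun q : α × GE => q.2.2.2.2.1 :=
    Primrec.fst.comp (Primrec.snd.comp (Primrec.snd.comp (Primrec.snd.comp Primrec.snd)))
  have g5 : Primrec fun q : α × GE => q.2.2.2.2.2 :=
    Primrec.snd.comp (Primrec.snd.comp (Primrec.snd.comp (Primrec.snd.comp Primrec.snd)))
  have hs' : Primrec fun q : α × GE => s q.1 := hs.comp Primrec.fst
  have hgl : Primrec fun q : α × GE => Cert.gl (s q.1) := prim_gl.comp hs'
  have hgl2 : Primrec fun q : α × GE => (Cert.gl (s q.1)).2 := Primrec.snd.comp hgl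
  refine PrimrecPred.and (prim_eq g1 (hd.comp Primrec.fst)) (PrimrecPred.and
    (prim_eq g4 (hd'.comp Primrec.fst)) (PrimrecPred.and
    (prim_eq hs' (Primrec.option_some.comp (g2.pair hgl2))) (PrimrecPred.and
    (prim_eq (ht.comp Primrec.fst) (Primrec.option_some.comp (g3.pair (prim_sh.comp hgl2 g5))))
    (prim_ok (hc.comp Primrec.fst) hgl))))

theorem prim_ext {c : α → Cert} {x x' : α → Option ℕ} {s : α → Option L} (hc : Primrec c)
    (hx : Primrec x) (hs : Primrec s) (hx' : Primrec x') :
    PrimrecPred fun a => (c a).extP (x a) (s a) (x' a) := by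
  have hgl : Primrec fun a => Cert.gl (s a) := prim_gl.comp hs
  refine PrimrecPred.or ?_ (PrimrecPred.or ?_ ?_)
  · refine prim_exists (prim_tr.comp hc) (R := fun a e => x a = some e.1 ∧ s a = some e.2.1 ∧
      x' a = some e.2.2) ?_
    have e1 : Primrec fun q : α × (ℕ × L × ℕ) => q.2.1 := Primrec.fst.comp Primrec.snd
    have e2 : Primrec fun q : α × (ℕ × L × ℕ) => q.2.2.1 :=
      Primrec.fst.comp (Primrec.snd.comp Primrec.snd)
    have e3 : Primrec fun q : α × (ℕ × L × ℕ) => q.2.2.2 :=
      Primrec.snd.comp (Primrec.snd.comp Primrec.snd)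
    exact PrimrecPred.and (prim_eq (hx.comp Primrec.fst) (Primrec.option_some.comp e1))
      (PrimrecPred.and (prim_eq (hs.comp Primrec.fst) (Primrec.option_some.comp e2))
        (prim_eq (hx'.comp Primrec.fst) (Primrec.option_some.comp e3)))
  · refine PrimrecPred.and (prim_ne hs (Primrec.const none)) (PrimrecPred.and (prim_ok hc hgl)
      (PrimrecPred.and (prim_notMem hgl (prim_zone.comp hc)) ?_))
    refine prim_exists (prim_tg.comp hc) (R := fun a e => x a = some e.1 ∧
      (Cert.gl (s a)).1 = e.2.1 ∧ x' a = some e.2.2) ?_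
    have e1 : Primrec fun q : α × (ℕ × ℕ × ℕ) => q.2.1 := Primrec.fst.comp Primrec.snd
    have e2 : Primrec fun q : α × (ℕ × ℕ × ℕ) => q.2.2.1 :=
      Primrec.fst.comp (Primrec.snd.comp Primrec.snd)
    have e3 : Primrec fun q : α × (ℕ × ℕ × ℕ) => q.2.2.2 :=
      Primrec.snd.comp (Primrec.snd.comp Primrec.snd)
    exact PrimrecPred.and (prim_eq (hx.comp Primrec.fst) (Primrec.option_some.comp e1))
      (PrimrecPred.and (prim_eq (Primrec.fst.comp (hgl.comp Primrec.fst)) e2)
        (prim_eq (hx'.comp Primrec.fst) (Primrec.option_some.comp e3)))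
  · exact PrimrecPred.and (prim_eq hs (Primrec.const none)) (PrimrecPred.and
      (prim_eq hx' (Primrec.const none)) (prim_ne hx (Primrec.const (some 0))))

theorem prim_gc {c : α → Cert} {l : α → ℕ × Bool} (hc : Primrec c) (hl : Primrec l) :
    Primrec fun a => (c a).gc (l a) := by
  have h1 : Primrec fun a => (c a).ga.getD (l a).1 0 :=
    (Primrec.list_getD 0).comp (prim_ga.comp hc) (Primrec.fst.comp hl)
  have h2 : Primrec fun a => (c a).gb.getD (l a).1 0 :=
    (Primrec.list_getD 0).comp (prim_gb.comp hc) (Primrec.fst.comp hl)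
  have h3 : PrimrecPred fun a => (l a).2 = true := prim_eq (Primrec.snd.comp hl) (Primrec.const true)
  exact Primrec.ite h3 h1 h2

theorem prim_evc {c : α → Cert} {w : α → Word} (hc : Primrec c) (hw : Primrec w) :
    Primrec fun a => (c a).evc (w a) := by
  unfold Cert.evc
  refine Primrec.list_foldr (f := w) (g := fun _ => ((0, true) : ℕ × Bool))
    (h := fun a (q : (ℕ × Bool) × (ℕ × Bool)) => ((c a).mulf ((c a).gc q.1) q.2.1,
      q.2.2 && decide ((c a).mulf ((c a).gc q.1) q.2.1 ∈ (c a).sl))) hw (Primrec.const _) ?_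
  have hc' : Primrec fun p : α × ((ℕ × Bool) × (ℕ × Bool)) => c p.1 := hc.comp Primrec.fst
  have hl : Primrec fun p : α × ((ℕ × Bool) × (ℕ × Bool)) => p.2.1 :=
    Primrec.fst.comp Primrec.snd
  have hr1 : Primrec fun p : α × ((ℕ × Bool) × (ℕ × Bool)) => p.2.2.1 :=
    Primrec.fst.comp (Primrec.snd.comp Primrec.snd)
  have hr2 : Primrec fun p : α × ((ℕ × Bool) × (ℕ × Bool)) => p.2.2.2 :=
    Primrec.snd.comp (Primrec.snd.comp Primrec.snd)
  have hm : Primrec fun p : α × ((ℕ × Bool) × (ℕ × Bool)) =>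
      (c p.1).mulf ((c p.1).gc p.2.1) p.2.2.1 := prim_mulf hc' (prim_gc hc' hl) hr1
  have hd : PrimrecPred fun p : α × ((ℕ × Bool) × (ℕ × Bool)) =>
      (c p.1).mulf ((c p.1).gc p.2.1) p.2.2.1 ∈ (c p.1).sl := prim_mem hm (prim_sl.comp hc')
  exact Primrec.pair hm (Primrec.and.comp hr2 hd.decide)

end comp

end Pool.Agent.Lib.P77fd2d
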