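import Pool.Agent.Lib.P77fd2d.PrimA

/-!
# MODULE P77fd2d.PrimB  (1h)   black box: PrimA

Primitive recursiveness of the checks Va1-Va6 (bounded formulas).
-/

namespace Pool.Agent.Lib.P77fd2d

private theorem pb_some {α β : Type} [Primcodable α] [Primcodable β] {f : α → β}
    (hf : Primrec f) : Primrec fun a => some (f a) := Primrec.option_some.comp hf

private theorem pb_ff {α β γ : Type} [Primcodable α] [Primcodable β] [Primcodable γ] :
    Primrec fun q : (α × β) × γ => q.1.1 := Primrec.fst.comp Primrec.fst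

private theorem pb_fs {α β γ : Type} [Primcodable α] [Primcodable β] [Primcodable γ] :
    Primrec fun q : (α × β) × γ => q.1.2 := Primrec.snd.comp Primrec.fst

section comp
variable {α : Type} [Primcodable α]

private theorem bex1 {z : α → EX} (h : Primrec z) : Primrec fun a => (z a).1 :=
  Primrec.fst.comp h
private theorem bex2 {z : α → EX} (h : Primrec z) : Primrec fun a => (z a).2.1 :=
  Primrec.fst.comp (Primrec.snd.comp h)
private theorem bex3 {z : α → EX} (h : Primrec z) : Primrec fun a => (z a).2.2.1 :=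
  Primrec.fst.comp (Primrec.snd.comp (Primrec.snd.comp h))
private theorem bex4 {z : α → EX} (h : Primrec z) : Primrec fun a => (z a).2.2.2 :=
  Primrec.snd.comp (Primrec.snd.comp (Primrec.snd.comp h))

private theorem bge1 {z : α → GE} (h : Primrec z) : Primrec fun a => (z a).1 :=
  Primrec.fst.comp h
private theorem bge2 {z : α → GE} (h : Primrec z) : Primrec fun a => (z a).2.1 :=
  Primrec.fst.comp (Primrec.snd.comp h)
private theorem bge3 {z : α → GE} (h : Primrec z) : Primrec fun a => (z a).2.2.1 :=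
  Primrec.fst.comp (Primrec.snd.comp (Primrec.snd.comp h))
private theorem bge4 {z : α → GE} (h : Primrec z) : Primrec fun a => (z a).2.2.2.1 :=
  Primrec.fst.comp (Primrec.snd.comp (Primrec.snd.comp (Primrec.snd.comp h)))
private theorem bge5 {z : α → GE} (h : Primrec z) : Primrec fun a => (z a).2.2.2.2 :=
  Primrec.snd.comp (Primrec.snd.comp (Primrec.snd.comp (Primrec.snd.comp h)))

private theorem btr1 {z : α → ℕ × L × ℕ} (h : Primrec z) : Primrec fun a => (z a).1 :=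
  Primrec.fst.comp h
private theorem btr2 {z : α → ℕ × L × ℕ} (h : Primrec z) : Primrec fun a => (z a).2.1 :=
  Primrec.fst.comp (Primrec.snd.comp h)
private theorem btr3 {z : α → ℕ × L × ℕ} (h : Primrec z) : Primrec fun a => (z a).2.2 :=
  Primrec.snd.comp (Primrec.snd.comp h)

private theorem btg1 {z : α → ℕ × ℕ × ℕ} (h : Primrec z) : Primrec fun a => (z a).1 :=
  Primrec.fst.comp h
private theorem btg2 {z : α → ℕ × ℕ × ℕ} (h : Primrec z) : Primrec fun a => (z a).2.1 :=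
  Primrec.fst.comp (Primrec.snd.comp h)
private theorem btg3 {z : α → ℕ × ℕ × ℕ} (h : Primrec z) : Primrec fun a => (z a).2.2 :=
  Primrec.snd.comp (Primrec.snd.comp h)

private theorem bpr2 {β γ : Type} [Primcodable β] [Primcodable γ] {z : α → β × γ}
    (h : Primrec z) : Primrec fun a => (z a).2 := Primrec.snd.comp h

private theorem pb_sh {v w : α → List ℤ} (hv : Primrec v) (hw : Primrec w) :
    Primrec fun a => sh (v a) (w a) := prim_sh.comp hv hw
private theorem pb_ush {v w : α → List ℤ} (hv : Primrec v) (hw : Primrec w) :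
    Primrec fun a => ush (v a) (w a) := prim_ush.comp hv hw

/-- a pair of transitions with all differences in `dl` -/
private theorem pb_dl {c : α → Cert} {f : α → ℕ} (hc : Primrec c) (hf : Primrec f) :
    PrimrecPred fun a => f a ∈ (c a).dl := prim_mem hf (prim_dl.comp hc)

private theorem pb_sl {c : α → Cert} {f : α → ℕ} (hc : Primrec c) (hf : Primrec f) :
    PrimrecPred fun a => f a ∈ (c a).sl := prim_mem hf (prim_sl.comp hc)

end comp

theorem prim_va1 : PrimrecPred Cert.Va1 := by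
  unfold Cert.Va1
  have C : Primrec fun c : Cert => c := Primrec.id
  refine (pb_sl C (Primrec.const 0)).and ((pb_dl C (Primrec.const 1)).and
    ((pb_sl C (Primrec.const 1)).not.and
    ((prim_eq (prim_invf C (Primrec.const 0)) (Primrec.const 0)).and
    ((prim_eq (prim_invf C (Primrec.const 1)) (Primrec.const 1)).and
    ((prim_eq (prim_mulf C (Primrec.const 1) (Primrec.const 1)) (Primrec.const 1)).and
    (PrimrecPred.and ?_ ?_))))))
  · refine prim_forall prim_sl (R := fun c d => d ∈ c.dl ∧ c.mulf 0 d = d ∧ c.mulf d 0 = d ∧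
      c.mulf (c.invf d) d = 0) ?_
    exact (pb_dl Primrec.fst Primrec.snd).and
      ((prim_eq (prim_mulf Primrec.fst (Primrec.const 0) Primrec.snd) Primrec.snd).and
      ((prim_eq (prim_mulf Primrec.fst Primrec.snd (Primrec.const 0)) Primrec.snd).and
      (prim_eq (prim_mulf Primrec.fst (prim_invf Primrec.fst Primrec.snd) Primrec.snd)
        (Primrec.const 0))))
  · refine prim_forall prim_dl (R := fun c d => c.invf d ∈ c.dl) ?_
    exact pb_dl Primrec.fst (prim_invf Primrec.fst Primrec.snd)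

theorem prim_va2 : PrimrecPred Cert.Va2 := by
  unfold Cert.Va2
  refine PrimrecPred.and ?_ (PrimrecPred.and ?_ (PrimrecPred.and ?_ ?_))
  · refine prim_forall prim_gen (R := fun c g => g.2.2.2.2.length = c.rkf g.2.1 ∧
      c.rkf g.2.2.1 = c.rkf g.2.1) ?_
    exact (prim_eq (Primrec.list_length.comp (bge5 Primrec.snd))
      (prim_rkf Primrec.fst (bge2 Primrec.snd))).and
      (prim_eq (prim_rkf Primrec.fst (bge3 Primrec.snd)) (prim_rkf Primrec.fst (bge2 Primrec.snd)))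
  · refine prim_forall prim_exp (R := fun c e => (e.2.1 ≠ none → c.okP (Cert.gl e.2.1)) ∧
      (e.2.2.1 ≠ none → c.okP (Cert.gl e.2.2.1))) ?_
    exact (prim_imp (prim_ne (bex2 Primrec.snd) (Primrec.const none))
      (prim_ok Primrec.fst (prim_gl.comp (bex2 Primrec.snd)))).and
      (prim_imp (prim_ne (bex3 Primrec.snd) (Primrec.const none))
      (prim_ok Primrec.fst (prim_gl.comp (bex3 Primrec.snd))))
  · refine prim_forall prim_tr (R := fun c e => c.okP e.2.1 ∧ e.2.1 ∈ c.zone) ?_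
    exact (prim_ok Primrec.fst (btr2 Primrec.snd)).and
      (prim_mem (btr2 Primrec.snd) (prim_zone.comp Primrec.fst))
  · exact prim_forall prim_zone (R := fun c l => c.okP l) (prim_ok Primrec.fst Primrec.snd)

theorem prim_va3 : PrimrecPred Cert.Va3 := by
  unfold Cert.Va3
  refine PrimrecPred.and ?_ ?_
  · refine prim_forall prim_exp (R := fun c e => e.2.1 = none → e.2.2.1 = none →
      e.1 = e.2.2.2) ?_
    exact prim_imp (prim_eq (bex2 Primrec.snd) (Primrec.const none))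
      (prim_imp (prim_eq (bex3 Primrec.snd) (Primrec.const none))
        (prim_eq (bex1 Primrec.snd) (bex4 Primrec.snd)))
  · refine prim_forall prim_dl (R := fun c d => d ≠ 1 → (d, none, none, d) ∈ c.exp) ?_
    exact prim_imp (prim_ne Primrec.snd (Primrec.const 1))
      (prim_mem (Primrec.snd.pair ((Primrec.const none).pair ((Primrec.const none).pair
        Primrec.snd))) (prim_exp.comp Primrec.fst))

theorem prim_va4 : PrimrecPred Cert.Va4 := by
  unfold Cert.Va4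
  refine PrimrecPred.and ?_ ?_
  · refine prim_forall prim_exp (R := fun c e => e.1 ∈ c.dl → e.2.2.2 ∈ c.dl →
      c.ndP (c.invf e.1) e.2.2.1 e.2.1 (c.invf e.2.2.2)) ?_
    exact prim_imp (pb_dl Primrec.fst (bex1 Primrec.snd))
      (prim_imp (pb_dl Primrec.fst (bex4 Primrec.snd))
      (prim_nd Primrec.fst (prim_invf Primrec.fst (bex1 Primrec.snd)) (bex3 Primrec.snd)
        (bex2 Primrec.snd) (prim_invf Primrec.fst (bex4 Primrec.snd))))
  · refine prim_forall prim_gen (R := fun c g => g.1 ∈ c.dl → g.2.2.2.1 ∈ c.dl →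
      (c.invf g.1, g.2.2.1, g.2.1, c.invf g.2.2.2.1, g.2.2.2.2.map (fun z => -z)) ∈ c.gen) ?_
    refine prim_imp (pb_dl Primrec.fst (bge1 Primrec.snd))
      (prim_imp (pb_dl Primrec.fst (bge4 Primrec.snd)) ?_)
    have hneg : Primrec fun q : Cert × GE => q.2.2.2.2.2.map (fun z => -z) :=
      Primrec.list_map (bge5 Primrec.snd) (PrimVAux.prim_int_neg.comp Primrec.snd).to₂
    exact prim_mem ((prim_invf Primrec.fst (bge1 Primrec.snd)).pair
      ((bge3 Primrec.snd).pair ((bge2 Primrec.snd).pair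
        ((prim_invf Primrec.fst (bge4 Primrec.snd)).pair hneg))))
      (prim_gen.comp Primrec.fst)

private theorem va5a : PrimrecPred fun c : Cert => ∀ e ∈ c.exp, ∀ h ∈ c.exp, e.2.2.1 = h.2.1 →
    e.1 ∈ c.dl → e.2.2.2 ∈ c.dl → h.1 ∈ c.dl → h.2.2.2 ∈ c.dl →
    c.ndP (c.mulf e.1 h.1) e.2.1 h.2.2.1 (c.mulf e.2.2.2 h.2.2.2) := by
  refine prim_forall prim_exp (R := fun c e => ∀ h ∈ c.exp, e.2.2.1 = h.2.1 →
    e.1 ∈ c.dl → e.2.2.2 ∈ c.dl → h.1 ∈ c.dl → h.2.2.2 ∈ c.dl →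
    c.ndP (c.mulf e.1 h.1) e.2.1 h.2.2.1 (c.mulf e.2.2.2 h.2.2.2)) ?_
  refine prim_forall (prim_exp.comp Primrec.fst) (R := fun (q : Cert × EX) h =>
    q.2.2.2.1 = h.2.1 →
    q.2.1 ∈ q.1.dl → q.2.2.2.2 ∈ q.1.dl → h.1 ∈ q.1.dl → h.2.2.2 ∈ q.1.dl →
    q.1.ndP (q.1.mulf q.2.1 h.1) q.2.2.1 h.2.2.1 (q.1.mulf q.2.2.2.2 h.2.2.2)) ?_
  have C : Primrec fun q : (Cert × EX) × EX => q.1.1 := pb_ff
  have E : Primrec fun q : (Cert × EX) × EX => q.1.2 := pb_fs
  have H : Primrec fun q : (Cert × EX) × EX => q.2 := Primrec.snd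
  exact prim_imp (prim_eq (bex3 E) (bex2 H)) (prim_imp (pb_dl C (bex1 E))
    (prim_imp (pb_dl C (bex4 E)) (prim_imp (pb_dl C (bex1 H)) (prim_imp (pb_dl C (bex4 H))
    (prim_nd C (prim_mulf C (bex1 E) (bex1 H)) (bex2 E) (bex3 H)
      (prim_mulf C (bex4 E) (bex4 H)))))))

private theorem va5b : PrimrecPred fun c : Cert => ∀ e ∈ c.exp, ∀ h ∈ c.gen,
    e.2.2.1 = some (h.2.1, (Cert.gl e.2.2.1).2) →
    e.1 ∈ c.dl → e.2.2.2 ∈ c.dl → h.1 ∈ c.dl → h.2.2.2.1 ∈ c.dl →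
    c.ndP (c.mulf e.1 h.1) e.2.1 (some (h.2.2.1, sh (Cert.gl e.2.2.1).2 h.2.2.2.2))
      (c.mulf e.2.2.2 h.2.2.2.1) := by
  refine prim_forall prim_exp (R := fun c e => ∀ h ∈ c.gen,
    e.2.2.1 = some (h.2.1, (Cert.gl e.2.2.1).2) →
    e.1 ∈ c.dl → e.2.2.2 ∈ c.dl → h.1 ∈ c.dl → h.2.2.2.1 ∈ c.dl →
    c.ndP (c.mulf e.1 h.1) e.2.1 (some (h.2.2.1, sh (Cert.gl e.2.2.1).2 h.2.2.2.2))
      (c.mulf e.2.2.2 h.2.2.2.1)) ?_
  refine prim_forall (prim_gen.comp Primrec.fst) (R := fun (q : Cert × EX) h =>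
    q.2.2.2.1 = some (h.2.1, (Cert.gl q.2.2.2.1).2) →
    q.2.1 ∈ q.1.dl → q.2.2.2.2 ∈ q.1.dl → h.1 ∈ q.1.dl → h.2.2.2.1 ∈ q.1.dl →
    q.1.ndP (q.1.mulf q.2.1 h.1) q.2.2.1
      (some (h.2.2.1, sh (Cert.gl q.2.2.2.1).2 h.2.2.2.2))
      (q.1.mulf q.2.2.2.2 h.2.2.2.1)) ?_
  have C : Primrec fun q : (Cert × EX) × GE => q.1.1 := pb_ff
  have E : Primrec fun q : (Cert × EX) × GE => q.1.2 := pb_fs
  have H : Primrec fun q : (Cert × EX) × GE => q.2 := Primrec.snd
  have G : Primrec fun q : (Cert × EX) × GE => (Cert.gl q.1.2.2.2.1).2 :=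
    bpr2 (prim_gl.comp (bex3 E))
  exact prim_imp (prim_eq (bex3 E) (pb_some ((bge2 H).pair G))) (prim_imp (pb_dl C (bex1 E))
    (prim_imp (pb_dl C (bex4 E)) (prim_imp (pb_dl C (bge1 H)) (prim_imp (pb_dl C (bge4 H))
    (prim_nd C (prim_mulf C (bex1 E) (bge1 H)) (bex2 E)
      (pb_some ((bge3 H).pair (pb_sh G (bge5 H))))
      (prim_mulf C (bex4 E) (bge4 H)))))))

private theorem va5c : PrimrecPred fun c : Cert => ∀ g ∈ c.gen, ∀ h ∈ c.exp,
    h.2.1 = some (g.2.2.1, (Cert.gl h.2.1).2) →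
    g.1 ∈ c.dl → g.2.2.2.1 ∈ c.dl → h.1 ∈ c.dl → h.2.2.2 ∈ c.dl →
    c.ndP (c.mulf g.1 h.1) (some (g.2.1, ush (Cert.gl h.2.1).2 g.2.2.2.2)) h.2.2.1
      (c.mulf g.2.2.2.1 h.2.2.2) := by
  refine prim_forall prim_gen (R := fun c g => ∀ h ∈ c.exp,
    h.2.1 = some (g.2.2.1, (Cert.gl h.2.1).2) →
    g.1 ∈ c.dl → g.2.2.2.1 ∈ c.dl → h.1 ∈ c.dl → h.2.2.2 ∈ c.dl →
    c.ndP (c.mulf g.1 h.1) (some (g.2.1, ush (Cert.gl h.2.1).2 g.2.2.2.2)) h.2.2.1
      (c.mulf g.2.2.2.1 h.2.2.2)) ?_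
  refine prim_forall (prim_exp.comp Primrec.fst) (R := fun (q : Cert × GE) h =>
    h.2.1 = some (q.2.2.2.1, (Cert.gl h.2.1).2) →
    q.2.1 ∈ q.1.dl → q.2.2.2.2.1 ∈ q.1.dl → h.1 ∈ q.1.dl → h.2.2.2 ∈ q.1.dl →
    q.1.ndP (q.1.mulf q.2.1 h.1) (some (q.2.2.1, ush (Cert.gl h.2.1).2 q.2.2.2.2.2)) h.2.2.1
      (q.1.mulf q.2.2.2.2.1 h.2.2.2)) ?_
  have C : Primrec fun q : (Cert × GE) × EX => q.1.1 := pb_ff
  have G : Primrec fun q : (Cert × GE) × EX => q.1.2 := pb_fs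
  have H : Primrec fun q : (Cert × GE) × EX => q.2 := Primrec.snd
  have S : Primrec fun q : (Cert × GE) × EX => (Cert.gl q.2.2.1).2 :=
    bpr2 (prim_gl.comp (bex2 H))
  exact prim_imp (prim_eq (bex2 H) (pb_some ((bge3 G).pair S))) (prim_imp (pb_dl C (bge1 G))
    (prim_imp (pb_dl C (bge4 G)) (prim_imp (pb_dl C (bex1 H)) (prim_imp (pb_dl C (bex4 H))
    (prim_nd C (prim_mulf C (bge1 G) (bex1 H))
      (pb_some ((bge2 G).pair (pb_ush S (bge5 G)))) (bex3 H)
      (prim_mulf C (bge4 G) (bex4 H)))))))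

private theorem va5d : PrimrecPred fun c : Cert => ∀ g ∈ c.gen, ∀ h ∈ c.gen, g.2.2.1 = h.2.1 →
    g.1 ∈ c.dl → g.2.2.2.1 ∈ c.dl → h.1 ∈ c.dl → h.2.2.2.1 ∈ c.dl →
    (c.mulf g.1 h.1, g.2.1, h.2.2.1, c.mulf g.2.2.2.1 h.2.2.2.1, sh g.2.2.2.2 h.2.2.2.2) ∈
      c.gen := by
  refine prim_forall prim_gen (R := fun c g => ∀ h ∈ c.gen, g.2.2.1 = h.2.1 →
    g.1 ∈ c.dl → g.2.2.2.1 ∈ c.dl → h.1 ∈ c.dl → h.2.2.2.1 ∈ c.dl →
    (c.mulf g.1 h.1, g.2.1, h.2.2.1, c.mulf g.2.2.2.1 h.2.2.2.1, sh g.2.2.2.2 h.2.2.2.2) ∈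
      c.gen) ?_
  refine prim_forall (prim_gen.comp Primrec.fst) (R := fun (q : Cert × GE) h =>
    q.2.2.2.1 = h.2.1 →
    q.2.1 ∈ q.1.dl → q.2.2.2.2.1 ∈ q.1.dl → h.1 ∈ q.1.dl → h.2.2.2.1 ∈ q.1.dl →
    (q.1.mulf q.2.1 h.1, q.2.2.1, h.2.2.1, q.1.mulf q.2.2.2.2.1 h.2.2.2.1,
      sh q.2.2.2.2.2 h.2.2.2.2) ∈ q.1.gen) ?_
  have C : Primrec fun q : (Cert × GE) × GE => q.1.1 := pb_ff
  have G : Primrec fun q : (Cert × GE) × GE => q.1.2 := pb_fs
  have H : Primrec fun q : (Cert × GE) × GE => q.2 := Primrec.snd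
  exact prim_imp (prim_eq (bge3 G) (bge2 H)) (prim_imp (pb_dl C (bge1 G))
    (prim_imp (pb_dl C (bge4 G)) (prim_imp (pb_dl C (bge1 H)) (prim_imp (pb_dl C (bge4 H))
    (prim_mem ((prim_mulf C (bge1 G) (bge1 H)).pair ((bge2 G).pair ((bge3 H).pair
      ((prim_mulf C (bge4 G) (bge4 H)).pair (pb_sh (bge5 G) (bge5 H))))))
      (prim_gen.comp C))))))

theorem prim_va5 : PrimrecPred Cert.Va5 := by
  unfold Cert.Va5
  exact va5a.and (va5b.and (va5c.and va5d))

theorem prim_va6 : PrimrecPred Cert.Va6 := by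
  unfold Cert.Va6
  refine PrimrecPred.and ?_ ?_
  · refine prim_forall prim_tr (R := fun c e => e.2.2 ≠ 0 ∧
      c.ndP (if e.1 = 0 then 1 else 0) (some e.2.1) (some e.2.1) 0) ?_
    have hi : Primrec fun q : Cert × (ℕ × L × ℕ) => if q.2.1 = 0 then 1 else 0 :=
      Primrec.ite (prim_eq (btr1 Primrec.snd) (Primrec.const 0)) (Primrec.const 1)
        (Primrec.const 0)
    exact (prim_ne (btr3 Primrec.snd) (Primrec.const 0)).and
      (prim_nd Primrec.fst hi (pb_some (btr2 Primrec.snd)) (pb_some (btr2 Primrec.snd))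
        (Primrec.const 0))
  · refine prim_forall prim_tg (R := fun c e => e.2.2 ≠ 0 ∧
      ((if e.1 = 0 then 1 else 0), e.2.1, e.2.1, 0,
        List.replicate (c.rkf e.2.1) (0 : ℤ)) ∈ c.gen) ?_
    have hi : Primrec fun q : Cert × (ℕ × ℕ × ℕ) => if q.2.1 = 0 then 1 else 0 :=
      Primrec.ite (prim_eq (btg1 Primrec.snd) (Primrec.const 0)) (Primrec.const 1)
        (Primrec.const 0)
    have hr : Primrec fun q : Cert × (ℕ × ℕ × ℕ) =>
        List.replicate (q.1.rkf q.2.2.1) (0 : ℤ) := by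
      have h0 : Primrec fun q : Cert × (ℕ × ℕ × ℕ) =>
          (List.range (q.1.rkf q.2.2.1)).map (fun _ => (0 : ℤ)) :=
        Primrec.list_map (Primrec.list_range.comp (prim_rkf Primrec.fst (btg2 Primrec.snd)))
          (Primrec.const (0 : ℤ)).to₂
      refine h0.of_eq (fun q => ?_)
      simp
    exact (prim_ne (btg3 Primrec.snd) (Primrec.const 0)).and
      (prim_mem (hi.pair ((btg2 Primrec.snd).pair ((btg2 Primrec.snd).pair
        ((Primrec.const 0).pair hr)))) (prim_gen.comp Primrec.fst))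

end Pool.Agent.Lib.P77fd2d
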