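import Pool.Agent.Lib.P77fd2d.PrimA

/-!
# MODULE P77fd2d.PrimC  (1h)   black box: PrimA

Primitive recursiveness of the checks Vb1-Vb3, Vc1-Vc4 (bounded formulas).
-/

namespace Pool.Agent.Lib.P77fd2d

private theorem pc_some {α β : Type} [Primcodable α] [Primcodable β] {f : α → β}
    (hf : Primrec f) : Primrec fun a => some (f a) := Primrec.option_some.comp hf

private theorem pc_ff {α β γ : Type} [Primcodable α] [Primcodable β] [Primcodable γ] :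
    Primrec fun q : (α × β) × γ => q.1.1 := Primrec.fst.comp Primrec.fst

private theorem pc_fs {α β γ : Type} [Primcodable α] [Primcodable β] [Primcodable γ] :
    Primrec fun q : (α × β) × γ => q.1.2 := Primrec.snd.comp Primrec.fst

section comp
variable {α : Type} [Primcodable α]

private theorem tr1 {z : α → TR} (h : Primrec z) : Primrec fun a => (z a).1 :=
  Primrec.fst.comp h
private theorem tr2 {z : α → TR} (h : Primrec z) : Primrec fun a => (z a).2.1 :=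
  Primrec.fst.comp (Primrec.snd.comp h)
private theorem tr3 {z : α → TR} (h : Primrec z) : Primrec fun a => (z a).2.2 :=
  Primrec.snd.comp (Primrec.snd.comp h)

private theorem ex1 {z : α → EX} (h : Primrec z) : Primrec fun a => (z a).1 :=
  Primrec.fst.comp h
private theorem ex2 {z : α → EX} (h : Primrec z) : Primrec fun a => (z a).2.1 :=
  Primrec.fst.comp (Primrec.snd.comp h)
private theorem ex3 {z : α → EX} (h : Primrec z) : Primrec fun a => (z a).2.2.1 :=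
  Primrec.fst.comp (Primrec.snd.comp (Primrec.snd.comp h))
private theorem ex4 {z : α → EX} (h : Primrec z) : Primrec fun a => (z a).2.2.2 :=
  Primrec.snd.comp (Primrec.snd.comp (Primrec.snd.comp h))

private theorem ge1 {z : α → GE} (h : Primrec z) : Primrec fun a => (z a).1 :=
  Primrec.fst.comp h
private theorem ge2 {z : α → GE} (h : Primrec z) : Primrec fun a => (z a).2.1 :=
  Primrec.fst.comp (Primrec.snd.comp h)
private theorem ge3 {z : α → GE} (h : Primrec z) : Primrec fun a => (z a).2.2.1 :=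
  Primrec.fst.comp (Primrec.snd.comp (Primrec.snd.comp h))
private theorem ge4 {z : α → GE} (h : Primrec z) : Primrec fun a => (z a).2.2.2.1 :=
  Primrec.fst.comp (Primrec.snd.comp (Primrec.snd.comp (Primrec.snd.comp h)))
private theorem ge5 {z : α → GE} (h : Primrec z) : Primrec fun a => (z a).2.2.2.2 :=
  Primrec.snd.comp (Primrec.snd.comp (Primrec.snd.comp (Primrec.snd.comp h)))

private theorem tg1 {z : α → ℕ × ℕ × ℕ} (h : Primrec z) : Primrec fun a => (z a).1 :=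
  Primrec.fst.comp h
private theorem tg2 {z : α → ℕ × ℕ × ℕ} (h : Primrec z) : Primrec fun a => (z a).2.1 :=
  Primrec.fst.comp (Primrec.snd.comp h)
private theorem tg3 {z : α → ℕ × ℕ × ℕ} (h : Primrec z) : Primrec fun a => (z a).2.2 :=
  Primrec.snd.comp (Primrec.snd.comp h)

private theorem pr1 {β γ : Type} [Primcodable β] [Primcodable γ] {z : α → β × γ} (h : Primrec z) :
    Primrec fun a => (z a).1 := Primrec.fst.comp h
private theorem pr2 {β γ : Type} [Primcodable β] [Primcodable γ] {z : α → β × γ} (h : Primrec z) :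
    Primrec fun a => (z a).2 := Primrec.snd.comp h

private theorem pc_sh {v w : α → List ℤ} (hv : Primrec v) (hw : Primrec w) :
    Primrec fun a => sh (v a) (w a) := prim_sh.comp hv hw
private theorem pc_ush {v w : α → List ℤ} (hv : Primrec v) (hw : Primrec w) :
    Primrec fun a => ush (v a) (w a) := prim_ush.comp hv hw

private theorem prim_U {c : α → Cert} {T1 T2 : α → List TR} {x y : α → Option ℕ} {f : α → ℕ}
    (hc : Primrec c) (h1 : Primrec T1) (h2 : Primrec T2) (hx : Primrec x) (hy : Primrec y)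
    (hf : Primrec f) : PrimrecPred fun a => (c a).U (T1 a) (T2 a) (x a) (y a) (f a) := by
  unfold Cert.U
  have hp : Primrec fun a => (x a, y a, f a) := hx.pair (hy.pair hf)
  exact (prim_imp (prim_mem hf (prim_dl.comp hc)) (prim_mem hp h1)).and
    (prim_imp (prim_notMem hf (prim_dl.comp hc)) (prim_mem hp h2))

private theorem pc_body {c : α → Cert} {T1 T2 : α → List TR} {u v : α → Option ℕ}
    {s t : α → Option L} {f : α → ℕ}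
    (hc : Primrec c) (h1 : Primrec T1) (h2 : Primrec T2) (hu : Primrec u) (hv : Primrec v)
    (hs : Primrec s) (ht : Primrec t) (hf : Primrec f) :
    PrimrecPred fun a => ∀ x ∈ (c a).xs, ∀ y ∈ (c a).xs, (c a).extP (u a) (s a) x →
      (c a).extP (v a) (t a) y → (c a).U (T1 a) (T2 a) x y (f a) := by
  refine prim_forall (prim_xs.comp hc) (R := fun a x => ∀ y ∈ (c a).xs, (c a).extP (u a) (s a) x →
      (c a).extP (v a) (t a) y → (c a).U (T1 a) (T2 a) x y (f a)) ?_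
  refine prim_forall (prim_xs.comp (hc.comp Primrec.fst)) (R := fun (q : α × Option ℕ) y =>
      (c q.1).extP (u q.1) (s q.1) q.2 →
      (c q.1).extP (v q.1) (t q.1) y → (c q.1).U (T1 q.1) (T2 q.1) q.2 y (f q.1)) ?_
  exact prim_imp (prim_ext (hc.comp pc_ff) (hu.comp pc_ff) (hs.comp pc_ff) pc_fs)
    (prim_imp (prim_ext (hc.comp pc_ff) (hv.comp pc_ff) (ht.comp pc_ff) Primrec.snd)
      (prim_U (hc.comp pc_ff) (h1.comp pc_ff) (h2.comp pc_ff) pc_fs Primrec.snd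
        (hf.comp pc_ff)))

private theorem pc_c1 {c : α → Cert} {T T1 T2 : α → List TR} (hc : Primrec c) (hT : Primrec T)
    (h1 : Primrec T1) (h2 : Primrec T2) :
    PrimrecPred fun a => ∀ z ∈ T a, ∀ e ∈ (c a).exp, e.1 = z.2.2 → ∀ x ∈ (c a).xs,
      ∀ y ∈ (c a).xs, (c a).extP z.1 e.2.1 x → (c a).extP z.2.1 e.2.2.1 y →
        (c a).U (T1 a) (T2 a) x y e.2.2.2 := by
  refine prim_forall hT (R := fun a z => ∀ e ∈ (c a).exp, e.1 = z.2.2 → ∀ x ∈ (c a).xs,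
      ∀ y ∈ (c a).xs, (c a).extP z.1 e.2.1 x → (c a).extP z.2.1 e.2.2.1 y →
        (c a).U (T1 a) (T2 a) x y e.2.2.2) ?_
  refine prim_forall (prim_exp.comp (hc.comp Primrec.fst)) (R := fun (q : α × TR) e =>
      e.1 = q.2.2.2 → ∀ x ∈ (c q.1).xs,
      ∀ y ∈ (c q.1).xs, (c q.1).extP q.2.1 e.2.1 x → (c q.1).extP q.2.2.1 e.2.2.1 y →
        (c q.1).U (T1 q.1) (T2 q.1) x y e.2.2.2) ?_
  exact prim_imp (prim_eq (ex1 Primrec.snd) (tr3 pc_fs))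
    (pc_body (hc.comp pc_ff) (h1.comp pc_ff) (h2.comp pc_ff) (tr1 pc_fs) (tr2 pc_fs)
      (ex2 Primrec.snd) (ex3 Primrec.snd) (ex4 Primrec.snd))

private theorem pc_c2 {c : α → Cert} {T T1 T2 : α → List TR} (hc : Primrec c) (hT : Primrec T)
    (h1 : Primrec T1) (h2 : Primrec T2) :
    PrimrecPred fun a => ∀ z ∈ T a, ∀ g ∈ (c a).gen, g.1 = z.2.2 → ∀ b ∈ (c a).tg,
      ∀ d ∈ (c a).tg, z.1 = some b.1 → z.2.1 = some d.1 → b.2.1 = g.2.1 → d.2.1 = g.2.2.1 →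
      (c a).U (T1 a) (T2 a) (some b.2.2) (some d.2.2) g.2.2.2.1 := by
  refine prim_forall hT (R := fun a z => ∀ g ∈ (c a).gen, g.1 = z.2.2 → ∀ b ∈ (c a).tg,
      ∀ d ∈ (c a).tg, z.1 = some b.1 → z.2.1 = some d.1 → b.2.1 = g.2.1 → d.2.1 = g.2.2.1 →
      (c a).U (T1 a) (T2 a) (some b.2.2) (some d.2.2) g.2.2.2.1) ?_
  refine prim_forall (prim_gen.comp (hc.comp Primrec.fst)) (R := fun (q : α × TR) g =>
      g.1 = q.2.2.2 → ∀ b ∈ (c q.1).tg,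
      ∀ d ∈ (c q.1).tg, q.2.1 = some b.1 → q.2.2.1 = some d.1 → b.2.1 = g.2.1 →
        d.2.1 = g.2.2.1 →
      (c q.1).U (T1 q.1) (T2 q.1) (some b.2.2) (some d.2.2) g.2.2.2.1) ?_
  refine prim_imp (prim_eq (ge1 Primrec.snd) (tr3 pc_fs)) ?_
  refine prim_forall (prim_tg.comp (hc.comp pc_ff)) (R := fun (q : (α × TR) × GE) b =>
      ∀ d ∈ (c q.1.1).tg, q.1.2.1 = some b.1 → q.1.2.2.1 = some d.1 → b.2.1 = q.2.2.1 →
        d.2.1 = q.2.2.2.1 →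
      (c q.1.1).U (T1 q.1.1) (T2 q.1.1) (some b.2.2) (some d.2.2) q.2.2.2.2.1) ?_
  refine prim_forall (prim_tg.comp (hc.comp (pc_ff.comp Primrec.fst)))
    (R := fun (q : ((α × TR) × GE) × (ℕ × ℕ × ℕ)) d =>
      q.1.1.2.1 = some q.2.1 → q.1.1.2.2.1 = some d.1 → q.2.2.1 = q.1.2.2.1 →
        d.2.1 = q.1.2.2.2.1 →
      (c q.1.1.1).U (T1 q.1.1.1) (T2 q.1.1.1) (some q.2.2.2) (some d.2.2) q.1.2.2.2.2.1) ?_
  have F : Primrec fun q : (((α × TR) × GE) × (ℕ × ℕ × ℕ)) × (ℕ × ℕ × ℕ) => q.1.1.1.1 :=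
    pc_ff.comp pc_ff
  have Z : Primrec fun q : (((α × TR) × GE) × (ℕ × ℕ × ℕ)) × (ℕ × ℕ × ℕ) => q.1.1.1.2 :=
    pc_fs.comp pc_ff
  have G : Primrec fun q : (((α × TR) × GE) × (ℕ × ℕ × ℕ)) × (ℕ × ℕ × ℕ) => q.1.1.2 :=
    Primrec.snd.comp pc_ff
  exact prim_imp (prim_eq (tr1 Z) (pc_some (tg1 pc_fs)))
    (prim_imp (prim_eq (tr2 Z) (pc_some (tg1 Primrec.snd)))
    (prim_imp (prim_eq (tg2 pc_fs) (ge2 G))
    (prim_imp (prim_eq (tg2 Primrec.snd) (ge3 G))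
    (prim_U (hc.comp F) (h1.comp F) (h2.comp F) (pc_some (tg3 pc_fs))
      (pc_some (tg3 Primrec.snd)) (ge4 G)))))

private theorem pc_c3 {c : α → Cert} {T T1 T2 : α → List TR} (hc : Primrec c) (hT : Primrec T)
    (h1 : Primrec T1) (h2 : Primrec T2) :
    PrimrecPred fun a => ∀ z ∈ T a, ∀ g ∈ (c a).gen, g.1 = z.2.2 → ∀ l ∈ (c a).zone,
      l.1 = g.2.1 → ∀ x ∈ (c a).xs, ∀ y ∈ (c a).xs,
      (c a).extP z.1 (some l) x → (c a).extP z.2.1 (some (g.2.2.1, sh l.2 g.2.2.2.2)) y →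
      (c a).U (T1 a) (T2 a) x y g.2.2.2.1 := by
  refine prim_forall hT (R := fun a z => ∀ g ∈ (c a).gen, g.1 = z.2.2 → ∀ l ∈ (c a).zone,
      l.1 = g.2.1 → ∀ x ∈ (c a).xs, ∀ y ∈ (c a).xs,
      (c a).extP z.1 (some l) x → (c a).extP z.2.1 (some (g.2.2.1, sh l.2 g.2.2.2.2)) y →
      (c a).U (T1 a) (T2 a) x y g.2.2.2.1) ?_
  refine prim_forall (prim_gen.comp (hc.comp Primrec.fst)) (R := fun (q : α × TR) g =>
      g.1 = q.2.2.2 → ∀ l ∈ (c q.1).zone,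
      l.1 = g.2.1 → ∀ x ∈ (c q.1).xs, ∀ y ∈ (c q.1).xs,
      (c q.1).extP q.2.1 (some l) x →
      (c q.1).extP q.2.2.1 (some (g.2.2.1, sh l.2 g.2.2.2.2)) y →
      (c q.1).U (T1 q.1) (T2 q.1) x y g.2.2.2.1) ?_
  refine prim_imp (prim_eq (ge1 Primrec.snd) (tr3 pc_fs)) ?_
  refine prim_forall (prim_zone.comp (hc.comp pc_ff)) (R := fun (q : (α × TR) × GE) l =>
      l.1 = q.2.2.1 → ∀ x ∈ (c q.1.1).xs, ∀ y ∈ (c q.1.1).xs,
      (c q.1.1).extP q.1.2.1 (some l) x →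
      (c q.1.1).extP q.1.2.2.1 (some (q.2.2.2.1, sh l.2 q.2.2.2.2.2)) y →
      (c q.1.1).U (T1 q.1.1) (T2 q.1.1) x y q.2.2.2.2.1) ?_
  have F : Primrec fun q : ((α × TR) × GE) × L => q.1.1.1 := Primrec.fst.comp pc_ff
  have Z : Primrec fun q : ((α × TR) × GE) × L => q.1.1.2 := Primrec.snd.comp pc_ff
  have G : Primrec fun q : ((α × TR) × GE) × L => q.1.2 := pc_fs
  exact prim_imp (prim_eq (pr1 Primrec.snd) (ge2 G))
    (pc_body (hc.comp F) (h1.comp F) (h2.comp F) (tr1 Z) (tr2 Z) (pc_some Primrec.snd)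
      (pc_some ((ge3 G).pair (pc_sh (pr2 Primrec.snd) (ge5 G)))) (ge4 G))

private theorem pc_c4 {c : α → Cert} {T T1 T2 : α → List TR} (hc : Primrec c) (hT : Primrec T)
    (h1 : Primrec T1) (h2 : Primrec T2) :
    PrimrecPred fun a => ∀ z ∈ T a, ∀ g ∈ (c a).gen, g.1 = z.2.2 → ∀ l ∈ (c a).zone,
      l.1 = g.2.2.1 → ∀ x ∈ (c a).xs, ∀ y ∈ (c a).xs,
      (c a).extP z.1 (some (g.2.1, ush l.2 g.2.2.2.2)) x → (c a).extP z.2.1 (some l) y →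
      (c a).U (T1 a) (T2 a) x y g.2.2.2.1 := by
  refine prim_forall hT (R := fun a z => ∀ g ∈ (c a).gen, g.1 = z.2.2 → ∀ l ∈ (c a).zone,
      l.1 = g.2.2.1 → ∀ x ∈ (c a).xs, ∀ y ∈ (c a).xs,
      (c a).extP z.1 (some (g.2.1, ush l.2 g.2.2.2.2)) x → (c a).extP z.2.1 (some l) y →
      (c a).U (T1 a) (T2 a) x y g.2.2.2.1) ?_
  refine prim_forall (prim_gen.comp (hc.comp Primrec.fst)) (R := fun (q : α × TR) g =>
      g.1 = q.2.2.2 → ∀ l ∈ (c q.1).zone,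
      l.1 = g.2.2.1 → ∀ x ∈ (c q.1).xs, ∀ y ∈ (c q.1).xs,
      (c q.1).extP q.2.1 (some (g.2.1, ush l.2 g.2.2.2.2)) x →
      (c q.1).extP q.2.2.1 (some l) y →
      (c q.1).U (T1 q.1) (T2 q.1) x y g.2.2.2.1) ?_
  refine prim_imp (prim_eq (ge1 Primrec.snd) (tr3 pc_fs)) ?_
  refine prim_forall (prim_zone.comp (hc.comp pc_ff)) (R := fun (q : (α × TR) × GE) l =>
      l.1 = q.2.2.2.1 → ∀ x ∈ (c q.1.1).xs, ∀ y ∈ (c q.1.1).xs,
      (c q.1.1).extP q.1.2.1 (some (q.2.2.1, ush l.2 q.2.2.2.2.2)) x →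
      (c q.1.1).extP q.1.2.2.1 (some l) y →
      (c q.1.1).U (T1 q.1.1) (T2 q.1.1) x y q.2.2.2.2.1) ?_
  have F : Primrec fun q : ((α × TR) × GE) × L => q.1.1.1 := Primrec.fst.comp pc_ff
  have Z : Primrec fun q : ((α × TR) × GE) × L => q.1.1.2 := Primrec.snd.comp pc_ff
  have G : Primrec fun q : ((α × TR) × GE) × L => q.1.2 := pc_fs
  exact prim_imp (prim_eq (pr1 Primrec.snd) (ge3 G))
    (pc_body (hc.comp F) (h1.comp F) (h2.comp F) (tr1 Z) (tr2 Z)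
      (pc_some ((ge2 G).pair (pc_ush (pr2 Primrec.snd) (ge5 G)))) (pc_some Primrec.snd) (ge4 G))

private theorem pc_clos {c : α → Cert} {T T1 T2 : α → List TR} (hc : Primrec c) (hT : Primrec T)
    (h1 : Primrec T1) (h2 : Primrec T2) :
    PrimrecPred fun a => (c a).Clos (T a) (T1 a) (T2 a) := by
  unfold Cert.Clos
  exact (pc_c1 hc hT h1 h2).and ((pc_c2 hc hT h1 h2).and ((pc_c3 hc hT h1 h2).and
    (pc_c4 hc hT h1 h2)))

private theorem pc_e {c : α → Cert} {y u : α → Option ℕ × ℕ} {s : α → Option L}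
    (hc : Primrec c) (hy : Primrec y) (hu : Primrec u) (hs : Primrec s) :
    PrimrecPred fun a => ∃ e ∈ (c a).exp, e.1 = (y a).2 ∧ e.2.1 = s a ∧ e.2.2.2 = (u a).2 ∧
      (c a).extP (y a).1 e.2.2.1 (u a).1 := by
  refine prim_exists (prim_exp.comp hc) (R := fun a e => e.1 = (y a).2 ∧ e.2.1 = s a ∧
      e.2.2.2 = (u a).2 ∧ (c a).extP (y a).1 e.2.2.1 (u a).1) ?_
  exact (prim_eq (ex1 Primrec.snd) (pr2 (hy.comp Primrec.fst))).and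
    ((prim_eq (ex2 Primrec.snd) (hs.comp Primrec.fst)).and
    ((prim_eq (ex4 Primrec.snd) (pr2 (hu.comp Primrec.fst))).and
    (prim_ext (hc.comp Primrec.fst) (pr1 (hy.comp Primrec.fst)) (ex3 Primrec.snd)
      (pr1 (hu.comp Primrec.fst)))))

private theorem pc_g {c : α → Cert} {y u : α → Option ℕ × ℕ} {l : α → L}
    (hc : Primrec c) (hy : Primrec y) (hu : Primrec u) (hl : Primrec l) :
    PrimrecPred fun a => ∃ g ∈ (c a).gen, g.1 = (y a).2 ∧ g.2.1 = (l a).1 ∧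
      g.2.2.2.1 = (u a).2 ∧
      (c a).extP (y a).1 (some (g.2.2.1, sh (l a).2 g.2.2.2.2)) (u a).1 := by
  refine prim_exists (prim_gen.comp hc) (R := fun a g => g.1 = (y a).2 ∧ g.2.1 = (l a).1 ∧
      g.2.2.2.1 = (u a).2 ∧
      (c a).extP (y a).1 (some (g.2.2.1, sh (l a).2 g.2.2.2.2)) (u a).1) ?_
  exact (prim_eq (ge1 Primrec.snd) (pr2 (hy.comp Primrec.fst))).and
    ((prim_eq (ge2 Primrec.snd) (pr1 (hl.comp Primrec.fst))).and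
    ((prim_eq (ge4 Primrec.snd) (pr2 (hu.comp Primrec.fst))).and
    (prim_ext (hc.comp Primrec.fst) (pr1 (hy.comp Primrec.fst))
      (pc_some ((ge3 Primrec.snd).pair (pc_sh (pr2 (hl.comp Primrec.fst)) (ge5 Primrec.snd))))
      (pr1 (hu.comp Primrec.fst)))))

private theorem pc_h {c : α → Cert} {y u : α → Option ℕ × ℕ} {t : α → ℕ × ℕ × ℕ}
    (hc : Primrec c) (hy : Primrec y) (hu : Primrec u) (ht : Primrec t) :
    PrimrecPred fun a => ∃ g ∈ (c a).gen, g.1 = (y a).2 ∧ g.2.1 = (t a).2.1 ∧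
      g.2.2.2.1 = (u a).2 ∧ ∃ b ∈ (c a).tg, b.2.1 = g.2.2.1 ∧ (y a).1 = some b.1 ∧
        (u a).1 = some b.2.2 := by
  refine prim_exists (prim_gen.comp hc) (R := fun a g => g.1 = (y a).2 ∧ g.2.1 = (t a).2.1 ∧
      g.2.2.2.1 = (u a).2 ∧ ∃ b ∈ (c a).tg, b.2.1 = g.2.2.1 ∧ (y a).1 = some b.1 ∧
        (u a).1 = some b.2.2) ?_
  refine (prim_eq (ge1 Primrec.snd) (pr2 (hy.comp Primrec.fst))).and
    ((prim_eq (ge2 Primrec.snd) (tg2 (ht.comp Primrec.fst))).and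
    ((prim_eq (ge4 Primrec.snd) (pr2 (hu.comp Primrec.fst))).and ?_))
  refine prim_exists (prim_tg.comp (hc.comp Primrec.fst)) (R := fun (q : α × GE) b =>
      b.2.1 = q.2.2.2.1 ∧ (y q.1).1 = some b.1 ∧ (u q.1).1 = some b.2.2) ?_
  exact (prim_eq (tg2 Primrec.snd) (ge3 pc_fs)).and
    ((prim_eq (pr1 (hy.comp pc_ff)) (pc_some (tg1 Primrec.snd))).and
    (prim_eq (pr1 (hu.comp pc_ff)) (pc_some (tg3 Primrec.snd))))

/-- the first clause: all members of the new superstate arise by an explicit square -/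
private theorem pc_all2 {c : α → Cert} {z z' : α → SU} (hc : Primrec c) (hz : Primrec z)
    (hz' : Primrec z') :
    PrimrecPred fun a => ∀ u ∈ (z' a).2, u.2 ∈ (c a).dl ∧ ∃ y ∈ (z a).2, ∃ e ∈ (c a).exp,
      e.1 = y.2 ∧ e.2.1 = none ∧ e.2.2.2 = u.2 ∧ (c a).extP y.1 e.2.2.1 u.1 := by
  refine prim_forall (pr2 hz') (R := fun a u => u.2 ∈ (c a).dl ∧ ∃ y ∈ (z a).2,
      ∃ e ∈ (c a).exp,
      e.1 = y.2 ∧ e.2.1 = none ∧ e.2.2.2 = u.2 ∧ (c a).extP y.1 e.2.2.1 u.1) ?_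
  refine (prim_mem (pr2 Primrec.snd) (prim_dl.comp (hc.comp Primrec.fst))).and ?_
  refine prim_exists (pr2 (hz.comp Primrec.fst)) (R := fun (q : α × (Option ℕ × ℕ)) y =>
      ∃ e ∈ (c q.1).exp,
      e.1 = y.2 ∧ e.2.1 = none ∧ e.2.2.2 = q.2.2 ∧ (c q.1).extP y.1 e.2.2.1 q.2.1) ?_
  exact pc_e (hc.comp pc_ff) Primrec.snd pc_fs (Primrec.const none)

private theorem pc_all3 {c : α → Cert} {z z' : α → SU} {l : α → L} (hc : Primrec c)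
    (hz : Primrec z) (hz' : Primrec z') (hl : Primrec l) :
    PrimrecPred fun a => ∀ u ∈ (z' a).2, u.2 ∈ (c a).dl ∧ ∃ y ∈ (z a).2,
      (∃ e ∈ (c a).exp, e.1 = y.2 ∧ e.2.1 = some (l a) ∧ e.2.2.2 = u.2 ∧
        (c a).extP y.1 e.2.2.1 u.1) ∨
      (∃ g ∈ (c a).gen, g.1 = y.2 ∧ g.2.1 = (l a).1 ∧ g.2.2.2.1 = u.2 ∧
        (c a).extP y.1 (some (g.2.2.1, sh (l a).2 g.2.2.2.2)) u.1) := by
  refine prim_forall (pr2 hz') (R := fun a u => u.2 ∈ (c a).dl ∧ ∃ y ∈ (z a).2,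
      (∃ e ∈ (c a).exp, e.1 = y.2 ∧ e.2.1 = some (l a) ∧ e.2.2.2 = u.2 ∧
        (c a).extP y.1 e.2.2.1 u.1) ∨
      (∃ g ∈ (c a).gen, g.1 = y.2 ∧ g.2.1 = (l a).1 ∧ g.2.2.2.1 = u.2 ∧
        (c a).extP y.1 (some (g.2.2.1, sh (l a).2 g.2.2.2.2)) u.1)) ?_
  refine (prim_mem (pr2 Primrec.snd) (prim_dl.comp (hc.comp Primrec.fst))).and ?_
  refine prim_exists (pr2 (hz.comp Primrec.fst)) (R := fun (q : α × (Option ℕ × ℕ)) y =>
      (∃ e ∈ (c q.1).exp, e.1 = y.2 ∧ e.2.1 = some (l q.1) ∧ e.2.2.2 = q.2.2 ∧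
        (c q.1).extP y.1 e.2.2.1 q.2.1) ∨
      (∃ g ∈ (c q.1).gen, g.1 = y.2 ∧ g.2.1 = (l q.1).1 ∧ g.2.2.2.1 = q.2.2 ∧
        (c q.1).extP y.1 (some (g.2.2.1, sh (l q.1).2 g.2.2.2.2)) q.2.1)) ?_
  exact (pc_e (hc.comp pc_ff) Primrec.snd pc_fs (pc_some (hl.comp pc_ff))).or
    (pc_g (hc.comp pc_ff) Primrec.snd pc_fs (hl.comp pc_ff))

private theorem pc_all4 {c : α → Cert} {z z' : α → SU} {t : α → ℕ × ℕ × ℕ} (hc : Primrec c)
    (hz : Primrec z) (hz' : Primrec z') (ht : Primrec t) :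
    PrimrecPred fun a => ∀ u ∈ (z' a).2, u.2 ∈ (c a).dl ∧ ∃ y ∈ (z a).2,
      ∃ g ∈ (c a).gen, g.1 = y.2 ∧ g.2.1 = (t a).2.1 ∧
      g.2.2.2.1 = u.2 ∧ ∃ b ∈ (c a).tg, b.2.1 = g.2.2.1 ∧ y.1 = some b.1 ∧
        u.1 = some b.2.2 := by
  refine prim_forall (pr2 hz') (R := fun a u => u.2 ∈ (c a).dl ∧ ∃ y ∈ (z a).2,
      ∃ g ∈ (c a).gen, g.1 = y.2 ∧ g.2.1 = (t a).2.1 ∧
      g.2.2.2.1 = u.2 ∧ ∃ b ∈ (c a).tg, b.2.1 = g.2.2.1 ∧ y.1 = some b.1 ∧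
        u.1 = some b.2.2) ?_
  refine (prim_mem (pr2 Primrec.snd) (prim_dl.comp (hc.comp Primrec.fst))).and ?_
  refine prim_exists (pr2 (hz.comp Primrec.fst)) (R := fun (q : α × (Option ℕ × ℕ)) y =>
      ∃ g ∈ (c q.1).gen, g.1 = y.2 ∧ g.2.1 = (t q.1).2.1 ∧
      g.2.2.2.1 = q.2.2 ∧ ∃ b ∈ (c q.1).tg, b.2.1 = g.2.2.1 ∧ y.1 = some b.1 ∧
        q.2.1 = some b.2.2) ?_
  exact pc_h (hc.comp pc_ff) Primrec.snd pc_fs (ht.comp pc_ff)

end comp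

theorem prim_vb1 : PrimrecPred Cert.Vb1 := by
  unfold Cert.Vb1
  refine PrimrecPred.and (prim_mem (Primrec.const _) prim_reach) ?_
  refine prim_forall prim_bad (R := fun c z => z.2.2 ∉ c.sl) ?_
  exact prim_notMem (tr3 Primrec.snd) (prim_sl.comp Primrec.fst)

theorem prim_vb2 : PrimrecPred Cert.Vb2 := by
  unfold Cert.Vb2
  exact pc_clos Primrec.id prim_reach prim_reach prim_bad

theorem prim_vb3 : PrimrecPred Cert.Vb3 := by
  unfold Cert.Vb3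
  exact pc_clos Primrec.id prim_bad prim_bad prim_bad

theorem prim_vc1 : PrimrecPred Cert.Vc1 := by
  unfold Cert.Vc1
  refine PrimrecPred.and (prim_mem (Primrec.const _) prim_sup) (PrimrecPred.and ?_ ?_)
  · exact prim_forall prim_zone (R := fun c l => l ∈ c.zp)
      (prim_mem Primrec.snd (prim_zp.comp Primrec.fst))
  · refine prim_forall prim_gen (R := fun c g => ∀ l ∈ c.zone, l.1 = g.2.2.1 →
      (g.2.1, ush l.2 g.2.2.2.2) ∈ c.zp) ?_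
    refine prim_forall (prim_zone.comp Primrec.fst) (R := fun (q : Cert × GE) l =>
      l.1 = q.2.2.2.1 → (q.2.2.1, ush l.2 q.2.2.2.2.2) ∈ q.1.zp) ?_
    exact prim_imp (prim_eq (pr1 Primrec.snd) (ge3 pc_fs))
      (prim_mem ((ge2 pc_fs).pair (pc_ush (pr2 Primrec.snd) (ge5 pc_fs)))
        (prim_zp.comp pc_ff))

theorem prim_vc2 : PrimrecPred Cert.Vc2 := by
  unfold Cert.Vc2
  refine prim_forall prim_sup (R := fun c z => z.1 ≠ some 0 → ∃ z' ∈ c.sup, z'.1 = none ∧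
    (∀ u ∈ z'.2, u.2 ∈ c.dl ∧ ∃ y ∈ z.2, ∃ e ∈ c.exp, e.1 = y.2 ∧ e.2.1 = none ∧ e.2.2.2 = u.2 ∧
      c.extP y.1 e.2.2.1 u.1) ∧
    (z.1 = none → ∀ g ∈ c.ga ++ c.gb, (none, g) ∈ z'.2)) ?_
  refine prim_imp (prim_ne (pr1 Primrec.snd) (Primrec.const _)) ?_
  refine prim_exists (prim_sup.comp Primrec.fst) (R := fun (q : Cert × SU) z' => z'.1 = none ∧
    (∀ u ∈ z'.2, u.2 ∈ q.1.dl ∧ ∃ y ∈ q.2.2, ∃ e ∈ q.1.exp, e.1 = y.2 ∧ e.2.1 = none ∧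
      e.2.2.2 = u.2 ∧ q.1.extP y.1 e.2.2.1 u.1) ∧
    (q.2.1 = none → ∀ g ∈ q.1.ga ++ q.1.gb, (none, g) ∈ z'.2)) ?_
  refine (prim_eq (pr1 Primrec.snd) (Primrec.const none)).and
    ((pc_all2 pc_ff pc_fs Primrec.snd).and ?_)
  refine prim_imp (prim_eq (pr1 pc_fs) (Primrec.const none)) ?_
  refine prim_forall (Primrec.list_append.comp (prim_ga.comp pc_ff) (prim_gb.comp pc_ff))
    (R := fun (q : (Cert × SU) × SU) g => (none, g) ∈ q.2.2) ?_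
  exact prim_mem ((Primrec.const none).pair Primrec.snd) (pr2 pc_fs)

theorem prim_vc3 : PrimrecPred Cert.Vc3 := by
  unfold Cert.Vc3
  refine prim_forall prim_sup (R := fun c z => ∀ l ∈ c.zp, ∀ x ∈ c.xs, c.extP z.1 (some l) x →
    ∃ z' ∈ c.sup, z'.1 = x ∧
    ∀ u ∈ z'.2, u.2 ∈ c.dl ∧ ∃ y ∈ z.2,
      (∃ e ∈ c.exp, e.1 = y.2 ∧ e.2.1 = some l ∧ e.2.2.2 = u.2 ∧ c.extP y.1 e.2.2.1 u.1) ∨
      (∃ g ∈ c.gen, g.1 = y.2 ∧ g.2.1 = l.1 ∧ g.2.2.2.1 = u.2 ∧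
        c.extP y.1 (some (g.2.2.1, sh l.2 g.2.2.2.2)) u.1)) ?_
  refine prim_forall (prim_zp.comp Primrec.fst) (R := fun (q : Cert × SU) l =>
    ∀ x ∈ q.1.xs, q.1.extP q.2.1 (some l) x →
    ∃ z' ∈ q.1.sup, z'.1 = x ∧
    ∀ u ∈ z'.2, u.2 ∈ q.1.dl ∧ ∃ y ∈ q.2.2,
      (∃ e ∈ q.1.exp, e.1 = y.2 ∧ e.2.1 = some l ∧ e.2.2.2 = u.2 ∧ q.1.extP y.1 e.2.2.1 u.1) ∨
      (∃ g ∈ q.1.gen, g.1 = y.2 ∧ g.2.1 = l.1 ∧ g.2.2.2.1 = u.2 ∧
        q.1.extP y.1 (some (g.2.2.1, sh l.2 g.2.2.2.2)) u.1)) ?_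
  refine prim_forall (prim_xs.comp pc_ff) (R := fun (q : (Cert × SU) × L) x =>
    q.1.1.extP q.1.2.1 (some q.2) x →
    ∃ z' ∈ q.1.1.sup, z'.1 = x ∧
    ∀ u ∈ z'.2, u.2 ∈ q.1.1.dl ∧ ∃ y ∈ q.1.2.2,
      (∃ e ∈ q.1.1.exp, e.1 = y.2 ∧ e.2.1 = some q.2 ∧ e.2.2.2 = u.2 ∧
        q.1.1.extP y.1 e.2.2.1 u.1) ∨
      (∃ g ∈ q.1.1.gen, g.1 = y.2 ∧ g.2.1 = q.2.1 ∧ g.2.2.2.1 = u.2 ∧
        q.1.1.extP y.1 (some (g.2.2.1, sh q.2.2 g.2.2.2.2)) u.1)) ?_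
  have C : Primrec fun q : ((Cert × SU) × L) × Option ℕ => q.1.1.1 := Primrec.fst.comp pc_ff
  have Z : Primrec fun q : ((Cert × SU) × L) × Option ℕ => q.1.1.2 := Primrec.snd.comp pc_ff
  refine prim_imp (prim_ext C (pr1 Z) (pc_some pc_fs) Primrec.snd) ?_
  refine prim_exists (prim_sup.comp C) (R := fun (q : ((Cert × SU) × L) × Option ℕ) z' =>
    z'.1 = q.2 ∧
    ∀ u ∈ z'.2, u.2 ∈ q.1.1.1.dl ∧ ∃ y ∈ q.1.1.2.2,
      (∃ e ∈ q.1.1.1.exp, e.1 = y.2 ∧ e.2.1 = some q.1.2 ∧ e.2.2.2 = u.2 ∧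
        q.1.1.1.extP y.1 e.2.2.1 u.1) ∨
      (∃ g ∈ q.1.1.1.gen, g.1 = y.2 ∧ g.2.1 = q.1.2.1 ∧ g.2.2.2.1 = u.2 ∧
        q.1.1.1.extP y.1 (some (g.2.2.1, sh q.1.2.2 g.2.2.2.2)) u.1)) ?_
  exact (prim_eq (pr1 Primrec.snd) pc_fs).and
    (pc_all3 (C.comp Primrec.fst) (Z.comp Primrec.fst) Primrec.snd (pc_fs.comp Primrec.fst))

theorem prim_vc4 : PrimrecPred Cert.Vc4 := by
  unfold Cert.Vc4
  refine prim_forall prim_sup (R := fun c z => ∀ a ∈ c.tg, z.1 = some a.1 →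
    ∃ z' ∈ c.sup, z'.1 = some a.2.2 ∧
    ∀ u ∈ z'.2, u.2 ∈ c.dl ∧ ∃ y ∈ z.2, ∃ g ∈ c.gen, g.1 = y.2 ∧ g.2.1 = a.2.1 ∧
      g.2.2.2.1 = u.2 ∧ ∃ b ∈ c.tg, b.2.1 = g.2.2.1 ∧ y.1 = some b.1 ∧ u.1 = some b.2.2) ?_
  refine prim_forall (prim_tg.comp Primrec.fst) (R := fun (q : Cert × SU) a =>
    q.2.1 = some a.1 →
    ∃ z' ∈ q.1.sup, z'.1 = some a.2.2 ∧
    ∀ u ∈ z'.2, u.2 ∈ q.1.dl ∧ ∃ y ∈ q.2.2, ∃ g ∈ q.1.gen, g.1 = y.2 ∧ g.2.1 = a.2.1 ∧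
      g.2.2.2.1 = u.2 ∧ ∃ b ∈ q.1.tg, b.2.1 = g.2.2.1 ∧ y.1 = some b.1 ∧ u.1 = some b.2.2) ?_
  refine prim_imp (prim_eq (pr1 pc_fs) (pc_some (tg1 Primrec.snd))) ?_
  refine prim_exists (prim_sup.comp pc_ff) (R := fun (q : (Cert × SU) × (ℕ × ℕ × ℕ)) z' =>
    z'.1 = some q.2.2.2 ∧
    ∀ u ∈ z'.2, u.2 ∈ q.1.1.dl ∧ ∃ y ∈ q.1.2.2, ∃ g ∈ q.1.1.gen, g.1 = y.2 ∧ g.2.1 = q.2.2.1 ∧
      g.2.2.2.1 = u.2 ∧ ∃ b ∈ q.1.1.tg, b.2.1 = g.2.2.1 ∧ y.1 = some b.1 ∧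
        u.1 = some b.2.2) ?_
  exact (prim_eq (pr1 Primrec.snd) (pc_some (tg3 pc_fs))).and
    (pc_all4 (pc_ff.comp Primrec.fst) (pc_fs.comp Primrec.fst) Primrec.snd pc_fs)

end Pool.Agent.Lib.P77fd2d
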