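import Pool.Agent.Lib.P77fd2d.PrimB
import Pool.Agent.Lib.P77fd2d.PrimC

/-!
# MODULE P77fd2d.PrimD  (1h)   black boxes: PrimA, PrimB, PrimC

Primitive recursiveness of the checks Vd1-Vd6 and of `Valid`; existence of a valid certificate is r.e.

`re_valid`: for a primitive recursive predicate R on α × Cert the predicate ∃ c, R (a, c) is r.e.: search over codes n of
certificates with `Nat.rfind`/`Partrec.rfind` (see `REPred` in Mathlib.Computability.RE, `ComputablePred`; Cert is Primcodable so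
`Encodable.decode n : Option Cert` is primitive recursive); a general lemma
`re_exists {α β} [Primcodable α] [Primcodable β] {R : α × β → Prop} (hR : PrimrecPred R) : REPred fun a => ∃ b, R (a, b)`.
-/

namespace Pool.Agent.Lib.P77fd2d

theorem re_exists {α β : Type} [Primcodable α] [Primcodable β] {R : α × β → Prop}
    (hR : PrimrecPred R) : REPred fun a => ∃ b, R (a, b) := by
  classical
  set t : α → ℕ → Bool := fun a n =>
    Option.casesOn (Encodable.decode (α := β) n) false (fun b => decide (R (a, b))) with ht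
  have h1 : Primrec₂ t := by
    have hd : Primrec fun q : α × ℕ => (Encodable.decode (α := β) q.2) :=
      Primrec.decode.comp Primrec.snd
    have hR' : Primrec₂ fun (q : α × ℕ) (b : β) => decide (R (q.1, b)) :=
      (hR.comp ((Primrec.fst.comp Primrec.fst).pair Primrec.snd)).decide
    exact Primrec.option_casesOn hd (Primrec.const false) hR'
  have h2 : Partrec₂ fun (a : α) (n : ℕ) => Part.some (t a n) := h1.to_comp.partrec₂
  have h3 : Partrec fun a => Nat.rfind fun n => Part.some (t a n) := Partrec.rfind h2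
  refine h3.dom_re.of_eq fun a => ?_
  rw [Nat.rfind_dom]
  constructor
  · rintro ⟨n, hn, -⟩
    rw [Part.mem_some_iff] at hn
    simp only [ht] at hn
    rcases hdec : (Encodable.decode (α := β) n) with _ | b
    · rw [hdec] at hn
      exact absurd hn (by simp)
    · rw [hdec] at hn
      exact ⟨b, by simpa using hn.symm⟩
  · rintro ⟨b, hb⟩
    refine ⟨Encodable.encode b, ?_, fun _ => trivial⟩
    rw [Part.mem_some_iff]
    simp only [ht, Encodable.encodek]
    simpa using hb

section comp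
variable {α : Type} [Primcodable α]

theorem prim_vd1 {P : α → Pres} {c : α → Cert} (hP : Primrec P) (hc : Primrec c) :
    PrimrecPred fun a => Cert.Vd1 (P a) (c a) := by
  unfold Cert.Vd1
  refine PrimrecPred.and (prim_eq (Primrec.list_length.comp (prim_ga.comp hc))
    (Primrec.fst.comp hP)) (PrimrecPred.and (prim_eq (Primrec.list_length.comp (prim_gb.comp hc))
    (Primrec.fst.comp hP)) (PrimrecPred.and ?_ ?_))
  · refine prim_forall (Primrec.list_range.comp (Primrec.fst.comp hP))
      (R := fun a k => (c a).gc (k, true) ∈ (c a).sl ∧ (c a).gc (k, false) ∈ (c a).sl ∧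
        (c a).gc (k, false) = (c a).invf ((c a).gc (k, true)) ∧
        (c a).gc (k, true) = (c a).invf ((c a).gc (k, false))) ?_
    have hc' : Primrec fun q : α × ℕ => c q.1 := hc.comp Primrec.fst
    have ht : Primrec fun q : α × ℕ => (c q.1).gc (q.2, true) :=
      prim_gc hc' (Primrec.snd.pair (Primrec.const true))
    have hf : Primrec fun q : α × ℕ => (c q.1).gc (q.2, false) :=
      prim_gc hc' (Primrec.snd.pair (Primrec.const false))
    exact PrimrecPred.and (prim_mem ht (prim_sl.comp hc')) (PrimrecPred.and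
      (prim_mem hf (prim_sl.comp hc')) (PrimrecPred.and (prim_eq hf (prim_invf hc' ht))
        (prim_eq ht (prim_invf hc' hf))))
  · refine prim_forall (Primrec.snd.comp hP) (R := fun a r => (c a).evc r = (0, true)) ?_
    exact prim_eq (prim_evc (hc.comp Primrec.fst) Primrec.snd) (Primrec.const _)

theorem prim_vd2 {Y : α → List Word} {c : α → Cert} (hY : Primrec Y) (hc : Primrec c) :
    PrimrecPred fun a => Cert.Vd2 (Y a) (c a) := by
  unfold Cert.Vd2
  refine prim_forall hY (R := fun a y => ((c a).evc y).2 = true ∧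
    (c a).ndP 1 (some (c a).base) (some (c a).base) ((c a).evc y).1) ?_
  have hc' : Primrec fun q : α × Word => c q.1 := hc.comp Primrec.fst
  have he : Primrec fun q : α × Word => (c q.1).evc q.2 := prim_evc hc' Primrec.snd
  have hb : Primrec fun q : α × Word => some (c q.1).base :=
    Primrec.option_some.comp (prim_base.comp hc')
  exact PrimrecPred.and (prim_eq (Primrec.snd.comp he) (Primrec.const true))
    (prim_nd hc' (Primrec.const 1) hb hb (Primrec.fst.comp he))

theorem prim_vd3 {Fw : α → List Word} {c : α → Cert} (hF : Primrec Fw) (hc : Primrec c) :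
    PrimrecPred fun a => Cert.Vd3 (Fw a) (c a) := by
  unfold Cert.Vd3
  refine prim_forall hF (R := fun a v => ∀ u ∈ [v, winv v], ((c a).evc u).2 = true ∧
    ∀ f ∈ (c a).j0, ∃ g ∈ (c a).gen, g.1 = 1 ∧ g.2.1 = f ∧ g.2.2.2.1 = ((c a).evc u).1 ∧
      g.2.2.1 ∈ (c a).j0) ?_
  have hl : Primrec fun q : α × Word => [q.2, winv q.2] :=
    Primrec.list_cons.comp Primrec.snd (Primrec.list_cons.comp (prim_winv.comp Primrec.snd)
      (Primrec.const []))
  refine prim_forall hl (R := fun (q : α × Word) u => ((c q.1).evc u).2 = true ∧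
    ∀ f ∈ (c q.1).j0, ∃ g ∈ (c q.1).gen, g.1 = 1 ∧ g.2.1 = f ∧ g.2.2.2.1 = ((c q.1).evc u).1 ∧
      g.2.2.1 ∈ (c q.1).j0) ?_
  have hc' : Primrec fun q : (α × Word) × Word => c q.1.1 :=
    hc.comp (Primrec.fst.comp Primrec.fst)
  have he : Primrec fun q : (α × Word) × Word => (c q.1.1).evc q.2 := prim_evc hc' Primrec.snd
  refine PrimrecPred.and (prim_eq (Primrec.snd.comp he) (Primrec.const true)) ?_
  refine prim_forall (prim_j0.comp hc') (R := fun (q : (α × Word) × Word) f =>
    ∃ g ∈ (c q.1.1).gen, g.1 = 1 ∧ g.2.1 = f ∧ g.2.2.2.1 = ((c q.1.1).evc q.2).1 ∧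
      g.2.2.1 ∈ (c q.1.1).j0) ?_
  have hc2 : Primrec fun q : ((α × Word) × Word) × ℕ => c q.1.1.1 := hc'.comp Primrec.fst
  refine prim_exists (prim_gen.comp hc2) (R := fun (q : ((α × Word) × Word) × ℕ) g =>
    g.1 = 1 ∧ g.2.1 = q.2 ∧ g.2.2.2.1 = ((c q.1.1.1).evc q.1.2).1 ∧
      g.2.2.1 ∈ (c q.1.1.1).j0) ?_
  have g1 : Primrec fun q : (((α × Word) × Word) × ℕ) × GE => q.2.1 :=
    Primrec.fst.comp Primrec.snd
  have g2 : Primrec fun q : (((α × Word) × Word) × ℕ) × GE => q.2.2.1 :=
    Primrec.fst.comp (Primrec.snd.comp Primrec.snd)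
  have g3 : Primrec fun q : (((α × Word) × Word) × ℕ) × GE => q.2.2.2.1 :=
    Primrec.fst.comp (Primrec.snd.comp (Primrec.snd.comp Primrec.snd))
  have g4 : Primrec fun q : (((α × Word) × Word) × ℕ) × GE => q.2.2.2.2.1 :=
    Primrec.fst.comp (Primrec.snd.comp (Primrec.snd.comp (Primrec.snd.comp Primrec.snd)))
  have he' : Primrec fun q : (((α × Word) × Word) × ℕ) × GE =>
      (c q.1.1.1.1).evc q.1.1.2 := he.comp (Primrec.fst.comp Primrec.fst)
  exact PrimrecPred.and (prim_eq g1 (Primrec.const 1)) (PrimrecPred.and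
    (prim_eq g2 (Primrec.snd.comp Primrec.fst)) (PrimrecPred.and
    (prim_eq g4 (Primrec.fst.comp he')) (prim_mem g3 (prim_j0.comp (hc2.comp Primrec.fst)))))

theorem prim_vd4 {c : α → Cert} (hc : Primrec c) : PrimrecPred fun a => (c a).Vd4 := by
  unfold Cert.Vd4
  refine prim_forall (prim_j0.comp hc) (R := fun a f =>
    ((∃ b ∈ (c a).tg, b.1 = 0 ∧ b.2.1 = f) ∨ ((c a).rkf f = 0 ∧ (f, []) ∈ (c a).zone)) ∧
    ∀ l ∈ (c a).zone, l.1 = f → ∃ e ∈ (c a).tr, e.1 = 0 ∧ e.2.1 = l) ?_
  have hc' : Primrec fun q : α × ℕ => c q.1 := hc.comp Primrec.fst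
  refine PrimrecPred.and (PrimrecPred.or ?_ (PrimrecPred.and ?_ ?_)) ?_
  · refine prim_exists (prim_tg.comp hc') (R := fun (q : α × ℕ) b => b.1 = 0 ∧ b.2.1 = q.2) ?_
    exact PrimrecPred.and (prim_eq (Primrec.fst.comp Primrec.snd) (Primrec.const 0))
      (prim_eq (Primrec.fst.comp (Primrec.snd.comp Primrec.snd))
        (Primrec.snd.comp Primrec.fst))
  · exact prim_eq (prim_rkf hc' Primrec.snd) (Primrec.const 0)
  · exact prim_mem (Primrec.snd.pair (Primrec.const ([] : List ℤ))) (prim_zone.comp hc')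
  · refine prim_forall (prim_zone.comp hc') (R := fun (q : α × ℕ) l => l.1 = q.2 →
      ∃ e ∈ (c q.1).tr, e.1 = 0 ∧ e.2.1 = l) ?_
    refine prim_imp (prim_eq (Primrec.fst.comp Primrec.snd) (Primrec.snd.comp Primrec.fst)) ?_
    refine prim_exists (prim_tr.comp (hc'.comp Primrec.fst)) (R := fun (q : (α × ℕ) × L) e =>
      e.1 = 0 ∧ e.2.1 = q.2) ?_
    exact PrimrecPred.and (prim_eq (Primrec.fst.comp Primrec.snd) (Primrec.const 0))
      (prim_eq (Primrec.fst.comp (Primrec.snd.comp Primrec.snd))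
        (Primrec.snd.comp Primrec.fst))

theorem prim_vd5 {w : α → Word} {c : α → Cert} (hw : Primrec w) (hc : Primrec c) :
    PrimrecPred fun a => Cert.Vd5 (w a) (c a) := by
  unfold Cert.Vd5
  have hb : Primrec fun a => (c a).base := prim_base.comp hc
  have hx : Primrec fun a => (c a).xw := prim_xw.comp hc
  have he : Primrec fun a => (c a).evc (winv (w a)) := prim_evc hc (prim_winv.comp hw)
  refine PrimrecPred.and (prim_mem (Primrec.fst.comp hb) (prim_j0.comp hc)) (PrimrecPred.and
    (prim_ok hc hb) (PrimrecPred.and ?_ (PrimrecPred.and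
    (prim_eq (Primrec.snd.comp he) (Primrec.const true))
    (prim_nd hc (Primrec.const 1) (Primrec.option_some.comp hb) (Primrec.option_some.comp hx)
      (Primrec.fst.comp he)))))
  refine prim_exists (prim_tr.comp hc) (R := fun a e => e.1 = 0 ∧ e.2.1 = (c a).xw) ?_
  exact PrimrecPred.and (prim_eq (Primrec.fst.comp Primrec.snd) (Primrec.const 0))
    (prim_eq (Primrec.fst.comp (Primrec.snd.comp Primrec.snd)) (hx.comp Primrec.fst))

theorem prim_vd6 {c : α → Cert} (hc : Primrec c) : PrimrecPred fun a => (c a).Vd6 := by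
  unfold Cert.Vd6
  have hx : Primrec fun a => (c a).xw := prim_xw.comp hc
  refine PrimrecPred.and ?_ ?_
  · refine prim_forall (prim_exp.comp hc) (R := fun a e => e.1 = 1 → e.2.2.2 = 0 →
      e.2.2.1 = some (c a).xw → e.2.1 ≠ none → (Cert.gl e.2.1).1 ∉ (c a).j0) ?_
    have e1 : Primrec fun q : α × EX => q.2.1 := Primrec.fst.comp Primrec.snd
    have e2 : Primrec fun q : α × EX => q.2.2.1 := Primrec.fst.comp (Primrec.snd.comp Primrec.snd)
    have e3 : Primrec fun q : α × EX => q.2.2.2.1 :=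
      Primrec.fst.comp (Primrec.snd.comp (Primrec.snd.comp Primrec.snd))
    have e4 : Primrec fun q : α × EX => q.2.2.2.2 :=
      Primrec.snd.comp (Primrec.snd.comp (Primrec.snd.comp Primrec.snd))
    exact prim_imp (prim_eq e1 (Primrec.const 1)) (prim_imp (prim_eq e4 (Primrec.const 0))
      (prim_imp (prim_eq e3 (Primrec.option_some.comp (hx.comp Primrec.fst)))
        (prim_imp (prim_ne e2 (Primrec.const none))
          (prim_notMem (Primrec.fst.comp (prim_gl.comp e2))
            (prim_j0.comp (hc.comp Primrec.fst))))))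
  · refine prim_forall (prim_gen.comp hc) (R := fun a g => g.1 = 1 → g.2.2.2.1 = 0 →
      g.2.1 ∈ (c a).j0 → g.2.2.1 ≠ (c a).xw.1) ?_
    have g1 : Primrec fun q : α × GE => q.2.1 := Primrec.fst.comp Primrec.snd
    have g2 : Primrec fun q : α × GE => q.2.2.1 := Primrec.fst.comp (Primrec.snd.comp Primrec.snd)
    have g3 : Primrec fun q : α × GE => q.2.2.2.1 :=
      Primrec.fst.comp (Primrec.snd.comp (Primrec.snd.comp Primrec.snd))
    have g4 : Primrec fun q : α × GE => q.2.2.2.2.1 :=
      Primrec.fst.comp (Primrec.snd.comp (Primrec.snd.comp (Primrec.snd.comp Primrec.snd)))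
    exact prim_imp (prim_eq g1 (Primrec.const 1)) (prim_imp (prim_eq g4 (Primrec.const 0))
      (prim_imp (prim_mem g2 (prim_j0.comp (hc.comp Primrec.fst)))
        (prim_ne g3 (Primrec.fst.comp (hx.comp Primrec.fst)))))

end comp

theorem prim_valid : PrimrecPred fun q : Inst × Cert =>
    Valid q.1.1 q.1.2.1 q.1.2.2.1 q.1.2.2.2 q.2 := by
  have hc : Primrec fun q : Inst × Cert => q.2 := Primrec.snd
  have hP : Primrec fun q : Inst × Cert => q.1.1 := Primrec.fst.comp Primrec.fst
  have hF : Primrec fun q : Inst × Cert => q.1.2.1 :=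
    Primrec.fst.comp (Primrec.snd.comp Primrec.fst)
  have hY : Primrec fun q : Inst × Cert => q.1.2.2.1 :=
    Primrec.fst.comp (Primrec.snd.comp (Primrec.snd.comp Primrec.fst))
  have hw : Primrec fun q : Inst × Cert => q.1.2.2.2 :=
    Primrec.snd.comp (Primrec.snd.comp (Primrec.snd.comp Primrec.fst))
  refine PrimrecPred.of_eq (PrimrecPred.and (prim_va1.comp hc) (PrimrecPred.and (prim_va2.comp hc)
    (PrimrecPred.and (prim_va3.comp hc) (PrimrecPred.and (prim_va4.comp hc)
    (PrimrecPred.and (prim_va5.comp hc) (PrimrecPred.and (prim_va6.comp hc)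
    (PrimrecPred.and (prim_vb1.comp hc) (PrimrecPred.and (prim_vb2.comp hc)
    (PrimrecPred.and (prim_vb3.comp hc) (PrimrecPred.and (prim_vc1.comp hc)
    (PrimrecPred.and (prim_vc2.comp hc) (PrimrecPred.and (prim_vc3.comp hc)
    (PrimrecPred.and (prim_vc4.comp hc) (PrimrecPred.and (prim_vd1 hP hc)
    (PrimrecPred.and (prim_vd2 hY hc) (PrimrecPred.and (prim_vd3 hF hc)
    (PrimrecPred.and (prim_vd4 hc) (PrimrecPred.and (prim_vd5 hw hc)
      (prim_vd6 hc))))))))))))))))))) ?_
  intro q
  constructor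
  · rintro ⟨h1, h2, h3, h4, h5, h6, h7, h8, h9, h10, h11, h12, h13, h14, h15, h16, h17, h18, h19⟩
    exact ⟨h1, h2, h3, h4, h5, h6, h7, h8, h9, h10, h11, h12, h13, h14, h15, h16, h17, h18, h19⟩
  · rintro ⟨h1, h2, h3, h4, h5, h6, h7, h8, h9, h10, h11, h12, h13, h14, h15, h16, h17, h18, h19⟩
    exact ⟨h1, h2, h3, h4, h5, h6, h7, h8, h9, h10, h11, h12, h13, h14, h15, h16, h17, h18, h19⟩

theorem re_valid : REPred fun q : Inst => ∃ c, Valid q.1 q.2.1 q.2.2.1 q.2.2.2 c :=
  re_exists prim_valid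

end Pool.Agent.Lib.P77fd2d
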