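import Pool.Agent.Lib.P77fd2d.CertDef

/-!
# MODULE P77fd2d.PrimV  (1h)   no black box

Closure properties of primitive recursive predicates, integer vectors, words.

Mathlib: `PrimrecPred.and/or/not/comp`, `PrimrecRel.comp`, `PrimrecRel.forall_mem_list`, `exists_mem_list`, `Primrec.eq`, `Primrec.ite`,
`Primrec.list_getD`, `list_foldr`, `list_map`, `list_append`, `list_flatMap`, `Primrec.list_range`, `option_getD`, ...
* ℤ has the Primcodable instance from `Denumerable ℤ` (`Primcodable.ofDenumerable`), encoding through `Equiv.intEquivNat`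
 (n ↦ 2 n, -(n+1) ↦ 2 n + 1): show Primrec₂ (+), Primrec neg on ℤ by expressing the codes
 (case distinction on parity), or show that `Int.toNat`, `Int.natAbs`, `Nat.cast`, sign are primitive recursive and use them.
* `sh v w = zipWith (+)`: e.g. as a fold or `(List.range (min v.length w.length)).map (fun i => v.getD i 0 + w.getD i 0)`.
* `Cert.gl s = s.getD (0, [])`; `winv`: map and reverse (`Primrec.list_reverse`).
-/

namespace Pool.Agent.Lib.P77fd2d

/-- instances: presentation, words generating the peripheral subgroup, words `Y`, word `w` -/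
abbrev Inst := Pres × List Word × List Word × Word

instance pcCert : Primcodable Cert := inferInstance
instance pcInst : Primcodable Inst := inferInstance

section general
variable {α β σ : Type} [Primcodable α] [Primcodable β] [Primcodable σ]

theorem prim_forall {f : α → List β} (hf : Primrec f) {R : α → β → Prop}
    (hR : PrimrecPred fun q : α × β => R q.1 q.2) : PrimrecPred fun a => ∀ b ∈ f a, R a b := by
  have hR' : PrimrecRel R := hR
  exact (PrimrecRel.forall_mem_list hR'.swap).comp hf Primrec.id

theorem prim_exists {f : α → List β} (hf : Primrec f) {R : α → β → Prop}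
    (hR : PrimrecPred fun q : α × β => R q.1 q.2) : PrimrecPred fun a => ∃ b ∈ f a, R a b := by
  have hR' : PrimrecRel R := hR
  exact (PrimrecRel.exists_mem_list hR'.swap).comp hf Primrec.id

theorem prim_imp {p q : α → Prop} (hp : PrimrecPred p) (hq : PrimrecPred q) :
    PrimrecPred fun a => p a → q a := by
  exact (hp.not.or hq).of_eq (fun a => by tauto)

theorem prim_eq {f g : α → β} (hf : Primrec f) (hg : Primrec g) :
    PrimrecPred fun a => f a = g a := by
  classical
  exact Primrec.eq.comp hf hg

theorem prim_ne {f g : α → β} (hf : Primrec f) (hg : Primrec g) :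
    PrimrecPred fun a => f a ≠ g a := by
  exact (prim_eq hf hg).not

theorem prim_mem {f : α → β} {g : α → List β} (hf : Primrec f) (hg : Primrec g) :
    PrimrecPred fun a => f a ∈ g a := by
  refine (prim_exists hg (R := fun a b => b = f a) ?_).of_eq (fun a => ?_)
  · exact prim_eq Primrec.snd (hf.comp Primrec.fst)
  · simp

theorem prim_notMem {f : α → β} {g : α → List β} (hf : Primrec f) (hg : Primrec g) :
    PrimrecPred fun a => f a ∉ g a := by
  exact (prim_mem hf hg).not

end general

namespace PrimVAux

theorem enc_ofNat (n : ℕ) : Encodable.encode (Int.ofNat n) = 2 * n := by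
  change Equiv.natSumNatEquivNat (Sum.inl n) = 2 * n
  simp

theorem enc_negSucc (n : ℕ) : Encodable.encode (Int.negSucc n) = 2 * n + 1 := by
  change Equiv.natSumNatEquivNat (Sum.inr n) = 2 * n + 1
  simp

/-- code of `a - b` -/
def code (a b : ℕ) : ℕ := if b ≤ a then 2 * (a - b) else 2 * (b - a - 1) + 1

theorem enc_code (a b : ℕ) : Encodable.encode ((a : ℤ) - (b : ℤ)) = code a b := by
  unfold code
  split_ifs with h
  · have : (a : ℤ) - (b : ℤ) = Int.ofNat (a - b) := by
      rw [Int.ofNat_eq_natCast]; omega
    rw [this, enc_ofNat]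
  · have : (a : ℤ) - (b : ℤ) = Int.negSucc (b - a - 1) := by
      rw [Int.negSucc_eq]; omega
    rw [this, enc_negSucc]

theorem prim_code : Primrec₂ code := by
  unfold code
  refine Primrec.ite (Primrec.nat_le.comp Primrec.snd Primrec.fst) ?_ ?_
  · exact Primrec.nat_mul.comp (Primrec.const 2) (Primrec.nat_sub.comp Primrec.fst Primrec.snd)
  · exact Primrec.nat_add.comp (Primrec.nat_mul.comp (Primrec.const 2) (Primrec.nat_sub.comp
      (Primrec.nat_sub.comp Primrec.snd Primrec.fst) (Primrec.const 1))) (Primrec.const 1)

theorem prim_sub_cast : Primrec₂ (fun a b : ℕ => (a : ℤ) - (b : ℤ)) := by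
  have h : Primrec (fun q : ℕ × ℕ => Encodable.encode ((q.1 : ℤ) - (q.2 : ℤ))) :=
    Primrec.of_eq (f := fun q : ℕ × ℕ => code q.1 q.2) prim_code
      (fun q => (enc_code q.1 q.2).symm)
  exact Primrec.encode_iff.1 h

/-- positive part -/
def pp (z : ℤ) : ℕ := if (Encodable.encode z) % 2 = 0 then (Encodable.encode z) / 2 else 0

/-- negative part -/
def np (z : ℤ) : ℕ := if (Encodable.encode z) % 2 = 0 then 0 else (Encodable.encode z) / 2 + 1

theorem pp_sub_np (z : ℤ) : (pp z : ℤ) - (np z : ℤ) = z := by
  unfold pp np
  cases z with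
  | ofNat n => rw [enc_ofNat]; simp
  | negSucc n =>
    rw [enc_negSucc]
    have h1 : (2 * n + 1) % 2 = 1 := by omega
    have h2 : (2 * n + 1) / 2 = n := by omega
    rw [h1, h2, Int.negSucc_eq]; simp

theorem prim_pp : Primrec pp := by
  unfold pp
  refine Primrec.ite (Primrec.eq.comp (Primrec.nat_mod.comp Primrec.encode (Primrec.const 2))
    (Primrec.const 0)) ?_ (Primrec.const 0)
  exact Primrec.nat_div.comp Primrec.encode (Primrec.const 2)

theorem prim_np : Primrec np := by
  unfold np
  refine Primrec.ite (Primrec.eq.comp (Primrec.nat_mod.comp Primrec.encode (Primrec.const 2))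
    (Primrec.const 0)) (Primrec.const 0) ?_
  exact Primrec.nat_add.comp (Primrec.nat_div.comp Primrec.encode (Primrec.const 2))
    (Primrec.const 1)

theorem prim_int_add : Primrec₂ (fun a b : ℤ => a + b) := by
  refine Primrec.of_eq (prim_sub_cast.comp
    (Primrec.nat_add.comp (prim_pp.comp Primrec.fst) (prim_pp.comp Primrec.snd))
    (Primrec.nat_add.comp (prim_np.comp Primrec.fst) (prim_np.comp Primrec.snd))) ?_
  intro q
  have h1 := pp_sub_np q.1
  have h2 := pp_sub_np q.2
  push_cast
  linarith

theorem prim_int_neg : Primrec (fun a : ℤ => -a) := by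
  refine Primrec.of_eq (prim_sub_cast.comp prim_np prim_pp) ?_
  intro q
  have h1 := pp_sub_np q
  linarith

theorem prim_int_sub : Primrec₂ (fun a b : ℤ => a - b) := by
  refine Primrec.of_eq (prim_int_add.comp Primrec.fst (prim_int_neg.comp Primrec.snd)) ?_
  intro q
  exact (sub_eq_add_neg _ _).symm

theorem zipWith_eq (f : ℤ → ℤ → ℤ) (v w : List ℤ) :
    (List.range (min v.length w.length)).map (fun i => f (v.getD i 0) (w.getD i 0)) =
      List.zipWith f v w := by
  apply List.ext_getElem
  · simp
  · intro i h1 h2
    simp only [List.length_map, List.length_range, lt_min_iff] at h1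
    rw [List.getElem_map, List.getElem_range, List.getElem_zipWith]
    rw [List.getD_eq_getElem _ _ h1.1, List.getD_eq_getElem _ _ h1.2]

theorem prim_zip {f : ℤ → ℤ → ℤ} (hf : Primrec₂ f) : Primrec₂ (fun v w => List.zipWith f v w) := by
  have h : Primrec (fun q : List ℤ × List ℤ => (List.range (min q.1.length q.2.length)).map
      (fun i => f (q.1.getD i 0) (q.2.getD i 0))) := by
    refine Primrec.list_map ?_ ?_
    · exact Primrec.list_range.comp (Primrec.nat_min.comp (Primrec.list_length.comp Primrec.fst)
        (Primrec.list_length.comp Primrec.snd))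
    · exact hf.comp ((Primrec.list_getD 0).comp (Primrec.fst.comp Primrec.fst) Primrec.snd)
        ((Primrec.list_getD 0).comp (Primrec.snd.comp Primrec.fst) Primrec.snd)
  exact h.of_eq (fun q => zipWith_eq f q.1 q.2)

end PrimVAux

theorem prim_sh : Primrec₂ sh := by
  exact PrimVAux.prim_zip PrimVAux.prim_int_add

theorem prim_ush : Primrec₂ ush := by
  exact PrimVAux.prim_zip PrimVAux.prim_int_sub

theorem prim_negv : Primrec (fun v : List ℤ => v.map (fun z => -z)) := by
  exact Primrec.list_map Primrec.id (PrimVAux.prim_int_neg.comp Primrec.snd)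

theorem prim_rep : Primrec (fun n : ℕ => List.replicate n (0 : ℤ)) := by
  refine Primrec.of_eq (f := fun n : ℕ => (List.range n).map (fun _ => (0 : ℤ)))
    (Primrec.list_map Primrec.list_range (Primrec.const (0 : ℤ))) ?_
  intro n
  apply List.ext_getElem
  · simp
  · intro i h1 h2
    simp

theorem prim_gl : Primrec Cert.gl := by
  exact Primrec.option_getD.comp Primrec.id (Primrec.const ((0, []) : L))

theorem prim_winv : Primrec winv := by
  refine Primrec.list_reverse.comp (Primrec.list_map Primrec.id ?_)
  exact Primrec.pair (Primrec.fst.comp Primrec.snd)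
    (Primrec.not.comp (Primrec.snd.comp Primrec.snd))


end Pool.Agent.Lib.P77fd2d
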