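import Pool.Agent.Lib.P77fd2d.Basic

/-!
# Root sets, distance from a root set, geodesics starting in a root set, cone types
-/

namespace Pool.Agent.Lib.P77fd2d
variable {ι G : Type} [Group G]
namespace RH

/-- relative distance from the set `R` -/
noncomputable def rho (S : RH ι G) (R : Set G) (x : G) : ℕ :=
  sInf {n | ∃ k ∈ R, S.rl (k⁻¹ * x) = n}

/-- `u`, starting at `k ∈ R`, is a geodesic from `R` to its endpoint -/
def RGeo (S : RH ι G) (R : Set G) (k : G) (u : List (Ltr ι G)) : Prop :=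
  k ∈ R ∧ S.Ok u ∧ S.rho R (k * ev u) = u.length

/-- the cone type of a point: the words continuing geodesics from the root set -/
def cone (S : RH ι G) (R : Set G) (x : G) : Set (List (Ltr ι G)) :=
  {w | S.Ok w ∧ S.rho R (x * ev w) = S.rho R x + w.length}

/-- the geometric hypotheses on the root set -/
structure Root (S : RH ι G) (R : Set G) : Prop where
  ne : R.Nonempty
  /-- geodesics between points of `R` stay close to `R` in the word metric -/
  r1 : ∃ σ : ℕ, ∀ x u, S.Geo u → x ∈ R → x * ev u ∈ R → ∀ u1 u2, u = u1 ++ u2 →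
    ∃ y ∈ R, S.wl (y⁻¹ * (x * ev u1)) ≤ σ
  /-- a coset not contained in `R` is close to `R` only in a bounded part -/
  r2 : ∀ n : ℕ, ∃ M : ℕ, ∀ i x p, p ∈ S.P i → (∃ q ∈ S.P i, x * q ∉ R) →
    (∃ y ∈ R, S.wl (y⁻¹ * x) ≤ n) → (∃ y ∈ R, S.wl (y⁻¹ * (x * p)) ≤ n) → S.wl p ≤ M

variable {S : RH ι G} {R : Set G}

theorem exists_near (hR : R.Nonempty) (x : G) : ∃ k ∈ R, S.rl (k⁻¹ * x) = S.rho R x := by
  obtain ⟨k, hk⟩ := hR
  exact Nat.sInf_mem (s := {n | ∃ k ∈ R, S.rl (k⁻¹ * x) = n}) ⟨_, k, hk, rfl⟩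

theorem rho_le {k : G} (hk : k ∈ R) (x : G) : S.rho R x ≤ S.rl (k⁻¹ * x) :=
  Nat.sInf_le ⟨k, hk, rfl⟩

theorem rho_mul (hS : S.Good) (hR : R.Nonempty) (x g : G) :
    S.rho R (x * g) ≤ S.rho R x + S.rl g := by
  obtain ⟨k, hk, h⟩ := exists_near (S := S) hR x
  refine (rho_le hk _).trans ?_
  rw [← h, ← mul_assoc]
  exact rl_mul hS _ _

theorem rho_mul' (hS : S.Good) (hR : R.Nonempty) (x g : G) :
    S.rho R x ≤ S.rho R (x * g) + S.rl g := by
  have := rho_mul hS hR (x * g) g⁻¹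
  rw [rl_inv hS] at this
  simpa using this

theorem rho_eq_zero {x : G} (hx : x ∈ R) : S.rho R x = 0 := by
  have := rho_le (S := S) hx x
  simpa using this

theorem mem_of_rho (hS : S.Good) (hR : R.Nonempty) {x : G} (hx : S.rho R x = 0) : x ∈ R := by
  obtain ⟨k, hk, h⟩ := exists_near (S := S) hR x
  rw [hx] at h
  have := eq_one_of_rl hS h
  have : x = k := by
    have h2 : k * (k⁻¹ * x) = k := by rw [this, mul_one]
    simpa using h2
  rw [this]; exact hk

theorem exists_rgeo (hS : S.Good) (hR : R.Nonempty) (x : G) :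
    ∃ k u, S.RGeo R k u ∧ k * ev u = x := by
  obtain ⟨k, hk, h⟩ := exists_near (S := S) hR x
  obtain ⟨u, hu, hu'⟩ := exists_geo hS (k⁻¹ * x)
  have e : k * ev u = x := by rw [hu']; group
  refine ⟨k, u, ⟨hk, hu.1, ?_⟩, e⟩
  rw [e, ← h, ← hu', hu.2]

theorem rgeo_nil {k : G} (hk : k ∈ R) : S.RGeo R k [] :=
  ⟨hk, by simp, by simpa using rho_eq_zero hk⟩

theorem rgeo_geo {k : G} {u : List (Ltr ι G)} (h : S.RGeo R k u) : S.Geo u := by
  refine ⟨h.2.1, le_antisymm (rl_le h.2.1) ?_⟩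
  have := rho_le (S := S) h.1 (k * ev u)
  rw [h.2.2] at this
  simpa using this

theorem rgeo_left (hS : S.Good) (hR : R.Nonempty) {k : G} {u v : List (Ltr ι G)}
    (h : S.RGeo R k (u ++ v)) : S.RGeo R k u := by
  obtain ⟨h1, h2, h3⟩ := h
  rw [ok_append] at h2
  refine ⟨h1, h2.1, ?_⟩
  have a := rho_le (S := S) h1 (k * ev u)
  have b := rl_le h2.1
  have c := rho_mul hS hR (k * ev u) (ev v)
  have d := rl_le h2.2
  simp only [ev_append, List.length_append, ← mul_assoc] at h3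
  simp only [inv_mul_cancel_left] at a
  omega

theorem rgeo_take (hS : S.Good) (hR : R.Nonempty) {k : G} {u : List (Ltr ι G)}
    (h : S.RGeo R k u) (j : ℕ) : S.RGeo R k (u.take j) := by
  rw [← List.take_append_drop j u] at h
  exact rgeo_left hS hR h

/-- concatenation with a word in the cone type -/
theorem rgeo_append {k : G} {u v : List (Ltr ι G)} (h : S.RGeo R k u)
    (hv : v ∈ S.cone R (k * ev u)) : S.RGeo R k (u ++ v) := by
  refine ⟨h.1, ok_append.2 ⟨h.2.1, hv.1⟩, ?_⟩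
  have := hv.2
  rw [h.2.2] at this
  simpa [mul_assoc] using this

theorem cone_of_rgeo (hS : S.Good) (hR : R.Nonempty) {k : G} {u v : List (Ltr ι G)}
    (h : S.RGeo R k (u ++ v)) : v ∈ S.cone R (k * ev u) := by
  have h1 := rgeo_left hS hR h
  refine ⟨(ok_append.1 h.2.1).2, ?_⟩
  have := h.2.2
  rw [h1.2.2]
  simpa [mul_assoc] using this

theorem nil_mem_cone (x : G) : [] ∈ S.cone R x := ⟨by simp, by simp⟩

/-- prefixes and suffixes of words in the cone type -/
theorem cone_append (hS : S.Good) (hR : R.Nonempty) {x : G} {u v : List (Ltr ι G)} :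
    u ++ v ∈ S.cone R x ↔ u ∈ S.cone R x ∧ v ∈ S.cone R (x * ev u) := by
  constructor
  · rintro ⟨h1, h2⟩
    rw [ok_append] at h1
    have a := rho_mul hS hR x (ev u)
    have b := rho_mul hS hR (x * ev u) (ev v)
    have c := rl_le h1.1
    have d := rl_le h1.2
    simp only [ev_append, List.length_append, ← mul_assoc] at h2
    exact ⟨⟨h1.1, by omega⟩, ⟨h1.2, by omega⟩⟩
  · rintro ⟨⟨h1, h2⟩, ⟨h3, h4⟩⟩
    refine ⟨ok_append.2 ⟨h1, h3⟩, ?_⟩
    simp only [ev_append, List.length_append, ← mul_assoc]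
    omega

/-- an `R`-geodesic has no peripheral edge inside a coset contained in `R` -/
theorem rgeo_noE {k g : G} {i : ι} {u : List (Ltr ι G)} (hS : S.Good) (h : S.RGeo R k u)
    (hin : ∀ q ∈ S.P i, g⁻¹ * q ∈ R) : S.NoE i (g * k) u := by
  have hne : R.Nonempty := ⟨k, h.1⟩
  intro w1 s w2 hw hs hm
  subst hw
  have hs2 : s.2 ∈ S.P i := by
    have := (ok_append.1 h.2.1).2
    rw [ok_cons] at this
    have := this.1
    rw [show s.1 = some i from hs] at this
    exact this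
  have h3 : S.RGeo R k (w1 ++ [s]) := by
    have h' : S.RGeo R k ((w1 ++ [s]) ++ w2) := by simpa using h
    exact rgeo_left hS hne h'
  have h4 := hin (g * k * ev w1 * s.2) ((S.P i).mul_mem hm hs2)
  have h5 := rho_eq_zero (S := S) h4
  have h6 := h3.2.2
  have e : k * ev (w1 ++ [s]) = g⁻¹ * (g * k * ev w1 * s.2) := by simp [mul_assoc]
  rw [e, h5] at h6
  simp at h6

end RH
end Pool.Agent.Lib.P77fd2d
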