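import Pool.Agent.Lib.P77fd2d.Basic

/-!
# MODULE P77fd2d.Slim  (0.6h)

Four point hyperbolicity of the relative metric implies that every vertex of a geodesic is
close (in the relative metric) to a vertex of a broken geodesic with the same end points.

PROOF.  Let `δ` be the constant of `hS.hyp`, `T = 2 δ`.  d(x,y) := rl (x⁻¹ * y).
(1) Triangles: `u` geodesic from `x` to `y` (word `u1 ++ u2`, `p` = vertex after `u1`,
`s = u1.length`, `a = d(x,y) = u.length`, d(p,y) = a - s), `z` a point, `b = d(x,z)`, `c = d(z,y)`, `v` a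
geodesic word from `x` to `z`, `t` a geodesic word from `z` to `y`.  Then `p` is within `2 δ` of a
vertex of `v` or of a vertex of `t`:  since `2 s + 2 (a - s) = (a + b - c) + (a + c - b)` either
`2 s ≤ a + b - c` or `2 (a-s) ≤ a + c - b` (work in ℤ or with `omega`).  In the first case `s ≤ b`
(because `c ≥ a - b`), let `q` be the vertex of `v` with d(x,q) = s, d(q,z) = b - s.  Four points
x,z,q,y: d(x,z)+d(q,y) ≤ max (d(x,q)+d(z,y), d(x,y)+d(z,q)) + δ, i.e.
d(q,y) ≤ max (s + c - b, a - s) + δ = a - s + δ.  Four points x,y,p,q: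
d(x,y)+d(p,q) ≤ max (d(x,p)+d(y,q), d(x,q)+d(p,y)) + δ ≤ (s + a - s + δ) + δ, so d(p,q) ≤ 2 δ.
The second case is symmetric (use `rl_symm`, vertex of `t` at distance `a - s` from `y`).
(2) Induction on `m` (induction on `Brk`, generalizing `u`): `w = v ++ w'`, `v` geodesic, `Brk m w'`;
take a geodesic word `t` with `ev t = (ev v)⁻¹ * ev u = ev w'`.  By (1) the vertex is within `2 δ` of a
vertex of `v` (done) or of a vertex `ev v * ev t1` of `t`, and by induction `ev t1` is within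
`m T` of a vertex `ev w1'` of `w'`; the vertex `ev (v ++ w1')` of `w` does it.
(Case m = 0: `ev u = 1`, `u` geodesic, hence `u = []`.)
-/

namespace Pool.Agent.Lib.P77fd2d
variable {ι G : Type} [Group G]
namespace RH
variable {S : RH ι G}

namespace SlimAux

/-- two points at the same distance from `x` on two sides of a triangle -/
theorem four (hS : S.Good) {δ : ℕ} (hδ : ∀ x y z t : G, S.rl (x⁻¹ * y) + S.rl (z⁻¹ * t) ≤
     max (S.rl (x⁻¹ * z) + S.rl (y⁻¹ * t)) (S.rl (x⁻¹ * t) + S.rl (y⁻¹ * z)) + δ)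
    (x y z p q : G) (a b c s : ℕ) (hxy : S.rl (x⁻¹ * y) = a) (hxz : S.rl (x⁻¹ * z) = b)
    (hzy : S.rl (z⁻¹ * y) = c) (hxp : S.rl (x⁻¹ * p) = s) (hpy : S.rl (p⁻¹ * y) + s = a)
    (hxq : S.rl (x⁻¹ * q) = s) (hqz : S.rl (q⁻¹ * z) + s = b) (h : 2 * s + c ≤ a + b) :
    S.rl (p⁻¹ * q) ≤ 2 * δ := by
  have h1 := hδ x z q y
  have h2 := hδ x y p q
  have e1 := rl_symm hS z q
  have e2 := rl_symm hS y q
  have e3 := rl_symm hS y p
  omega

/-- vertices of a geodesic word -/
theorem take_spec (hS : S.Good) {v : List (Ltr ι G)} (hv : S.Geo v) (s : ℕ) (hs : s ≤ v.length) :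
    S.rl (ev (v.take s)) = s ∧ S.rl (ev (v.drop s)) + s = v.length := by
  have e : v.take s ++ v.drop s = v := List.take_append_drop s v
  have hv' : S.Geo (v.take s ++ v.drop s) := by rwa [e]
  obtain ⟨h1, h2⟩ := geo_append hS hv'
  rw [h1.2, h2.2, List.length_take, List.length_drop]
  omega

theorem tri (hS : S.Good) {δ : ℕ} (hδ : ∀ x y z t : G, S.rl (x⁻¹ * y) + S.rl (z⁻¹ * t) ≤
     max (S.rl (x⁻¹ * z) + S.rl (y⁻¹ * t)) (S.rl (x⁻¹ * t) + S.rl (y⁻¹ * z)) + δ)
    {u1 u2 v t : List (Ltr ι G)} (hu : S.Geo (u1 ++ u2)) (hv : S.Geo v) (ht : S.Geo t)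
    (he : ev (u1 ++ u2) = ev v * ev t) :
    (∃ v1 v2, v = v1 ++ v2 ∧ S.rl ((ev u1)⁻¹ * ev v1) ≤ 2 * δ) ∨
    (∃ t1 t2, t = t1 ++ t2 ∧ S.rl ((ev u1)⁻¹ * (ev v * ev t1)) ≤ 2 * δ) := by
  obtain ⟨h1, h2⟩ := geo_append hS hu
  have ha := hu.2
  have hb := hv.2
  have hc := ht.2
  have hs := h1.2
  have hs' := h2.2
  rw [List.length_append] at ha
  have htri1 := rl_mul hS (ev v) (ev t)
  rw [← he] at htri1
  have htri2 : S.rl (ev v) ≤ S.rl (ev (u1 ++ u2)) + S.rl (ev t) := by
    have := rl_mul hS (ev (u1 ++ u2)) (ev t)⁻¹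
    rw [rl_inv hS, he, mul_inv_cancel_right] at this
    rw [he]
    exact this
  have htri3 : S.rl (ev t) ≤ S.rl (ev (u1 ++ u2)) + S.rl (ev v) := by
    have := rl_mul hS (ev v)⁻¹ (ev (u1 ++ u2))
    rw [rl_inv hS, he, inv_mul_cancel_left] at this
    rw [he]
    omega
  have hpy : (ev u1)⁻¹ * ev (u1 ++ u2) = ev u2 := by rw [ev_append]; group
  have hzy : (ev v)⁻¹ * ev (u1 ++ u2) = ev t := by rw [he]; group
  rcases (by omega : 2 * u1.length + t.length ≤ (u1.length + u2.length) + v.length ∨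
      2 * u2.length + v.length ≤ (u1.length + u2.length) + t.length) with h | h
  · left
    have hsb : u1.length ≤ v.length := by omega
    obtain ⟨g1, g2⟩ := take_spec hS hv u1.length hsb
    refine ⟨v.take u1.length, v.drop u1.length, (List.take_append_drop _ _).symm, ?_⟩
    have hqz : (ev (v.take u1.length))⁻¹ * ev v = ev (v.drop u1.length) := by
      conv_lhs => rw [← List.take_append_drop u1.length v]
      rw [ev_append]
      simp
    refine four hS hδ 1 (ev (u1 ++ u2)) (ev v) (ev u1) (ev (v.take u1.length))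
      (u1.length + u2.length) v.length t.length u1.length ?_ ?_ ?_ ?_ ?_ ?_ ?_ h
    · simpa using ha
    · simpa using hb
    · rw [hzy]; exact hc
    · simpa using hs
    · rw [hpy]; omega
    · simpa using g1
    · rw [hqz]; exact g2
  · right
    have hsb : u2.length ≤ t.length := by omega
    obtain ⟨g1, g2⟩ := take_spec hS ht (t.length - u2.length) (by omega)
    set t1 := t.take (t.length - u2.length) with ht1
    set t2 := t.drop (t.length - u2.length) with ht2
    have htt : t = t1 ++ t2 := (List.take_append_drop _ _).symm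
    have et : ev t = ev t1 * ev t2 := by rw [← ev_append, ← htt]
    refine ⟨t1, t2, htt, ?_⟩
    have hqy : (ev v * ev t1)⁻¹ * ev (u1 ++ u2) = ev t2 := by
      rw [he, et]; group
    have hzq : (ev v)⁻¹ * (ev v * ev t1) = ev t1 := by group
    refine four hS hδ (ev (u1 ++ u2)) 1 (ev v) (ev u1) (ev v * ev t1)
      (u1.length + u2.length) t.length v.length u2.length ?_ ?_ ?_ ?_ ?_ ?_ ?_ h
    · rw [rl_symm hS]; simpa using ha
    · rw [rl_symm hS, hzy]; exact hc
    · rw [rl_symm hS]; simpa using hb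
    · rw [rl_symm hS, hpy]; exact hs'
    · have : S.rl ((ev u1)⁻¹ * 1) = u1.length := by rw [mul_one, rl_inv hS]; exact hs
      omega
    · rw [rl_symm hS, hqy]; omega
    · rw [rl_symm hS, hzq]; omega

end SlimAux

theorem slim (hS : S.Good) : ∃ T : ℕ, ∀ (m : ℕ) (u w : List (Ltr ι G)), S.Geo u → S.Brk m w →
    ev w = ev u → ∀ u1 u2, u = u1 ++ u2 →
      ∃ w1 w2, w = w1 ++ w2 ∧ S.rl ((ev u1)⁻¹ * ev w1) ≤ m * T := by
  obtain ⟨δ, hδ⟩ := hS.hyp
  refine ⟨2 * δ, fun m u w hu hw => ?_⟩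
  induction hw generalizing u with
  | nil =>
    intro he u1 u2 h
    have h1 := hu.2
    rw [← he, ev_nil, rl_one] at h1
    have h2 : u = [] := List.length_eq_zero_iff.1 h1.symm
    rw [h2] at h
    obtain ⟨rfl, rfl⟩ := List.nil_eq_append_iff.1 h
    exact ⟨[], [], rfl, by simp⟩
  | @cons m v w' hv hw' ih =>
    intro he u1 u2 h
    obtain ⟨t, ht, hte⟩ := exists_geo hS (ev w')
    rw [h] at hu he
    rw [ev_append] at he
    rcases SlimAux.tri hS hδ hu hv ht (by rw [hte]; exact he.symm) with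
      ⟨v1, v2, hvv, hd⟩ | ⟨t1, t2, htt, hd⟩
    · refine ⟨v1, v2 ++ w', by rw [hvv, List.append_assoc], ?_⟩
      calc S.rl ((ev u1)⁻¹ * ev v1) ≤ 2 * δ := hd
        _ ≤ (m + 1) * (2 * δ) := Nat.le_mul_of_pos_left _ (by omega)
    · obtain ⟨w1, w2, hww, hd2⟩ := ih t ht hte.symm t1 t2 htt
      refine ⟨v ++ w1, w2, by rw [hww, List.append_assoc], ?_⟩
      have h3 := rl_tri hS (ev u1) (ev v * ev t1) (ev (v ++ w1))
      have h4 : (ev v * ev t1)⁻¹ * ev (v ++ w1) = (ev t1)⁻¹ * ev w1 := by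
        rw [ev_append]; group
      rw [h4] at h3
      calc S.rl ((ev u1)⁻¹ * ev (v ++ w1)) ≤ 2 * δ + m * (2 * δ) := by omega
        _ = (m + 1) * (2 * δ) := by ring

end RH
end Pool.Agent.Lib.P77fd2d
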