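import Pool.Agent.Lib.P77fd2d.Root
import Pool.Agent.Lib.P77fd2d.Slim

/-!
# MODULE P77fd2d.RootsA  (1h)   black box: `slim`

Roots of two `R`-geodesics with close endpoints are close in the RELATIVE metric.

PROOF.  x = k ev u, x' = k' ev u', c a word with `exists_apath` from x to x' (≤ N pieces), v a geodesic
word from k to k'.  w := u ++ c ++ inv u' is Brk (N+2) from k to k'.  Let T be the slimness constant,
E := (N+2) T, σ the constant of R.r1.  Let m = k ev v1 be a vertex of v.  By `r1`, rho m ≤ rl ≤ wl ≤ σ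
(rho is 1-Lipschitz and 0 on R).  By `slim` m is within E (relative metric) of a vertex of u, c or inv u':
 * vertex k ev (u1) of u: rho of it = u1.length ≤ E + σ, so d(k, m) ≤ u1.length + E ≤ 2E + σ;
 * vertex of u' : similarly d(k', m) ≤ 2E + σ;
 * vertex of c: it is within N of x, so u.length = rho x ≤ N + E + σ and
   d(k,m) ≤ u.length + N + E ≤ 2N + 2E + σ.
So every vertex of v is within C0 := 2N+2E+σ of k or k'; for the vertex of index j these distances are
j and v.length - j; if v.length > 2 C0 + 1 the vertex of index C0 + 1 gives a contradiction.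
Hence rl (k⁻¹ k') = v.length ≤ 2 C0 + 1.
-/

namespace Pool.Agent.Lib.P77fd2d
variable {ι G : Type} [Group G]
namespace RH
variable {S : RH ι G} {R : Set G}

private theorem wl_of_none' {w : List (Ltr ι G)} (hw : S.Ok w) (h : ∀ s ∈ w, s.1 = none) :
    S.wl (ev w) ≤ w.length := by
  have h1 := wl_le (S := S) (w := w.map Prod.snd) (by
    intro a ha
    rw [List.mem_map] at ha
    obtain ⟨s, hs, rfl⟩ := ha
    have h2 := hw s hs
    rw [h s hs] at h2
    exact h2)
  rw [List.length_map] at h1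
  exact h1

theorem roots_rl (hS : S.Good) (hR : S.Root R) : ∀ N : ℕ, ∃ C : ℕ,
    ∀ (k : G) (u : List (Ltr ι G)) (k' : G) (u' : List (Ltr ι G)), S.RGeo R k u → S.RGeo R k' u' →
      S.wl ((k * ev u)⁻¹ * (k' * ev u')) ≤ N → S.rl (k⁻¹ * k') ≤ C := by
  intro N
  obtain ⟨T, hT⟩ := slim hS
  obtain ⟨σ, hσ⟩ := hR.r1
  refine ⟨2 * (2 * N + 2 * ((1 + (N + 1)) * T) + σ) + 1, ?_⟩
  intro k u k' u' hu hu' hN
  generalize hE : (1 + (N + 1)) * T = E
  have hne : R.Nonempty := hR.ne
  have hgu : S.Geo u := rgeo_geo hu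
  have hgu' : S.Geo u' := rgeo_geo hu'
  obtain ⟨v, hgv, hv⟩ := exists_geo hS (k⁻¹ * k')
  have hkv : k * ev v = k' := by rw [hv]; group
  have hvl := hgv.2
  rw [hv] at hvl
  rw [hvl]
  by_contra hcon
  obtain ⟨c, hc1, hc2, hc3, hc4⟩ := exists_apath hS ((k * ev u)⁻¹ * (k' * ev u'))
  have hc : S.Brk N c := brk_mono hN hc1
  have hW : S.Brk (1 + (N + 1)) (u ++ (c ++ inv u')) :=
    brk_append (brk_of_geo hgu) (brk_append hc (brk_of_geo (geo_inv hS hgu')))
  have hev : ev (u ++ (c ++ inv u')) = ev v := by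
    simp only [ev_append, ev_inv, hc4, hv]
    group
  obtain ⟨v1, v2, hv12, hl1⟩ : ∃ v1 v2, v = v1 ++ v2 ∧ v1.length = 2 * N + 2 * E + σ + 1 :=
    ⟨v.take (2 * N + 2 * E + σ + 1), v.drop (2 * N + 2 * E + σ + 1),
      (List.take_append_drop _ _).symm, by rw [List.length_take]; omega⟩
  have hl2 : v.length = v1.length + v2.length := by rw [hv12]; simp
  obtain ⟨hg1, hg2⟩ : S.Geo v1 ∧ S.Geo v2 := by rw [hv12] at hgv; exact geo_append hS hgv
  have hrl1 := hg1.2
  have hrl2 := hg2.2
  -- the vertex `m = k ev v1` is near `R`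
  have hrho : S.rho R (k * ev v1) ≤ σ := by
    obtain ⟨y, hy, hy'⟩ := hσ k v hgv hu.1 (by rw [hkv]; exact hu'.1) v1 v2 hv12
    have h1 := rho_le (S := S) hy (k * ev v1)
    have h2 := rl_le_wl hS (y⁻¹ * (k * ev v1))
    omega
  obtain ⟨w1, w2, hw, hslim⟩ := hT _ v _ hgv hW hev v1 v2 hv12
  rw [hE] at hslim
  have hrhow : S.rho R (k * ev w1) ≤ σ + E := by
    have h1 := rho_mul hS hne (k * ev v1) ((ev v1)⁻¹ * ev w1)
    have e : k * ev v1 * ((ev v1)⁻¹ * ev w1) = k * ev w1 := by group
    rw [e] at h1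
    omega
  have hv1w : S.rl (ev v1) ≤ S.rl (ev w1) + E := by
    have h1 := rl_tri hS 1 (ev w1) (ev v1)
    rw [rl_symm hS (ev w1) (ev v1)] at h1
    simp only [inv_one, one_mul] at h1
    omega
  rcases List.append_eq_append_iff.1 hw with ⟨r, hr1, hr2⟩ | ⟨r, hr1, hr2⟩
  · -- `w1 = u ++ r`, `c ++ inv u' = r ++ w2`
    rcases List.append_eq_append_iff.1 hr2 with ⟨s, hs1, hs2⟩ | ⟨s, hs1, hs2⟩
    · -- `r = c ++ s`, `inv u' = s ++ w2`
      have hu'2 : u' = inv w2 ++ inv s := by
        have h1 : inv (inv u') = inv (s ++ w2) := by rw [hs2]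
        rw [inv_inv', inv_append] at h1
        exact h1
      have ha : S.RGeo R k' (inv w2) := by
        rw [hu'2] at hu'
        exact rgeo_left hS hne hu'
      have e1 : k * ev w1 = k' * ev (inv w2) := by
        rw [hr1, hs1, ev_append, ev_append, hc4, hu'2]
        simp only [ev_append, ev_inv]
        group
      have h1 := ha.2.2
      rw [← e1] at h1
      have h2 : S.rl (ev v2) = S.rl ((k * ev v1)⁻¹ * k') := by
        congr 1
        rw [← hkv, hv12, ev_append]
        group
      have h3 := rl_tri hS (k * ev v1) (k * ev w1) k'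
      have h4 : S.rl ((k * ev v1)⁻¹ * (k * ev w1)) ≤ E := by
        have e : (k * ev v1)⁻¹ * (k * ev w1) = (ev v1)⁻¹ * ev w1 := by group
        rw [e]
        exact hslim
      have h5 : S.rl ((k * ev w1)⁻¹ * k') ≤ (inv w2).length := by
        rw [e1]
        have e : (k' * ev (inv w2))⁻¹ * k' = (ev (inv w2))⁻¹ := by group
        rw [e, rl_inv hS]
        exact rl_le ha.2.1
      omega
    · -- `c = r ++ s`
      have hokc := brk_ok hc
      rw [hs1, ok_append] at hokc
      have h1 : S.wl (ev r) ≤ N := by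
        have h3 := wl_of_none' hokc.1 (fun t ht => hc2 t (by rw [hs1]; simp [ht]))
        have h4 : r.length ≤ c.length := by rw [hs1]; simp
        omega
      have h2 := rl_le_wl hS (ev r)
      have h3 := rho_mul' hS hne (k * ev u) (ev r)
      have e : k * ev u * ev r = k * ev w1 := by rw [hr1, ev_append, mul_assoc]
      rw [e, hu.2.2] at h3
      have h4 := rl_mul hS (ev u) (ev r)
      rw [← ev_append, ← hr1] at h4
      have h5 := rl_le hgu.1
      omega
  · -- `u = w1 ++ r`
    have ha : S.RGeo R k w1 := by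
      rw [hr1] at hu
      exact rgeo_left hS hne hu
    have h1 := ha.2.2
    have h2 := rl_le ha.2.1
    omega

end RH
end Pool.Agent.Lib.P77fd2d
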