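import Pool.Agent.Lib.P77fd2d.RootsA
import Pool.Agent.Lib.P77fd2d.Iso

/-!
# MODULE P77fd2d.RootsB  (1h)   black boxes: `roots_rl`, `iso`

Roots of two `R`-geodesics with close endpoints are close in the WORD metric.

PROOF.  Let C1 be the constant of `roots_rl`, D of `iso`, σ of r1, M := M(σ) of r2.  v a geodesic word from
k to k', v.length ≤ C1.  Claim: each letter of v has wl ≤ B := 1 + (N+4) D + M.  Then
wl (k⁻¹ k') ≤ C1 * B (induction on the word: wl (ev v) ≤ sum of wl of letters).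
A letter of A has wl ≤ 1.  Let v = v1 ++ (some i, p) :: v2, z = k ev v1, z' = z p, O = z P i.
 * If O ⊆ R (∀ q ∈ P i, z q ∈ R): the R-geodesics u and u' have no O-edges (`rgeo_noE` with g = z⁻¹), the
   A-path c from x = k ev u to x' = k' ev u' (`exists_apath`) has none (`noE_of_none`), v1 and v2 have
   none (`geo_noE`).  The path z' → (v2) k' → (u') x' → (inv c) x → (inv u) k → (v1) z is Brk (N+4)
   without O-edges, `iso` (with g := z⁻¹ * z' = p ∈ P i) gives wl (p⁻¹) ≤ (N+4) D.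
 * If not: z and z' are vertices of the geodesic v between points of R, so by r1 both are within
   σ of R in the word metric, and r2 gives wl p ≤ M.
-/

namespace Pool.Agent.Lib.P77fd2d
variable {ι G : Type} [Group G]
namespace RH
variable {S : RH ι G} {R : Set G}

namespace RootsBAux

theorem wl_ev_le (hS : S.Good) (B : ℕ) (v : List (Ltr ι G)) (h : ∀ s ∈ v, S.wl s.2 ≤ B) :
    S.wl (ev v) ≤ v.length * B := by
  induction v with
  | nil => simp
  | cons s v ih =>
    have h1 := wl_mul hS s.2 (ev v)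
    have h2 := h s (by simp)
    have h3 := ih (fun t ht => h t (by simp [ht]))
    rw [ev_cons, List.length_cons, Nat.succ_mul]
    omega

theorem none_inv {c : List (Ltr ι G)} (h : ∀ s ∈ c, s.1 = none) : ∀ s ∈ inv c, s.1 = none := by
  intro s hs
  simp only [inv, List.mem_reverse, List.mem_map] at hs
  obtain ⟨t, ht, rfl⟩ := hs
  exact h t ht

/-- the letters of a geodesic inside cosets contained in `R` -/
theorem letter_in {N D : ℕ} (hS : S.Good)
    (hD : ∀ (m : ℕ) (i : ι) (g : G) (w : List (Ltr ι G)),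
      S.Brk m w → g ∈ S.P i → g * ev w ∈ S.P i → S.NoE i g w → S.wl (ev w) ≤ m * D)
    {k k' : G} {u u' v1 v2 : List (Ltr ι G)} {i : ι} {p : G} (hu : S.RGeo R k u)
    (hu' : S.RGeo R k' u') (hN : S.wl ((k * ev u)⁻¹ * (k' * ev u')) ≤ N)
    (hv : S.Geo (v1 ++ (some i, p) :: v2)) (hk : k * ev (v1 ++ (some i, p) :: v2) = k')
    (hin : ∀ q ∈ S.P i, k * ev v1 * q ∈ R) : S.wl p ≤ (N + 4) * D := by
  have hok := hv.1
  rw [ok_append, ok_cons] at hok
  have hp : p ∈ S.P i := hok.2.1
  obtain ⟨c, hc1, hc2, _, hc4⟩ := exists_apath hS ((k * ev u)⁻¹ * (k' * ev u'))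
  set g : G := (k * ev v1)⁻¹ with hg
  have hgin : ∀ q ∈ S.P i, g⁻¹ * q ∈ R := by
    intro q hq
    rw [hg, inv_inv]
    exact hin q hq
  have n1 : S.NoE i (g * k) u := rgeo_noE hS hu hgin
  have n2 : S.NoE i (g * k') u' := rgeo_noE hS hu' hgin
  have e1 : g * k * ev v1 = 1 := by rw [hg]; group
  obtain ⟨n3, n4⟩ := geo_noE hS (g := g * k) hv (by rw [e1]; exact (S.P i).one_mem)
  rw [e1, one_mul] at n4
  have e2 : p * ev v2 = g * k' := by
    rw [← hk, hg]
    simp only [ev_append, ev_cons]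
    group
  have b2 : S.Geo v2 := by
    have h1 : S.Geo ((v1 ++ [(some i, p)]) ++ v2) := by simpa using hv
    exact (geo_append hS h1).2
  have b1 : S.Geo v1 := (geo_append hS hv).1
  have hb : S.Brk (N + 4) (v2 ++ (u' ++ (inv c ++ (inv u ++ v1)))) := by
    have h1 : S.Brk (1 + (1 + (N + (1 + 1)))) (v2 ++ (u' ++ (inv c ++ (inv u ++ v1)))) :=
      brk_append (brk_of_geo b2) (brk_append (brk_of_geo (rgeo_geo hu'))
        (brk_append (brk_inv hS (brk_mono hN hc1))
          (brk_append (brk_of_geo (geo_inv hS (rgeo_geo hu))) (brk_of_geo b1))))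
    have h2 : 1 + (1 + (N + (1 + 1))) = N + 4 := by omega
    rwa [h2] at h1
  have hev : p * ev (v2 ++ (u' ++ (inv c ++ (inv u ++ v1)))) = 1 := by
    simp only [ev_append, ev_inv, hc4]
    rw [← mul_assoc, e2, hg]
    group
  have hno : S.NoE i p (v2 ++ (u' ++ (inv c ++ (inv u ++ v1)))) := by
    rw [noE_append, noE_append, noE_append, noE_append]
    refine ⟨n4, ?_, noE_of_none (none_inv hc2), ?_, ?_⟩
    · rw [e2]
      exact n2
    · have h1 := noE_inv hu.2.1 n1
      have h2 : p * ev v2 * ev u' * ev (inv c) = g * k * ev u := by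
        rw [e2, ev_inv, hc4]
        group
      rw [h2]
      exact h1
    · have h2 : p * ev v2 * ev u' * ev (inv c) * ev (inv u) = g * k := by
        rw [e2, ev_inv, ev_inv, hc4]
        group
      rw [h2]
      exact n3
  have h3 := hD (N + 4) i p _ hb hp (by rw [hev]; exact (S.P i).one_mem) hno
  have h4 : ev (v2 ++ (u' ++ (inv c ++ (inv u ++ v1)))) = p⁻¹ := eq_inv_of_mul_eq_one_right hev
  rw [h4, wl_inv hS] at h3
  exact h3

end RootsBAux

theorem roots_wl [Finite ι] (hS : S.Good) (hR : S.Root R) : ∀ N : ℕ, ∃ C : ℕ,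
    ∀ (k : G) (u : List (Ltr ι G)) (k' : G) (u' : List (Ltr ι G)), S.RGeo R k u → S.RGeo R k' u' →
      S.wl ((k * ev u)⁻¹ * (k' * ev u')) ≤ N → S.wl (k⁻¹ * k') ≤ C := by
  intro N
  obtain ⟨C1, hC1⟩ := roots_rl hS hR N
  obtain ⟨D, hD⟩ := iso (S := S) hS
  obtain ⟨σ, hσ⟩ := hR.r1
  obtain ⟨M, hM⟩ := hR.r2 σ
  refine ⟨C1 * (1 + (N + 4) * D + M), fun k u k' u' hu hu' hN => ?_⟩
  obtain ⟨v, hv, hv'⟩ := exists_geo hS (k⁻¹ * k')
  have hlen : v.length ≤ C1 := by
    rw [← hv.2, hv']
    exact hC1 k u k' u' hu hu' hN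
  have hkv : k * ev v = k' := by rw [hv']; group
  have hlet : ∀ s ∈ v, S.wl s.2 ≤ 1 + (N + 4) * D + M := by
    intro s hs
    obtain ⟨v1, v2, rfl⟩ := List.append_of_mem hs
    obtain ⟨o, p⟩ := s
    have hok := hv.1
    rw [ok_append, ok_cons] at hok
    have hp := hok.2.1
    cases o with
    | none =>
      have h1 : S.wl p ≤ 1 := wl_le_one hp
      show S.wl p ≤ _
      omega
    | some i =>
      have hp' : p ∈ S.P i := hp
      show S.wl p ≤ _
      by_cases hin : ∀ q ∈ S.P i, k * ev v1 * q ∈ R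
      · have h1 := RootsBAux.letter_in hS hD hu hu' hN hv hkv hin
        omega
      · push Not at hin
        have h1 := hσ k _ hv hu.1 (by rw [hkv]; exact hu'.1) v1 ((some i, p) :: v2) rfl
        have h2 := hσ k _ hv hu.1 (by rw [hkv]; exact hu'.1) (v1 ++ [(some i, p)]) v2 (by simp)
        have h3 := hM i (k * ev v1) p hp' hin h1 (by simpa [mul_assoc] using h2)
        omega
  have h1 := RootsBAux.wl_ev_le hS _ v hlet
  rw [hv'] at h1
  exact h1.trans (Nat.mul_le_mul_right _ hlen)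

end RH
end Pool.Agent.Lib.P77fd2d
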