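import Pool.Agent.Lib.P77fd2d.NiceDef
import Pool.Agent.Lib.P77fd2d.Coord
import Pool.Agent.Lib.P77fd2d.Flats

/-!
# The semantic machine of a relatively quasiconvex subgroup

Letters are of two kinds: normal letters (generators; peripheral elements in coordinates) and root letters
(points of the flats modulo `H` in coordinates; the point `w0`).  States are cone types, differences are
elements of `G` of word length at most `2 K`.
-/

namespace Pool.Agent.Lib.P77fd2d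

/-- stabiliser of the flat `x P i`, as a subgroup of `P i` -/
def Lam {ι G : Type} [Group G] (S : RH ι G) (H : Subgroup G) (i : ι) (x : G) : Subgroup G :=
  S.P i ⊓ H.comap (MulAut.conj x).toMonoidHom

theorem mem_Lam {ι G : Type} [Group G] {S : RH ι G} {H : Subgroup G} {i : ι} {x p : G} :
    p ∈ Lam S H i x ↔ p ∈ S.P i ∧ x * p * x⁻¹ ∈ H := by
  simp [Lam, Subgroup.mem_inf]

/-- families of letters -/
inductive Fam (ι G : Type)
  | gen (a : G)
  | par (i : ι) (t : ℕ)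
  | flat (i : ι) (x : G) (t : ℕ)
  | xw

/-- data for the semantic machine -/
structure Dat (ι G : Type) [Group G] where
  S : RH ι G
  H : Subgroup G
  i0 : ι
  w0 : G
  N : ℕ
  K : ℕ
  L : ℕ
  n0 : ℕ
  cP : ∀ i, Coord (S.P i) ⊥
  cF : ∀ i x, Coord (S.P i) (Lam S H i x)
  FL : Set (ι × G)

namespace Dat
variable {ι G : Type} [Group G] (E : Dat ι G)

/-- the root set -/
def R : Set G := E.S.RS E.H E.i0 E.w0

/-- distance to `H` larger than `n0` -/
def far (x : G) : Prop := ∀ h ∈ E.H, E.n0 < E.S.wl (h⁻¹ * x)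

/-- the facts which are provided by geometry -/
structure Fact : Prop where
  good : E.S.Good
  root : E.S.Root E.R
  NK : E.N ≤ E.K
  N1 : 1 ≤ E.N
  L1 : 1 ≤ E.L
  fellow : ∀ (k : G) (u : List (Ltr ι G)) (k' : G) (u' : List (Ltr ι G)), E.S.RGeo E.R k u →
    E.S.RGeo E.R k' u' → E.S.wl ((k * ev u)⁻¹ * (k' * ev u')) ≤ E.N → ∀ j,
      E.S.wl ((k * ev (u.take j))⁻¹ * (k' * ev (u'.take j))) ≤ E.K
  square : ∀ (i : ι) (p d d' : G) (t : List (Ltr ι G)), p ∈ E.S.P i → E.L < E.S.wl p →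
    E.S.wl d ≤ 2 * E.K → E.S.wl d' ≤ 2 * E.K → E.S.Ok t → t.length ≤ 1 → d * ev t = p * d' →
      d ∈ E.S.P i ∧ d' ∈ E.S.P i ∧ ∃ q ∈ E.S.P i, t = [(some i, q)]
  long : ∀ (i : ι) (x p p' : G), p ∈ E.S.P i → p' ∈ E.S.P i → E.L < E.S.wl p' →
    [(some i, p)] ∈ E.S.cone E.R x → [(some i, p')] ∈ E.S.cone E.R x
  generic : ∀ (i : ι) (x p x' p' : G), p ∈ E.S.P i → p' ∈ E.S.P i → E.L < E.S.wl p →
    E.L < E.S.wl p' → [(some i, p)] ∈ E.S.cone E.R x → [(some i, p')] ∈ E.S.cone E.R x' →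
      E.S.cone E.R (x * p) = E.S.cone E.R (x' * p')
  cone_fin : (Set.range (E.S.cone E.R)).Finite
  n0_w : E.S.wl E.w0 ≤ E.n0
  fl_fin : E.FL.Finite
  fl1 : ∀ q ∈ E.FL, E.S.Flat E.H E.i0 q.1 q.2
  fl2 : ∀ i x, E.S.Flat E.H E.i0 i x → ∃ y, (i, y) ∈ E.FL ∧ ∃ h ∈ E.H, ∃ p ∈ E.S.P i,
    x = h * y * p
  fl3 : ∀ i x y, (i, x) ∈ E.FL → (i, y) ∈ E.FL → (∃ h ∈ E.H, ∃ p ∈ E.S.P i, x = h * y * p) →
    x = y
  /-- a point of a flat far from `H`: nearby root points lie on this flat only -/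
  far_root : ∀ i x, E.S.Flat E.H E.i0 i x → E.far x → ∀ y ∈ E.R, E.S.wl (x⁻¹ * y) ≤ 2 * E.K →
    x⁻¹ * y ∈ E.S.P i ∧ y * E.w0⁻¹ ∉ E.H ∧ ∀ j, E.S.Flat E.H E.i0 j y → j = i
  L_fin : ∀ i t, t < (E.cP i).m → (E.cP i).r = 0 → E.S.wl ((E.cP i).c t []) ≤ E.L
  n0_fin : ∀ i x t, (i, x) ∈ E.FL → t < (E.cF i x).m → (E.cF i x).r = 0 →
    ∃ h ∈ E.H, E.S.wl (h⁻¹ * (x * (E.cF i x).c t [])) ≤ E.n0
  gen_root : ∀ i x x', E.S.Flat E.H E.i0 i x → E.S.Flat E.H E.i0 i x' → E.far x → E.far x' →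
    E.S.cone E.R x = E.S.cone E.R x'

open Classical in
/-- rank of a family -/
noncomputable def rk : Fam ι G → ℕ
  | .gen _ => 0
  | .par i t => if t < (E.cP i).m then (E.cP i).r else 0
  | .flat i x t => if (i, x) ∈ E.FL ∧ t < (E.cF i x).m then (E.cF i x).r else 0
  | .xw => 0

/-- normal letters -/
def isN : Lt (Fam ι G) → Prop
  | (.gen a, v) => a ∈ E.S.A ∧ v = []
  | (.par i t, v) => t < (E.cP i).m ∧ v.length = (E.cP i).r
  | _ => False

/-- root letters -/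
def isR : Lt (Fam ι G) → Prop
  | (.flat i x t, v) => (i, x) ∈ E.FL ∧ t < (E.cF i x).m ∧ v.length = (E.cF i x).r
  | (.xw, v) => v = []
  | _ => False

/-- value of a normal letter -/
def nval : Lt (Fam ι G) → Ltr ι G
  | (.gen a, _) => (none, a)
  | (.par i t, v) => (some i, (E.cP i).c t v)
  | _ => (none, 1)

/-- point of a root letter -/
def pt : Lt (Fam ι G) → G
  | (.flat i x t, v) => x * (E.cF i x).c t v
  | (.xw, _) => E.w0
  | _ => 1

/-- value in the group of an optional normal letter -/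
def oval : Option (Lt (Fam ι G)) → G
  | none => 1
  | some l => (E.nval l).2

/-- optional letters which are normal if present -/
def isNo : Option (Lt (Fam ι G)) → Prop
  | none => True
  | some l => E.isN l

/-- short letters -/
def short (l : Lt (Fam ι G)) : Prop :=
  (E.isN l ∧ E.S.wl (E.nval l).2 ≤ E.L) ∨ (E.isR l ∧ ∃ h ∈ E.H, E.S.wl (h⁻¹ * E.pt l) ≤ E.n0)

def shortO : Option (Lt (Fam ι G)) → Prop
  | none => True
  | some l => E.short l

/-- semantic squares -/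
def SemNd (d : Option G) (s t : Option (Lt (Fam ι G))) (d' : Option G) : Prop :=
  (∃ g g', d = some g ∧ d' = some g' ∧ E.S.wl g ≤ 2 * E.K ∧ E.S.wl g' ≤ 2 * E.K ∧
    E.isNo s ∧ E.isNo t ∧ g * E.oval t = E.oval s * g') ∨
  (d = none ∧ ∃ r r' g', s = some r ∧ t = some r' ∧ E.isR r ∧ E.isR r' ∧ d' = some g' ∧
    E.S.wl g' ≤ 2 * E.K ∧ E.pt r * g' * (E.pt r')⁻¹ ∈ E.H)

/-- states: `none` is the initial state -/
abbrev St : Type := Option (Set.range (E.S.cone E.R))

/-- the state of a point -/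
def stt (x : G) : E.St := some ⟨E.S.cone E.R x, x, rfl⟩

/-- semantic transitions -/
def SemStep (q : E.St) (l : Lt (Fam ι G)) (q' : E.St) : Prop :=
  (q = none ∧ E.isR l ∧ q' = E.stt (E.pt l)) ∨
  (∃ x, q = E.stt x ∧ E.isN l ∧ [E.nval l] ∈ E.S.cone E.R x ∧ q' = E.stt (x * (E.nval l).2))

/-- generic squares -/
def genS : Set (Option G × Fam ι G × Fam ι G × Option G × List ℤ) :=
  {z | (∃ i t t' g g' w, z = (some g, .par i t, .par i t', some g', w) ∧ g ∈ E.S.P i ∧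
      g' ∈ E.S.P i ∧ E.S.wl g ≤ 2 * E.K ∧ E.S.wl g' ≤ 2 * E.K ∧ t < (E.cP i).m ∧
      t' < (E.cP i).m ∧ w.length = (E.cP i).r ∧
      ∀ v : List ℤ, v.length = (E.cP i).r → g * (E.cP i).c t' (sh v w) = (E.cP i).c t v * g') ∨
    (∃ i x t t' g w, z = (none, .flat i x t, .flat i x t', some g, w) ∧ (i, x) ∈ E.FL ∧
      g ∈ E.S.P i ∧ E.S.wl g ≤ 2 * E.K ∧ t < (E.cF i x).m ∧ t' < (E.cF i x).m ∧
      w.length = (E.cF i x).r ∧
      ∀ v : List ℤ, v.length = (E.cF i x).r →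
        ((E.cF i x).c t v * g)⁻¹ * (E.cF i x).c t' (sh v w) ∈ Lam E.S E.H i x)}

open Classical in
/-- the semantic machine -/
noncomputable def mach : Pre (Fam ι G) (Option G) E.St where
  rk := E.rk
  one := some 1
  star := none
  inD := {d | d = none ∨ ∃ g, d = some g ∧ E.S.wl g ≤ E.K}
  inS := {d | ∃ g, d = some g ∧ E.S.wl g ≤ E.N}
  mul := fun a b => match a, b with
    | some g, some h => some (g * h)
    | _, _ => none
  inv := fun a => a.map (fun g => g⁻¹)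
  exp := {e | E.SemNd e.1 e.2.1 e.2.2.1 e.2.2.2 ∧ E.shortO e.2.1 ∧ E.shortO e.2.2.1}
  gen := E.genS
  zone := {l | E.short l}
  st0 := none
  tr := {e | E.SemStep e.1 e.2.1 e.2.2 ∧ E.short e.2.1}
  tg := {e | ∃ v, E.SemStep e.1 (e.2.1, v) e.2.2 ∧ ¬ E.short (e.2.1, v)}

/-! basic facts -/

variable {E}

theorem pt_mem (hE : E.Fact) {l : Lt (Fam ι G)} (hl : E.isR l) : E.pt l ∈ E.R := by
  obtain ⟨f, v⟩ := l
  cases f with
  | gen a => exact absurd hl (by simp [isR])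
  | par i t => exact absurd hl (by simp [isR])
  | flat i x t =>
    obtain ⟨h1, h2, h3⟩ := hl
    apply RH.rs_flat (i := i)
    exact (RH.flat_mul hE.good ((E.cF i x).mem t v h2 h3)).2 (hE.fl1 _ h1)
  | xw => exact RH.rs_w

theorem nval_ok {l : Lt (Fam ι G)} (hl : E.isN l) : E.S.Ok [E.nval l] := by
  obtain ⟨f, v⟩ := l
  cases f with
  | gen a => simpa [nval, RH.Ok, RH.Alph] using hl.1
  | par i t => simpa [nval, RH.Ok, RH.Alph] using (E.cP i).mem t v hl.1 hl.2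
  | flat i x t => exact absurd hl (by simp [isN])
  | xw => exact absurd hl (by simp [isN])

/-- every letter of the relative alphabet is the value of a normal letter -/
theorem exists_nval {s : Ltr ι G} (hs : s.2 ∈ E.S.Alph s.1) : ∃ l, E.isN l ∧ E.nval l = s := by
  obtain ⟨o, g⟩ := s
  cases o with
  | none => exact ⟨(.gen g, []), ⟨hs, rfl⟩, rfl⟩
  | some i =>
    obtain ⟨t, v, h1, h2, h3⟩ := (E.cP i).surj g hs
    refine ⟨(.par i t, v), ⟨h1, h2⟩, ?_⟩
    have : (E.cP i).c t v = g := by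
      rw [Subgroup.mem_bot] at h3
      exact (inv_mul_eq_one.1 h3)
    simp [nval, this]

theorem isN_isR {l : Lt (Fam ι G)} (h : E.isN l) : ¬ E.isR l := by
  obtain ⟨f, v⟩ := l
  cases f <;> simp_all [isN, isR]

/-- equal states: equal cone types -/
theorem stt_inj {x y : G} (h : E.stt x = E.stt y) : E.S.cone E.R x = E.S.cone E.R y := by
  exact congrArg Subtype.val (Option.some.inj h)

theorem stt_eq {x y : G} (h : E.S.cone E.R x = E.S.cone E.R y) : E.stt x = E.stt y := by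
  simp only [stt, h]

/-- cone types are determined along words -/
theorem cone_next (hE : E.Fact) {x y : G} (h : E.S.cone E.R x = E.S.cone E.R y)
    {u : List (Ltr ι G)} (hu : u ∈ E.S.cone E.R x) :
    E.S.cone E.R (x * ev u) = E.S.cone E.R (y * ev u) := by
  have hu' : u ∈ E.S.cone E.R y := h ▸ hu
  ext v
  have h1 := RH.cone_append hE.good hE.root.ne (x := x) (u := u) (v := v)
  have h2 := RH.cone_append hE.good hE.root.ne (x := y) (u := u) (v := v)
  rw [h] at h1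
  constructor
  · intro hv
    exact (h2.1 (h1.2 ⟨hu', hv⟩)).2
  · intro hv
    exact (h1.1 (h2.2 ⟨hu', hv⟩)).2

end Dat

end Pool.Agent.Lib.P77fd2d
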