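import Pool.Agent.Lib.P77fd2d.Sem

/-!
# MODULE P77fd2d.SemA  (1.3h)   no black box (facts `hE : E.Fact`)

Characterisation of the squares and transitions of the semantic machine.

`nd_iff_sem` (⇒) explicit: by definition.  Generic, first kind: s = some (par i t, v), t = some (par i t', sh v w), ok (par i t, v) gives v.length = rk =
 r (as t < m); both letters are normal, g * c t' (sh v w) = c t v * g'.  Second kind: root letters x c t v and x c t' (sh v w), and
 μ := (c t v g)⁻¹ c t' (sh v w) ∈ Lam; pt r * g * (pt r')⁻¹ = x (c t v g (c t' ..)⁻¹) x⁻¹ = x μ⁻¹ x⁻¹ (P i commutative: c t' = c t v g μ, and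
 c t v g (c t v g μ)⁻¹ = μ⁻¹ conjugated by an element of P i, = μ⁻¹) ∈ H (`mem_Lam`).
(⇐) If both letters are short (or none): explicit.
 First kind (d = some g): (a) s = some l long: l = (par i t, v) (generators have wl ≤ 1 ≤ L), p = c t v, wl p > L; apply `square` with d := g, d' := g' and the
 word [] or [nval l']: g, g' ∈ P i and the letter t is (some i, q), so t = some (par i t', v') with c t' v' = g⁻¹ p g' = p (g⁻¹ g').  By (cP i).tr t (g⁻¹ g') there
 are t'', w with c t v (g⁻¹ g') = c t'' (sh v w) for all v (Lam = ⊥), so by injectivity t'' = t', v' = sh v w, and for all v: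
 g * c t' (sh v w) = c t v * g' by commutativity.  So generic.
 (b) t = some l' long (s arbitrary): g⁻¹ * (val s) = (val t) * g'⁻¹ from g * val t = val s * g'; `square` with roles exchanged
 (wl of inverses: `RH.wl_inv`): g⁻¹, g'⁻¹ ∈ P i, s = some (par i t1, v1) with value in P i; as in (a) (now both letters are par i) get w.
 Second kind (d = none): (a) r not short: then r = (flat i x t, v) (xw is short by n0_w, h = 1), X := pt r, Flat i X (`flat_mul`, fl1), far X (E.short fails);
 Y := X * g'; Y = h pt r' ∈ R with h := X g' (pt r')⁻¹ ∈ H (`rs_left`, `pt_mem`), wl (X⁻¹ Y) = wl g' ≤ 2K.  `far_root`: g' ∈ P i, Y w0⁻¹ ∉ H, and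
 Flat j Y → j = i.  r' = xw: Y = h w0, contradiction.  r' = (flat j x' t', v'): Flat j (pt r'), so Flat j Y (`flat_left`), j = i; x = h x' (element of
 P i) so x = x' by fl3.  Then ν := c t v g' (c t' v')⁻¹ ∈ P i and x ν x⁻¹ ∈ H, so ν ∈ Lam.  (cF i x).tr t g': t'', w with (c t v g')⁻¹ c t'' (sh v w) ∈ Lam; so
 (c t' v')⁻¹ c t'' (sh v w) ∈ Lam (commutativity), t'' = t', v' = sh v w.  Generic (second kind).
 (b) r short, r' not short: the relation for (r', r, g'⁻¹) : pt r' g'⁻¹ (pt r)⁻¹ = h⁻¹; by (a) it is generic with vector w; then (r, r', g') is generic with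
 the vector w.map (-): see SemB `gen_inv`-type computation: v = sh v' w → v' = sh v (-w), and for all v: (c t v g')⁻¹ c t' (sh v (-w)) ∈ Lam.
`step_iff_sem` (⇒) tr: clear.  tg: (q, f, q') ∈ tg gives v' with SemStep q (f,v') q' and (f,v') not short, and ok (f,v), (f,v) not short.
 f = gen a: (gen a, []) is short (wl a ≤ 1 ≤ L): impossible.  f = xw: short.  f = par i t, t < m: v.length = r; p := c t v, p' := c t v' both wl > L;
 q = stt x, [(some i,p')] ∈ cone x, `long`: [(some i,p)] ∈ cone x; `generic`: cone (x p) = cone (x p').  f = flat i x t: q = none, both points far,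
 `gen_root`.
(⇐) short letter: tr.  Otherwise tg with v, ok by the definition of rk.
-/

namespace Pool.Agent.Lib.P77fd2d
namespace SemAux

theorem length_sh {v w : List ℤ} {r : ℕ} (hv : v.length = r) (hw : w.length = r) :
    (sh v w).length = r := by
  simp [sh, hv, hw]

theorem sh_neg {v w : List ℤ} {r : ℕ} (hv : v.length = r) (hw : w.length = r) :
    sh (sh v w) (w.map (fun z => -z)) = v := by
  apply List.ext_getElem
  · simp [sh, hv, hw]
  · intro i h1 h2
    simp [sh]

theorem sh_neg' {v w : List ℤ} {r : ℕ} (hv : v.length = r) (hw : w.length = r) :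
    sh (sh v (w.map (fun z => -z))) w = v := by
  apply List.ext_getElem
  · simp [sh, hv, hw]
  · intro i h1 h2
    simp [sh]

end SemAux

namespace Dat
open SemAux
variable {ι G : Type} [Group G] {E : Dat ι G}

theorem ok_of_isN {l : Lt (Fam ι G)} (h : E.isN l) : E.mach.ok l := by
  obtain ⟨f, v⟩ := l
  cases f with
  | gen a =>
    show v.length = 0
    rw [h.2]; rfl
  | par i t =>
    show v.length = E.rk (.par i t)
    simp only [rk]
    rw [if_pos h.1]; exact h.2
  | flat i x t => exact absurd h (by simp [isN])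
  | xw => exact absurd h (by simp [isN])

theorem ok_of_isR {l : Lt (Fam ι G)} (h : E.isR l) : E.mach.ok l := by
  obtain ⟨f, v⟩ := l
  cases f with
  | gen a => exact absurd h (by simp [isR])
  | par i t => exact absurd h (by simp [isR])
  | flat i x t =>
    show v.length = E.rk (.flat i x t)
    simp only [rk]
    rw [if_pos ⟨h.1, h.2.1⟩]; exact h.2.2
  | xw =>
    show v.length = 0
    have : v = [] := h
    rw [this]; rfl

theorem semA_comm (hE : E.Fact) {i : ι} {x y : G} (hx : x ∈ E.S.P i) (hy : y ∈ E.S.P i) :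
    x * y = y * x := hE.good.comm i x hx y hy

theorem semA_lam_comm {i : ι} {x p : G} (hp : p ∈ Lam E.S E.H i x) :
    p ∈ E.S.P i := (mem_Lam.1 hp).1

/-- a generic square is semantic -/
theorem semA_gen (hE : E.Fact) {d d' : Option G} {f f' : Fam ι G} {v w : List ℤ}
    (hok : E.mach.ok (f, v)) (h : (d, f, f', d', w) ∈ E.genS) :
    E.SemNd d (some (f, v)) (some (f', sh v w)) d' := by
  rcases h with ⟨i, t, t', g, g', w', e, h1, h2, h3, h4, h5, h6, h7, h8⟩ |
    ⟨i, x, t, t', g, w', e, h1, h2, h3, h4, h5, h6, h7⟩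
  · simp only [Prod.mk.injEq] at e
    obtain ⟨rfl, rfl, rfl, rfl, rfl⟩ := e
    have hv : v.length = (E.cP i).r := by
      have : v.length = E.rk (.par i t) := hok
      simpa [rk, h5] using this
    left
    exact ⟨g, g', rfl, rfl, h3, h4, ⟨h5, hv⟩, ⟨h6, length_sh hv h7⟩, h8 v hv⟩
  · simp only [Prod.mk.injEq] at e
    obtain ⟨rfl, rfl, rfl, rfl, rfl⟩ := e
    have hv : v.length = (E.cF i x).r := by
      have : v.length = E.rk (.flat i x t) := hok
      simpa [rk, h1, h4] using this
    right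
    refine ⟨rfl, (.flat i x t, v), (.flat i x t', sh v w), g, rfl, rfl, ⟨h1, h4, hv⟩,
      ⟨h1, h5, length_sh hv h6⟩, rfl, h3, ?_⟩
    have h8 := h7 v hv
    have c1 : (E.cF i x).c t v ∈ E.S.P i := (E.cF i x).mem t v h4 hv
    have c2 : (E.cF i x).c t' (sh v w) ∈ E.S.P i := (E.cF i x).mem t' _ h5 (length_sh hv h6)
    have h9 := (mem_Lam.1 h8).2
    show x * (E.cF i x).c t v * g * (x * (E.cF i x).c t' (sh v w))⁻¹ ∈ E.H
    have e1 : (E.cF i x).c t v * g * ((E.cF i x).c t' (sh v w))⁻¹ =
        (((E.cF i x).c t v * g)⁻¹ * (E.cF i x).c t' (sh v w))⁻¹ := by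
      have := semA_comm hE ((E.S.P i).mul_mem c1 h2) ((E.S.P i).inv_mem c2)
      rw [this]
      group
    have e2 : x * (E.cF i x).c t v * g * (x * (E.cF i x).c t' (sh v w))⁻¹ =
        (x * (((E.cF i x).c t v * g)⁻¹ * (E.cF i x).c t' (sh v w)) * x⁻¹)⁻¹ := by
      calc x * (E.cF i x).c t v * g * (x * (E.cF i x).c t' (sh v w))⁻¹
          = x * ((E.cF i x).c t v * g * ((E.cF i x).c t' (sh v w))⁻¹) * x⁻¹ := by group
        _ = x * (((E.cF i x).c t v * g)⁻¹ * (E.cF i x).c t' (sh v w))⁻¹ * x⁻¹ := by rw [e1]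
        _ = _ := by group
    rw [e2]
    exact E.H.inv_mem h9

/-- first kind: peripheral square inside the peripheral subgroup is generic -/
theorem semA_par (hE : E.Fact) {i : ι} {t t' : ℕ} {v v' : List ℤ} {g g' : G}
    (h1 : g ∈ E.S.P i) (h2 : g' ∈ E.S.P i) (h3 : E.S.wl g ≤ 2 * E.K) (h4 : E.S.wl g' ≤ 2 * E.K)
    (ht : t < (E.cP i).m) (ht' : t' < (E.cP i).m) (hv : v.length = (E.cP i).r)
    (hv' : v'.length = (E.cP i).r) (h : g * (E.cP i).c t' v' = (E.cP i).c t v * g') :
    ∃ w, v' = sh v w ∧ (some g, Fam.par i t, Fam.par i t', some g', w) ∈ E.genS := by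
  obtain ⟨t'', w, h5, h6, h7⟩ := (E.cP i).tr t ht (g⁻¹ * g')
    ((E.S.P i).mul_mem ((E.S.P i).inv_mem h1) h2)
  have key : ∀ u : List ℤ, u.length = (E.cP i).r →
      (E.cP i).c t'' (sh u w) = (E.cP i).c t u * (g⁻¹ * g') := by
    intro u hu
    have := h7 u hu
    rw [Subgroup.mem_bot] at this
    exact (inv_mul_eq_one.1 this).symm
  have c1 : (E.cP i).c t' v' = (E.cP i).c t v * (g⁻¹ * g') := by
    have c2 : (E.cP i).c t v ∈ E.S.P i := (E.cP i).mem t v ht hv
    have : (E.cP i).c t' v' = g⁻¹ * ((E.cP i).c t v * g') := by rw [← h]; group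
    rw [this, ← mul_assoc, semA_comm hE ((E.S.P i).inv_mem h1) c2, mul_assoc]
  have h8 := (E.cP i).inj t' v' t'' (sh v w) ht' h5 hv' (length_sh hv h6) (by
    rw [key v hv, c1, inv_mul_cancel]
    exact Subgroup.one_mem _)
  obtain ⟨h9, h10⟩ := h8
  subst h9
  refine ⟨w, h10, Or.inl ⟨i, t, t', g, g', w, rfl, h1, h2, h3, h4, ht, ht', h6, ?_⟩⟩
  intro u hu
  rw [key u hu]
  have c2 : (E.cP i).c t u ∈ E.S.P i := (E.cP i).mem t u ht hu
  rw [← mul_assoc, semA_comm hE h1 c2]
  group

/-- optional letter as a word -/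
def semA_w (E : Dat ι G) (t : Option (Lt (Fam ι G))) : List (Ltr ι G) := t.toList.map E.nval

theorem semA_w_ok {t : Option (Lt (Fam ι G))} (h : E.isNo t) : E.S.Ok (semA_w E t) := by
  cases t with
  | none => simp [semA_w]
  | some l => simpa [semA_w] using nval_ok h

theorem semA_w_len (t : Option (Lt (Fam ι G))) : (semA_w E t).length ≤ 1 := by
  cases t <;> simp [semA_w]

theorem semA_w_ev (t : Option (Lt (Fam ι G))) : ev (semA_w E t) = E.oval t := by
  cases t <;> simp [semA_w, oval]

/-- a long normal letter is a peripheral letter -/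
theorem semA_long (hE : E.Fact) {l : Lt (Fam ι G)} (hl : E.isN l) (hs : ¬ E.short l) :
    ∃ i t v, l = (.par i t, v) ∧ t < (E.cP i).m ∧ v.length = (E.cP i).r ∧
      E.L < E.S.wl ((E.cP i).c t v) := by
  obtain ⟨f, v⟩ := l
  cases f with
  | gen a =>
    exfalso
    apply hs
    left
    refine ⟨hl, ?_⟩
    show E.S.wl a ≤ E.L
    exact (RH.wl_le_one hl.1).trans hE.L1
  | par i t =>
    refine ⟨i, t, v, rfl, hl.1, hl.2, ?_⟩
    by_contra hcon
    exact hs (Or.inl ⟨hl, not_lt.1 hcon⟩)
  | flat i x t => exact absurd hl (by simp [isN])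
  | xw => exact absurd hl (by simp [isN])

/-- a long root letter is a far point of a flat -/
theorem semA_far (hE : E.Fact) {l : Lt (Fam ι G)} (hl : E.isR l) (hs : ¬ E.short l) :
    ∃ i x t v, l = (.flat i x t, v) ∧ (i, x) ∈ E.FL ∧ t < (E.cF i x).m ∧
      v.length = (E.cF i x).r ∧ E.far (E.pt l) := by
  have hfar : E.far (E.pt l) := by
    intro h hh
    by_contra hcon
    exact hs (Or.inr ⟨hl, h, hh, not_lt.1 hcon⟩)
  obtain ⟨f, v⟩ := l
  cases f with
  | gen a => exact absurd hl (by simp [isR])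
  | par i t => exact absurd hl (by simp [isR])
  | flat i x t => exact ⟨i, x, t, v, rfl, hl.1, hl.2.1, hl.2.2, hfar⟩
  | xw =>
    exfalso
    have := hfar 1 E.H.one_mem
    have h2 := hE.n0_w
    simp only [inv_one, one_mul, pt] at this
    omega

theorem semA_flat_pt (hE : E.Fact) {i : ι} {x : G} {t : ℕ} {v : List ℤ} (h1 : (i, x) ∈ E.FL)
    (h2 : t < (E.cF i x).m) (h3 : v.length = (E.cF i x).r) :
    E.S.Flat E.H E.i0 i (E.pt (.flat i x t, v)) :=
  (RH.flat_mul hE.good ((E.cF i x).mem t v h2 h3)).2 (hE.fl1 _ h1)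

/-- second kind: the first root letter is long -/
theorem semA_root (hE : E.Fact) {r r' : Lt (Fam ι G)} {g : G} (hr : E.isR r) (hr' : E.isR r')
    (hs : ¬ E.short r) (hg : E.S.wl g ≤ 2 * E.K) (h : E.pt r * g * (E.pt r')⁻¹ ∈ E.H) :
    ∃ i x t v t' v', r = (.flat i x t, v) ∧ r' = (.flat i x t', v') ∧ v.length = (E.cF i x).r ∧
      ∃ w, v' = sh v w ∧ w.length = (E.cF i x).r ∧
      (none, Fam.flat i x t, Fam.flat i x t', some g, w) ∈ E.genS := by
  obtain ⟨i, x, t, v, rfl, h1, h2, h3, hfar⟩ := semA_far hE hr hs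
  have hfl := semA_flat_pt hE h1 h2 h3
  set X := E.pt (Fam.flat i x t, v) with hX
  have hXdef : X = x * (E.cF i x).c t v := rfl
  set Y := X * g with hY
  have hYh : Y = (X * g * (E.pt r')⁻¹) * E.pt r' := by rw [hY]; group
  have hYR : Y ∈ E.R := by
    rw [hYh]
    exact (RH.rs_left h).2 (pt_mem hE hr')
  have hXY : X⁻¹ * Y = g := by rw [hY]; group
  obtain ⟨f1, f2, f3⟩ := hE.far_root i X hfl hfar Y hYR (by rw [hXY]; exact hg)
  rw [hXY] at f1
  obtain ⟨f, v'⟩ := r'
  cases f with
  | gen a => exact absurd hr' (by simp [isR])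
  | par j t' => exact absurd hr' (by simp [isR])
  | xw =>
    exfalso
    apply f2
    have : Y * E.w0⁻¹ = X * g * (E.pt (Fam.xw, v'))⁻¹ := rfl
    rw [this]; exact h
  | flat j x' t' =>
    obtain ⟨g1, g2, g3⟩ := hr'
    have hfl' := semA_flat_pt hE g1 g2 g3
    have hj : j = i := by
      apply f3 j
      rw [hYh]
      exact (RH.flat_left h).2 hfl'
    subst hj
    have c1 : (E.cF j x).c t v ∈ E.S.P j := (E.cF j x).mem t v h2 h3
    have c2 : (E.cF j x').c t' v' ∈ E.S.P j := (E.cF j x').mem t' v' g2 g3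
    have hxx : x = x' := by
      apply hE.fl3 j x x' h1 g1
      refine ⟨X * g * (E.pt (Fam.flat j x' t', v'))⁻¹, h,
        (E.cF j x').c t' v' * (g⁻¹ * ((E.cF j x).c t v)⁻¹),
        (E.S.P j).mul_mem c2 ((E.S.P j).mul_mem ((E.S.P j).inv_mem f1) ((E.S.P j).inv_mem c1)), ?_⟩
      show x = x * (E.cF j x).c t v * g * (x' * (E.cF j x').c t' v')⁻¹ * x' *
        ((E.cF j x').c t' v' * (g⁻¹ * ((E.cF j x).c t v)⁻¹))
      group
    subst hxx
    refine ⟨j, x, t, v, t', v', rfl, rfl, h3, ?_⟩
    obtain ⟨t'', w, k1, k2, k3⟩ := (E.cF j x).tr t h2 g f1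
    -- the relation modulo Lam
    have hν : ((E.cF j x).c t v * g)⁻¹ * (E.cF j x).c t' v' ∈ Lam E.S E.H j x := by
      rw [mem_Lam]
      refine ⟨(E.S.P j).mul_mem ((E.S.P j).inv_mem ((E.S.P j).mul_mem c1 f1)) c2, ?_⟩
      have e1 : ((E.cF j x).c t v * g)⁻¹ * (E.cF j x).c t' v' =
          ((E.cF j x).c t v * g * ((E.cF j x).c t' v')⁻¹)⁻¹ := by
        rw [semA_comm hE ((E.S.P j).inv_mem ((E.S.P j).mul_mem c1 f1)) c2]
        group
      rw [e1]
      have e2 : x * ((E.cF j x).c t v * g * ((E.cF j x).c t' v')⁻¹)⁻¹ * x⁻¹ =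
          (x * (E.cF j x).c t v * g * (x * (E.cF j x).c t' v')⁻¹)⁻¹ := by group
      rw [e2]
      exact E.H.inv_mem h
    have h8 := (E.cF j x).inj t' v' t'' (sh v w) g2 k1 g3 (length_sh h3 k2) (by
      have a1 := k3 v h3
      have a2 := (Lam E.S E.H j x).mul_mem ((Lam E.S E.H j x).inv_mem hν) a1
      have e : (((E.cF j x).c t v * g)⁻¹ * (E.cF j x).c t' v')⁻¹ *
          (((E.cF j x).c t v * g)⁻¹ * (E.cF j x).c t'' (sh v w)) =
          ((E.cF j x).c t' v')⁻¹ * (E.cF j x).c t'' (sh v w) := by group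
      rwa [e] at a2)
    obtain ⟨h9, h10⟩ := h8
    subst h9
    exact ⟨w, h10, k2, Or.inr ⟨j, x, t, t', g, w, rfl, h1, f1, hg, h2, g2, k2, k3⟩⟩

/-- inverse of a generic root square -/
theorem semA_inv (hE : E.Fact) {i : ι} {x : G} {t t' : ℕ} {g : G} {w : List ℤ}
    (h : (none, Fam.flat i x t, Fam.flat i x t', some g, w) ∈ E.genS) :
    (none, Fam.flat i x t', Fam.flat i x t, some g⁻¹, w.map (fun z => -z)) ∈ E.genS := by
  rcases h with ⟨i, t, t', g, g', w', e, _⟩ |
    ⟨i', x', s, s', g', w', e, h1, h2, h3, h4, h5, h6, h7⟩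
  · simp at e
  · simp only [Prod.mk.injEq, Fam.flat.injEq, Option.some.injEq, true_and] at e
    obtain ⟨⟨rfl, rfl, rfl⟩, ⟨_, _, rfl⟩, rfl, rfl⟩ := e
    right
    refine ⟨i, x, t', t, g⁻¹, _, rfl, h1, (E.S.P i).inv_mem h2, by rw [RH.wl_inv hE.good]; exact h3,
      h5, h4, by simpa using h6, ?_⟩
    intro v hv
    set v' := sh v (w.map (fun z => -z)) with hv'
    have hl : v'.length = (E.cF i x).r := length_sh hv (by simpa using h6)
    have e1 : sh v' w = v := sh_neg' hv h6
    have a1 := h7 v' hl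
    rw [e1] at a1
    have c1 : (E.cF i x).c t v' ∈ E.S.P i := (E.cF i x).mem t v' h4 hl
    have c2 : (E.cF i x).c t' v ∈ E.S.P i := (E.cF i x).mem t' v h5 hv
    have e2 : ((E.cF i x).c t' v * g⁻¹)⁻¹ * (E.cF i x).c t v' =
        (((E.cF i x).c t v' * g)⁻¹ * (E.cF i x).c t' v)⁻¹ := by
      have b1 := semA_comm hE h2 ((E.S.P i).mul_mem ((E.S.P i).inv_mem c2) c1)
      calc ((E.cF i x).c t' v * g⁻¹)⁻¹ * (E.cF i x).c t v'
          = g * (((E.cF i x).c t' v)⁻¹ * (E.cF i x).c t v') := by group
        _ = ((E.cF i x).c t' v)⁻¹ * (E.cF i x).c t v' * g := b1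
        _ = _ := by group
    rw [e2]
    exact (Lam E.S E.H i x).inv_mem a1

theorem nd_iff_sem (hE : E.Fact) (d : Option G) (s t : Option (Lt (Fam ι G))) (d' : Option G) :
    E.mach.nd d s t d' ↔ E.SemNd d s t d' := by
  constructor
  · rintro (h | ⟨f, v, f', w, rfl, rfl, h3, h4⟩)
    · exact h.1
    · exact semA_gen hE h3 h4
  · intro h
    by_cases hs : E.shortO s
    · by_cases ht : E.shortO t
      · exact Or.inl ⟨h, hs, ht⟩
      · -- t long
        right
        cases t with
        | none => exact absurd trivial ht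
        | some l =>
          have ht : ¬ E.short l := ht
          rcases h with ⟨g, g', rfl, rfl, h1, h2, h3, h4, h5⟩ | ⟨rfl, r, r', g', rfl, e, h1, h2, rfl, h3, h4⟩
          · obtain ⟨i, t', v', rfl, k1, k2, k3⟩ := semA_long hE h4 ht
            have hq : (E.cP i).c t' v' ∈ E.S.P i := (E.cP i).mem t' v' k1 k2
            have hsq := hE.square i ((E.cP i).c t' v') g⁻¹ g'⁻¹
              (semA_w E s) hq k3
              (by rw [RH.wl_inv hE.good]; exact h1) (by rw [RH.wl_inv hE.good]; exact h2)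
              (semA_w_ok h3) (semA_w_len s)
              (by
                rw [semA_w_ev]
                have h5' : g * (E.cP i).c t' v' = E.oval s * g' := h5
                have : E.oval s = g * (E.cP i).c t' v' * g'⁻¹ := by rw [h5']; group
                rw [this]; group)
            obtain ⟨q1, q2, q, q3, q4⟩ := hsq
            cases s with
            | none => simp [semA_w] at q4
            | some l =>
              simp only [semA_w, Option.toList_some, List.map_cons, List.map_nil, List.cons.injEq,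
                and_true] at q4
              obtain ⟨f, v⟩ := l
              cases f with
              | gen a => simp [nval] at q4
              | flat i x t => exact absurd h3 (by simp [isNo, isN])
              | xw => exact absurd h3 (by simp [isNo, isN])
              | par j t =>
                simp only [nval, Prod.mk.injEq, Option.some.injEq] at q4
                obtain ⟨rfl, _⟩ := q4
                have h3N : E.isN (Fam.par j t, v) := h3
                obtain ⟨b1, b2⟩ : t < (E.cP j).m ∧ v.length = (E.cP j).r := h3N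
                obtain ⟨w, e1, e2⟩ := semA_par hE (by simpa using q1) (by simpa using q2) h1 h2 b1 k1
                  b2 k2 h5
                exact ⟨.par j t, v, .par j t', w, rfl, by rw [e1], ok_of_isN (l := (Fam.par j t, v)) ⟨b1, b2⟩, e2⟩
          · cases e
            have h5 : E.pt l * g'⁻¹ * (E.pt r)⁻¹ ∈ E.H := by
              have := E.H.inv_mem h4
              have e : (E.pt r * g' * (E.pt l)⁻¹)⁻¹ = E.pt l * g'⁻¹ * (E.pt r)⁻¹ := by group
              rwa [e] at this
            obtain ⟨i, x, t, v, t', v', rfl, rfl, hv, w, rfl, hw, hgen⟩ :=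
              semA_root hE h2 h1 ht (by rw [RH.wl_inv hE.good]; exact h3) h5
            have := semA_inv hE hgen
            rw [inv_inv] at this
            refine ⟨_, _, _, _, rfl, ?_, ok_of_isR h1, this⟩
            rw [sh_neg hv hw]
    · right
      cases s with
      | none => exact absurd trivial hs
      | some l =>
        have hs : ¬ E.short l := hs
        rcases h with ⟨g, g', rfl, rfl, h1, h2, h3, h4, h5⟩ | ⟨rfl, r, r', g', e, rfl, h1, h2, rfl, h3, h4⟩
        · obtain ⟨i, t', v', rfl, k1, k2, k3⟩ := semA_long hE h3 hs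
          have hq : (E.cP i).c t' v' ∈ E.S.P i := (E.cP i).mem t' v' k1 k2
          have hsq := hE.square i ((E.cP i).c t' v') g g'
            (semA_w E t) hq k3 h1 h2 (semA_w_ok h4) (semA_w_len t) (by rw [semA_w_ev]; exact h5)
          obtain ⟨q1, q2, q, q3, q4⟩ := hsq
          cases t with
          | none => simp [semA_w] at q4
          | some l =>
            simp only [semA_w, Option.toList_some, List.map_cons, List.map_nil, List.cons.injEq,
              and_true] at q4
            obtain ⟨f, v⟩ := l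
            cases f with
            | gen a => simp [nval] at q4
            | flat i x t => exact absurd h4 (by simp [isNo, isN])
            | xw => exact absurd h4 (by simp [isNo, isN])
            | par j t =>
              simp only [nval, Prod.mk.injEq, Option.some.injEq] at q4
              obtain ⟨rfl, _⟩ := q4
              obtain ⟨b1, b2⟩ : t < (E.cP j).m ∧ v.length = (E.cP j).r := h4
              obtain ⟨w, e1, e2⟩ := semA_par hE q1 q2 h1 h2 k1 b1 k2 b2 h5
              exact ⟨.par j t', v', .par j t, w, rfl, by rw [e1], ok_of_isN h3, e2⟩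
        · cases e
          obtain ⟨i, x, t, v, t', v', rfl, rfl, hv, w, rfl, hw, hgen⟩ := semA_root hE h1 h2 hs h3 h4
          exact ⟨_, _, _, _, rfl, rfl, ok_of_isR h1, hgen⟩

theorem step_iff_sem (hE : E.Fact) (q : E.St) (l : Lt (Fam ι G)) (q' : E.St) :
    E.mach.step q l q' ↔ E.SemStep q l q' := by
  constructor
  · rintro (h | ⟨hok, hz, v', hst, hlong⟩)
    · exact h.1
    · have hz : ¬ E.short l := hz
      obtain ⟨f, v⟩ := l
      simp only at hst hlong
      rcases hst with ⟨rfl, hR, rfl⟩ | ⟨x, rfl, hN, hc, rfl⟩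
      · obtain ⟨i, x, t, v1, e, h1, h2, h3, hfar⟩ := semA_far hE hR hlong
        simp only [Prod.mk.injEq] at e
        obtain ⟨rfl, rfl⟩ := e
        have hv : v.length = (E.cF i x).r := by
          have : v.length = E.rk (.flat i x t) := hok
          simpa [rk, h1, h2] using this
        have hR' : E.isR (Fam.flat i x t, v) := ⟨h1, h2, hv⟩
        obtain ⟨_, _, _, _, _, _, _, _, hfar'⟩ := semA_far hE hR' hz
        left
        refine ⟨rfl, hR', ?_⟩
        apply stt_eq
        exact hE.gen_root i _ _ (semA_flat_pt hE h1 h2 h3) (semA_flat_pt hE h1 h2 hv) hfar hfar'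
      · obtain ⟨i, t, v1, e, h1, h2, h3⟩ := semA_long hE hN hlong
        simp only [Prod.mk.injEq] at e
        obtain ⟨rfl, rfl⟩ := e
        have hv : v.length = (E.cP i).r := by
          have : v.length = E.rk (.par i t) := hok
          simpa [rk, h1] using this
        have hN' : E.isN (Fam.par i t, v) := ⟨h1, hv⟩
        obtain ⟨i', t', v2, e', _, _, h3'⟩ := semA_long hE hN' hz
        simp only [Prod.mk.injEq, Fam.par.injEq] at e'
        obtain ⟨⟨rfl, rfl⟩, rfl⟩ := e'
        have c1 : (E.cP i).c t v' ∈ E.S.P i := (E.cP i).mem t v' h1 h2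
        have c2 : (E.cP i).c t v ∈ E.S.P i := (E.cP i).mem t v h1 hv
        have hc' := hE.long i x _ _ c1 c2 h3' hc
        right
        refine ⟨x, rfl, hN', hc', ?_⟩
        apply stt_eq
        exact hE.generic i x _ x _ c1 c2 h3 h3' hc hc'
  · intro h
    by_cases hs : E.short l
    · exact Or.inl ⟨h, hs⟩
    · right
      refine ⟨?_, hs, l.2, h, hs⟩
      rcases h with ⟨_, hR, _⟩ | ⟨_, _, hN, _⟩
      · exact ok_of_isR hR
      · exact ok_of_isN hN

end Dat
end Pool.Agent.Lib.P77fd2d
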