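import Pool.Agent.Lib.P77fd2d.SemA

/-!
# MODULE P77fd2d.SemB  (1.5h)   black box: SemA (only `ok_of_isN`, `ok_of_isR`)

Finiteness and genericity conditions (`Nice`) of the semantic machine.

* Finite set of valid families: gen a (a ∈ A finite), par i t (i : ι finite, t < (cP i).m), flat i x t ((i,x) ∈ FL, t < m), xw.
* zone: short letters: (gen a, []), (par i t, v) with wl (c t v) ≤ L (finite because (t,v) ↦ c t v is injective, `inj` with Lam = ⊥, and balls are finite,
  `RH.ball_finite`); (flat i x t, v) with x c t v = h b, wl b ≤ n0: for fixed (i,x,t) the map v ↦ (some b in the finite ball with x c t v ∈ H b) is injective: if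
  x c t v = h b, x c t v' = h' b then x (c t v (c t v')⁻¹) x⁻¹ = h h'⁻¹ ∈ H so (commutativity) (c t v)⁻¹ c t v' ∈ Lam, v = v'.
* exp ⊆ ball × zone-or-none × zone-or-none × ball (d = none or some g with wl g ≤ 2K); note that a short `Option` letter is none or in the zone.
* tr ⊆ St × zone × St, St finite (`cone_fin`).  tg ⊆ St × (valid families) × St.
* gen: d, d' in a finite set, families valid; w is determined by the rest: first kind: at v = replicate r 0, sh v w = w and
  c t' w = g⁻¹ c t v g', `inj`; second kind: c t' w is determined modulo Lam.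
* gen_inv first kind: (some g⁻¹, par i t', par i t, some g'⁻¹, -w): for v let v' = sh v (-w), sh v' w = v, g c t' v = c t v' g', so
  g⁻¹ c t v' = c t' v g'⁻¹.  Second kind (d = none = inv none): with v' = sh v (-w), μ = (c t v' g)⁻¹ c t' v ∈ Lam, (c t' v g⁻¹)⁻¹ c t v' = μ⁻¹ by commutativity.
* gen_mul first kind: (some (g h), t, t'', some (g' h'), sh w w'), wl (g h) ≤ 2K because both are in inD; g h c t'' (sh (sh v w) w') =
  g c t' (sh v w) h' = c t v g' h'; `sh (sh v w) w' = sh v (sh w w')`.  second kind: d = e = none, mul none none = none, (none, t, t'', some (g h), sh w w').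
* tg_gen0: (none, f, x') ∈ tg: SemStep none (f,v) _ with (f,v) not short: f = flat i x t valid: vector 0, element 1.
  tg_gen1: f = par i t.  tg_rk: by `L_fin`, `n0_fin`, a non-short letter has r > 0 (if r = 0 then v = [] and it is short); (gen a, []) and (xw, []) are short
  (L1, wl a ≤ 1; n0_w with h = 1).
-/

namespace Pool.Agent.Lib.P77fd2d
namespace Dat
variable {ι G : Type} [Group G] {E : Dat ι G}

/-! ### lists -/

private theorem sh_len {v w : List ℤ} {r : ℕ} (hv : v.length = r) (hw : w.length = r) :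
    (sh v w).length = r := by
  simp [sh, hv, hw]

private theorem sh_zero_right (v : List ℤ) {r : ℕ} (hv : v.length = r) :
    sh v (List.replicate r 0) = v := by
  subst hv
  induction v with
  | nil => simp [sh]
  | cons a v ih =>
    simp only [sh, List.length_cons, List.replicate_succ, List.zipWith_cons_cons, add_zero]
    congr 1

private theorem sh_zero_left (w : List ℤ) {r : ℕ} (hw : w.length = r) :
    sh (List.replicate r 0) w = w := by
  subst hw
  induction w with
  | nil => simp [sh]
  | cons a v ih =>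
    simp only [sh, List.length_cons, List.replicate_succ, List.zipWith_cons_cons, zero_add]
    congr 1

private theorem sh_assoc (u v w : List ℤ) : sh (sh u v) w = sh u (sh v w) := by
  induction u generalizing v w with
  | nil => simp [sh]
  | cons a u ih =>
    cases v with
    | nil => simp [sh]
    | cons b v =>
      cases w with
      | nil => simp [sh]
      | cons c w =>
        simp only [sh, List.zipWith_cons_cons, List.cons.injEq]
        refine ⟨by ring, ?_⟩
        exact ih v w

private theorem sh_neg (v w : List ℤ) (h : v.length = w.length) :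
    sh (sh v (w.map (fun z => -z))) w = v := by
  induction v generalizing w with
  | nil => simp [sh]
  | cons a v ih =>
    cases w with
    | nil => simp at h
    | cons b w =>
      simp only [sh, List.map_cons, List.zipWith_cons_cons, List.cons.injEq]
      refine ⟨by ring, ?_⟩
      exact ih w (by simpa using h)

/-! ### valid families -/

private def vf (E : Dat ι G) : Set (Fam ι G) :=
  (((Fam.gen '' E.S.A) ∪ (⋃ i : ι, (fun t => Fam.par i t) '' {t | t < (E.cP i).m})) ∪
    (⋃ q ∈ E.FL, (fun t => Fam.flat q.1 q.2 t) '' {t | t < (E.cF q.1 q.2).m})) ∪ {Fam.xw}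

private theorem vf_fin [Finite ι] (hE : E.Fact) : (vf E).Finite := by
  unfold vf
  refine Set.Finite.union (Set.Finite.union (Set.Finite.union (hE.good.finA.image _) ?_) ?_)
    (Set.finite_singleton _)
  · exact Set.finite_iUnion fun i => (Set.finite_lt_nat _).image _
  · exact hE.fl_fin.biUnion fun q _ => (Set.finite_lt_nat _).image _

private theorem vf_gen {a : G} (h : a ∈ E.S.A) : Fam.gen a ∈ vf E :=
  Or.inl (Or.inl (Or.inl ⟨a, h, rfl⟩))

private theorem vf_par {i : ι} {t : ℕ} (h : t < (E.cP i).m) : Fam.par i t ∈ vf E :=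
  Or.inl (Or.inl (Or.inr (Set.mem_iUnion.2 ⟨i, t, h, rfl⟩)))

private theorem vf_flat {i : ι} {x : G} {t : ℕ} (h1 : (i, x) ∈ E.FL) (h : t < (E.cF i x).m) :
    Fam.flat i x t ∈ vf E :=
  Or.inl (Or.inr (Set.mem_iUnion₂.2 ⟨(i, x), h1, t, h, rfl⟩))

private theorem vf_xw : (Fam.xw : Fam ι G) ∈ vf E := Or.inr rfl

private theorem vf_isN {l : Lt (Fam ι G)} (h : E.isN l) : l.1 ∈ vf E := by
  obtain ⟨f, v⟩ := l
  cases f with
  | gen a => exact vf_gen h.1
  | par i t => exact vf_par h.1
  | flat i x t => exact absurd h (by simp [isN])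
  | xw => exact absurd h (by simp [isN])

private theorem vf_isR {l : Lt (Fam ι G)} (h : E.isR l) : l.1 ∈ vf E := by
  obtain ⟨f, v⟩ := l
  cases f with
  | gen a => exact absurd h (by simp [isR])
  | par i t => exact absurd h (by simp [isR])
  | flat i x t => exact vf_flat h.1 h.2.1
  | xw => exact vf_xw

/-- coset equality in a commutative subgroup -/
private theorem lam_of (hE : E.Fact) {i : ι} {x p q : G} (hp : p ∈ E.S.P i) (hq : q ∈ E.S.P i)
    {h h' b : G} (hh : h ∈ E.H) (hh' : h' ∈ E.H) (e : x * p = h * b) (e' : x * q = h' * b) :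
    p⁻¹ * q ∈ Lam E.S E.H i x := by
  rw [mem_Lam]
  refine ⟨(E.S.P i).mul_mem ((E.S.P i).inv_mem hp) hq, ?_⟩
  have hc : p⁻¹ * q = q * p⁻¹ := hE.good.comm i _ ((E.S.P i).inv_mem hp) _ hq
  have e2 : x * (p⁻¹ * q) * x⁻¹ = h' * h⁻¹ := by
    rw [hc]
    have e3 : x * (q * p⁻¹) * x⁻¹ = (x * q) * (x * p)⁻¹ := by group
    rw [e3, e, e']
    group
  rw [e2]
  exact E.H.mul_mem hh' (E.H.inv_mem hh)

/-! ### the zone -/

theorem zone_fin [Finite ι] (hE : E.Fact) : {l | E.short l}.Finite := by
  classical
  have h1 : {l : Lt (Fam ι G) | E.isN l ∧ E.S.wl (E.nval l).2 ≤ E.L}.Finite := by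
    refine Set.Finite.of_injOn (f := fun l => (l.1, (E.nval l).2))
      (t := (vf E) ×ˢ {g | E.S.wl g ≤ E.L}) ?_ ?_
      ((vf_fin hE).prod (RH.ball_finite hE.good _))
    · rintro l ⟨h1, h2⟩
      exact ⟨vf_isN h1, h2⟩
    · rintro ⟨f, v⟩ ⟨h1, h2⟩ ⟨f', v'⟩ ⟨h1', h2'⟩ h
      simp only [Prod.mk.injEq] at h
      obtain ⟨rfl, h⟩ := h
      cases f with
      | gen a =>
        rw [h1.2, h1'.2]
      | par i t =>
        simp only [nval] at h
        obtain ⟨_, e⟩ := (E.cP i).inj t v t v' h1.1 h1.1 h1.2 h1'.2 (by rw [h]; simp)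
        rw [e]
      | flat i x t => exact absurd h1 (by simp [isN])
      | xw => exact absurd h1 (by simp [isN])
  have h2 : {l : Lt (Fam ι G) | E.isR l ∧ ∃ h ∈ E.H, E.S.wl (h⁻¹ * E.pt l) ≤ E.n0}.Finite := by
    refine Set.Finite.of_injOn
      (f := fun l => (l.1, if h : ∃ h ∈ E.H, E.S.wl (h⁻¹ * E.pt l) ≤ E.n0 then
        h.choose⁻¹ * E.pt l else 1))
      (t := (vf E) ×ˢ {g | E.S.wl g ≤ E.n0}) ?_ ?_
      ((vf_fin hE).prod (RH.ball_finite hE.good _))
    · rintro l ⟨h1, h2⟩
      refine ⟨vf_isR h1, ?_⟩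
      simp only [Set.mem_ofPred_eq]
      rw [dif_pos h2]
      exact h2.choose_spec.2
    · rintro ⟨f, v⟩ ⟨h1, h2⟩ ⟨f', v'⟩ ⟨h1', h2'⟩ h
      simp only [Prod.mk.injEq] at h
      obtain ⟨rfl, h⟩ := h
      rw [dif_pos h2, dif_pos h2'] at h
      cases f with
      | gen a => exact absurd h1 (by simp [isR])
      | par i t => exact absurd h1 (by simp [isR])
      | flat i x t =>
        have hp := (E.cF i x).mem t v h1.2.1 h1.2.2
        have hq := (E.cF i x).mem t v' h1'.2.1 h1'.2.2
        have := lam_of hE (x := x) (p := (E.cF i x).c t v) (q := (E.cF i x).c t v') hp hq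
          (h := h2.choose) (h' := h2'.choose) (b := h2.choose⁻¹ * E.pt (.flat i x t, v))
          h2.choose_spec.1 h2'.choose_spec.1 (by simp [pt]) (by rw [h]; simp [pt])
        obtain ⟨_, e⟩ := (E.cF i x).inj t v t v' h1.2.1 h1.2.1 h1.2.2 h1'.2.2 this
        rw [e]
      | xw =>
        have e1 : v = [] := h1
        have e2 : v' = [] := h1'
        rw [e1, e2]
  exact (h1.union h2).subset (fun l hl => hl)

/-! ### auxiliary finite sets -/

private theorem optball_fin (hE : E.Fact) (n : ℕ) :
    {d : Option G | d = none ∨ ∃ g, d = some g ∧ E.S.wl g ≤ n}.Finite := by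
  refine ((Set.finite_singleton none).union
    ((RH.ball_finite hE.good n).image some)).subset ?_
  rintro d (rfl | ⟨g, rfl, hg⟩)
  · exact Or.inl rfl
  · exact Or.inr ⟨g, hg, rfl⟩

private theorem shortO_fin [Finite ι] (hE : E.Fact) :
    {s : Option (Lt (Fam ι G)) | E.shortO s}.Finite := by
  refine ((Set.finite_singleton none).union ((zone_fin hE).image some)).subset ?_
  rintro s hs
  cases s with
  | none => exact Or.inl rfl
  | some l => exact Or.inr ⟨l, hs, rfl⟩

private theorem gen_short (hE : E.Fact) {a : G} {v : List ℤ} (h : E.isN (.gen a, v)) :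
    E.short (.gen a, v) :=
  Or.inl ⟨h, le_trans (RH.wl_le_one h.1) hE.L1⟩

private theorem xw_short (hE : E.Fact) {v : List ℤ} (h : E.isR (.xw, v)) :
    E.short (.xw, v) :=
  Or.inr ⟨h, 1, E.H.one_mem, by simpa [pt] using hE.n0_w⟩

private theorem semstep_vf {q q' : E.St} {l : Lt (Fam ι G)} (h : E.SemStep q l q') :
    l.1 ∈ vf E := by
  rcases h with ⟨_, h, _⟩ | ⟨_, _, h, _⟩
  · exact vf_isR h
  · exact vf_isN h

theorem nice [Finite ι] (hE : E.Fact) : Nice E.mach := by
  classical
  have hSt : Finite E.St := by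
    have : Finite (Set.range (E.S.cone E.R)) := hE.cone_fin.to_subtype
    infer_instance
  constructor
  · -- fin_rk
    apply (vf_fin hE).subset
    intro f hf
    cases f with
    | gen a => exact absurd rfl hf
    | par i t =>
      apply vf_par
      by_contra h
      apply hf
      show (if t < (E.cP i).m then (E.cP i).r else 0) = 0
      rw [if_neg h]
    | flat i x t =>
      have h : (i, x) ∈ E.FL ∧ t < (E.cF i x).m := by
        by_contra h
        apply hf
        show (if (i, x) ∈ E.FL ∧ t < (E.cF i x).m then (E.cF i x).r else 0) = 0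
        rw [if_neg h]
      exact vf_flat h.1 h.2
    | xw => exact absurd rfl hf
  · -- fin_D
    exact optball_fin hE E.K
  · -- fin_exp
    refine ((optball_fin hE (2 * E.K)).prod ((shortO_fin hE).prod
      ((shortO_fin hE).prod (optball_fin hE (2 * E.K))))).subset ?_
    rintro ⟨d, s, t, d'⟩ ⟨h, hs, ht⟩
    refine ⟨?_, hs, ht, ?_⟩
    · rcases h with ⟨g, g', h1, h2, h3, h4, _⟩ | ⟨h1, _⟩
      · exact Or.inr ⟨g, h1, h3⟩
      · exact Or.inl h1
    · rcases h with ⟨g, g', h1, h2, h3, h4, _⟩ | ⟨h1, r, r', g', _, _, _, _, h2, h3, _⟩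
      · exact Or.inr ⟨g', h2, h4⟩
      · exact Or.inr ⟨g', h2, h3⟩
  · -- fin_gen
    refine Set.Finite.of_injOn (f := fun z => (z.1, z.2.1, z.2.2.1, z.2.2.2.1))
      (t := {d : Option G | d = none ∨ ∃ g, d = some g ∧ E.S.wl g ≤ 2 * E.K} ×ˢ
        (vf E ×ˢ (vf E ×ˢ {d : Option G | d = none ∨ ∃ g, d = some g ∧ E.S.wl g ≤ 2 * E.K})))
      ?_ ?_ ((optball_fin hE _).prod ((vf_fin hE).prod ((vf_fin hE).prod (optball_fin hE _))))
    · rintro z (⟨i, t, t', g, g', w, rfl, h1, h2, h3, h4, h5, h6, h7, h8⟩ |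
        ⟨i, x, t, t', g, w, rfl, h1, h2, h3, h4, h5, h6, h7⟩)
      · exact ⟨Or.inr ⟨g, rfl, h3⟩, vf_par h5, vf_par h6, Or.inr ⟨g', rfl, h4⟩⟩
      · exact ⟨Or.inl rfl, vf_flat h1 h4, vf_flat h1 h5, Or.inr ⟨g, rfl, h3⟩⟩
    · rintro z (⟨i, t, t', g, g', w, rfl, h1, h2, h3, h4, h5, h6, h7, h8⟩ |
        ⟨i, x, t, t', g, w, rfl, h1, h2, h3, h4, h5, h6, h7⟩) z'
        (⟨i', u, u', k, k', w', rfl, h1', h2', h3', h4', h5', h6', h7', h8'⟩ |
        ⟨i', x', u, u', k, w', rfl, h1', h2', h3', h4', h5', h6', h7'⟩) hz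
      · simp only [Prod.mk.injEq, Option.some.injEq, Fam.par.injEq] at hz
        obtain ⟨rfl, ⟨rfl, rfl⟩, ⟨-, rfl⟩, rfl⟩ := hz
        have e1 := h8 (List.replicate _ 0) (List.length_replicate ..)
        have e2 := h8' (List.replicate _ 0) (List.length_replicate ..)
        rw [sh_zero_left w h7] at e1
        rw [sh_zero_left w' h7'] at e2
        have e3 : (E.cP i).c t' w = (E.cP i).c t' w' := by
          have := e1.trans e2.symm
          exact mul_left_cancel this
        obtain ⟨_, e4⟩ := (E.cP i).inj t' w t' w' h6 h6 h7 h7' (by rw [e3]; simp)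
        rw [e4]
      · simp at hz
      · simp at hz
      · simp only [Prod.mk.injEq, Option.some.injEq, Fam.flat.injEq] at hz
        obtain ⟨-, ⟨rfl, rfl, rfl⟩, ⟨-, -, rfl⟩, rfl⟩ := hz
        have e1 := h7 (List.replicate _ 0) (List.length_replicate ..)
        have e2 := h7' (List.replicate _ 0) (List.length_replicate ..)
        rw [sh_zero_left w h6] at e1
        rw [sh_zero_left w' h6'] at e2
        have e3 : ((E.cF i x).c t' w)⁻¹ * (E.cF i x).c t' w' ∈ Lam E.S E.H i x := by
          have := (Lam E.S E.H i x).mul_mem ((Lam E.S E.H i x).inv_mem e1) e2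
          have e5 : (((E.cF i x).c t (List.replicate (E.cF i x).r 0) * g)⁻¹ *
              (E.cF i x).c t' w)⁻¹ *
              (((E.cF i x).c t (List.replicate (E.cF i x).r 0) * g)⁻¹ * (E.cF i x).c t' w') =
              ((E.cF i x).c t' w)⁻¹ * (E.cF i x).c t' w' := by group
          rwa [e5] at this
        obtain ⟨_, e4⟩ := (E.cF i x).inj t' w t' w' h5 h5 h6 h6' e3
        rw [e4]
  · -- fin_zone
    exact zone_fin hE
  · -- fin_tr
    refine ((Set.finite_univ (α := E.St)).prod ((zone_fin hE).prod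
      (Set.finite_univ (α := E.St)))).subset ?_
    rintro ⟨q, l, q'⟩ ⟨h1, h2⟩
    exact ⟨trivial, h2, trivial⟩
  · -- fin_tg
    refine ((Set.finite_univ (α := E.St)).prod ((vf_fin hE).prod
      (Set.finite_univ (α := E.St)))).subset ?_
    rintro ⟨q, f, q'⟩ ⟨v, h1, h2⟩
    exact ⟨trivial, semstep_vf h1, trivial⟩
  · -- zone_ok
    rintro l (⟨h, _⟩ | ⟨h, _⟩)
    · exact ok_of_isN h
    · exact ok_of_isR h
  · -- gen_inv
    rintro d f f' d' w hd hd' (⟨i, t, t', g, g', w, hz, h1, h2, h3, h4, h5, h6, h7, h8⟩ |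
        ⟨i, x, t, t', g, w, hz, h1, h2, h3, h4, h5, h6, h7⟩)
    · simp only [Prod.mk.injEq] at hz
      obtain ⟨rfl, rfl, rfl, rfl, rfl⟩ := hz
      left
      refine ⟨i, t', t, g⁻¹, g'⁻¹, _, rfl, (E.S.P i).inv_mem h1, (E.S.P i).inv_mem h2, ?_, ?_,
        h6, h5, by simpa using h7, ?_⟩
      · rw [RH.wl_inv hE.good]; exact h3
      · rw [RH.wl_inv hE.good]; exact h4
      · intro v hv
        have e := h8 (sh v (w.map (fun z => -z))) (sh_len hv (by simpa using h7))
        rw [sh_neg v w (by rw [hv, h7])] at e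
        rw [eq_mul_inv_iff_mul_eq, mul_assoc, ← e, inv_mul_cancel_left]
    · simp only [Prod.mk.injEq] at hz
      obtain ⟨rfl, rfl, rfl, rfl, rfl⟩ := hz
      right
      refine ⟨i, x, t', t, g⁻¹, _, rfl, h1, (E.S.P i).inv_mem h2, ?_, h5, h4,
        by simpa using h6, ?_⟩
      · rw [RH.wl_inv hE.good]; exact h3
      · intro v hv
        have hl : (sh v (w.map (fun z => -z))).length = (E.cF i x).r :=
          sh_len hv (by simpa using h6)
        have e := h7 (sh v (w.map (fun z => -z))) hl
        rw [sh_neg v w (by rw [hv, h6])] at e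
        have hp := (E.cF i x).mem t _ h4 hl
        have hq := (E.cF i x).mem t' _ h5 hv
        have e2 := (Lam E.S E.H i x).inv_mem e
        have hc : (E.cF i x).c t (sh v (w.map (fun z => -z))) * g =
            g * (E.cF i x).c t (sh v (w.map (fun z => -z))) :=
          hE.good.comm i _ hp _ h2
        have hc2 : ((E.cF i x).c t' v)⁻¹ * (g * (E.cF i x).c t (sh v (w.map (fun z => -z)))) =
            (g * (E.cF i x).c t (sh v (w.map (fun z => -z)))) * ((E.cF i x).c t' v)⁻¹ :=
          hE.good.comm i _ ((E.S.P i).inv_mem hq) _ ((E.S.P i).mul_mem h2 hp)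
        have hc3 : ((E.cF i x).c t' v)⁻¹ * (E.cF i x).c t (sh v (w.map (fun z => -z))) =
            (E.cF i x).c t (sh v (w.map (fun z => -z))) * ((E.cF i x).c t' v)⁻¹ :=
          hE.good.comm i _ ((E.S.P i).inv_mem hq) _ hp
        have e3 : (((E.cF i x).c t (sh v (w.map (fun z => -z))) * g)⁻¹ * (E.cF i x).c t' v)⁻¹ =
            ((E.cF i x).c t' v * g⁻¹)⁻¹ * (E.cF i x).c t (sh v (w.map (fun z => -z))) := by
          rw [mul_inv_rev, inv_inv, hc, hc2, mul_inv_rev, inv_inv, mul_assoc, mul_assoc, hc3]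
        rwa [e3] at e2
  · -- gen_mul
    rintro d e d' e' f f' f'' w w' hd he hd' he' h h'
    have wlK : ∀ a b : G, E.S.wl a ≤ E.K → E.S.wl b ≤ E.K → E.S.wl (a * b) ≤ 2 * E.K := by
      intro a b ha hb
      have := RH.wl_mul hE.good a b
      omega
    have inK : ∀ a : G, (some a : Option G) ∈ E.mach.inD → E.S.wl a ≤ E.K := by
      rintro a (h | ⟨g, h, hg⟩)
      · cases h
      · cases h; exact hg
    rcases h with ⟨i, t, t', g, g', w, hz, h1, h2, h3, h4, h5, h6, h7, h8⟩ |
        ⟨i, x, t, t', g, w, hz, h1, h2, h3, h4, h5, h6, h7⟩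
    · simp only [Prod.mk.injEq] at hz
      obtain ⟨rfl, rfl, rfl, rfl, rfl⟩ := hz
      rcases h' with ⟨i', u, u', k, k', w', hz, h1', h2', h3', h4', h5', h6', h7', h8'⟩ |
        ⟨i', x', u, u', k, w', hz, h1', h2', h3', h4', h5', h6', h7'⟩
      · simp only [Prod.mk.injEq, Fam.par.injEq] at hz
        obtain ⟨rfl, ⟨rfl, rfl⟩, rfl, rfl, rfl⟩ := hz
        left
        refine ⟨i, t, u', g * k, g' * k', _, rfl, (E.S.P i).mul_mem h1 h1',
          (E.S.P i).mul_mem h2 h2', wlK _ _ (inK _ hd) (inK _ he), wlK _ _ (inK _ hd') (inK _ he'),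
          h5, h6', sh_len h7 h7', ?_⟩
        intro v hv
        have a1 := h8 v hv
        have a2 := h8' (sh v w) (sh_len hv h7)
        rw [← sh_assoc, mul_assoc, a2, ← mul_assoc, a1, mul_assoc]
      · simp at hz
    · simp only [Prod.mk.injEq] at hz
      obtain ⟨rfl, rfl, rfl, rfl, rfl⟩ := hz
      rcases h' with ⟨i', u, u', k, k', w', hz, h1', h2', h3', h4', h5', h6', h7', h8'⟩ |
        ⟨i', x', u, u', k, w', hz, h1', h2', h3', h4', h5', h6', h7'⟩
      · simp at hz
      · simp only [Prod.mk.injEq, Fam.flat.injEq] at hz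
        obtain ⟨rfl, ⟨rfl, rfl, rfl⟩, rfl, rfl, rfl⟩ := hz
        right
        refine ⟨i, x, t, u', g * k, _, rfl, h1, (E.S.P i).mul_mem h2 h2',
          wlK _ _ (inK _ hd') (inK _ he'), h4, h5', sh_len h6 h6', ?_⟩
        intro v hv
        have a1 := h7 v hv
        have a2 := h7' (sh v w) (sh_len hv h6)
        have hl := sh_len hv h6
        have hp := (E.cF i x).mem t _ h4 hv
        have hq := (E.cF i x).mem t' _ h5 hl
        have hr := (E.cF i x).mem u' _ h5' (sh_len hl h6')
        rw [← sh_assoc]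
        have a3 := (Lam E.S E.H i x).mul_mem a1 a2
        have e3 : ((E.cF i x).c t v * g)⁻¹ * (E.cF i x).c t' (sh v w) *
            (((E.cF i x).c t' (sh v w) * k)⁻¹ * (E.cF i x).c u' (sh (sh v w) w')) =
            ((E.cF i x).c t v * (g * k))⁻¹ * (E.cF i x).c u' (sh (sh v w) w') := by
          have hc : ((E.cF i x).c t' (sh v w) * k)⁻¹ =
              ((E.cF i x).c t' (sh v w))⁻¹ * k⁻¹ := by
            rw [← mul_inv_rev, hE.good.comm i _ h2' _ hq]
          have hc2 : ((E.cF i x).c t v * g)⁻¹ * k⁻¹ = k⁻¹ * ((E.cF i x).c t v * g)⁻¹ :=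
            hE.good.comm i _ ((E.S.P i).inv_mem ((E.S.P i).mul_mem hp h2)) _
              ((E.S.P i).inv_mem h2')
          rw [hc]
          calc ((E.cF i x).c t v * g)⁻¹ * (E.cF i x).c t' (sh v w) *
              (((E.cF i x).c t' (sh v w))⁻¹ * k⁻¹ * (E.cF i x).c u' (sh (sh v w) w')) =
              (((E.cF i x).c t v * g)⁻¹ * k⁻¹) * (E.cF i x).c u' (sh (sh v w) w') := by group
            _ = _ := by rw [hc2]; group
        rwa [e3] at a3
  · -- tg_gen0
    rintro f x' ⟨v, h, hs⟩
    rcases h with ⟨_, h, _⟩ | ⟨x, h, _⟩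
    · cases f with
      | gen a => exact absurd h (by simp [isR])
      | par i t => exact absurd h (by simp [isR])
      | flat i x t =>
        right
        have hr : E.mach.rk (.flat i x t) = (E.cF i x).r := by
          show (if (i, x) ∈ E.FL ∧ t < (E.cF i x).m then (E.cF i x).r else 0) = _
          rw [if_pos ⟨h.1, h.2.1⟩]
        rw [hr]
        refine ⟨i, x, t, t, 1, _, rfl, h.1, (E.S.P i).one_mem, by simp, h.2.1, h.2.1, by simp, ?_⟩
        intro u hu
        rw [sh_zero_right u hu, mul_one, inv_mul_cancel]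
        exact (Lam E.S E.H i x).one_mem
      | xw => exact absurd (xw_short hE h) hs
    · exact absurd h (by simp [stt, mach])
  · -- tg_gen1
    rintro x f x' hx ⟨v, h, hs⟩
    rcases h with ⟨h, _⟩ | ⟨y, _, h, _⟩
    · exact absurd h hx
    · cases f with
      | gen a => exact absurd (gen_short hE h) hs
      | par i t =>
        left
        have hr : E.mach.rk (.par i t) = (E.cP i).r := by
          show (if t < (E.cP i).m then (E.cP i).r else 0) = _
          rw [if_pos h.1]
        rw [hr]
        refine ⟨i, t, t, 1, 1, _, rfl, (E.S.P i).one_mem, (E.S.P i).one_mem, by simp, by simp,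
          h.1, h.1, by simp, ?_⟩
        intro u hu
        rw [sh_zero_right u hu, mul_one, one_mul]
      | flat i x t => exact absurd h (by simp [isN])
      | xw => exact absurd h (by simp [isN])
  · -- tg_rk
    rintro x f x' ⟨v, h, hs⟩
    have h' : E.isR (f, v) ∨ E.isN (f, v) := by
      rcases h with ⟨_, h, _⟩ | ⟨_, _, h, _⟩
      · exact Or.inl h
      · exact Or.inr h
    cases f with
    | gen a =>
      rcases h' with h | h
      · exact absurd h (by simp [isR])
      · exact absurd (gen_short hE h) hs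
    | par i t =>
      rcases h' with h | h
      · exact absurd h (by simp [isR])
      · have hr : E.mach.rk (.par i t) = (E.cP i).r := by
          show (if t < (E.cP i).m then (E.cP i).r else 0) = _
          rw [if_pos h.1]
        rw [hr]
        rcases Nat.eq_zero_or_pos (E.cP i).r with h0 | h0
        · exfalso
          apply hs
          have hv : v = [] := List.length_eq_zero_iff.1 (h.2.trans h0)
          refine Or.inl ⟨h, ?_⟩
          rw [hv]
          exact hE.L_fin i t h.1 h0
        · exact h0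
    | flat i x t =>
      rcases h' with h | h
      · have hr : E.mach.rk (.flat i x t) = (E.cF i x).r := by
          show (if (i, x) ∈ E.FL ∧ t < (E.cF i x).m then (E.cF i x).r else 0) = _
          rw [if_pos ⟨h.1, h.2.1⟩]
        rw [hr]
        rcases Nat.eq_zero_or_pos (E.cF i x).r with h0 | h0
        · exfalso
          apply hs
          have hv : v = [] := List.length_eq_zero_iff.1 (h.2.2.trans h0)
          refine Or.inr ⟨h, ?_⟩
          rw [hv]
          exact hE.n0_fin i x t h.1 h.2.1 h0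
        · exact h0
      · exact absurd h (by simp [isN])
    | xw =>
      rcases h' with h | h
      · exact absurd (xw_short hE h) hs
      · exact absurd h (by simp [isN])

end Dat
end Pool.Agent.Lib.P77fd2d
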