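import Pool.Agent.Lib.P77fd2d.SemA

/-!
# MODULE P77fd2d.SemC  (1.2h)   black box: SemA

Paths of the semantic machine are geodesics from the root set.

`path_char`: induction on n.  A path of length 1: x 0 = some none (st0 = none), ext with s = none is impossible, so a 0 = some r,
x 1 = some q, SemStep none r q; the second alternative of SemStep is impossible (none ≠ stt x), so isR r, q = stt (pt r).  u = [].
Step: if x (n+1) = some (stt z) (case u.length = n): either a (n+1) = some l, SemStep (stt z) l q': then (second alternative) stt z = stt x1, isN l,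
[nval l] ∈ cone x1 = cone z (`stt_inj`), q' = stt (x1 * ..) = stt (z * ..) (`cone_next`, `stt_eq`); new u = u ++ [l] (`RH.rgeo_append`); or a (n+1) = none,
x (n+2) = none.  If x (n+1) = none: a (n+1) = none, x (n+2) = none.
`path_of`: conversely, from a root letter and an R-geodesic word of values of normal letters one gets a path (`RH.cone_of_rgeo`).
`diff_char`: f 1 from the root square (d = none = star), then by induction from the squares: g * oval t = oval s * g', i.e.
f (i+1) = some ((pt r * ev (first i letters))⁻¹ * (k'' * ev (first i letters))), k'' = pt r * d1.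
-/

namespace Pool.Agent.Lib.P77fd2d
namespace Dat
variable {ι G : Type} [Group G] {E : Dat ι G}

/-- the letters of a padded word as a word -/
def vals (E : Dat ι G) (u : List (Lt (Fam ι G))) : List (Ltr ι G) := u.map E.nval

theorem semC_take (u : List (Lt (Fam ι G))) (i : ℕ) :
    ev ((E.vals u).take (i + 1)) = ev ((E.vals u).take i) * E.oval u[i]? := by
  rw [List.take_add_one, ev_append]
  congr 1
  unfold vals
  rw [List.getElem?_map]
  cases h : u[i]? with
  | none => simp [oval]
  | some l => simp [oval]

theorem semC_isNo {u : List (Lt (Fam ι G))} (hu : ∀ l ∈ u, E.isN l) (i : ℕ) : E.isNo u[i]? := by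
  cases h : u[i]? with
  | none => trivial
  | some l => exact hu l (List.mem_of_getElem? h)

theorem semC_stt_ne (x : G) : E.stt x ≠ none := by simp [stt]

theorem semC_root {l : Lt (Fam ι G)} {q' : E.St} (h : E.SemStep none l q') :
    E.isR l ∧ q' = E.stt (E.pt l) := by
  rcases h with ⟨_, h1, h2⟩ | ⟨x, h, _⟩
  · exact ⟨h1, h2⟩
  · exact absurd h.symm (semC_stt_ne x)

theorem semC_norm (hE : E.Fact) {l : Lt (Fam ι G)} {z : G} {q' : E.St}
    (h : E.SemStep (E.stt z) l q') :
    E.isN l ∧ [E.nval l] ∈ E.S.cone E.R z ∧ q' = E.stt (z * (E.nval l).2) := by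
  rcases h with ⟨h, _⟩ | ⟨x, h1, h2, h3, h4⟩
  · exact absurd h (semC_stt_ne z)
  · have hc := stt_inj h1
    refine ⟨h2, hc ▸ h3, ?_⟩
    rw [h4]
    apply stt_eq
    have := cone_next hE hc.symm h3
    simpa using this

/-- a path of positive length is given by a root letter and an `R`-geodesic -/
theorem path_char (hE : E.Fact) {n : ℕ} {x : ℕ → Option E.St} {a : ℕ → Option (Lt (Fam ι G))}
    (h : E.mach.Path (n + 1) x a) : ∃ (r : Lt (Fam ι G)) (u : List (Lt (Fam ι G))),
      a 0 = some r ∧ E.isR r ∧ u.length ≤ n ∧ (∀ l ∈ u, E.isN l) ∧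
      E.S.RGeo E.R (E.pt r) (E.vals u) ∧ (∀ i < n, a (i + 1) = u[i]?) ∧
      (∀ i ≤ n, x (i + 1) = if i ≤ u.length then
        some (E.stt (E.pt r * ev ((E.vals u).take i))) else none) := by
  induction n with
  | zero =>
    obtain ⟨h0, h1⟩ := h
    have h0 : x 0 = some none := h0
    rcases h1 0 (by omega) with ⟨q, l, q', e1, e2, e3, e4⟩ | ⟨_, _, e⟩
    · rw [h0] at e1
      cases e1
      obtain ⟨k1, k2⟩ := semC_root ((step_iff_sem hE _ _ _).1 e4)
      refine ⟨l, [], e2, k1, le_refl _, by simp, RH.rgeo_nil (pt_mem hE k1), by simp, ?_⟩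
      intro i hi
      obtain rfl : i = 0 := by omega
      simp [e3, k2, vals]
    · exact absurd h0 e
  | succ n ih =>
    obtain ⟨r, u, k1, k2, k3, k4, k5, k6, k7⟩ := ih ⟨h.1, fun i hi => h.2 i (by omega)⟩
    have hlast := h.2 (n + 1) (by omega)
    have hx := k7 n le_rfl
    by_cases hn : n ≤ u.length
    · have hun : u.length = n := by omega
      rw [if_pos hn] at hx
      have htake : (E.vals u).take n = E.vals u := by
        apply List.take_of_length_le
        simp [vals, hun]
      rw [htake] at hx
      rcases hlast with ⟨q, l, q', e1, e2, e3, e4⟩ | ⟨e1, e2, _⟩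
      · rw [hx] at e1
        cases e1
        obtain ⟨j1, j2, j3⟩ := semC_norm hE ((step_iff_sem hE _ _ _).1 e4)
        have hv : E.vals (u ++ [l]) = E.vals u ++ [E.nval l] := by simp [vals]
        refine ⟨r, u ++ [l], k1, k2, by simp [hun], ?_, ?_, ?_, ?_⟩
        · intro m hm
          rcases List.mem_append.1 hm with hm | hm
          · exact k4 m hm
          · rw [List.mem_singleton.1 hm]; exact j1
        · rw [hv]; exact RH.rgeo_append k5 j2
        · intro i hi
          by_cases hin : i < n
          · rw [k6 i hin, List.getElem?_append_left (by omega)]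
          · obtain rfl : i = n := by omega
            rw [e2, ← hun]; simp
        · intro i hi
          by_cases hin : i ≤ n
          · rw [k7 i hin, if_pos (by omega), if_pos (by simp; omega), hv]
            rw [List.take_append_of_le_length (by simp [vals]; omega)]
          · obtain rfl : i = n + 1 := by omega
            rw [e3, j3, if_pos (by simp [hun]), hv]
            rw [List.take_of_length_le (by simp [vals, hun])]
            simp [mul_assoc]
      · refine ⟨r, u, k1, k2, by omega, k4, k5, ?_, ?_⟩
        · intro i hi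
          by_cases hin : i < n
          · exact k6 i hin
          · obtain rfl : i = n := by omega
            rw [e1, List.getElem?_eq_none (by omega)]
        · intro i hi
          by_cases hin : i ≤ n
          · exact k7 i hin
          · obtain rfl : i = n + 1 := by omega
            rw [e2, if_neg (by omega)]
    · rw [if_neg hn] at hx
      rcases hlast with ⟨q, l, q', e1, e2, e3, e4⟩ | ⟨e1, e2, _⟩
      · rw [hx] at e1; cases e1
      · refine ⟨r, u, k1, k2, by omega, k4, k5, ?_, ?_⟩
        · intro i hi
          by_cases hin : i < n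
          · exact k6 i hin
          · obtain rfl : i = n := by omega
            rw [e1, List.getElem?_eq_none (by omega)]
        · intro i hi
          by_cases hin : i ≤ n
          · exact k7 i hin
          · obtain rfl : i = n + 1 := by omega
            rw [e2, if_neg (by omega)]

/-- paths from geodesics -/
theorem path_of (hE : E.Fact) (n : ℕ) (r : Lt (Fam ι G)) (u : List (Lt (Fam ι G)))
    (hr : E.isR r) (hu : ∀ l ∈ u, E.isN l) (hg : E.S.RGeo E.R (E.pt r) (E.vals u)) :
    E.mach.Path (n + 1)
      (fun i => if i = 0 then some none else if i - 1 ≤ u.length then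
        some (E.stt (E.pt r * ev ((E.vals u).take (i - 1)))) else none)
      (fun i => if i = 0 then some r else u[i - 1]?) := by
  refine ⟨rfl, ?_⟩
  intro i _
  cases i with
  | zero =>
    left
    refine ⟨none, r, E.stt (E.pt r), rfl, rfl, by simp, ?_⟩
    exact (step_iff_sem hE _ _ _).2 (Or.inl ⟨rfl, hr, rfl⟩)
  | succ j =>
    simp only [Nat.add_sub_cancel, Nat.succ_ne_zero, if_false]
    by_cases hj : j < u.length
    · left
      refine ⟨E.stt (E.pt r * ev ((E.vals u).take j)), u[j],
        E.stt (E.pt r * ev ((E.vals u).take (j + 1))), by rw [if_pos hj.le],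
        List.getElem?_eq_getElem hj, by rw [if_pos (by omega)], ?_⟩
      apply (step_iff_sem hE _ _ _).2
      right
      have hv : (E.vals u).take (j + 1) = (E.vals u).take j ++ [E.nval u[j]] := by
        rw [List.take_add_one]
        simp [vals, hj]
      refine ⟨_, rfl, hu _ (List.getElem_mem hj), ?_, ?_⟩
      · have h1 := RH.rgeo_take hE.good hE.root.ne hg (j + 1)
        rw [hv] at h1
        exact RH.cone_of_rgeo hE.good hE.root.ne h1
      · rw [hv]; simp [mul_assoc]
    · right
      refine ⟨List.getElem?_eq_none (by omega), by rw [if_neg (by omega)], ?_⟩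
      by_cases hj' : j ≤ u.length
      · rw [if_pos hj']
        intro hcon
        exact semC_stt_ne _ (Option.some.inj hcon)
      · rw [if_neg hj']; simp

/-- the differences along two paths -/
theorem diff_char (hE : E.Fact) {n : ℕ} {a b : ℕ → Option (Lt (Fam ι G))} {f : ℕ → Option G}
    {r r' : Lt (Fam ι G)} {u u' : List (Lt (Fam ι G))}
    (ha : a 0 = some r) (hb : b 0 = some r') (ha' : ∀ i < n, a (i + 1) = u[i]?)
    (hb' : ∀ i < n, b (i + 1) = u'[i]?) (h : E.mach.Diff (n + 1) a b f) :
    ∃ k' : G, k' * (E.pt r')⁻¹ ∈ E.H ∧ ∀ i ≤ n, f (i + 1) =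
      some ((E.pt r * ev ((E.vals u).take i))⁻¹ * (k' * ev ((E.vals u').take i))) := by
  obtain ⟨h0, h1⟩ := h
  have h0 : f 0 = none := h0
  have hfirst := (nd_iff_sem hE _ _ _ _).1 (h1 0 (by omega))
  rw [h0, ha, hb] at hfirst
  rcases hfirst with ⟨g, _, e, _⟩ | ⟨_, r1, r1', g', e1, e2, k1, k2, e3, k3, k4⟩
  · cases e
  · cases e1
    cases e2
    refine ⟨E.pt r * g', k4, ?_⟩
    intro i
    induction i with
    | zero =>
      intro _
      rw [e3]; simp
    | succ i ih =>
      intro hi
      have hi' := ih (by omega)
      have hst := (nd_iff_sem hE _ _ _ _).1 (h1 (i + 1) (by omega))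
      rw [hi', ha' i (by omega), hb' i (by omega)] at hst
      rcases hst with ⟨g, g2, e4, e5, _, _, _, _, e6⟩ | ⟨e, _⟩
      · rw [e5]
        have e4 := Option.some.inj e4
        rw [semC_take, semC_take]
        have : g2 = (E.oval u[i]?)⁻¹ * (g * E.oval u'[i]?) := by rw [e6]; group
        rw [this, ← e4]
        congr 1
        group
      · cases e

/-- squares between two geodesics whose differences are short -/
theorem diff_of (hE : E.Fact) {n : ℕ} {r r' : Lt (Fam ι G)} {u u' : List (Lt (Fam ι G))}
    (hr : E.isR r) (hr' : E.isR r') (hu : ∀ l ∈ u, E.isN l) (hu' : ∀ l ∈ u', E.isN l) {k' : G}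
    (hk : k' * (E.pt r')⁻¹ ∈ E.H)
    (hd : ∀ i ≤ n, E.S.wl ((E.pt r * ev ((E.vals u).take i))⁻¹ *
      (k' * ev ((E.vals u').take i))) ≤ 2 * E.K) :
    E.mach.Diff (n + 1) (fun i => if i = 0 then some r else u[i - 1]?)
      (fun i => if i = 0 then some r' else u'[i - 1]?)
      (fun i => if i = 0 then none else
        some ((E.pt r * ev ((E.vals u).take (i - 1)))⁻¹ * (k' * ev ((E.vals u').take (i - 1))))) := by
  refine ⟨rfl, ?_⟩
  intro i hi
  apply (nd_iff_sem hE _ _ _ _).2
  cases i with
  | zero =>
    right
    refine ⟨rfl, r, r', _, rfl, rfl, hr, hr', rfl, hd 0 (by omega), ?_⟩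
    simpa using hk
  | succ j =>
    left
    refine ⟨_, _, rfl, rfl, hd j (by omega), hd (j + 1) (by omega), semC_isNo hu j,
      semC_isNo hu' j, ?_⟩
    simp only [Nat.add_sub_cancel, Nat.succ_ne_zero, if_false]
    rw [semC_take, semC_take]
    group

end Dat
end Pool.Agent.Lib.P77fd2d
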