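import Pool.Agent.Lib.P77fd2d.SemC

/-!
# MODULE P77fd2d.SemD  (1.5h)   black boxes: SemA, SemC

The conditions `Ok` and the totality for the semantic machine.

* wf_gen, wf_exp, wf_tr: from the definitions (`ok_of_isN`, `ok_of_isR`; explicit squares are SemNd; rk of valid families).
* algebra: inD, inS, mul, inv explicit (`RH.wl_inv`, `wl_one`, `N ≤ K`, 1 ∈ inS: wl 1 = 0).
* nd_none: SemNd d none none d': first kind, g * 1 = 1 * g'.  nd_none': d = some g (d ≠ none), wl g ≤ K ≤ 2K.
* nd_inv, nd_mul: via `nd_iff_sem`; first kind: products of squares, lengths ≤ K + K; second kind: d = e = none (if one of d, e is none and the other some,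
  the middle letter would be both root and normal/absent: `isN_isR`); mul none none = none; product of the elements of H;
  d', e' ∈ inD of length ≤ K (they are `some`).
* step_ne, step_star, step_one: via `step_iff_sem` (r = r', g' = 1: pt r * 1 * (pt r)⁻¹ = 1 ∈ H; 1 * val = val * 1).
* noreturn: n = 0: f 0 = none ∉ inS.  n + 1: `path_char` for both, `diff_char`; f (n+1) = some g, wl g ≤ N, and g = (pt r * ev u)⁻¹ (k' ev u')
  (u.length ≤ n so take n is everything); k' = h pt r' (h ∈ H) is in R (`rs_left`, `pt_mem`) and (k', vals u') is an R-geodesic (translate by h: `RH.rho_left` with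
  hR := fun h hh x => RH.rs_left hh).  `fellow`: all differences have wl ≤ K.  f 0 = star ∈ inD.
* total: g = some s, wl s ≤ N, rl s ≤ 1.  Path n x a with x n = none: n ≥ 2, n = m + 1, `path_char`: r, u, x (m+1) = none gives u.length < m.  z = pt r * ev u * s.
  `RH.exists_rgeo` for z: (k', w'), w'.length = rho z ≤ u.length + 1 ≤ m (`RH.rho_mul`).  k' ∈ R: there is a root letter r' with k' (pt r')⁻¹ ∈ H (`exists_root`),
  and w' = vals u' for normal letters u' (`exists_nval`, `RH.nval`).  Then (pt r', vals u') is an R-geodesic (translate), `path_of`,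
  `fellow` (ends at distance s, wl ≤ N), `diff_of` (K ≤ 2K); compare the given a with the standard form (functions agree for
  i < n + 1, Diff only depends on these values; a n = none and u[m]? = none).  y (n+1) = none since u'.length ≤ m < n... (index n = m+1 > u'.length);
  f (n+1) = some s.
* exists_root: k ∈ RS: k ∈ H: the flat of 1 (`flat_P`, i0): fl2 for (i0, k) [k ∈ H ⊆ H·P i0: Flat i0 k]; in general Flat i k: fl2: k = h y p, (i,y) ∈ FL, p ∈ P i,
  coordinates (cF i y).surj p: (c t v)⁻¹ p ∈ Lam; root letter (flat i y t, v): k (y c t v)⁻¹ = h y p (c t v)⁻¹ y⁻¹ ∈ H (commutativity, `mem_Lam`).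
  k w0⁻¹ ∈ H: (xw, []).
-/
namespace Pool.Agent.Lib.P77fd2d
namespace Dat
variable {ι G : Type} [Group G] {E : Dat ι G}

/-- every point of the root set is the point of a root letter modulo `H` -/
theorem exists_root (hE : E.Fact) {k : G} (hk : k ∈ E.R) : ∃ r, E.isR r ∧ k * (E.pt r)⁻¹ ∈ E.H := by
  have key : ∀ i, E.S.Flat E.H E.i0 i k → ∃ r, E.isR r ∧ k * (E.pt r)⁻¹ ∈ E.H := by
    intro i hi
    obtain ⟨y, hy, h, hh, p, hp, rfl⟩ := hE.fl2 i k hi
    obtain ⟨t, v, ht, hv, hc⟩ := (E.cF i y).surj p hp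
    refine ⟨(.flat i y t, v), ⟨hy, ht, hv⟩, ?_⟩
    have hcm := (E.cF i y).mem t v ht hv
    have e : h * y * p * (y * (E.cF i y).c t v)⁻¹ =
        h * (y * (((E.cF i y).c t v)⁻¹ * p) * y⁻¹) := by
      rw [hE.good.comm i _ ((E.S.P i).inv_mem hcm) _ hp]
      group
    show h * y * p * (y * (E.cF i y).c t v)⁻¹ ∈ E.H
    rw [e]
    exact E.H.mul_mem hh (mem_Lam.1 hc).2
  rcases hk with hk | hk | ⟨i, hk⟩
  · exact key E.i0 (Or.inr ⟨rfl, k⁻¹, E.H.inv_mem hk, by simp⟩)
  · exact ⟨(.xw, []), rfl, hk⟩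
  · exact key i hk

/-- translates of geodesics from the root set -/
private theorem rgeo_tr {k k' : G} {u : List (Ltr ι G)} (hk : k' * k⁻¹ ∈ E.H)
    (h : E.S.RGeo E.R k u) : E.S.RGeo E.R k' u := by
  have e : k' = (k' * k⁻¹) * k := by group
  have hR : ∀ h ∈ E.H, ∀ x, h * x ∈ E.R ↔ x ∈ E.R := fun h hh x => RH.rs_left hh
  refine ⟨?_, h.2.1, ?_⟩
  · rw [e]
    exact (hR _ hk _).2 h.1
  · rw [e, mul_assoc (k' * k⁻¹) k, RH.rho_left hR hk]
    exact h.2.2

private theorem rk_par {i : ι} {t : ℕ} (h : t < (E.cP i).m) :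
    E.mach.rk (.par i t) = (E.cP i).r := by
  classical
  show (if t < (E.cP i).m then (E.cP i).r else 0) = _
  rw [if_pos h]

private theorem rk_flat {i : ι} {x : G} {t : ℕ} (h1 : (i, x) ∈ E.FL)
    (h : t < (E.cF i x).m) : E.mach.rk (.flat i x t) = (E.cF i x).r := by
  classical
  show (if (i, x) ∈ E.FL ∧ t < (E.cF i x).m then (E.cF i x).r else 0) = _
  rw [if_pos ⟨h1, h⟩]

private theorem ok_short {l : Lt (Fam ι G)} (h : E.short l) : E.mach.ok l := by
  rcases h with ⟨h, _⟩ | ⟨h, _⟩
  · exact ok_of_isN h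
  · exact ok_of_isR h

private theorem inD_some {g : G} : (some g : Option G) ∈ E.mach.inD ↔ E.S.wl g ≤ E.K := by
  constructor
  · rintro (h | ⟨g', h, hg⟩)
    · cases h
    · cases h; exact hg
  · intro h
    exact Or.inr ⟨g, rfl, h⟩

private theorem no_NR {t : Option (Lt (Fam ι G))} {r : Lt (Fam ι G)} (h : E.isNo t)
    (ht : t = some r) (hr : E.isR r) : False := by
  subst ht
  exact isN_isR h hr

private theorem vals_len (u : List (Lt (Fam ι G))) : (E.vals u).length = u.length := by
  simp [vals]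

private theorem noret (hE : E.Fact) (n : ℕ) (x y : ℕ → Option E.St)
    (a b : ℕ → Option (Lt (Fam ι G))) (f : ℕ → Option G) (hx : E.mach.Path n x a)
    (hy : E.mach.Path n y b) (hd : E.mach.Diff n a b f) (hf : f n ∈ E.mach.inS) :
    ∀ i ≤ n, f i ∈ E.mach.inD := by
  cases n with
  | zero =>
    exfalso
    rw [hd.1] at hf
    obtain ⟨g, hg, _⟩ := hf
    cases hg
  | succ n =>
    obtain ⟨r, u, ha, hr, hul, hu, hg, hau, _⟩ := path_char hE hx
    obtain ⟨r', u', hb, hr', hul', hu', hg', hbu, _⟩ := path_char hE hy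
    obtain ⟨k', hk', hf'⟩ := diff_char hE ha hb hau hbu hd
    have hg2 : E.S.RGeo E.R k' (E.vals u') := rgeo_tr hk' hg'
    have hwl : E.S.wl ((E.pt r * ev (E.vals u))⁻¹ * (k' * ev (E.vals u'))) ≤ E.N := by
      rw [hf' n le_rfl] at hf
      obtain ⟨g, h1, h2⟩ := hf
      cases h1
      rw [List.take_of_length_le (by rw [vals_len]; exact hul),
        List.take_of_length_le (by rw [vals_len]; exact hul')] at h2
      exact h2
    have hfel := hE.fellow _ _ _ _ hg hg2 hwl
    intro i hi
    cases i with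
    | zero =>
      rw [hd.1]
      exact Or.inl rfl
    | succ i =>
      rw [hf' i (by omega)]
      exact inD_some.2 (hfel i)

theorem mach_ok (hE : E.Fact) : E.mach.Ok where
  wf_gen := by
    rintro d f f' d' w (⟨i, t, t', g, g', w, hz, h1, h2, h3, h4, h5, h6, h7, h8⟩ |
        ⟨i, x, t, t', g, w, hz, h1, h2, h3, h4, h5, h6, h7⟩)
    · simp only [Prod.mk.injEq] at hz
      obtain ⟨rfl, rfl, rfl, rfl, rfl⟩ := hz
      rw [rk_par h5, rk_par h6]
      exact ⟨h7, rfl⟩
    · simp only [Prod.mk.injEq] at hz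
      obtain ⟨rfl, rfl, rfl, rfl, rfl⟩ := hz
      rw [rk_flat h1 h4, rk_flat h1 h5]
      exact ⟨h6, rfl⟩
  wf_exp := by
    rintro d s t d' ⟨_, hs, ht⟩
    refine ⟨?_, ?_⟩
    · rintro l rfl
      exact ok_short hs
    · rintro l rfl
      exact ok_short ht
  wf_tr := by
    rintro x l x' ⟨_, h⟩
    exact ⟨ok_short h, h⟩
  S_D := by
    rintro d ⟨g, rfl, hg⟩
    exact inD_some.2 (hg.trans hE.NK)
  one_S := ⟨1, rfl, by simp⟩
  star_D := Or.inl rfl
  star_S := by
    rintro ⟨g, hg, _⟩
    cases hg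
  inv_one := by
    show Option.map (fun g : G => g⁻¹) (some 1) = some 1
    simp
  inv_star := rfl
  mul_star := rfl
  inv_D := by
    rintro d (rfl | ⟨g, rfl, hg⟩)
    · exact Or.inl rfl
    · exact inD_some.2 (by rw [RH.wl_inv hE.good]; exact hg)
  one_mul := by
    rintro d ⟨g, rfl, _⟩
    show some (1 * g) = some g
    rw [one_mul]
  mul_one := by
    rintro d ⟨g, rfl, _⟩
    show some (g * 1) = some g
    rw [mul_one]
  inv_mul := by
    rintro d ⟨g, rfl, _⟩
    show some (g⁻¹ * g) = some 1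
    rw [inv_mul_cancel]
  nd_none := by
    intro d d' h
    rw [nd_iff_sem hE] at h
    rcases h with ⟨g, g', rfl, rfl, _, _, _, _, h⟩ | ⟨_, r, r', g', h, _⟩
    · simp only [oval, mul_one, one_mul] at h
      rw [h]
    · cases h
  nd_none' := by
    intro d hd hne
    rw [nd_iff_sem hE]
    rcases hd with rfl | ⟨g, rfl, hg⟩
    · exact absurd rfl hne
    · exact Or.inl ⟨g, g, rfl, rfl, by omega, by omega, trivial, trivial, by simp [oval]⟩
  nd_inv := by
    intro d s t d' hd hd' h
    rw [nd_iff_sem hE] at h ⊢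
    rcases h with ⟨g, g', rfl, rfl, h1, h2, h3, h4, h⟩ | ⟨rfl, r, r', g', rfl, rfl, h1, h2, rfl, h3, h4⟩
    · refine Or.inl ⟨g⁻¹, g'⁻¹, rfl, rfl, ?_, ?_, h4, h3, ?_⟩
      · rw [RH.wl_inv hE.good]; exact h1
      · rw [RH.wl_inv hE.good]; exact h2
      · rw [eq_mul_inv_iff_mul_eq, mul_assoc, ← h, inv_mul_cancel_left]
    · refine Or.inr ⟨rfl, r', r, g'⁻¹, rfl, rfl, h2, h1, rfl, ?_, ?_⟩
      · rw [RH.wl_inv hE.good]; exact h3
      · have := E.H.inv_mem h4
        have e : (E.pt r * g' * (E.pt r')⁻¹)⁻¹ = E.pt r' * g'⁻¹ * (E.pt r)⁻¹ := by group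
        rwa [e] at this
  nd_mul := by
    intro d e d' e' s t u hd he hd' he' h h'
    have wlK : ∀ a b : G, E.S.wl a ≤ E.K → E.S.wl b ≤ E.K → E.S.wl (a * b) ≤ 2 * E.K := by
      intro a b ha hb
      have := RH.wl_mul hE.good a b
      omega
    rw [nd_iff_sem hE] at h h' ⊢
    rcases h with ⟨g, g', rfl, rfl, h1, h2, h3, h4, h⟩ | ⟨rfl, r, r', g', rfl, ht, h1, h2, rfl, h3, h4⟩
    · rcases h' with ⟨k, k', rfl, rfl, h1', h2', h3', h4', h'⟩ |
        ⟨rfl, r, r', g', ht, rfl, h1', h2', rfl, h3', h4'⟩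
      · refine Or.inl ⟨g * k, g' * k', rfl, rfl, wlK _ _ (inD_some.1 hd) (inD_some.1 he),
          wlK _ _ (inD_some.1 hd') (inD_some.1 he'), h3, h4', ?_⟩
        rw [mul_assoc, h', ← mul_assoc, h, mul_assoc]
      · exact (no_NR h4 ht h1').elim
    · rcases h' with ⟨k, k', rfl, rfl, h1', h2', h3', h4', h'⟩ |
        ⟨_, q, q', k', ht', rfl, h1', h2', rfl, h3', h4'⟩
      · exact (no_NR h3' ht h2).elim
      · have e1 : r' = q := by rw [ht] at ht'; exact Option.some.inj ht'
        subst e1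
        refine Or.inr ⟨rfl, r, q', g' * k', rfl, rfl, h1, h2', rfl,
          wlK _ _ (inD_some.1 hd') (inD_some.1 he'), ?_⟩
        have := E.H.mul_mem h4 h4'
        have e2 : E.pt r * g' * (E.pt r')⁻¹ * (E.pt r' * k' * (E.pt q')⁻¹) =
            E.pt r * (g' * k') * (E.pt q')⁻¹ := by group
        rwa [e2] at this
  step_ne := by
    intro x l x' h
    rw [step_iff_sem hE] at h
    rcases h with ⟨_, _, rfl⟩ | ⟨_, _, _, _, rfl⟩
    · exact Option.some_ne_none _
    · exact Option.some_ne_none _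
  step_star := by
    intro l x' h
    rw [step_iff_sem hE] at h
    rw [nd_iff_sem hE]
    rcases h with ⟨_, h, _⟩ | ⟨x, h, _⟩
    · exact Or.inr ⟨rfl, l, l, 1, rfl, rfl, h, h, rfl, by simp, by simp [E.H.one_mem]⟩
    · exact absurd h.symm (Option.some_ne_none _)
  step_one := by
    intro x l x' hx h
    rw [step_iff_sem hE] at h
    rw [nd_iff_sem hE]
    rcases h with ⟨h, _⟩ | ⟨x, _, h, _⟩
    · exact absurd h hx
    · exact Or.inl ⟨1, 1, rfl, rfl, by simp, by simp, h, h, by simp⟩
  noreturn := noret hE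

private theorem exists_vals (w : List (Ltr ι G)) (hw : E.S.Ok w) :
    ∃ u, (∀ l ∈ u, E.isN l) ∧ E.vals u = w := by
  induction w with
  | nil => exact ⟨[], by simp, rfl⟩
  | cons s w ih =>
    rw [RH.ok_cons] at hw
    obtain ⟨u, h1, h2⟩ := ih hw.2
    obtain ⟨l, h3, h4⟩ := exists_nval hw.1
    refine ⟨l :: u, ?_, ?_⟩
    · intro l' hl'
      rcases List.mem_cons.1 hl' with rfl | h
      · exact h3
      · exact h1 _ h
    · show E.nval l :: E.vals u = s :: w
      rw [h4, h2]

theorem mach_total (hE : E.Fact) {s : G} (hs : E.S.wl s ≤ 1) : E.mach.Total (some s) := by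
  intro n x a hx hxn han
  cases n with
  | zero =>
    rw [hx.1] at hxn
    cases hxn
  | succ m =>
    obtain ⟨r, u, ha, hr, hul, hu, hg, hau, hxu⟩ := path_char hE hx
    have hlt : u.length < m := by
      have := hxu m le_rfl
      rw [hxn] at this
      by_contra hc
      rw [if_pos (by omega)] at this
      cases this
    have hne := hE.root.ne
    obtain ⟨k', w', hw', hz⟩ := RH.exists_rgeo hE.good hne (E.pt r * ev (E.vals u) * s)
    have hwl : w'.length ≤ m := by
      have h1 := hw'.2.2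
      rw [hz] at h1
      have h2 := RH.rho_mul hE.good hne (E.pt r * ev (E.vals u)) s
      have h3 := RH.rl_le_wl hE.good s
      have h4 := hg.2.2
      rw [vals_len] at h4
      omega
    obtain ⟨r', hr', hk'⟩ := exists_root hE hw'.1
    obtain ⟨u', hu', rfl⟩ := exists_vals w' hw'.2.1
    have hk2 : E.pt r' * k'⁻¹ ∈ E.H := by
      have := E.H.inv_mem hk'
      have e : (k' * (E.pt r')⁻¹)⁻¹ = E.pt r' * k'⁻¹ := by group
      rwa [e] at this
    have hg2 : E.S.RGeo E.R (E.pt r') (E.vals u') := rgeo_tr hk2 hw'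
    have hp := path_of hE (m + 1) r' u' hr' hu' hg2
    have hend : (E.pt r * ev (E.vals u))⁻¹ * (k' * ev (E.vals u')) = s := by
      rw [hz]; group
    have hfel := hE.fellow _ _ _ _ hg hw' (by rw [hend]; exact hs.trans hE.N1)
    have hdf := diff_of hE (n := m + 1) hr hr' hu hu' hk' (fun i _ => by
      have := hfel i; omega)
    rw [vals_len] at hwl
    refine ⟨_, _, (fun i => if i = 0 then none else
        some ((E.pt r * ev ((E.vals u).take (i - 1)))⁻¹ *
          (k' * ev ((E.vals u').take (i - 1))))), hp, ⟨hdf.1, ?_⟩, ?_, ?_, ?_⟩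
    · intro i hi
      have h1 := hdf.2 i hi
      have h2 : a i = (if i = 0 then some r else u[i - 1]?) := by
        rcases Nat.eq_zero_or_pos i with rfl | hi0
        · simpa using ha
        · obtain ⟨j, rfl⟩ : ∃ j, i = j + 1 := ⟨i - 1, by omega⟩
          rw [if_neg (by omega), Nat.add_sub_cancel]
          rcases Nat.lt_or_ge j m with hj | hj
          · exact hau j hj
          · have : j = m := by omega
            subst this
            rw [han, List.getElem?_eq_none (by omega)]
      rw [h2]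
      exact h1
    · intro i _
      rcases Nat.eq_zero_or_pos i with rfl | hi0
      · exact Or.inl rfl
      · simp only [show ¬ i = 0 by omega, if_false]
        exact inD_some.2 (hfel (i - 1))
    · show (if m + 1 + 1 = 0 then some none else if m + 1 + 1 - 1 ≤ u'.length then
        some (E.stt (E.pt r' * ev ((E.vals u').take (m + 1 + 1 - 1)))) else none) = none
      rw [if_neg (by omega), if_neg (by omega)]
    · show (if m + 1 + 1 = 0 then none else
        some ((E.pt r * ev ((E.vals u).take (m + 1 + 1 - 1)))⁻¹ *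
          (k' * ev ((E.vals u').take (m + 1 + 1 - 1))))) = some s
      rw [if_neg (by omega), List.take_of_length_le (by rw [vals_len]; omega),
        List.take_of_length_le (by rw [vals_len]; omega), hend]

end Dat
end Pool.Agent.Lib.P77fd2d
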