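import Pool.Agent.Lib.P77fd2d.SemD
import Pool.Agent.Lib.P77fd2d.SemB

/-!
# The conditions `WN` on the words for the semantic machine of a presented group
-/

namespace Pool.Agent.Lib.P77fd2d
namespace Dat

namespace SemEAux

theorem elt_out (P : Pres) (l : ℕ × Bool) (h : ¬ l.1 < P.1) : elt P [l] = 1 := by
  have : fr P.1 [l] = 1 := by simp [fr, h]
  simp [elt, this]

theorem elt_flip (P : Pres) (l : ℕ × Bool) : elt P [(l.1, !l.2)] = (elt P [l])⁻¹ := by
  rw [← elt_winv]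
  rfl

theorem winv_length (w : Word) : (winv w).length = w.length := by simp [winv]

section
variable {ι : Type} {P : Pres} {E : Dat ι (Grp P)}

theorem wl_letter (hA : ∀ l : ℕ × Bool, l.1 < P.1 → elt P [l] ∈ E.S.A) (l : ℕ × Bool) :
    E.S.wl (elt P [l]) ≤ 1 := by
  by_cases h : l.1 < P.1
  · exact RH.wl_le_one (hA l h)
  · rw [elt_out P l h]
    simp

theorem wl_elt (hE : E.Fact) (hA : ∀ l : ℕ × Bool, l.1 < P.1 → elt P [l] ∈ E.S.A) (u : Word) :
    E.S.wl (elt P u) ≤ u.length := by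
  induction u with
  | nil => simp
  | cons l u ih =>
    rw [elt_cons]
    have h1 := RH.wl_mul hE.good (elt P [l]) (elt P u)
    have h2 := wl_letter hA l
    simp only [List.length_cons]
    omega

theorem ev_elt (hE : E.Fact) (hA : ∀ l : ℕ × Bool, l.1 < P.1 → elt P [l] ∈ E.S.A) (u : Word)
    (hu : u.length ≤ E.N) : E.mach.Ev (fun l => some (elt P [l])) u (some (elt P u)) := by
  induction u with
  | nil =>
    rw [elt_nil]
    exact Pre.Ev.nil
  | cons l u ih =>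
    have h1 := ih (by simp only [List.length_cons] at hu; omega)
    have e : E.mach.mul (some (elt P [l])) (some (elt P u)) = some (elt P (l :: u)) := by
      rw [elt_cons P l u]
      rfl
    have h2 : E.mach.mul (some (elt P [l])) (some (elt P u)) ∈ E.mach.inS := by
      rw [e]
      exact ⟨_, rfl, (wl_elt hE hA _).trans hu⟩
    have h3 := Pre.Ev.cons (p := E.mach) (gc := fun l => some (elt P [l])) (l := l) h1 h2
    have h4 : E.mach.mul ((fun l => some (elt P [l])) l) (some (elt P u)) =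
        some (elt P (l :: u)) := e
    rw [h4] at h3
    exact h3

end

/-- a valid family of positive rank has a letter which is not short -/
theorem exists_long {ι G : Type} [Finite ι] [Group G] {E : Dat ι G} (hE : E.Fact) (f : Fam ι G)
    {r : ℕ} (hr : 0 < r) : ∃ v : List ℤ, v.length = r ∧ ¬ E.short (f, v) := by
  by_contra hcon
  push Not at hcon
  have hfin := zone_fin hE
  have hinj : Function.Injective (fun n : ℕ => ((f, List.replicate r (n : ℤ)) : Lt (Fam ι G))) := by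
    intro a b hab
    simp only [Prod.mk.injEq, true_and] at hab
    have h1 := List.replicate_inj.1 hab
    rcases h1.2 with h | h
    · omega
    · exact_mod_cast h
  have hsub : Set.range (fun n : ℕ => ((f, List.replicate r (n : ℤ)) : Lt (Fam ι G))) ⊆
      {l | E.short l} := by
    rintro _ ⟨n, rfl⟩
    exact hcon _ (by simp)
  exact Set.infinite_range_of_injective hinj (hfin.subset hsub)

end SemEAux

open SemEAux

theorem exists_WN {ι : Type} [Finite ι] {P : Pres} {E : Dat ι (Grp P)} (hE : E.Fact)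
    {Fw Y : List Word} {w : Word}
    (hA : ∀ l : ℕ × Bool, l.1 < P.1 → elt P [l] ∈ E.S.A) (hH : E.H = sg P Y)
    (hP : E.S.P E.i0 = sg P Fw) (hw0 : E.w0 = elt P (winv w))
    (hN1 : ∀ r ∈ P.2, r.length ≤ E.N) (hN2 : ∀ r ∈ Y, r.length ≤ E.N)
    (hN3 : ∀ r ∈ Fw, r.length ≤ E.N) (hN4 : w.length ≤ E.N) (hmem : ¬ Mem P Fw Y w) :
    ∃ (gc : ℕ × Bool → Option (Grp P)) (J0 : Set (Fam ι (Grp P))) (base xw : Lt (Fam ι (Grp P))),
      WN E.mach P Fw Y w gc J0 base xw := by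
  classical
  obtain ⟨y0, hy0, h0, hh0, p0, hp0, e0⟩ := hE.fl2 E.i0 1 (RH.flat_P (E.S.P E.i0).one_mem)
  obtain ⟨t0, v0, ht0, hv0, hc0⟩ := (E.cF E.i0 y0).surj p0 hp0
  have hNK := hE.NK
  have hrk : ∀ t, t < (E.cF E.i0 y0).m → E.mach.rk (.flat E.i0 y0 t) = (E.cF E.i0 y0).r := by
    intro t ht
    change (if (E.i0, y0) ∈ E.FL ∧ t < (E.cF E.i0 y0).m then (E.cF E.i0 y0).r else 0) = _
    rw [if_pos ⟨hy0, ht⟩]
  -- the point of the base letter
  have hbase : y0 * (E.cF E.i0 y0).c t0 v0 ∈ E.H := by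
    have hcm := (E.cF E.i0 y0).mem t0 v0 ht0 hv0
    have e : (y0 * (E.cF E.i0 y0).c t0 v0)⁻¹ =
        h0 * (y0 * (((E.cF E.i0 y0).c t0 v0)⁻¹ * p0) * y0⁻¹) := by
      rw [hE.good.comm E.i0 _ ((E.S.P E.i0).inv_mem hcm) _ hp0]
      have : h0 * (y0 * (p0 * ((E.cF E.i0 y0).c t0 v0)⁻¹) * y0⁻¹) =
          (h0 * y0 * p0) * (((E.cF E.i0 y0).c t0 v0)⁻¹ * y0⁻¹) := by group
      rw [this, ← e0]
      group
    rw [← E.H.inv_mem_iff, e]
    exact E.H.mul_mem hh0 (mem_Lam.1 hc0).2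
  have hRb : E.isR (.flat E.i0 y0 t0, v0) := ⟨hy0, ht0, hv0⟩
  have hRx : E.isR ((.xw, []) : Lt (Fam ι (Grp P))) := rfl
  refine ⟨fun l => some (elt P [l]), (fun t => Fam.flat E.i0 y0 t) '' {t | t < (E.cF E.i0 y0).m},
    (.flat E.i0 y0 t0, v0), (.xw, []), ?_⟩
  constructor
  · -- gc_S
    intro l hl
    refine ⟨⟨elt P [l], rfl, (wl_letter hA l).trans hE.N1⟩, mach_total hE (wl_letter hA l), ?_⟩
    change some (elt P [(l.1, !l.2)]) = some ((elt P [l])⁻¹)
    rw [elt_flip]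
  · -- gc_out
    intro l hl
    change some (elt P [l]) = some 1
    rw [elt_out P l hl]
  · -- rel
    intro r hr
    have h1 := ev_elt hE hA r (hN1 r hr)
    rw [elt_rel P hr] at h1
    exact h1
  · -- y
    intro y hy
    refine ⟨some (elt P y), ev_elt hE hA y (hN2 y hy), ?_⟩
    refine (nd_iff_sem hE _ _ _ _).2 (Or.inr ⟨rfl, _, _, elt P y, rfl, rfl, hRb, hRb, rfl, ?_, ?_⟩)
    · have := wl_elt hE hA y
      have := hN2 y hy
      omega
    · refine E.H.mul_mem (E.H.mul_mem hbase ?_) (E.H.inv_mem hbase)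
      rw [hH]
      exact Subgroup.subset_closure ⟨y, hy, rfl⟩
  · -- fin_J0
    exact (Set.finite_lt_nat _).image _
  · -- fw
    intro v hv u hu
    have hul : u.length ≤ E.N := by
      rcases hu with rfl | rfl
      · exact hN3 _ hv
      · rw [winv_length]
        exact hN3 _ hv
    have huP : elt P u ∈ E.S.P E.i0 := by
      have hvP : elt P v ∈ E.S.P E.i0 := by
        rw [hP]
        exact Subgroup.subset_closure ⟨v, hv, rfl⟩
      rcases hu with rfl | rfl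
      · exact hvP
      · rw [elt_winv]
        exact (E.S.P E.i0).inv_mem hvP
    refine ⟨some (elt P u), ev_elt hE hA u hul, ?_⟩
    rintro _ ⟨t, ht, rfl⟩
    obtain ⟨t', w', ht', hw', hall⟩ := (E.cF E.i0 y0).tr t ht (elt P u) huP
    refine ⟨.flat E.i0 y0 t', ⟨t', ht', rfl⟩, w', ?_⟩
    refine Or.inr ⟨E.i0, y0, t, t', elt P u, w', rfl, hy0, huP, ?_, ht, ht', hw', hall⟩
    have := wl_elt hE hA u
    omega
  · -- J_run
    rintro _ ⟨t, ht, rfl⟩
    refine ⟨?_, ?_⟩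
    · rcases Nat.eq_zero_or_pos (E.cF E.i0 y0).r with hr | hr
      · right
        refine ⟨by rw [hrk t ht, hr], Or.inr ⟨⟨hy0, ht, by rw [hr]; rfl⟩, ?_⟩⟩
        exact hE.n0_fin E.i0 y0 t hy0 ht hr
      · left
        obtain ⟨v, hv, hs⟩ := exists_long hE (.flat E.i0 y0 t) hr
        exact ⟨E.stt (E.pt (.flat E.i0 y0 t, v)), v, Or.inl ⟨rfl, ⟨hy0, ht, hv⟩, rfl⟩, hs⟩
    · rintro ⟨f, v⟩ hl hf
      simp only at hf
      subst hf
      have hl' : E.short (.flat E.i0 y0 t, v) := hl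
      have hR : E.isR (.flat E.i0 y0 t, v) := by
        rcases hl' with ⟨h, _⟩ | ⟨h, _⟩
        · exact absurd h (by simp [isN])
        · exact h
      exact ⟨E.stt (E.pt (.flat E.i0 y0 t, v)), Or.inl ⟨rfl, hR, rfl⟩, hl'⟩
  · -- base_J
    exact ⟨⟨t0, ht0, rfl⟩, ok_of_isR hRb⟩
  · -- xw_run
    refine ⟨E.stt (E.pt ((.xw, []) : Lt (Fam ι (Grp P)))), Or.inl ⟨rfl, hRx, rfl⟩, Or.inr ⟨hRx, 1,
      E.H.one_mem, ?_⟩⟩
    change E.S.wl (1⁻¹ * E.w0) ≤ E.n0
    rw [inv_one, one_mul]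
    exact hE.n0_w
  · -- w_xw
    have hlw : (winv w).length ≤ E.N := by rw [winv_length]; exact hN4
    refine ⟨some (elt P (winv w)), ev_elt hE hA _ hlw, ?_⟩
    refine (nd_iff_sem hE _ _ _ _).2 (Or.inr ⟨rfl, _, _, elt P (winv w), rfl, rfl, hRb, hRx, rfl,
      ?_, ?_⟩)
    · have := wl_elt hE hA (winv w)
      omega
    · change y0 * (E.cF E.i0 y0).c t0 v0 * elt P (winv w) * (E.w0)⁻¹ ∈ E.H
      rw [hw0, mul_inv_cancel_right]
      exact hbase
  · -- sep
    rintro ⟨f, v⟩ hf hok hnd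
    obtain ⟨t, ht, rfl⟩ := hf
    rcases (nd_iff_sem hE _ _ _ _).1 hnd with ⟨g, g', h1, _⟩ | ⟨_, r, r', g', h1, h2, h3, h4, h5, h6,
      h7⟩
    · cases h1
    · cases h1
      cases h2
      have h5' : some (1 : Grp P) = some g' := h5
      cases h5'
      have h8 : y0 * (E.cF E.i0 y0).c t v * 1 * (E.w0)⁻¹ ∈ E.H := h7
      have hcm := (E.cF E.i0 y0).mem t v h3.2.1 h3.2.2
      apply hmem
      refine ⟨((E.cF E.i0 y0).c t v)⁻¹ * p0, ?_, h0 * (y0 * (E.cF E.i0 y0).c t v * 1 * (E.w0)⁻¹),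
        ?_, ?_⟩
      · rw [← hP]
        exact (E.S.P E.i0).mul_mem ((E.S.P E.i0).inv_mem hcm) hp0
      · rw [← hH]
        exact E.H.mul_mem hh0 h8
      · have e1 : elt P w = (E.w0)⁻¹ := by rw [hw0, elt_winv, inv_inv]
        have e2 : h0 * y0 = p0⁻¹ := by
          have : h0 * y0 = (h0 * y0 * p0) * p0⁻¹ := by group
          rw [this, ← e0, one_mul]
        have e3 : ((E.cF E.i0 y0).c t v)⁻¹ * p0 * (h0 * (y0 * (E.cF E.i0 y0).c t v * 1 * (E.w0)⁻¹)) =
            ((E.cF E.i0 y0).c t v)⁻¹ * p0 * (h0 * y0) * (E.cF E.i0 y0).c t v * (E.w0)⁻¹ := by group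
        rw [e3, e2, e1]
        group

end Dat
end Pool.Agent.Lib.P77fd2d
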